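import Mathlib

set_option autoImplicit false

namespace Pool.Agent.V11266.Renorm

open Metric Set

/-- a symmetric closed convex bounded body with `0` in its interior -/
structure Body (E : Type) [NormedAddCommGroup E] [NormedSpace ℝ E] where
  carrier : Set E
  convex : Convex ℝ carrier
  closed : IsClosed carrier
  symm : ∀ v ∈ carrier, -v ∈ carrier
  r : ℝ
  rpos : 0 < r
  ball_sub : closedBall 0 r ⊆ carrier
  R : ℝ
  Rpos : 0 < R
  sub_ball : carrier ⊆ closedBall 0 R

variable {E : Type} [NormedAddCommGroup E] [NormedSpace ℝ E]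

theorem Body.nhds (B : Body E) : B.carrier ∈ nhds (0 : E) :=
  Filter.mem_of_superset (closedBall_mem_nhds 0 B.rpos) B.ball_sub

theorem Body.zero_mem (B : Body E) : (0 : E) ∈ B.carrier := mem_of_mem_nhds B.nhds

theorem Body.absorbent (B : Body E) : Absorbent ℝ B.carrier := absorbent_nhds_zero B.nhds

theorem Body.balanced (B : Body E) : Balanced ℝ B.carrier := by
  rintro a ha _ ⟨x, hx, rfl⟩
  rw [Real.norm_eq_abs] at ha
  have key : ∀ c : ℝ, 0 ≤ c → c ≤ 1 → ∀ y ∈ B.carrier, c • y ∈ B.carrier := by
    intro c h0 h1 y hy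
    have := B.convex hy B.zero_mem h0 (show (0:ℝ) ≤ 1 - c by linarith) (by ring)
    simpa using this
  rcases le_total 0 a with h | h
  · exact key a h (by rwa [abs_of_nonneg h] at ha) x hx
  · have h2 := key (-a) (by linarith) (by rwa [abs_of_nonpos h] at ha) (-x) (B.symm x hx)
    simpa using h2

/-- the space `E` with the norm whose unit ball is `B` -/
def RN (_B : Body E) : Type := E

noncomputable section

instance (B : Body E) : AddCommGroup (RN B) := inferInstanceAs (AddCommGroup E)
instance (B : Body E) : Module ℝ (RN B) := inferInstanceAs (Module ℝ E)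
instance (B : Body E) : Norm (RN B) := ⟨fun v => gauge B.carrier (show E from v)⟩

theorem norm_def (B : Body E) (v : RN B) : ‖v‖ = gauge B.carrier (show E from v) := rfl

theorem core (B : Body E) : NormedSpace.Core ℝ (RN B) where
  norm_nonneg v := gauge_nonneg _
  norm_smul c v := by
    have := gauge_smul B.balanced c (show E from v)
    exact this
  norm_triangle v w := gauge_add_le B.convex B.absorbent _ _
  norm_eq_zero_iff v := by
    have hb : Bornology.IsVonNBounded ℝ B.carrier :=
      (NormedSpace.isVonNBounded_closedBall ℝ E B.R).subset B.sub_ball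
    exact gauge_eq_zero B.absorbent hb

instance (B : Body E) : NormedAddCommGroup (RN B) := NormedAddCommGroup.ofCore (core B)
instance (B : Body E) : NormedSpace ℝ (RN B) := NormedSpace.ofCore (core B)

def toE (B : Body E) : RN B ≃ₗ[ℝ] E := LinearEquiv.refl ℝ E

theorem norm_toE_le (B : Body E) (v : RN B) : ‖toE B v‖ ≤ B.R * ‖v‖ := by
  have h := le_gauge_of_subset_closedBall B.absorbent B.Rpos.le B.sub_ball (x := toE B v)
  rw [div_le_iff₀ B.Rpos] at h
  rw [mul_comm]; exact h

theorem norm_symm_le (B : Body E) (v : E) : ‖(toE B).symm v‖ ≤ B.r⁻¹ * ‖v‖ := by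
  have h : gauge B.carrier v ≤ gauge (closedBall (0:E) B.r) v :=
    gauge_mono (absorbent_nhds_zero (closedBall_mem_nhds 0 B.rpos)) B.ball_sub v
  rw [gauge_closedBall B.rpos.le, div_eq_inv_mul] at h
  exact h

def eqv (B : Body E) : RN B ≃L[ℝ] E :=
  (toE B).toContinuousLinearEquivOfBounds B.R B.r⁻¹ (norm_toE_le B) (norm_symm_le B)

theorem norm_le_one_iff (B : Body E) (v : RN B) : ‖v‖ ≤ 1 ↔ eqv B v ∈ B.carrier := by
  have h := gauge_le_one_iff_mem_closure B.convex B.nhds (x := (show E from v))
  rw [B.closed.closure_eq] at h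
  exact h

instance [CompleteSpace E] (B : Body E) : CompleteSpace (RN B) :=
  (completeSpace_congr (e := (eqv B).toEquiv) (eqv B).isUniformEmbedding).2 inferInstance

theorem exists_renorm [CompleteSpace E] (B : Body E) :
    ∃ (X : Type) (_ : NormedAddCommGroup X) (_ : NormedSpace ℝ X) (_ : CompleteSpace X)
      (e : X ≃L[ℝ] E), ∀ v, ‖v‖ ≤ 1 ↔ e v ∈ B.carrier :=
  ⟨RN B, inferInstance, inferInstance, inferInstance, eqv B, norm_le_one_iff B⟩

/-- body generated by a symmetric bounded set containing a ball -/
def genBody (A : Set E) (hsymm : ∀ v ∈ A, -v ∈ A) (r : ℝ) (hr : 0 < r)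
    (hb : closedBall 0 r ⊆ A) (R : ℝ) (hR : 0 < R) (hA : A ⊆ closedBall 0 R) : Body E where
  carrier := closure (convexHull ℝ A)
  convex := (convex_convexHull ℝ A).closure
  closed := isClosed_closure
  symm := by
    have h1 : convexHull ℝ A ⊆ {v | -v ∈ closure (convexHull ℝ A)} := by
      apply convexHull_min
      · intro v hv
        exact subset_closure (subset_convexHull ℝ A (hsymm v hv))
      · intro x hx y hy a b ha hb hab
        have := (convex_convexHull ℝ A).closure hx hy ha hb hab
        simp only [mem_ofPred_eq] at *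
        convert this using 1
        simp [add_comm]
    have h2 : IsClosed {v : E | -v ∈ closure (convexHull ℝ A)} :=
      isClosed_closure.preimage continuous_neg
    intro v hv
    exact closure_minimal h1 h2 hv
  r := r
  rpos := hr
  ball_sub := hb.trans ((subset_convexHull ℝ A).trans subset_closure)
  R := R
  Rpos := hR
  sub_ball := closure_minimal (convexHull_min hA (convex_closedBall 0 R)) isClosed_closedBall

/-- a continuous linear functional bounded on generators is bounded on the body -/
theorem le_of_gen {A : Set E} {φ : E →L[ℝ] ℝ} {α : ℝ} (h : ∀ v ∈ A, φ v ≤ α) :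
    ∀ v ∈ closure (convexHull ℝ A), φ v ≤ α := by
  have h1 : convexHull ℝ A ⊆ {v | φ v ≤ α} := by
    apply convexHull_min h
    exact convex_halfSpace_le φ.toLinearMap.isLinear α
  exact closure_minimal h1 (isClosed_le φ.continuous continuous_const)

end

end Pool.Agent.V11266.Renorm
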