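import Mathlib
import Pool.Agent.V11266.Renorm

set_option autoImplicit false

namespace Pool.Agent.V11266.DeltaE

open Metric Set Pool.Agent.V11266.Renorm
open scoped ENNReal

noncomputable section

abbrev Idx : Type := (Σ N : ℕ, Fin (N + 1)) × Bool
abbrev L1 : Type := lp (fun _ : ℕ => ℝ) 1
abbrev L2 : Type := lp (fun _ : Idx => ℝ) 2
abbrev E : Type := ℝ × (L1 × L2)

/-- sign -/
def sg (b : Bool) : ℝ := if b then 1 else -1

theorem sg_abs (b : Bool) : |sg b| = 1 := by cases b <;> simp [sg]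
theorem sg_mul (b : Bool) : sg b * sg b = 1 := by cases b <;> simp [sg]
theorem sg_not (b : Bool) : sg (!b) = - sg b := by cases b <;> simp [sg]

def x0 : E := (1, (0, 0))
def y (k : Idx) : E := (1, (lp.single 1 k.1.1 (sg k.2), lp.single 2 k (-2 : ℝ)))

def X0 : E →L[ℝ] ℝ := ContinuousLinearMap.fst ℝ ℝ (L1 × L2)
def H : E →L[ℝ] ℝ := (lp.tsumCLM ℝ ℕ ℝ).comp
  ((ContinuousLinearMap.fst ℝ L1 L2).comp (ContinuousLinearMap.snd ℝ ℝ (L1 × L2)))
def c1 (N : ℕ) : E →L[ℝ] ℝ := (lp.evalCLM ℝ (fun _ : ℕ => ℝ) 1 N).comp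
  ((ContinuousLinearMap.fst ℝ L1 L2).comp (ContinuousLinearMap.snd ℝ ℝ (L1 × L2)))
def c2 (k : Idx) : E →L[ℝ] ℝ := (lp.evalCLM ℝ (fun _ : Idx => ℝ) 2 k).comp
  ((ContinuousLinearMap.snd ℝ L1 L2).comp (ContinuousLinearMap.snd ℝ ℝ (L1 × L2)))

theorem X0_apply (v : E) : X0 v = v.1 := rfl
theorem c1_apply (N : ℕ) (v : E) : c1 N v = v.2.1 N := rfl
theorem c2_apply (k : Idx) (v : E) : c2 k v = v.2.2 k := rfl
theorem H_apply (v : E) : H v = ∑' n, v.2.1 n := rfl

theorem X0_x0 : X0 x0 = 1 := rfl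
theorem X0_y (k : Idx) : X0 (y k) = 1 := rfl
theorem c1_x0 (N : ℕ) : c1 N x0 = 0 := rfl
theorem c2_x0 (k : Idx) : c2 k x0 = 0 := rfl
theorem H_x0 : H x0 = 0 := by rw [H_apply]; simp [x0]
theorem c1_y (N : ℕ) (k : Idx) : c1 N (y k) = if k.1.1 = N then sg k.2 else 0 := by
  rw [c1_apply]
  simp only [y, lp.single_apply, Pi.single_apply]
  by_cases h : k.1.1 = N
  · simp [h]
  · rw [if_neg h, if_neg (fun h' => h h'.symm)]
theorem c2_y (j k : Idx) : c2 j (y k) = if k = j then -2 else 0 := by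
  rw [c2_apply]
  simp only [y, lp.single_apply, Pi.single_apply]
  by_cases h : k = j
  · simp [h]
  · rw [if_neg h, if_neg (fun h' => h h'.symm)]
theorem H_y (k : Idx) : H (y k) = sg k.2 := by
  rw [H_apply]
  simp only [y, lp.coeFn_single]
  rw [tsum_eq_single k.1.1]
  · simp
  · intro b hb; simp [hb]

theorem abs_X0 (v : E) : |X0 v| ≤ ‖v‖ := norm_fst_le v
theorem abs_c1 (N : ℕ) (v : E) : |c1 N v| ≤ ‖v‖ := by
  have h1 := lp.norm_apply_le_norm (E := fun _ : ℕ => ℝ) (p := 1) one_ne_zero v.2.1 N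
  exact h1.trans ((norm_fst_le v.2).trans (norm_snd_le v))
theorem abs_c2 (k : Idx) (v : E) : |c2 k v| ≤ ‖v‖ := by
  have h1 := lp.norm_apply_le_norm (E := fun _ : Idx => ℝ) (p := 2) two_ne_zero v.2.2 k
  exact h1.trans ((norm_snd_le v.2).trans (norm_snd_le v))
theorem abs_H (v : E) : |H v| ≤ ‖v‖ := by
  have h1 := lp.norm_tsum_le (E := ℝ) v.2.1
  exact h1.trans ((norm_fst_le v.2).trans (norm_snd_le v))

theorem norm_x0 : ‖x0‖ = 1 := by
  simp [x0, Prod.norm_def]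

theorem norm_y_le (k : Idx) : ‖y k‖ ≤ 2 := by
  have h1 : ‖(lp.single 1 k.1.1 (sg k.2) : L1)‖ = 1 := by
    rw [lp.norm_single (E := fun _ : ℕ => ℝ) one_pos, Real.norm_eq_abs, sg_abs]
  have h2 : ‖(lp.single 2 k (-2 : ℝ) : L2)‖ = 2 := by
    rw [lp.norm_single (E := fun _ : Idx => ℝ) two_pos]; simp
  simp only [y, Prod.norm_def, h1, h2]
  norm_num

/-- generators -/
def A : Set E := {v | v = x0 ∨ v = -x0 ∨ (∃ k, v = y k) ∨ (∃ k, v = - y k) ∨ ‖v‖ ≤ 1/2}

theorem A_symm : ∀ v ∈ A, -v ∈ A := by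
  rintro v (h | h | ⟨k, h⟩ | ⟨k, h⟩ | h)
  · right; left; rw [h]
  · left; rw [h, neg_neg]
  · right; right; right; left; exact ⟨k, by rw [h]⟩
  · right; right; left; exact ⟨k, by rw [h, neg_neg]⟩
  · right; right; right; right; rwa [norm_neg]

def B : Body E := genBody A A_symm (1/2) (by norm_num)
  (fun v hv => by
    right; right; right; right; simpa using hv) 2 (by norm_num)
  (by
    rintro v (h | h | ⟨k, h⟩ | ⟨k, h⟩ | h)
    · simp [h, norm_x0]
    · simp [h, norm_x0]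
    · simp [h, norm_y_le]
    · simp [h, norm_y_le]
    · simp; linarith)

theorem mem_B {v : E} (h : v ∈ A) : v ∈ B.carrier := subset_closure (subset_convexHull ℝ A h)

/-- checking a functional on generators -/
theorem gen {φ : E →L[ℝ] ℝ} {α : ℝ} (h1 : |φ x0| ≤ α) (h2 : ∀ k, φ (y k) ≤ α)
    (h2' : ∀ k, -α ≤ φ (y k)) (h3 : ∀ v, ‖v‖ ≤ 1/2 → φ v ≤ α) :
    ∀ v ∈ B.carrier, φ v ≤ α := by
  apply le_of_gen
  rw [abs_le] at h1
  rintro v (h | h | ⟨k, h⟩ | ⟨k, h⟩ | h)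
  · rw [h]; exact h1.2
  · rw [h, map_neg]; linarith [h1.1]
  · rw [h]; exact h2 k
  · rw [h, map_neg]; linarith [h2' k]
  · exact h3 v h

theorem X0_le : ∀ v ∈ B.carrier, X0 v ≤ 1 := by
  apply gen
  · rw [X0_x0]; norm_num
  · intro k; rw [X0_y]
  · intro k; rw [X0_y]; norm_num
  · intro v hv; linarith [abs_X0 v, le_abs_self (X0 v)]

def g (k : Idx) : E →L[ℝ] ℝ := X0 + c2 k

theorem g_le (k : Idx) : ∀ v ∈ B.carrier, g k v ≤ 1 := by
  apply gen
  · simp [g, X0_x0, c2_x0]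
  · intro j; simp only [g, add_apply, X0_y, c2_y]; split_ifs <;> norm_num
  · intro j; simp only [g, add_apply, X0_y, c2_y]; split_ifs <;> norm_num
  · intro v hv
    simp only [g, add_apply]
    linarith [abs_X0 v, le_abs_self (X0 v), abs_c2 k v, le_abs_self (c2 k v)]

def ψ (N : ℕ) (s : Bool) : E →L[ℝ] ℝ :=
  sg s • c1 N + (1/2 : ℝ) • (∑ i : Fin (N + 1), c2 (⟨N, i⟩, s)) + ((N : ℝ) + 2) • X0

theorem ψ_apply (N : ℕ) (s : Bool) (v : E) :
    ψ N s v = sg s * c1 N v + 1/2 * (∑ i : Fin (N + 1), c2 (⟨N, i⟩, s) v) + (N + 2) * X0 v := by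
  simp [ψ]

theorem sum_c2_y (N : ℕ) (s : Bool) (k : Idx) :
    ∑ i : Fin (N + 1), c2 (⟨N, i⟩, s) (y k) = if k.1.1 = N ∧ k.2 = s then -2 else 0 := by
  simp only [c2_y]
  obtain ⟨⟨M, j⟩, t⟩ := k
  by_cases hM : M = N
  · subst hM
    by_cases ht : t = s
    · subst ht
      simp
    · simp [ht]
  · have : ∀ i : Fin (N + 1), ((⟨⟨M, j⟩, t⟩ : Idx) = (⟨N, i⟩, s)) ↔ False := by
      intro i
      simp only [Prod.mk.injEq, Sigma.mk.injEq, iff_false]
      intro h
      exact hM h.1.1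
    simp [this, hM]

theorem ψ_le (N : ℕ) (s : Bool) : ∀ v ∈ B.carrier, ψ N s v ≤ N + 2 := by
  have hN : (0:ℝ) ≤ N := Nat.cast_nonneg N
  apply gen
  · rw [ψ_apply]
    simp only [c1_x0, c2_x0, X0_x0]
    simp
    rw [abs_of_nonneg (by linarith)]
  · intro k
    rw [ψ_apply, sum_c2_y, X0_y, c1_y]
    obtain ⟨⟨M, j⟩, t⟩ := k
    by_cases hM : M = N
    · simp only [hM]
      cases t <;> cases s <;> simp [sg] 
    · simp [hM]
  · intro k
    rw [ψ_apply, sum_c2_y, X0_y, c1_y]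
    obtain ⟨⟨M, j⟩, t⟩ := k
    by_cases hM : M = N
    · simp only [hM]
      cases t <;> cases s <;> simp [sg] <;> linarith
    · simp [hM]; linarith
  · intro v hv
    rw [ψ_apply]
    have h1 : sg s * c1 N v ≤ 1/2 := by
      have := abs_c1 N v
      calc sg s * c1 N v ≤ |sg s * c1 N v| := le_abs_self _
        _ = |c1 N v| := by rw [abs_mul, sg_abs, one_mul]
        _ ≤ 1/2 := this.trans hv
    have h2 : ∑ i : Fin (N + 1), c2 (⟨N, i⟩, s) v ≤ (N + 1) * (1/2) := by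
      calc ∑ i : Fin (N + 1), c2 (⟨N, i⟩, s) v ≤ ∑ i : Fin (N + 1), (1/2 : ℝ) := by
            apply Finset.sum_le_sum
            intro i _
            exact (le_abs_self _).trans ((abs_c2 _ v).trans hv)
        _ = (N + 1) * (1/2) := by simp
    have h3 : X0 v ≤ 1/2 := (le_abs_self _).trans ((abs_X0 v).trans hv)
    nlinarith

/-- extremality -/
theorem ext_core {p : E} (hp : p ∈ B.carrier) (h0 : X0 p = 1) (h2 : ∀ k, c2 k p = 0) :
    p = x0 := by
  have h1 : ∀ N, c1 N p = 0 := by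
    intro N
    have ha := ψ_le N true p hp
    have hb := ψ_le N false p hp
    rw [ψ_apply] at ha hb
    simp only [h2, h0, sg] at ha hb
    simp at ha hb
    exact le_antisymm ha hb
  have e1 : p.2.1 = 0 := by
    ext N; exact h1 N
  have e2 : p.2.2 = 0 := by
    ext k; exact h2 k
  have e0 : p.1 = 1 := h0
  ext1
  · exact e0
  · ext1
    · exact e1
    · exact e2

def u (s : Bool) : E →L[ℝ] ℝ := X0 + (sg s * (1/4)) • H

theorem u_apply (s : Bool) (v : E) : u s v = X0 v + sg s * (1/4) * H v := by simp [u]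
theorem u_x0 (s : Bool) : u s x0 = 1 := by rw [u_apply, X0_x0, H_x0]; ring
theorem u_y_same (s : Bool) (k : Idx) (h : k.2 = s) : u s (y k) = 5/4 := by
  rw [u_apply, X0_y, H_y, h]
  linear_combination (1/4) * sg_mul s
theorem u_y_ne (s : Bool) (k : Idx) (h : k.2 ≠ s) : u s (y k) = 3/4 := by
  have : k.2 = !s := by
    cases hk : k.2 <;> cases s <;> simp_all
  rw [u_apply, X0_y, H_y, this, sg_not]
  linear_combination (-1/4) * sg_mul s

theorem abs_u (s : Bool) (v : E) : |u s v| ≤ 5/4 * ‖v‖ := by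
  rw [u_apply]
  have h1 := abs_X0 v
  have h2 := abs_H v
  calc |X0 v + sg s * (1/4) * H v| ≤ |X0 v| + |sg s * (1/4) * H v| := abs_add_le _ _
    _ = |X0 v| + 1/4 * |H v| := by rw [abs_mul, abs_mul, sg_abs]; norm_num
    _ ≤ 5/4 * ‖v‖ := by linarith

/-- key bound -/
theorem key {G : E →L[ℝ] ℝ} {s : Bool} (hG : ∀ v ∈ B.carrier, G v ≤ 1)
    (hx : 0 ≤ G x0) (hlow : ∀ k, k.2 = s → -(9/10) ≤ G (y k)) :
    ∀ v ∈ B.carrier, u s v ≤ 3/4 + 5 * (G v + 1) := by
  have hG' : ∀ v ∈ B.carrier, -1 ≤ G v := by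
    intro v hv
    have := hG _ (B.symm v hv)
    rw [map_neg] at this
    linarith
  have hx1 : G x0 ≤ 1 := hG _ (mem_B (Or.inl rfl))
  have hy1 : ∀ k, G (y k) ≤ 1 := fun k => hG _ (mem_B (Or.inr (Or.inr (Or.inl ⟨k, rfl⟩))))
  have hy2 : ∀ k, -1 ≤ G (y k) := fun k => hG' _ (mem_B (Or.inr (Or.inr (Or.inl ⟨k, rfl⟩))))
  have h : ∀ v ∈ B.carrier, (u s - (5:ℝ) • G) v ≤ 23/4 := by
    apply gen
    · simp only [sub_apply, smul_apply, u_x0, smul_eq_mul]
      rw [abs_le]; constructor <;> linarith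
    · intro k
      simp only [sub_apply, smul_apply, smul_eq_mul]
      by_cases hk : k.2 = s
      · rw [u_y_same s k hk]; linarith [hlow k hk]
      · rw [u_y_ne s k hk]; linarith [hy2 k]
    · intro k
      simp only [sub_apply, smul_apply, smul_eq_mul]
      by_cases hk : k.2 = s
      · rw [u_y_same s k hk]; linarith [hy1 k]
      · rw [u_y_ne s k hk]; linarith [hy1 k]
    · intro v hv
      simp only [sub_apply, smul_apply, smul_eq_mul]
      have h1 := abs_u s v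
      have h2 := le_abs_self (u s v)
      have h3 := hG' v (mem_B (Or.inr (Or.inr (Or.inr (Or.inr hv)))))
      linarith
  intro v hv
  have := h v hv
  simp only [sub_apply, smul_apply, smul_eq_mul] at this
  linarith

/-- two different low indices are impossible -/
theorem norm_two (j k : Idx) (h : j ≠ k) :
    ‖(2:ℝ) • x0 - (1/2 : ℝ) • (y j + y k)‖ ≤ Real.sqrt 2 := by
  have h1 : ((2:ℝ) • x0 - (1/2 : ℝ) • (y j + y k)) =
      ((1:ℝ), (-((1/2:ℝ) • (lp.single 1 j.1.1 (sg j.2) + lp.single 1 k.1.1 (sg k.2)) : L1),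
        (lp.single 2 j (1:ℝ) + lp.single 2 k (1:ℝ) : L2))) := by
    ext1
    · simp [x0, y]; norm_num
    · ext1
      · simp [x0, y]
      · simp only [x0, y, Prod.snd_sub, Prod.smul_snd, Prod.snd_add, smul_zero, zero_sub]
        rw [smul_add, ← lp.single_smul, ← lp.single_smul, neg_add, ← lp.single_neg, ← lp.single_neg]
        norm_num
  have s2 : (1:ℝ) ≤ Real.sqrt 2 := by
    rw [show (1:ℝ) = Real.sqrt 1 by simp]
    exact Real.sqrt_le_sqrt (by norm_num)
  rw [h1, Prod.norm_def, Prod.norm_def]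
  refine max_le (by simpa using s2) (max_le ?_ ?_)
  · dsimp only
    rw [norm_neg, norm_smul]
    have e1 : ‖(lp.single 1 j.1.1 (sg j.2) : L1)‖ = 1 := by
      rw [lp.norm_single (E := fun _ : ℕ => ℝ) one_pos, Real.norm_eq_abs, sg_abs]
    have e2 : ‖(lp.single 1 k.1.1 (sg k.2) : L1)‖ = 1 := by
      rw [lp.norm_single (E := fun _ : ℕ => ℝ) one_pos, Real.norm_eq_abs, sg_abs]
    have := norm_add_le (lp.single 1 j.1.1 (sg j.2) : L1) (lp.single 1 k.1.1 (sg k.2))
    rw [e1, e2] at this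
    have e3 : ‖(1/2 : ℝ)‖ = 1/2 := by norm_num
    rw [e3]
    linarith
  · dsimp only
    have hh := lp.norm_sum_single (E := fun _ : Idx => ℝ) (p := 2) (by norm_num)
      (fun _ => (1:ℝ)) ({j, k} : Finset Idx)
    rw [Finset.sum_pair h, Finset.sum_pair h] at hh
    norm_num at hh
    apply Real.le_sqrt_of_sq_le
    rw [hh]

/-- `E`-norm of the block average minus `x0` -/
def z (N : ℕ) : E := (1 / (2 * ((N:ℝ) + 1))) • ∑ a : Fin (N + 1) × Bool, y (⟨N, a.1⟩, a.2)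

theorem z_sub (N : ℕ) : ‖z N - x0‖ ≤ Real.sqrt (2 / ((N:ℝ) + 1)) := by
  have hN : (0:ℝ) < (N:ℝ) + 1 := by positivity
  have hcard : (Finset.univ : Finset (Fin (N + 1) × Bool)).card = 2 * (N + 1) := by
    simp [Fintype.card_prod]; ring
  have h0 : (z N - x0).1 = 0 := by
    simp only [z, x0, y, Prod.fst_sub, Prod.smul_fst, Prod.fst_sum, Finset.sum_const, hcard]
    simp
    field_simp
    norm_num
  have h1 : (z N - x0).2.1 = 0 := by
    simp only [z, x0, y, Prod.snd_sub, Prod.smul_snd, Prod.snd_sum, Prod.fst_sub, Prod.smul_fst,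
      Prod.fst_sum, sub_zero]
    rw [Fintype.sum_prod_type]
    have : ∀ i : Fin (N+1), ∑ b : Bool, (lp.single 1 N (sg b) : L1) = 0 := by
      intro i
      rw [Fintype.sum_bool, ← lp.single_add]
      simp [sg]
    rw [Finset.sum_congr rfl (fun i _ => this i)]
    simp
  have h2 : (z N - x0).2.2 = ∑ a : Fin (N + 1) × Bool,
      (lp.single 2 ((⟨N, a.1⟩, a.2) : Idx) (-1 / ((N:ℝ) + 1)) : L2) := by
    simp only [z, x0, y, Prod.snd_sub, Prod.smul_snd, Prod.snd_sum, sub_zero, Finset.smul_sum]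
    apply Finset.sum_congr rfl
    intro a _
    rw [← lp.single_smul]
    congr 1
    simp only [smul_eq_mul]
    field_simp
  have h3 : ‖(z N - x0).2.2‖ ^ 2 = 2 / ((N:ℝ) + 1) := by
    rw [h2]
    have hinj : Function.Injective (fun a : Fin (N + 1) × Bool => ((⟨N, a.1⟩, a.2) : Idx)) := by
      rintro ⟨a, b⟩ ⟨c, d⟩ h
      simpa using h
    have hh := lp.norm_sum_single (E := fun _ : Idx => ℝ) (p := 2) (by norm_num)
      (fun _ => (-1 / ((N:ℝ) + 1))) (Finset.univ.map ⟨_, hinj⟩)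
    rw [Finset.sum_map, Finset.sum_map] at hh
    simp only [Function.Embedding.coeFn_mk, ENNReal.toReal_ofNat, Real.rpow_ofNat, Finset.sum_const,
      hcard] at hh
    rw [hh]
    rw [Real.norm_eq_abs, sq_abs]
    simp only [nsmul_eq_mul]
    push_cast
    field_simp
  rw [Prod.norm_def, Prod.norm_def, h0, h1]
  simp only [norm_zero]
  refine max_le (Real.sqrt_nonneg _) (max_le (Real.sqrt_nonneg _) ?_)
  apply Real.le_sqrt_of_sq_le
  rw [h3]

theorem tendsto_z : Filter.Tendsto z Filter.atTop (nhds x0) := by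
  rw [tendsto_iff_norm_sub_tendsto_zero]
  refine squeeze_zero (fun N => norm_nonneg _) z_sub ?_
  have h1 : Filter.Tendsto (fun N : ℕ => 2 / ((N:ℝ) + 1)) Filter.atTop (nhds 0) := by
    have := tendsto_one_div_add_atTop_nhds_zero_nat (𝕜 := ℝ)
    have h := this.const_mul 2
    rw [mul_zero] at h
    exact h.congr (fun N => by ring)
  have h2 := (Real.continuous_sqrt.tendsto 0).comp h1
  rw [Real.sqrt_zero] at h2
  exact h2

end

end Pool.Agent.V11266.DeltaE
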