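import Pool.Agent.V11266.FibF
set_option autoImplicit false

/-!
# Lower bound: soundness of the certificate
-/

namespace Pool.Agent.V11266.FibPPL

open Pool.Agent.H308R2.FibPal

/-! ### packed tables -/

lemma rowAll_sound {p : ℕ → ℕ → Bool} : ∀ (n b R : ℕ), rowAll p n b R = true →
    ∀ j, j < n → p (b + j) ((R >>> (3 * j)) % 8) = true := by
  intro n
  induction n with
  | zero => intro b R _ j hj; omega
  | succ n ih =>
    intro b R h j hj
    simp only [rowAll, Bool.and_eq_true] at h
    rcases Nat.eq_zero_or_pos j with rfl | hj0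
    · simpa using h.1
    · obtain ⟨i, rfl⟩ := Nat.exists_eq_add_of_le' hj0
      have := ih (b + 1) (R >>> 3) h.2 i (by omega)
      rw [← Nat.shiftRight_add, show b + 1 + i = b + (i + 1) by ring,
        show 3 + 3 * i = 3 * (i + 1) by ring] at this
      exact this

lemma matAll_sound {p : ℕ → ℕ → ℕ → Bool} : ∀ (n a M : ℕ), matAll p n a M = true →
    ∀ i j, i < n → j < 100 → p (a + i) j ((M >>> (3 * (100 * i + j))) % 8) = true := by
  intro n
  induction n with
  | zero => intro a M _ i j hi; omega
  | succ n ih =>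
    intro a M h i j hi hj
    simp only [matAll, Bool.and_eq_true] at h
    rcases Nat.eq_zero_or_pos i with rfl | hi0
    · have h1 := rowAll_sound 100 0 _ h.1 j hj
      rw [Nat.zero_add] at h1
      have h2 : ((M % 2 ^ 300) >>> (3 * j)) % 8 = (M >>> (3 * (100 * 0 + j))) % 8 := by
        have e8 : 8 = 2 ^ 3 := by norm_num
        rw [e8]
        apply Nat.eq_of_testBit_eq
        intro k
        rw [Nat.testBit_mod_two_pow, Nat.testBit_mod_two_pow, Nat.testBit_shiftRight,
          Nat.testBit_shiftRight, Nat.testBit_mod_two_pow]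
        by_cases hk : k < 3
        · have : 3 * j + k < 300 := by omega
          simp [hk, this]
        · simp [hk]
      rw [h2] at h1
      simpa using h1
    · obtain ⟨i', rfl⟩ := Nat.exists_eq_add_of_le' hi0
      have := ih (a + 1) (M >>> 300) h.2 i' j (by omega) hj
      rw [← Nat.shiftRight_add, show a + 1 + i' = a + (i' + 1) by ring,
        show 300 + 3 * (100 * i' + j) = 3 * (100 * (i' + 1) + j) by ring] at this
      exact this

lemma chkCell_ok {T r a b : ℕ} (hT : T < 6) (hr : r < 3) (ha : a < 100) (hb : b < 100) :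
    chkCell T r a b (cell T r a b) = true := by
  have h1 := List.all_eq_true.mp chkMats_true T (List.mem_range.mpr hT)
  have h2 := List.all_eq_true.mp h1 r (List.mem_range.mpr hr)
  have h3 := matAll_sound 100 0 _ h2 a b ha hb
  rw [Nat.zero_add] at h3
  exact h3

lemma chkFin_ok {T a b : ℕ} (hT : T < 2) (ha : a < 100) (hb : b < 100)
    (hc : cell T 0 a b ≠ 0) : cell T 0 a b + ou b ≤ ou a + 4 := by
  have h0 := chkFin_true
  rw [Bool.and_eq_true] at h0
  have h1 : chkFin T = true := by
    interval_cases T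
    · exact h0.1
    · exact h0.2
  have h3 := matAll_sound 100 0 _ h1 a b ha hb
  rw [Nat.zero_add] at h3
  simp only [Bool.or_eq_true, beq_iff_eq, Nat.ble_eq] at h3
  rcases h3 with h4 | h4
  · exact absurd h4 hc
  · exact h4

lemma states_ok {r : ℕ} (hr : r < 3) : chkStates r (cntf r) = true ∧ cntf r ≤ 100 ∧
    0 < cntf r ∧ dl r 0 true ≠ 127 ∧ dl r 0 false = 0 := by
  have h1 := List.all_eq_true.mp chkStates_true r (List.mem_range.mpr hr)
  simp only [Bool.and_eq_true, Nat.ble_eq, Nat.blt_eq, Bool.not_eq_true', beq_eq_false_iff_ne,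
    beq_iff_eq] at h1
  obtain ⟨⟨⟨⟨h2, h3⟩, h4⟩, h5⟩, h6⟩ := h1
  exact ⟨h2, h3, h4, h5, h6⟩

lemma chkStates_sound {r : ℕ} : ∀ n, chkStates r n = true → ∀ s, s < n → chkState r s = true := by
  intro n
  induction n with
  | zero => intro _ s hs; omega
  | succ n ih =>
    intro h s hs
    simp only [chkStates, Bool.and_eq_true] at h
    rcases Nat.lt_succ_iff_lt_or_eq.mp hs with h1 | rfl
    · exact ih h.2 s h1
    · exact h.1

lemma state_ok {r s : ℕ} (hr : r < 3) (hs : s < cntf r) :
    dl r s false < cntf ((r + 2) % 3) ∧ dl ((r + 2) % 3) (dl r s false) true ≠ 127 ∧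
    (dl r s true ≠ 127 → dl r s true < cntf ((r + 2) % 3) ∧
      chkT r s s 3 (false, true, 0) = true ∧ chkT r s s 3 (false, true, 5) = true) := by
  have h := chkStates_sound _ (states_ok hr).1 s hs
  unfold chkState at h
  simp only [Bool.and_eq_true, Nat.blt_eq, Bool.not_eq_true', beq_eq_false_iff_ne,
    Bool.or_eq_true, beq_iff_eq] at h
  obtain ⟨⟨h1, h2⟩, h3⟩ := h
  refine ⟨h1, h2, fun h4 => ?_⟩
  rcases h3 with h3 | ⟨⟨h5, h6⟩, h7⟩
  · exact absurd h3 h4
  · exact ⟨h5, h6, h7⟩

lemma chkT_sound {r a b c : ℕ} {e : Bool × Bool × ℕ} (h : chkT r a b c e = true)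
    (ha : dl r a e.1 ≠ 127) (hb : dl r b e.2.1 ≠ 127) :
    cell e.2.2 ((r + 2) % 3) (dl r a e.1) (dl r b e.2.1) ≠ 0 ∧
    c + uu r b e.2.1 ≤ cell e.2.2 ((r + 2) % 3) (dl r a e.1) (dl r b e.2.1) + uu r a e.1 := by
  unfold chkT at h
  simp only [Bool.or_eq_true, beq_iff_eq, Bool.and_eq_true, Nat.blt_eq, Nat.ble_eq] at h
  rcases h with (h | h) | ⟨h1, h2⟩
  · exact absurd h ha
  · exact absurd h hb
  · exact ⟨by omega, h2⟩

/-! ### the machines -/

/-- the state of the machine -/
def st : ℕ → List Bool → ℕ
  | _, [] => 0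
  | r, z :: l => dl ((r + 1) % 3) (st ((r + 1) % 3) l) z

/-- the value of the potential -/
def vv : ℕ → List Bool → ℤ
  | _, [] => 0
  | r, z :: l => vv ((r + 1) % 3) l + (uu ((r + 1) % 3) (st ((r + 1) % 3) l) z : ℤ) - 2

/-- the number with the given digits -/
def val (f : ℕ → Bool) : List Bool → ℕ
  | [] => 0
  | z :: l => mu f (val f l) + z.toNat

/-- admissible digits -/
def Ok (f : ℕ → Bool) : List Bool → Prop
  | [] => True
  | z :: l => Ok f l ∧ (z = true → f (val f l + 1) = true)

variable {f : ℕ → Bool}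

lemma st_lt (hf : IsFibonacciWord f) : ∀ (l : List Bool) (r : ℕ), r < 3 → Ok f l →
    st r l < cntf r ∧ (f (val f l + 1) = true → dl r (st r l) true ≠ 127) := by
  intro l
  induction l with
  | nil => intro r hr _; exact ⟨(states_ok hr).2.2.1, fun _ => (states_ok hr).2.2.2.1⟩
  | cons z l ih =>
    intro r hr hok
    obtain ⟨hok1, hz⟩ := hok
    have hρ : (r + 1) % 3 < 3 := Nat.mod_lt _ (by norm_num)
    have hr' : ((r + 1) % 3 + 2) % 3 = r := by omega
    obtain ⟨h1, h2⟩ := ih _ hρ hok1
    have h3 := state_ok hρ h1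
    rw [hr'] at h3
    simp only [st, val]
    cases z
    · exact ⟨h3.1, fun _ => h3.2.1⟩
    · have h4 := h3.2.2 (h2 (hz rfl))
      refine ⟨h4.1, fun h5 => ?_⟩
      rw [show mu f (val f l) + true.toNat + 1 = mu f (val f l) + 2 from rfl,
        f_two hf (hz rfl)] at h5
      exact absurd h5 (by simp)

lemma dl_ne {l : List Bool} (hf : IsFibonacciWord f) {r : ℕ} {z : Bool} (hr : r < 3)
    (hok : Ok f l) (hz : z = true → f (val f l + 1) = true) : dl r (st r l) z ≠ 127 := by
  obtain ⟨h1, h2⟩ := st_lt hf l r hr hok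
  cases z
  · have h3 := (state_ok hr h1).1
    have h4 := (states_ok (r := (r + 2) % 3) (Nat.mod_lt _ (by norm_num))).2.1
    omega
  · exact h2 (hz rfl)

lemma list_unique : ∀ (l l' : List Bool), l.length = l'.length → Ok f l → Ok f l' →
    val f l = val f l' → l = l' := by
  intro l
  induction l with
  | nil =>
    intro l' h _ _ _
    simp only [List.length_nil] at h
    exact (List.length_eq_zero_iff.mp h.symm).symm
  | cons z l ih =>
    intro l' h h1 h2 h3
    cases l' with
    | nil => simp at h
    | cons z' l' =>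
      have h4 := rep_unique h3 h1.2 h2.2
      rw [ih l' (by simpa using h) h1.1 h2.1 h4.1, h4.2]

lemma list_exists (hf : IsFibonacciWord f) : ∀ (k n : ℕ), n ≤ k → ∃ l : List Bool,
    l.length = k ∧ Ok f l ∧ val f l = n := by
  intro k
  induction k with
  | zero =>
    intro n hn
    exact ⟨[], rfl, trivial, by simp [val]; omega⟩
  | succ k ih =>
    intro n hn
    obtain ⟨v, z, h1, h2⟩ := exists_rep f n
    have hf1 : f 1 = true := (small hf).1.1
    have hv : v ≤ k := by
      rcases Nat.eq_zero_or_pos v with rfl | hv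
      · omega
      · have h4 : ∀ w, 1 ≤ w → w < mu f w := by
          intro w hw
          induction w, hw using Nat.le_induction with
          | base =>
            have := mu_succ_true (f := f) (n := 0) hf1
            simp only [Nat.zero_add] at this
            omega
          | succ w _ ih =>
            have := mu_succ_ge (f := f) w
            omega
        have h5 := h4 v hv
        omega
    obtain ⟨l, h3, h4, h5⟩ := ih v hv
    exact ⟨z :: l, by simp [h3], ⟨h4, by rw [h5]; exact h2⟩, by simp [val, h5, h1]⟩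

lemma inv_step {r : ℕ} (hr : r < 3) {lt ly : List Bool} (hf : IsFibonacciWord f)
    (hokt : Ok f lt) (hoky : Ok f ly) {zt zy : Bool}
    (hzt : zt = true → f (val f lt + 1) = true) (hzy : zy = true → f (val f ly + 1) = true)
    {T' T : ℕ} (hT' : T' < 6) (hmem : (zt, zy, T) ∈ trs T')
    (hc : cell T' ((r + 1) % 3) (st ((r + 1) % 3) lt) (st ((r + 1) % 3) ly) ≠ 0)
    (hv : vv ((r + 1) % 3) ly - vv ((r + 1) % 3) lt ≤
      cell T' ((r + 1) % 3) (st ((r + 1) % 3) lt) (st ((r + 1) % 3) ly) - 3) :
    cell T r (st r (zt :: lt)) (st r (zy :: ly)) ≠ 0 ∧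
    vv r (zy :: ly) - vv r (zt :: lt) ≤ cell T r (st r (zt :: lt)) (st r (zy :: ly)) - 3 := by
  have hρ : (r + 1) % 3 < 3 := Nat.mod_lt _ (by norm_num)
  have hr' : ((r + 1) % 3 + 2) % 3 = r := by omega
  have ht := (st_lt hf lt _ hρ hokt).1
  have hy := (st_lt hf ly _ hρ hoky).1
  have hcnt := (states_ok hρ).2.1
  have h1 := chkCell_ok hT' hρ (show st ((r + 1) % 3) lt < 100 by omega)
    (show st ((r + 1) % 3) ly < 100 by omega)
  unfold chkCell at h1
  rw [Bool.or_eq_true, beq_iff_eq] at h1
  have h2 := List.all_eq_true.mp (h1.resolve_left hc) _ hmem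
  have h3 := chkT_sound h2 (dl_ne hf hρ hokt hzt) (dl_ne hf hρ hoky hzy)
  rw [hr'] at h3
  refine ⟨h3.1, ?_⟩
  have h4 := h3.2
  simp only [vv, st] at h4 ⊢
  zify at h4
  linarith

lemma inv_eq {r : ℕ} (hr : r < 3) {l : List Bool} (hf : IsFibonacciWord f)
    (hok : Ok f l) (hz : f (val f l + 1) = true) {T : ℕ} (hT : T = 0 ∨ T = 5) :
    cell T r (st r (false :: l)) (st r (true :: l)) ≠ 0 ∧
    vv r (true :: l) - vv r (false :: l) ≤
      cell T r (st r (false :: l)) (st r (true :: l)) - 3 := by
  have hρ : (r + 1) % 3 < 3 := Nat.mod_lt _ (by norm_num)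
  have hr' : ((r + 1) % 3 + 2) % 3 = r := by omega
  have hs := (st_lt hf l _ hρ hok).1
  have h0 := dl_ne (z := false) hf hρ hok (by simp)
  have h1 := dl_ne (z := true) hf hρ hok (fun _ => hz)
  have h2 := (state_ok hρ hs).2.2 h1
  have h3 : chkT ((r + 1) % 3) (st ((r + 1) % 3) l) (st ((r + 1) % 3) l) 3 (false, true, T)
      = true := by
    rcases hT with rfl | rfl
    · exact h2.2.1
    · exact h2.2.2
  have h4 := chkT_sound h3 h0 h1
  rw [hr'] at h4
  refine ⟨h4.1, ?_⟩
  have h5 := h4.2
  have h6 : uu ((r + 1) % 3) (st ((r + 1) % 3) l) false = 2 := rfl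
  simp only [h6] at h5
  simp only [vv, st, h6]
  zify at h5
  push_cast
  linarith

theorem inv (hf : IsFibonacciWord f) : ∀ (lt ly : List Bool), lt.length = ly.length →
    Ok f lt → Ok f ly → ∀ r, r < 3 → ∀ T, T < 6 → Rel f T (val f lt) (val f ly) →
    cell T r (st r lt) (st r ly) ≠ 0 ∧ vv r ly - vv r lt ≤ cell T r (st r lt) (st r ly) - 3 := by
  intro lt
  induction lt with
  | nil =>
    intro ly hlen _ _ r _ T hT hR
    have : ly = [] := List.length_eq_zero_iff.mp (by simpa using hlen.symm)
    subst this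
    exfalso
    simp only [val] at hR
    interval_cases T <;> simp [Rel] at hR
  | cons zt lt ih =>
    intro ly hlen hokt hoky r hr T hT hR
    cases ly with
    | nil => simp at hlen
    | cons zy ly =>
      have hlen' : lt.length = ly.length := by simpa using hlen
      obtain ⟨ht1, ht2⟩ := hokt
      obtain ⟨hy1, hy2⟩ := hoky
      have hρ : (r + 1) % 3 < 3 := Nat.mod_lt _ (by norm_num)
      -- transitions
      have go : ∀ T', T' < 6 → Rel f T' (val f lt) (val f ly) → (zt, zy, T) ∈ trs T' →
          cell T r (st r (zt :: lt)) (st r (zy :: ly)) ≠ 0 ∧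
          vv r (zy :: ly) - vv r (zt :: lt) ≤
            cell T r (st r (zt :: lt)) (st r (zy :: ly)) - 3 := by
        intro T' hT' hR' hmem
        obtain ⟨h1, h2⟩ := ih ly hlen' ht1 hy1 _ hρ T' hT' hR'
        exact inv_step hr hf ht1 hy1 ht2 hy2 hT' hmem h1 h2
      have goeq : zt = false → zy = true → val f lt = val f ly → (T = 0 ∨ T = 5) →
          cell T r (st r (zt :: lt)) (st r (zy :: ly)) ≠ 0 ∧
          vv r (zy :: ly) - vv r (zt :: lt) ≤
            cell T r (st r (zt :: lt)) (st r (zy :: ly)) - 3 := by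
        intro h1 h2 h3 h4
        subst h1; subst h2
        have := list_unique lt ly hlen' ht1 hy1 h3
        subst this
        exact inv_eq hr hf ht1 (hy2 rfl) h4
      simp only [val] at hR
      interval_cases T
      · rcases step0 hf ht2 hy2 hR with ⟨h1, h2, h3 | h3 | h3⟩ | ⟨h1, h2, h3 | h3⟩
        · exact goeq h1 h2 h3 (Or.inl rfl)
        · exact go 0 (by norm_num) h3 (by rw [h1, h2]; simp [trs])
        · exact go 1 (by norm_num) h3 (by rw [h1, h2]; simp [trs])
        · exact go 2 (by norm_num) h3 (by rw [h1, h2]; simp [trs])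
        · exact go 4 (by norm_num) h3 (by rw [h1, h2]; simp [trs])
      · obtain ⟨h1, h2, h3⟩ := step1 hf ht2 hy2 hR
        exact go 0 (by norm_num) h3 (by rw [h1, h2]; simp [trs])
      · obtain ⟨h1, h2, h3 | h3⟩ := step2 hf ht2 hy2 hR
        · exact go 3 (by norm_num) h3 (by rw [h1, h2]; simp [trs])
        · exact go 5 (by norm_num) h3 (by rw [h1, h2]; simp [trs])
      · rcases step3 hf ht2 hy2 hR with ⟨h1, h2, h3⟩ | ⟨h1, h2, h3⟩ | ⟨h1, h2, h3 | h3⟩
        · exact go 0 (by norm_num) h3 (by rw [h1, h2]; simp [trs])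
        · exact go 2 (by norm_num) h3 (by rw [h1, h2]; simp [trs])
        · exact go 2 (by norm_num) h3 (by rw [h1, h2]; simp [trs])
        · exact go 4 (by norm_num) h3 (by rw [h1, h2]; simp [trs])
      · obtain ⟨h1, h2, h3⟩ := step4 hf ht2 hy2 hR
        exact go 5 (by norm_num) h3 (by rw [h1, h2]; simp [trs])
      · rcases step5 hf ht2 hy2 hR with ⟨h1, h2, h3⟩ | ⟨h1, h2, h3⟩
        · exact goeq h1 h2 h3 (Or.inr rfl)
        · exact go 4 (by norm_num) h3 (by rw [h1, h2]; simp [trs])

/-- the potential -/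
def Phi (l : List Bool) : ℤ := vv 0 l + ou (st 0 l)

lemma phi_step (hf : IsFibonacciWord f) {lt ly : List Bool} (hlen : lt.length = ly.length)
    (hokt : Ok f lt) (hoky : Ok f ly) (hlt : val f lt < val f ly)
    (hp : Pal f (val f lt) (val f ly)) : Phi ly ≤ Phi lt + 1 := by
  have ht := (st_lt hf lt 0 (by norm_num) hokt).1
  have hy := (st_lt hf ly 0 (by norm_num) hoky).1
  have hcnt := (states_ok (r := 0) (by norm_num)).2.1
  have key : ∃ T, T < 2 ∧ Rel f T (val f lt) (val f ly) := by
    cases h : f (val f ly)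
    · exact ⟨1, by norm_num, hlt, hp, h⟩
    · exact ⟨0, by norm_num, hlt, hp, h⟩
  obtain ⟨T, hT, hR⟩ := key
  obtain ⟨h1, h2⟩ := inv hf lt ly hlen hokt hoky 0 (by norm_num) T (by omega) hR
  have h3 := chkFin_ok hT (show st 0 lt < 100 by omega) (show st 0 ly < 100 by omega) h1
  unfold Phi
  zify at h3
  linarith

lemma phi_decomp (hf : IsFibonacciWord f) {k : ℕ} {l0 : List Bool} (hl0 : l0.length = k)
    (hok0 : Ok f l0) (hv0 : val f l0 = 0) : ∀ (L : List (List Bool)) (n : ℕ) (ly : List Bool),
    n ≤ k → ly.length = k → Ok f ly → val f ly = n → (∀ p ∈ L, p ≠ [] ∧ p.reverse = p) →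
      L.flatten = initialBlock f n → Phi ly ≤ Phi l0 + L.length := by
  intro L
  induction L using List.reverseRecOn with
  | nil =>
    intro n ly _ hly hoky hvy _ hfl
    have h1 : n = 0 := by
      have := congrArg List.length hfl
      rw [block_length] at this
      simpa using this.symm
    have : ly = l0 := list_unique ly l0 (by rw [hly, hl0]) hoky hok0 (by rw [hvy, hv0, h1])
    rw [this]; simp
  | append_singleton L p ih =>
    intro n ly hnk hly hoky hvy hL hfl
    rw [List.flatten_append] at hfl
    simp only [List.flatten_cons, List.flatten_nil, List.append_nil] at hfl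
    have hlen := congrArg List.length hfl
    rw [List.length_append, block_length] at hlen
    have hpL := hL p (by simp)
    have hp0 : 0 < p.length := List.length_pos_iff.mpr hpL.1
    have hm : L.flatten.length < n := by omega
    have happ := block_append f hm.le
    rw [← hfl] at happ
    have hinj := List.append_inj happ (by rw [block_length])
    obtain ⟨lt, ht1, ht2, ht3⟩ := list_exists hf k L.flatten.length (by omega)
    have h1 := ih L.flatten.length lt (by omega) ht1 ht2 ht3 (fun q hq => hL q (by simp [hq]))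
      hinj.1
    have h2 : Pal f L.flatten.length n := by
      rw [← seg_pal f hm.le, ← hinj.2]; exact hpL.2
    have h3 := phi_step hf (by rw [ht1, hly]) ht2 hoky (by rw [ht3, hvy]; exact hm)
      (by rw [ht3, hvy]; exact h2)
    rw [List.length_append, List.length_singleton]
    push_cast
    linarith

theorem lower (hf : IsFibonacciWord f) {k : ℕ} {l0 ly : List Bool} (hl0 : l0.length = k)
    (hok0 : Ok f l0) (hv0 : val f l0 = 0) (hly : ly.length = k) (hoky : Ok f ly)
    (hn : val f ly ≤ k) : Phi ly - Phi l0 ≤ PPL f (val f ly) := by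
  obtain ⟨L, h1, h2, h3⟩ := ppl_spec f (val f ly)
  have := phi_decomp hf hl0 hok0 hv0 L _ ly hn hly hoky rfl h2 h3
  rw [h1] at this
  linarith

/-! ### the record numbers -/

/-- zeros -/
lemma zeros (hf : IsFibonacciWord f) (m : ℕ) : Ok f (List.replicate m false) ∧
    val f (List.replicate m false) = 0 ∧ ∀ r, r < 3 → st r (List.replicate m false) = 0 ∧
      vv r (List.replicate m false) = 0 := by
  induction m with
  | zero => exact ⟨trivial, rfl, fun r _ => ⟨rfl, rfl⟩⟩
  | succ m ih =>
    obtain ⟨h1, h2, h3⟩ := ih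
    rw [List.replicate_succ]
    refine ⟨⟨h1, by simp⟩, by simp [val, h2, mu], fun r hr => ?_⟩
    have hρ : (r + 1) % 3 < 3 := Nat.mod_lt _ (by norm_num)
    obtain ⟨h4, h5⟩ := h3 _ hρ
    constructor
    · simp only [st]
      rw [h4]
      exact (states_ok hρ).2.2.2.2
    · simp only [vv]
      rw [h5]
      simp [uu]

/-- the digits of the record numbers -/
def blk (m : ℕ) : ℕ → List Bool
  | 0 => List.replicate m false
  | j + 1 => false :: false :: true :: false :: false :: true :: blk m j

lemma blk_length (m j : ℕ) : (blk m j).length = 6 * j + m := by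
  induction j with
  | zero => simp [blk]
  | succ j ih => simp [blk, ih]; ring

lemma blk_ok (hf : IsFibonacciWord f) (m j : ℕ) : Ok f (blk m j) ∧
    f (val f (blk m j) + 1) = true := by
  have a1 := (small hf).1.1
  induction j with
  | zero =>
    refine ⟨(zeros hf m).1, ?_⟩
    rw [show blk m 0 = List.replicate m false from rfl, (zeros hf m).2.1]
    exact a1
  | succ j ih =>
    obtain ⟨h1, h2⟩ := ih
    have hstep : ∀ l, Ok f l → f (val f l + 1) = true →
        Ok f (false :: false :: true :: l) ∧ f (val f (false :: false :: true :: l) + 1) = true := by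
      intro l h3 h4
      refine ⟨⟨⟨⟨h3, fun _ => h4⟩, by simp⟩, by simp⟩, ?_⟩
      simp only [val, Bool.toNat_false, Nat.add_zero]
      exact f_one hf _
    obtain ⟨h5, h6⟩ := hstep _ h1 h2
    exact hstep _ h5 h6

lemma blk_run (m j : ℕ) (hf : IsFibonacciWord f) : st 0 (blk m (j + 1)) = 11 ∧
    vv 0 (blk m (j + 1)) = 2 * ((j : ℤ) + 1) := by
  have comp : ∀ l : List Bool, ∀ s : ℕ, st 0 l = s →
      st 0 (false :: false :: true :: false :: false :: true :: l) =
        dl 1 (dl 2 (dl 0 (dl 1 (dl 2 (dl 0 s true) false) false) true) false) false ∧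
      vv 0 (false :: false :: true :: false :: false :: true :: l) =
        vv 0 l + (uu 0 s true : ℤ) + (uu 0 (dl 1 (dl 2 (dl 0 s true) false) false) true : ℤ) - 4 := by
    intro l s hs
    simp only [st, vv, Nat.zero_add, Nat.reduceMod, Nat.reduceAdd, hs]
    refine ⟨trivial, ?_⟩
    simp only [show ∀ r s, uu r s false = 2 from fun _ _ => rfl]
    push_cast
    ring
  induction j with
  | zero =>
    obtain ⟨h1, h2⟩ := (zeros hf m).2.2 0 (by norm_num)
    obtain ⟨h3, h4⟩ := comp (List.replicate m false) 0 h1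
    constructor
    · show st 0 (false :: false :: true :: false :: false :: true :: List.replicate m false) = 11
      rw [h3]; decide +kernel
    · show vv 0 (false :: false :: true :: false :: false :: true :: List.replicate m false) = _
      rw [h4, h2]
      have e1 : uu 0 0 true = 4 := by decide +kernel
      have e2 : uu 0 (dl 1 (dl 2 (dl 0 0 true) false) false) true = 2 := by decide +kernel
      rw [e1, e2]; norm_num
  | succ j ih =>
    obtain ⟨h3, h4⟩ := comp (blk m (j + 1)) 11 ih.1
    constructor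
    · show st 0 (false :: false :: true :: false :: false :: true :: blk m (j + 1)) = 11
      rw [h3]; decide +kernel
    · show vv 0 (false :: false :: true :: false :: false :: true :: blk m (j + 1)) = _
      rw [h4, ih.2]
      have e1 : uu 0 11 true + uu 0 (dl 1 (dl 2 (dl 0 11 true) false) false) true = 6 := by
        decide +kernel
      have e2 : (uu 0 11 true : ℤ) + (uu 0 (dl 1 (dl 2 (dl 0 11 true) false) false) true : ℤ)
          = 6 := by exact_mod_cast e1
      push_cast
      linarith

lemma val_blk_indep (hf : IsFibonacciWord f) (m j : ℕ) : val f (blk m j) = val f (blk 0 j) := by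
  induction j with
  | zero =>
    show val f (List.replicate m false) = val f (List.replicate 0 false)
    rw [(zeros hf m).2.1, (zeros hf 0).2.1]
  | succ j ih => simp only [blk, val, ih]

lemma val_lt (hf : IsFibonacciWord f) : ∀ l : List Bool, Ok f l →
    val f l < Nat.fib (l.length + 2) := by
  intro l
  induction l with
  | nil => intro _; simp [val]
  | cons z l ih =>
    intro h
    have h1 := ih h.1
    have h2 := mu_fib hf l.length
    simp only [val, List.length_cons]
    rw [show l.length + 1 + 2 = l.length + 3 by ring, ← h2]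
    cases z
    · simpa using mu_strictMono h1
    · have h3 : mu f (val f l + 1) ≤ mu f (Nat.fib (l.length + 2)) :=
        (mu_strictMono (f := f)).monotone h1
      rw [mu_succ_true (h.2 rfl)] at h3
      simp only [Bool.toNat_true]
      omega

/-- the record numbers -/
theorem lower_record (hf : IsFibonacciWord f) (j : ℕ) : ∃ n, n < Nat.fib (6 * (j + 1) + 2) ∧
    2 * (j + 1) ≤ PPL f n := by
  set n := val f (blk 0 (j + 1)) with hn
  refine ⟨n, ?_, ?_⟩
  · have := val_lt hf _ (blk_ok hf 0 (j + 1)).1
    rw [blk_length] at this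
    simpa using this
  · have h1 := (blk_ok hf n (j + 1)).1
    have hlen := blk_length n (j + 1)
    have hz := zeros hf (6 * (j + 1) + n)
    have h2 := lower hf (k := 6 * (j + 1) + n) (l0 := List.replicate (6 * (j + 1) + n) false)
      (ly := blk n (j + 1)) (by simp) hz.1 hz.2.1 hlen h1
      (by rw [val_blk_indep hf n (j + 1)]; omega)
    rw [val_blk_indep hf n (j + 1), ← hn] at h2
    obtain ⟨h3, h4⟩ := blk_run n j hf
    obtain ⟨h5, h6⟩ := hz.2.2 0 (by norm_num)
    unfold Phi at h2
    rw [h3, h4, h5, h6] at h2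
    have e1 : ou 11 = 2 := by decide +kernel
    have e2 : ou 0 = 2 := by decide +kernel
    rw [e1, e2] at h2
    have : (2 * ((j : ℤ) + 1)) ≤ (PPL f n : ℤ) := by push_cast at h2; linarith
    exact_mod_cast this

end Pool.Agent.V11266.FibPPL
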