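import Mathlib

/-! Definitions for local reproducing formulas of the short-time Fourier transform. -/

open Complex MeasureTheory
open scoped ComplexConjugate Real

namespace Pool.Agent.V11266.LRF

/-- The inner product `⟨f, h⟩ = ∫ f conj h` of `L²(ℝ)`. -/
noncomputable def ip (f h : ℝ → ℂ) : ℂ := ∫ t : ℝ, f t * conj (h t)

/-- The time-frequency shift `π(z) g (t) = exp(2 π i ξ t) g(t - x)` for `z = (x, ξ)`. -/
noncomputable def tfShift (z : ℝ × ℝ) (g : ℝ → ℂ) : ℝ → ℂ :=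
  fun t => cexp (2 * π * I * z.2 * t) * g (t - z.1)

/-- The short-time Fourier transform `V_g f (z) = ⟨f, π(z) g⟩`. -/
noncomputable def stft (g f : ℝ → ℂ) (z : ℝ × ℝ) : ℂ := ip f (tfShift z g)

/-- The open Euclidean disc of radius `R` centred at `z` in the time-frequency plane. -/
def disc (z : ℝ × ℝ) (R : ℝ) : Set (ℝ × ℝ) :=
  {w | (w.1 - z.1) ^ 2 + (w.2 - z.2) ^ 2 < R ^ 2}

/-- `g` admits a local reproducing formula on all discs. -/
def LocallyReproducing (g : ℝ → ℂ) : Prop :=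
  ∀ R : ℝ, 0 < R → ∃ C : ℂ, C ≠ 0 ∧ ∀ f : ℝ → ℂ, MemLp f 2 volume → ∀ z : ℝ × ℝ,
    C * stft g f z = ∫ w in disc z R, ip (tfShift w g) (tfShift z g) * stft g f w

/-- The Hermite function without its normalising constant:
`exp(π t²) (d/dt)^n exp(-2 π t²)`. -/
noncomputable def hermiteRaw (n : ℕ) : ℝ → ℂ :=
  fun t => cexp (π * t ^ 2) * iteratedDeriv n (fun s : ℝ => cexp (-(2 * π * s ^ 2))) t

/-- The Hermite function `h_n = c_n exp(π t²) (d/dt)^n exp(-2 π t²)` with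
`c_n = 1 / ‖exp(π t²) (d/dt)^n exp(-2 π t²)‖₂`. -/
noncomputable def hermiteFn (n : ℕ) : ℝ → ℂ :=
  fun t => ((√(∫ s : ℝ, ‖hermiteRaw n s‖ ^ 2))⁻¹ : ℝ) * hermiteRaw n t

end Pool.Agent.V11266.LRF
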