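import Mathlib

/-! Complex analysis for local reproducing formulas: entire functions `H` with
`C H(z) = ∫_{|u|<R} W(u) exp(-π z conj u) H(z+u) du` for all `R > 0`. -/

open Complex Filter Topology MeasureTheory Set Metric Asymptotics
open scoped ComplexConjugate Real

namespace Pool.Agent.V11266.LRFa

/-- Second order Taylor expansion with a continuous remainder. -/
theorem taylor2 (F : ℂ → ℂ) (hF : Differentiable ℂ F) :
    ∃ (a2 : ℂ) (F3 : ℂ → ℂ), Continuous F3 ∧
      ∀ u, F u = F 0 + deriv F 0 * u + a2 * u ^ 2 + u ^ 3 * F3 u := by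
  have hd : ∀ f : ℂ → ℂ, Differentiable ℂ f → Differentiable ℂ (dslope f 0) := by
    intro f hf
    rw [← differentiableOn_univ]
    exact (Complex.differentiableOn_dslope (c := 0) univ_mem).2 hf.differentiableOn
  have key : ∀ (f : ℂ → ℂ) (u : ℂ), f u = f 0 + u * dslope f 0 u := by
    intro f u
    have h := sub_smul_dslope f 0 u
    rw [sub_zero, smul_eq_mul] at h
    rw [h]; ring
  refine ⟨dslope (dslope F 0) 0 0, dslope (dslope (dslope F 0) 0) 0, (hd _ (hd _ (hd _ hF))).continuous, ?_⟩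
  intro u
  have h1 := key F u
  have h2 := key (dslope F 0) u
  have h3 := key (dslope (dslope F 0) 0) u
  have h4 : dslope F 0 0 = deriv F 0 := dslope_same F 0
  rw [h1, h2, h3, h4]
  ring

theorem ode_pow (K : ℂ → ℂ) (hK : Differentiable ℂ K) (z0 ν : ℂ)
    (hode : ∀ z, (z - z0) * deriv K z = ν * K z) (hne : ∃ z, K z ≠ 0) :
    ∃ (n : ℕ) (c : ℂ), c ≠ 0 ∧ ∀ z, K z = c * (z - z0) ^ n := by
  have hKa : AnalyticOnNhd ℂ K univ := fun z _ => hK.analyticAt z
  have hnz : ¬ ∀ᶠ z in 𝓝 z0, K z = 0 := by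
    intro h
    obtain ⟨z, hz⟩ := hne
    exact hz (hKa.eqOn_zero_of_preconnected_of_eventuallyEq_zero isPreconnected_univ (mem_univ z0) h (mem_univ z))
  obtain ⟨n, K1, hK1a, hK10, hK1⟩ := (hK.analyticAt z0).exists_eventuallyEq_pow_smul_nonzero_iff.2 hnz
  -- derivative identity
  have hev : ∀ᶠ z in 𝓝 z0, AnalyticAt ℂ K1 z := hK1a.eventually_analyticAt
  have hder : ∀ᶠ z in 𝓝 z0, (z - z0) * deriv K z
      = (n : ℂ) * (z - z0) ^ n * K1 z + (z - z0) ^ (n + 1) * deriv K1 z := by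
    filter_upwards [hK1.eventually_nhds, hev] with z hz hz1
    have h1 : deriv K z = deriv (fun w => (w - z0) ^ n • K1 w) z := by
      apply Filter.EventuallyEq.deriv_eq
      exact hz
    have h2 : HasDerivAt (fun w => (w - z0) ^ n • K1 w)
        (((n : ℂ) * (z - z0) ^ (n - 1) * 1) * K1 z + (z - z0) ^ n * deriv K1 z) z := by
      have h3 : HasDerivAt (fun w : ℂ => (w - z0) ^ n) ((n : ℂ) * (z - z0) ^ (n - 1) * 1) z :=
        ((hasDerivAt_id z).sub_const z0).pow n
      exact h3.mul hz1.differentiableAt.hasDerivAt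
    rw [h1, h2.deriv]
    rcases n with _ | k
    · simp
    · simp only [Nat.add_sub_cancel]
      push_cast
      ring
  have hmain : ∀ᶠ z in 𝓝[≠] z0, ((n : ℂ) - ν) * K1 z + (z - z0) * deriv K1 z = 0 := by
    have hne : ∀ᶠ z in 𝓝[≠] z0, z ≠ z0 := eventually_mem_nhdsWithin
    filter_upwards [hder.filter_mono nhdsWithin_le_nhds, hK1.filter_mono nhdsWithin_le_nhds, hne] with z h1 h2 h3
    have h4 : (z - z0) ^ n ≠ 0 := pow_ne_zero _ (sub_ne_zero.2 h3)
    have h5 := hode z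
    rw [h1, h2, smul_eq_mul] at h5
    have h6 : (z - z0) ^ n * (((n : ℂ) - ν) * K1 z + (z - z0) * deriv K1 z) = 0 := by
      linear_combination h5
    exact (mul_eq_zero.1 h6).resolve_left h4
  have hcont : ContinuousAt (fun z => ((n : ℂ) - ν) * K1 z + (z - z0) * deriv K1 z) z0 := by
    have h1 := hK1a.continuousAt
    have h2 := hK1a.deriv.continuousAt
    fun_prop
  have hzero : ((n : ℂ) - ν) * K1 z0 + (z0 - z0) * deriv K1 z0 = 0 := by
    have h1 : Tendsto (fun z => ((n : ℂ) - ν) * K1 z + (z - z0) * deriv K1 z) (𝓝[≠] z0)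
        (𝓝 (((n : ℂ) - ν) * K1 z0 + (z0 - z0) * deriv K1 z0)) := hcont.tendsto.mono_left nhdsWithin_le_nhds
    have h2 : Tendsto (fun z => ((n : ℂ) - ν) * K1 z + (z - z0) * deriv K1 z) (𝓝[≠] z0) (𝓝 0) :=
      (tendsto_congr' hmain).2 tendsto_const_nhds
    exact tendsto_nhds_unique h1 h2
  have hnν : (n : ℂ) - ν = 0 := by
    rw [sub_self, zero_mul, add_zero] at hzero
    exact (mul_eq_zero.1 hzero).resolve_right hK10
  have hd0 : ∀ᶠ z in 𝓝[≠] z0, deriv K1 z = 0 := by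
    have hne : ∀ᶠ z in 𝓝[≠] z0, z ≠ z0 := eventually_mem_nhdsWithin
    filter_upwards [hmain, hne] with z h1 h2
    rw [hnν, zero_mul, zero_add] at h1
    exact (mul_eq_zero.1 h1).resolve_left (sub_ne_zero.2 h2)
  have hd00 : deriv K1 z0 = 0 := by
    have h1 : Tendsto (deriv K1) (𝓝[≠] z0) (𝓝 (deriv K1 z0)) :=
      hK1a.deriv.continuousAt.tendsto.mono_left nhdsWithin_le_nhds
    have h2 : Tendsto (deriv K1) (𝓝[≠] z0) (𝓝 0) := (tendsto_congr' hd0).2 tendsto_const_nhds
    exact tendsto_nhds_unique h1 h2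
  have hd1 : ∀ᶠ z in 𝓝 z0, deriv K1 z = 0 := by
    rw [eventually_nhdsWithin_iff] at hd0
    filter_upwards [hd0] with z hz
    by_cases h : z = z0
    · rw [h]; exact hd00
    · exact hz h
  obtain ⟨r, hr, hball⟩ := Metric.eventually_nhds_iff_ball.1 (hd1.and hev)
  have hconst : ∀ z ∈ ball z0 r, K1 z = K1 z0 := by
    intro z hz
    have hdiff : DifferentiableOn ℂ K1 (ball z0 r) := fun w hw =>
      (hball w hw).2.differentiableAt.differentiableWithinAt
    apply (convex_ball z0 r).is_const_of_fderivWithin_eq_zero (𝕜 := ℂ) hdiff ?_ hz (mem_ball_self hr)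
    intro w hw
    rw [fderivWithin_of_isOpen isOpen_ball hw]
    ext
    have := (hball w hw).1
    simpa [fderiv_eq_smul_deriv] using this
  refine ⟨n, K1 z0, hK10, ?_⟩
  have hpoly : AnalyticOnNhd ℂ (fun z => K1 z0 * (z - z0) ^ n) univ := by
    intro z _
    exact (Differentiable.analyticAt (by fun_prop) z)
  have heq : K =ᶠ[𝓝 z0] fun z => K1 z0 * (z - z0) ^ n := by
    filter_upwards [hK1, Metric.ball_mem_nhds z0 hr] with z h1 h2
    rw [h1, hconst z h2, smul_eq_mul, mul_comm]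
  have := hKa.eq_of_eventuallyEq hpoly heq
  intro z
  exact congrFun this z

theorem lim_lemma {ι V : Type*} [NormedAddCommGroup V] [NormedSpace ℝ V] [ProperSpace V]
    (L : ι → V →L[ℝ] ℂ) (v : ℕ → V) (c : ι → ℂ)
    (h : ∀ i, Tendsto (fun n => L i (v n)) atTop (𝓝 (c i)))
    (hinj : ∀ u, u ≠ 0 → ∃ i, L i u ≠ 0) : ∃ w, ∀ i, L i w = c i := by
  by_cases hb : ∃ M : ℝ, ∃ᶠ n in atTop, v n ∈ closedBall (0 : V) M
  · obtain ⟨M, hM⟩ := hb
    obtain ⟨a, _, φ, hφ, hlim⟩ := tendsto_subseq_of_frequently_bounded isBounded_closedBall hM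
    refine ⟨a, fun i => ?_⟩
    have h1 : Tendsto (fun n => L i (v (φ n))) atTop (𝓝 (L i a)) :=
      ((L i).continuous.tendsto a).comp hlim
    have h2 : Tendsto (fun n => L i (v (φ n))) atTop (𝓝 (c i)) := (h i).comp hφ.tendsto_atTop
    exact tendsto_nhds_unique h1 h2
  · push Not at hb
    exfalso
    have hinf : Tendsto (fun n => ‖v n‖) atTop atTop := by
      rw [Filter.tendsto_atTop]
      intro M
      filter_upwards [hb M] with n hn
      rw [mem_closedBall, dist_zero_right, not_le] at hn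
      exact hn.le
    set u : ℕ → V := fun n => (‖v n‖)⁻¹ • v n with hu
    have hun : ∀ᶠ n in atTop, ‖u n‖ = 1 := by
      filter_upwards [hinf.eventually_gt_atTop 0] with n hn
      rw [hu, norm_smul, norm_inv, norm_norm, inv_mul_cancel₀ hn.ne']
    have hfr : ∃ᶠ n in atTop, u n ∈ closedBall (0 : V) 1 := by
      apply Eventually.frequently
      filter_upwards [hun] with n hn
      rw [mem_closedBall, dist_zero_right, hn]
    obtain ⟨a, _, φ, hφ, hlim⟩ := tendsto_subseq_of_frequently_bounded isBounded_closedBall hfr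
    have hna : ‖a‖ = 1 := by
      have h1 : Tendsto (fun n => ‖u (φ n)‖) atTop (𝓝 ‖a‖) := hlim.norm
      have h2 : Tendsto (fun n => ‖u (φ n)‖) atTop (𝓝 1) := by
        apply tendsto_const_nhds.congr'
        filter_upwards [hφ.tendsto_atTop.eventually hun] with n hn
        exact hn.symm
      exact tendsto_nhds_unique h1 h2
    have hane : a ≠ 0 := by
      intro h0
      rw [h0, norm_zero] at hna
      exact zero_ne_one hna
    obtain ⟨i, hi⟩ := hinj a hane
    apply hi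
    have h1 : Tendsto (fun n => L i (u (φ n))) atTop (𝓝 (L i a)) :=
      ((L i).continuous.tendsto a).comp hlim
    have h2 : Tendsto (fun n => L i (u n)) atTop (𝓝 0) := by
      have h3 : Tendsto (fun n => (‖v n‖)⁻¹ • L i (v n)) atTop (𝓝 ((0 : ℝ) • c i)) :=
        (tendsto_inv_atTop_zero.comp hinf).smul (h i)
      rw [zero_smul] at h3
      refine h3.congr (fun n => ?_)
      rw [hu]
      exact ((L i).map_smul _ _).symm
    exact tendsto_nhds_unique h1 (h2.comp hφ.tendsto_atTop)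

theorem no_ode (H : ℂ → ℂ) (hH : Differentiable ℂ H) (hne : ∃ z, H z ≠ 0)
    (hdec : ∀ e : ℂ, e ≠ 0 → Tendsto
      (fun ρ : ℝ => ‖H ((ρ : ℂ) * e)‖ * Real.exp (-(π / 2) * ‖((ρ : ℂ) * e)‖ ^ 2)) atTop (𝓝 0))
    (p β : ℂ) (h0 : (p, β) ≠ 0) :
    ∃ z, p * H z + β * deriv H z + π * z * conj β * H z ≠ 0 := by
  by_contra hcon
  push Not at hcon
  by_cases hβ : β = 0
  · have hp : p ≠ 0 := by
      rintro rfl
      exact h0 (by rw [hβ]; rfl)
    obtain ⟨z, hz⟩ := hne
    have := hcon z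
    rw [hβ] at this
    simp only [map_zero, mul_zero, zero_mul, add_zero] at this
    exact (mul_ne_zero hp hz) this
  · set q : ℂ → ℂ := fun z => (p * z + π * conj β * z ^ 2 / 2) / β with hq
    have hqd : ∀ z, HasDerivAt q ((p + π * conj β * z) / β) z := by
      intro z
      have h1 : HasDerivAt (fun z : ℂ => p * z) (p * 1) z := (hasDerivAt_id z).const_mul p
      have h2 : HasDerivAt (fun z : ℂ => π * conj β * z ^ 2 / 2) (π * conj β * (2 * z) / 2) z := by
        have h3 : HasDerivAt (fun z : ℂ => z ^ 2) (2 * z) z := by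
          simpa using hasDerivAt_pow 2 z
        exact (h3.const_mul (π * conj β)).div_const 2
      have h4 := (h1.add h2).div_const β
      have h5 : (p + π * conj β * z) / β = (p * 1 + π * conj β * (2 * z) / 2) / β := by ring
      rw [h5]
      exact h4
    have hKd : ∀ z, HasDerivAt (fun z => H z * cexp (q z)) 0 z := by
      intro z
      have h1 := (hH z).hasDerivAt.mul ((hqd z).cexp)
      have h2 := hcon z
      have h3 : deriv H z * cexp (q z) + H z * (cexp (q z) * ((p + π * conj β * z) / β)) = 0 := by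
        field_simp
        linear_combination (cexp (q z)) * h2
      rw [← h3]
      exact h1
    have hKdiff : Differentiable ℂ (fun z => H z * cexp (q z)) := fun z => (hKd z).differentiableAt
    have hconst : ∀ z, H z * cexp (q z) = H 0 := by
      intro z
      have h1 := is_const_of_deriv_eq_zero hKdiff (fun w => (hKd w).deriv) z 0
      rw [h1]
      simp [hq]
    have hH0 : H 0 ≠ 0 := by
      intro h
      obtain ⟨z, hz⟩ := hne
      have h1 := hconst z
      rw [h] at h1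
      exact (mul_ne_zero hz (Complex.exp_ne_zero _)) h1
    obtain ⟨s, hs2, hs⟩ : ∃ s : ℝ, s ^ 2 = 1 ∧ 0 ≤ s * p.im := by
      rcases le_total 0 p.im with h | h
      · exact ⟨1, by norm_num, by linarith⟩
      · exact ⟨-1, by norm_num, by linarith⟩
    have hs0 : (s : ℂ) ≠ 0 := by
      intro h
      have : s = 0 := by exact_mod_cast h
      rw [this] at hs2
      norm_num at hs2
    have he : (s : ℂ) * I * β ≠ 0 := mul_ne_zero (mul_ne_zero hs0 I_ne_zero) hβ
    have hlim := hdec _ he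
    have hval : ∀ ρ : ℝ, ‖H ((ρ : ℂ) * ((s : ℂ) * I * β))‖ *
        Real.exp (-(π / 2) * ‖((ρ : ℂ) * ((s : ℂ) * I * β))‖ ^ 2) = ‖H 0‖ * Real.exp (ρ * (s * p.im)) := by
      intro ρ
      set z : ℂ := (ρ : ℂ) * ((s : ℂ) * I * β) with hz
      have h1 := hconst z
      have h2 : q z = I * (ρ * s * p) - (π / 2 * ρ ^ 2 * (‖β‖ ^ 2 : ℝ) : ℂ) := by
        have hn : ((‖β‖ ^ 2 : ℝ) : ℂ) = β * conj β := by
          rw [mul_conj, normSq_eq_norm_sq]
        have hs2' : (s : ℂ) ^ 2 = 1 := by exact_mod_cast hs2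
        rw [hn]
        simp only [hq, hz]
        field_simp
        linear_combination (ρ ^ 2 * β * π * conj β * I ^ 2) * hs2' + (ρ ^ 2 * β * π * conj β) * I_sq
      have h3 : ‖z‖ ^ 2 = ρ ^ 2 * ‖β‖ ^ 2 := by
        rw [hz, norm_mul, norm_mul, norm_mul, norm_I, norm_real, norm_real, mul_pow, mul_pow, mul_pow,
          Real.norm_eq_abs, Real.norm_eq_abs, sq_abs, sq_abs, hs2]
        ring
      have h4 : ‖cexp (q z)‖ = Real.exp (-(ρ * (s * p.im)) - π / 2 * (ρ ^ 2 * ‖β‖ ^ 2)) := by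
        rw [Complex.norm_exp, h2]
        congr 1
        have e1 : (I * (ρ * s * p)).re = -(ρ * (s * p.im)) := by
          simp [mul_assoc]
        have e2 : (π / 2 * ρ ^ 2 * (‖β‖ ^ 2 : ℝ) : ℂ).re = π / 2 * (ρ ^ 2 * ‖β‖ ^ 2) := by
          rw [show (π / 2 * ρ ^ 2 * (‖β‖ ^ 2 : ℝ) : ℂ) = ((π / 2 * (ρ ^ 2 * ‖β‖ ^ 2) : ℝ) : ℂ) by
            push_cast; ring]
          exact ofReal_re _
        rw [sub_re, e1, e2]
      have h5 : ‖H z‖ * ‖cexp (q z)‖ = ‖H 0‖ := by rw [← norm_mul, h1]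
      rw [← h5, h4, h3, mul_assoc, ← Real.exp_add]
      congr 2
      ring
    have hge : ∀ᶠ ρ : ℝ in atTop, ‖H 0‖ ≤ ‖H ((ρ : ℂ) * ((s : ℂ) * I * β))‖ *
        Real.exp (-(π / 2) * ‖((ρ : ℂ) * ((s : ℂ) * I * β))‖ ^ 2) := by
      filter_upwards [eventually_ge_atTop 0] with ρ hρ
      rw [hval ρ]
      have : 1 ≤ Real.exp (ρ * (s * p.im)) := Real.one_le_exp (mul_nonneg hρ hs)
      nlinarith [norm_nonneg (H 0)]
    have := ge_of_tendsto hlim hge
    exact hH0 (norm_le_zero_iff.1 this)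

theorem bigO_cube (Y : ℂ → ℂ) (hY : Continuous Y) (f : ℂ → ℂ) (hf : ∀ u, ‖f u‖ = ‖u‖ ^ 3 * ‖Y u‖) :
    f =O[𝓝 0] (fun u : ℂ => ‖u‖ ^ 3) := by
  have h1 : Y =O[𝓝 (0 : ℂ)] (fun _ => (1 : ℝ)) := (hY.tendsto 0).isBigO_one ℝ
  have h2 : (fun u : ℂ => ‖u‖ ^ 3 * ‖Y u‖) =O[𝓝 0] (fun u : ℂ => ‖u‖ ^ 3 * 1) :=
    (isBigO_refl _ _).mul h1.norm_left
  simp only [mul_one] at h2
  refine IsBigO.trans (IsBigO.of_bound 1 ?_) h2
  filter_upwards with u
  rw [hf u, one_mul, Real.norm_of_nonneg (by positivity)]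

theorem expansion (H : ℂ → ℂ) (hH : Differentiable ℂ H) (W : ℂ → ℂ) (hW : Continuous W) (z : ℂ) :
    ∃ a2 e2 : ℂ, (fun u => W u * (cexp (-π * z * conj u) * H (z + u))
      - W u * (H z + deriv H z * u + (-π * z) * H z * conj u)
      - W 0 * (a2 * u ^ 2 + (-π * z) * deriv H z * (u * conj u) + e2 * (conj u) ^ 2))
      =o[𝓝 0] (fun u : ℂ => ‖u‖ ^ 2) := by
  obtain ⟨a2, F3, hF3, hF⟩ := taylor2 (fun u => H (z + u)) (by fun_prop)
  obtain ⟨x2, X3, hX3, hX⟩ := taylor2 cexp Complex.differentiable_exp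
  have hd : deriv (fun u => H (z + u)) 0 = deriv H z := by
    rw [deriv_comp_const_add]
    simp
  rw [hd] at hF
  simp only [add_zero] at hF
  rw [Complex.deriv_exp, Complex.exp_zero] at hX
  set a0 := H z with ha0
  set a1 := deriv H z with ha1
  set b : ℂ := -π * z with hb
  refine ⟨a2, x2 * b ^ 2 * a0, ?_⟩
  have hHc : Continuous H := hH.continuous
  set P : ℂ → ℂ := fun u => (a0 + a1 * u + b * a0 * conj u) +
    (a2 * u ^ 2 + b * a1 * (u * conj u) + x2 * b ^ 2 * a0 * (conj u) ^ 2) with hP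
  have hexp : (fun u => cexp (b * conj u) * H (z + u) - P u) =O[𝓝 0] (fun u : ℂ => ‖u‖ ^ 3) := by
    have e1 : (fun u : ℂ => (conj u) ^ 3 * (b ^ 3 * X3 (b * conj u) * H (z + u))) =O[𝓝 0] (fun u : ℂ => ‖u‖ ^ 3) := by
      apply bigO_cube (fun u => b ^ 3 * X3 (b * conj u) * H (z + u))
      · have := continuous_conj
        fun_prop
      · intro u
        rw [norm_mul, norm_pow, RCLike.norm_conj]
    have e2 : (fun u : ℂ => u ^ 3 * ((1 + b * conj u + x2 * (b * conj u) ^ 2) * F3 u)) =O[𝓝 0] (fun u : ℂ => ‖u‖ ^ 3) := by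
      apply bigO_cube (fun u => (1 + b * conj u + x2 * (b * conj u) ^ 2) * F3 u)
      · have := continuous_conj
        fun_prop
      · intro u
        rw [norm_mul, norm_pow]
    have e3 : (fun u : ℂ => (u ^ 2 * conj u) * (b * a2 + x2 * b ^ 2 * a2 * conj u)) =O[𝓝 0] (fun u : ℂ => ‖u‖ ^ 3) := by
      apply bigO_cube (fun u => (b * a2 + x2 * b ^ 2 * a2 * conj u))
      · have := continuous_conj
        fun_prop
      · intro u
        rw [norm_mul, norm_mul, norm_pow, RCLike.norm_conj]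
        ring
    have e4 : (fun u : ℂ => (u * (conj u) ^ 2) * (x2 * b ^ 2 * a1)) =O[𝓝 0] (fun u : ℂ => ‖u‖ ^ 3) := by
      apply bigO_cube (fun u => (x2 * b ^ 2 * a1))
      · fun_prop
      · intro u
        rw [norm_mul, norm_mul, norm_pow, RCLike.norm_conj]
        ring
    refine (((e1.add e2).add e3).add e4).congr_left (fun u => ?_)
    have g1 := hX (b * conj u)
    have g2 := hF u
    simp only [hP]
    have g3 : cexp (b * conj u) * H (z + u) = (b * conj u) ^ 3 * X3 (b * conj u) * H (z + u) +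
        (1 + b * conj u + x2 * (b * conj u) ^ 2) * H (z + u) := by
      rw [g1]; ring
    rw [g3]
    have g4 : (1 + b * conj u + x2 * (b * conj u) ^ 2) * H (z + u) =
        (1 + b * conj u + x2 * (b * conj u) ^ 2) * (a0 + a1 * u + a2 * u ^ 2 + u ^ 3 * F3 u) := by
      rw [g2]
    rw [g4]
    ring
  have hlt : (fun u : ℂ => ‖u‖ ^ 3) =o[𝓝 0] (fun u : ℂ => ‖u‖ ^ 2) := by
    have h1 : (fun u : ℂ => ‖u‖) =o[𝓝 0] (fun _ => (1 : ℝ)) := by
      rw [isLittleO_one_iff]
      simpa using (continuous_norm (E := ℂ)).tendsto 0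
    have h2 := (isBigO_refl (fun u : ℂ => ‖u‖ ^ 2) (𝓝 0)).mul_isLittleO h1
    refine (h2.congr (fun u => ?_) (fun u => ?_))
    · ring
    · ring
  have hW1 : W =O[𝓝 (0 : ℂ)] (fun _ => (1 : ℝ)) := (hW.tendsto 0).isBigO_one ℝ
  have hWo : (fun u => W u - W 0) =o[𝓝 (0 : ℂ)] (fun _ => (1 : ℝ)) := by
    rw [isLittleO_one_iff]
    have := (hW.tendsto 0).sub_const (W 0)
    rwa [sub_self] at this
  have hq : (fun u : ℂ => (a2 * u ^ 2 + b * a1 * (u * conj u) + x2 * b ^ 2 * a0 * (conj u) ^ 2))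
      =O[𝓝 0] (fun u : ℂ => ‖u‖ ^ 2) := by
    apply IsBigO.of_bound (‖a2‖ + ‖b * a1‖ + ‖x2 * b ^ 2 * a0‖)
    filter_upwards with u
    rw [norm_pow, norm_norm]
    calc ‖a2 * u ^ 2 + b * a1 * (u * conj u) + x2 * b ^ 2 * a0 * (conj u) ^ 2‖
        ≤ ‖a2 * u ^ 2‖ + ‖b * a1 * (u * conj u)‖ + ‖x2 * b ^ 2 * a0 * (conj u) ^ 2‖ := norm_add₃_le
      _ = _ := by
        rw [norm_mul, norm_mul (b * a1), norm_mul (x2 * b ^ 2 * a0), norm_mul u, norm_pow, norm_pow, RCLike.norm_conj]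
        ring
  have f1 : (fun u => W u * (cexp (b * conj u) * H (z + u) - P u)) =o[𝓝 0] (fun u : ℂ => ‖u‖ ^ 2) := by
    have := (hW1.mul hexp)
    simp only [one_mul] at this
    exact this.trans_isLittleO hlt
  have f2 : (fun u => (W u - W 0) * (a2 * u ^ 2 + b * a1 * (u * conj u) + x2 * b ^ 2 * a0 * (conj u) ^ 2))
      =o[𝓝 0] (fun u : ℂ => ‖u‖ ^ 2) := by
    have := hWo.mul_isBigO hq
    simpa only [one_mul] using this
  refine (f1.add f2).congr_left (fun u => ?_)
  simp only [hP]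
  ring

end Pool.Agent.V11266.LRFa
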