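import Mathlib
import Pool.Agent.V11266.LRFa

/-! Disc moments and the main theorem of complex analysis for local reproducing formulas. -/

open Complex Filter Topology MeasureTheory Set Metric Asymptotics
open scoped ComplexConjugate Real

namespace Pool.Agent.V11266.LRFb
open LRFa

theorem intOn (f : ℂ → ℂ) (hf : Continuous f) (R : ℝ) : IntegrableOn f (ball (0 : ℂ) R) :=
  (hf.continuousOn.integrableOn_compact (isCompact_closedBall (0 : ℂ) R)).mono_set ball_subset_closedBall

theorem intOnR (f : ℂ → ℝ) (hf : Continuous f) (R : ℝ) : IntegrableOn f (ball (0 : ℂ) R) :=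
  (hf.continuousOn.integrableOn_compact (isCompact_closedBall (0 : ℂ) R)).mono_set ball_subset_closedBall

/-- second moment of the disc -/
noncomputable def mom (R : ℝ) : ℝ := ∫ u in ball (0 : ℂ) R, ‖u‖ ^ 2

theorem mom_pos (R : ℝ) (hR : 0 < R) : 0 < mom R := by
  rw [mom, setIntegral_pos_iff_support_of_nonneg_ae]
  · have h1 : ball (0 : ℂ) R \ {0} ⊆ (Function.support fun u : ℂ => ‖u‖ ^ 2) ∩ ball 0 R := by
      intro u hu
      refine ⟨?_, hu.1⟩
      have h2 : u ≠ 0 := hu.2
      simpa using h2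
    refine lt_of_lt_of_le ?_ (measure_mono h1)
    rw [measure_sdiff_null (measure_singleton 0)]
    exact measure_ball_pos _ _ hR
  · filter_upwards with u
    positivity
  · exact intOnR _ (by fun_prop) R

theorem isom_int (σ : ℂ ≃ₗᵢ[ℝ] ℂ) (f : ℂ → ℂ) (R : ℝ) :
    ∫ u in ball (0 : ℂ) R, f (σ u) = ∫ u in ball (0 : ℂ) R, f u := by
  have h := σ.measurePreserving.setIntegral_preimage_emb σ.toHomeomorph.measurableEmbedding f (ball 0 R)
  have h2 : σ ⁻¹' (ball (0 : ℂ) R) = ball 0 R := by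
    ext u
    simp
  rw [h2] at h
  exact h

theorem sq_int (R : ℝ) : ∫ u in ball (0 : ℂ) R, u ^ 2 = 0 := by
  have h := isom_int (rotation (Circle.exp (π / 2))) (fun u => u ^ 2) R
  have h1 : ∀ u : ℂ, (rotation (Circle.exp (π / 2)) u) ^ 2 = -u ^ 2 := by
    intro u
    rw [rotation_apply, Circle.coe_exp, mul_pow]
    have : cexp ((π / 2 : ℝ) * I) = I := by
      push_cast
      exact Complex.exp_pi_div_two_mul_I
    rw [this, I_sq]
    ring
  simp only [h1] at h
  rw [integral_neg] at h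
  have h2 : (2 : ℂ) * ∫ u in ball (0 : ℂ) R, u ^ 2 = 0 := by linear_combination -h
  exact (mul_eq_zero.1 h2).resolve_left two_ne_zero

theorem csq_int (R : ℝ) : ∫ u in ball (0 : ℂ) R, (conj u) ^ 2 = 0 := by
  have h : ∫ u in ball (0 : ℂ) R, (conj u) ^ 2 = conj (∫ u in ball (0 : ℂ) R, u ^ 2) := by
    rw [← integral_conj]
    simp only [map_pow]
  rw [h, sq_int, map_zero]

theorem mulc_int (R : ℝ) : ∫ u in ball (0 : ℂ) R, u * conj u = (mom R : ℂ) := by
  rw [mom, ← integral_complex_ofReal]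
  congr 1
  ext u
  rw [mul_conj, normSq_eq_norm_sq]

theorem avg_o (e : ℂ → ℂ) (he : Continuous e) (ho : e =o[𝓝 0] (fun u : ℂ => ‖u‖ ^ 2)) :
    Tendsto (fun R : ℝ => (∫ u in ball (0 : ℂ) R, e u) / (mom R : ℂ)) (𝓝[>] 0) (𝓝 0) := by
  rw [Metric.tendsto_nhds]
  intro ε hε
  have h1 := ho.bound (half_pos hε)
  obtain ⟨δ, hδ, hb⟩ := Metric.eventually_nhds_iff_ball.1 h1
  have hR : ∀ᶠ R : ℝ in 𝓝[>] 0, R ∈ Ioo (0 : ℝ) δ := Ioo_mem_nhdsGT hδ
  filter_upwards [hR] with R hR
  rw [dist_zero_right, norm_div, norm_real, Real.norm_of_nonneg (mom_pos R hR.1).le,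
    div_lt_iff₀ (mom_pos R hR.1)]
  calc ‖∫ u in ball (0 : ℂ) R, e u‖ ≤ ∫ u in ball (0 : ℂ) R, ‖e u‖ := norm_integral_le_integral_norm _
    _ ≤ ∫ u in ball (0 : ℂ) R, (ε / 2) * ‖u‖ ^ 2 := by
        apply setIntegral_mono_on (intOnR _ (by fun_prop) R) (intOnR _ (by fun_prop) R) measurableSet_ball
        intro u hu
        have := hb u (ball_subset_ball hR.2.le hu)
        rwa [norm_pow, norm_norm] at this
    _ = (ε / 2) * mom R := by rw [integral_const_mul, mom]
    _ < ε * mom R := by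
        have := mom_pos R hR.1
        nlinarith

theorem w2_eq (W : ℂ → ℂ) (hsym : ∀ u, W (-u) = conj (W u)) (R : ℝ) :
    ∫ u in ball (0 : ℂ) R, W u * conj u = - conj (∫ u in ball (0 : ℂ) R, W u * u) := by
  have h := isom_int (LinearIsometryEquiv.neg ℝ) (fun u => W u * conj u) R
  rw [← h, ← integral_conj, ← integral_neg]
  congr 1
  ext u
  simp only [LinearIsometryEquiv.coe_neg, hsym, map_neg, map_mul]
  ring

theorem main_CA (H : ℂ → ℂ) (hH : Differentiable ℂ H) (hne : ∃ z, H z ≠ 0)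
    (hdec : ∀ e : ℂ, e ≠ 0 → Tendsto
      (fun ρ : ℝ => ‖H ((ρ : ℂ) * e)‖ * Real.exp (-(π / 2) * ‖((ρ : ℂ) * e)‖ ^ 2)) atTop (𝓝 0))
    (W : ℂ → ℂ) (hW : Continuous W) (W0 : ℝ) (hW0 : 0 < W0) (hW00 : W 0 = W0)
    (hsym : ∀ u, W (-u) = conj (W u))
    (hform : ∀ R : ℝ, 0 < R → ∃ C : ℂ, ∀ z, C * H z =
      ∫ u in ball (0 : ℂ) R, W u * (cexp (-π * z * conj u) * H (z + u))) :
    ∃ (n : ℕ) (c z0 : ℂ), c ≠ 0 ∧ ∀ z, H z = c * (z - z0) ^ n * cexp (π * conj z0 * z) := by
  have hHc : Continuous H := hH.continuous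
  have hcc : Continuous (fun u : ℂ => conj u) := continuous_conj
  choose! C hC using hform
  set p : ℝ → ℂ := fun R => ((∫ u in ball (0 : ℂ) R, W u) - C R) / (mom R : ℂ) with hp
  set β : ℝ → ℂ := fun R => (∫ u in ball (0 : ℂ) R, W u * u) / (mom R : ℂ) with hβ
  -- the key limit
  have hkey : ∀ z, Tendsto (fun R => p R * H z + β R * deriv H z + π * z * conj (β R) * H z) (𝓝[>] 0)
      (𝓝 (π * W0 * z * deriv H z)) := by
    intro z
    obtain ⟨a2, e2, hexp⟩ := expansion H hH W hW z
    have hcont : Continuous (fun u => W u * (cexp (-π * z * conj u) * H (z + u))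
      - W u * (H z + deriv H z * u + (-π * z) * H z * conj u)
      - W 0 * (a2 * u ^ 2 + (-π * z) * deriv H z * (u * conj u) + e2 * (conj u) ^ 2)) := by
      fun_prop
    have hlim := avg_o _ hcont hexp
    have hlim2 : Tendsto (fun R => π * W0 * z * deriv H z +
        -((∫ u in ball (0 : ℂ) R, (W u * (cexp (-π * z * conj u) * H (z + u))
      - W u * (H z + deriv H z * u + (-π * z) * H z * conj u)
      - W 0 * (a2 * u ^ 2 + (-π * z) * deriv H z * (u * conj u) + e2 * (conj u) ^ 2))) / (mom R : ℂ)))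
        (𝓝[>] 0) (𝓝 (π * W0 * z * deriv H z + -0)) := tendsto_const_nhds.add hlim.neg
    rw [neg_zero, add_zero] at hlim2
    refine hlim2.congr' ?_
    have hR0 : ∀ᶠ R : ℝ in 𝓝[>] 0, R ∈ Ioi (0 : ℝ) := self_mem_nhdsWithin
    filter_upwards [hR0] with R hR
    have hm : (mom R : ℂ) ≠ 0 := by exact_mod_cast (mom_pos R hR).ne'
    have i1 : ∫ u in ball (0 : ℂ) R, (W u * (cexp (-π * z * conj u) * H (z + u))
      - W u * (H z + deriv H z * u + (-π * z) * H z * conj u)
      - W 0 * (a2 * u ^ 2 + (-π * z) * deriv H z * (u * conj u) + e2 * (conj u) ^ 2))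
      = C R * H z - (H z * (∫ u in ball (0 : ℂ) R, W u) + deriv H z * (∫ u in ball (0 : ℂ) R, W u * u)
        + (-π * z) * H z * (∫ u in ball (0 : ℂ) R, W u * conj u))
        - W 0 * ((-π * z) * deriv H z * (mom R : ℂ)) := by
      rw [integral_sub, integral_sub, ← hC R hR z]
      · congr 1
        · congr 1
          have e1 : ∀ u, W u * (H z + deriv H z * u + (-π * z) * H z * conj u)
              = H z * W u + deriv H z * (W u * u) + (-π * z) * H z * (W u * conj u) := by
            intro u; ring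
          simp only [e1]
          rw [integral_add, integral_add, integral_const_mul, integral_const_mul, integral_const_mul]
          · exact intOn _ (by fun_prop) R
          · exact intOn _ (by fun_prop) R
          · exact intOn _ (by fun_prop) R
          · exact intOn _ (by fun_prop) R
        · rw [integral_const_mul, integral_add, integral_add, integral_const_mul, integral_const_mul,
            integral_const_mul, sq_int, csq_int, mulc_int]
          · ring
          · exact intOn _ (by fun_prop) R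
          · exact intOn _ (by fun_prop) R
          · exact intOn _ (by fun_prop) R
          · exact intOn _ (by fun_prop) R
      · exact intOn _ (by fun_prop) R
      · exact intOn _ (by fun_prop) R
      · exact intOn _ (by fun_prop) R
      · exact intOn _ (by fun_prop) R
    rw [i1, w2_eq W hsym R, hW00]
    simp only [hp, hβ, map_div₀, conj_ofReal]
    field_simp
    ring
  -- linear maps
  let L : ℂ → (ℂ × ℂ) →L[ℝ] ℂ := fun z =>
    (H z) • (ContinuousLinearMap.fst ℝ ℂ ℂ) + (deriv H z) • (ContinuousLinearMap.snd ℝ ℂ ℂ)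
      + (π * z * H z) • ((conjCLE : ℂ →L[ℝ] ℂ).comp (ContinuousLinearMap.snd ℝ ℂ ℂ))
  have hL : ∀ z v, L z v = v.1 * H z + v.2 * deriv H z + π * z * conj v.2 * H z := by
    intro z v
    simp [L]
    ring
  have hseq : Tendsto (fun n : ℕ => (1 : ℝ) / ((n : ℝ) + 1)) atTop (𝓝[>] 0) := by
    apply tendsto_nhdsWithin_iff.2
    refine ⟨tendsto_one_div_add_atTop_nhds_zero_nat, ?_⟩
    filter_upwards with n
    show (0 : ℝ) < 1 / ((n : ℝ) + 1)
    positivity
  obtain ⟨w, hw⟩ := lim_lemma L (fun n : ℕ => (p (1 / ((n : ℝ) + 1)), β (1 / ((n : ℝ) + 1))))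
    (fun z => π * W0 * z * deriv H z) (by
      intro z
      have := (hkey z).comp hseq
      refine this.congr (fun n => ?_)
      rw [hL]
      rfl) (by
      intro u hu
      obtain ⟨z, hz⟩ := no_ode H hH hne hdec u.1 u.2 hu
      exact ⟨z, by rw [hL]; exact hz⟩)
  have hode : ∀ z, w.1 * H z + w.2 * deriv H z + π * z * conj w.2 * H z = π * W0 * z * deriv H z := by
    intro z
    rw [← hL]
    exact hw z
  -- solve the equation
  have hπ : (π : ℂ) ≠ 0 := by exact_mod_cast Real.pi_ne_zero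
  have hW0c : (W0 : ℂ) ≠ 0 := by exact_mod_cast hW0.ne'
  set z0 : ℂ := w.2 / (π * W0) with hz0
  have hz0c : conj z0 = conj w.2 / (π * W0) := by
    rw [hz0, map_div₀, map_mul, conj_ofReal, conj_ofReal]
  set K : ℂ → ℂ := fun z => H z * cexp (-(π * conj z0 * z)) with hK
  have hKd : ∀ z, HasDerivAt K (deriv H z * cexp (-(π * conj z0 * z)) +
      H z * (cexp (-(π * conj z0 * z)) * (-(π * conj z0 * 1)))) z := by
    intro z
    exact (hH z).hasDerivAt.mul ((((hasDerivAt_id z).const_mul (π * conj z0)).neg).cexp)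
  have hKdiff : Differentiable ℂ K := fun z => (hKd z).differentiableAt
  obtain ⟨n, c, hc, hKn⟩ := ode_pow K hKdiff z0 (w.1 / (π * W0) + π * z0 * conj z0) (by
    intro z
    rw [(hKd z).deriv, hK, hz0c, hz0]
    have h1 := hode z
    have h2 : (z - w.2 / (π * W0)) * deriv H z = (w.1 / (π * W0) + π * z * (conj w.2 / (π * W0)) * 1) * H z := by
      field_simp
      linear_combination -h1
    have h3 : (z - w.2 / (π * W0)) * (deriv H z * cexp (-(π * (conj w.2 / (π * W0)) * z)) +
      H z * (cexp (-(π * (conj w.2 / (π * W0)) * z)) * (-(π * (conj w.2 / (π * W0)) * 1))))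
      = ((z - w.2 / (π * W0)) * deriv H z) * cexp (-(π * (conj w.2 / (π * W0)) * z)) +
       (z - w.2 / (π * W0)) * (H z * (cexp (-(π * (conj w.2 / (π * W0)) * z)) * (-(π * (conj w.2 / (π * W0)) * 1)))) := by
      ring
    rw [h3, h2]
    ring) (by
    obtain ⟨z, hz⟩ := hne
    exact ⟨z, mul_ne_zero hz (Complex.exp_ne_zero _)⟩)
  refine ⟨n, c, z0, hc, fun z => ?_⟩
  rw [← hKn z, hK]
  simp only
  rw [mul_assoc, ← Complex.exp_add]
  simp

end Pool.Agent.V11266.LRFb
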