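import Mathlib
import Pool.Agent.V11266.LRFDefs

/-! The Bargmann type transform: analyticity, decay, injectivity. -/

open Complex Filter Topology MeasureTheory Set Metric
open scoped ComplexConjugate Real FourierTransform ContDiff

namespace Pool.Agent.V11266.LRFc
open LRF

theorem lin_le_sq (a t : ℝ) : a * |t| ≤ π * t ^ 2 / 2 + a ^ 2 / (2 * π) := by
  have hπ := Real.pi_pos
  have h : 0 ≤ (π * |t| - a) ^ 2 / (2 * π) := by positivity
  have h2 : (π * |t| - a) ^ 2 / (2 * π) = π * t ^ 2 / 2 - a * |t| + a ^ 2 / (2 * π) := by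
    field_simp
    rw [← sq_abs t]
    ring
  rw [h2] at h
  linarith

theorem poly_bound (k : ℕ) (c : ℝ) :
    ∃ K : ℝ, 0 ≤ K ∧ ∀ t : ℝ, |t| ^ k * Real.exp (c * |t|) ≤ K * Real.exp (π * t ^ 2 / 2) := by
  refine ⟨(k.factorial : ℝ) * Real.exp ((c + 1) ^ 2 / (2 * π)), by positivity, fun t => ?_⟩
  have h1 : |t| ^ k ≤ (k.factorial : ℝ) * Real.exp |t| := by
    have := Real.pow_div_factorial_le_exp |t| (abs_nonneg t) k
    rw [div_le_iff₀ (by positivity)] at this
    linarith
  have h2 := lin_le_sq (c + 1) t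
  calc |t| ^ k * Real.exp (c * |t|) ≤ (k.factorial : ℝ) * Real.exp |t| * Real.exp (c * |t|) := by
        gcongr
    _ = (k.factorial : ℝ) * Real.exp ((c + 1) * |t|) := by
        rw [mul_assoc, ← Real.exp_add]; ring_nf
    _ ≤ (k.factorial : ℝ) * Real.exp (π * t ^ 2 / 2 + (c + 1) ^ 2 / (2 * π)) := by
        gcongr
    _ = _ := by rw [Real.exp_add]; ring

theorem memLp_gauss (K : ℝ) : MemLp (fun t : ℝ => K * Real.exp (-(π * t ^ 2 / 2))) 2 volume := by
  rw [memLp_two_iff_integrable_sq (by fun_prop)]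
  have h := (integrable_exp_neg_mul_sq (b := π) Real.pi_pos).const_mul (K ^ 2)
  refine h.congr ?_
  filter_upwards with t
  rw [mul_pow, ← Real.exp_nat_mul]
  congr 2
  push_cast
  ring

theorem memLp_of_bound (f : ℝ → ℂ) (hf : AEStronglyMeasurable f volume) (K : ℝ)
    (h : ∀ t, ‖f t‖ ≤ K * Real.exp (-(π * t ^ 2 / 2))) : MemLp f 2 volume := by
  refine (memLp_gauss K).of_le hf ?_
  filter_upwards with t
  refine (h t).trans (le_abs_self _)

/-- the kernel -/
noncomputable def gker (ζ : ℂ) (t : ℝ) : ℂ := cexp (-(π * t ^ 2) + 2 * π * ζ * t)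

theorem norm_gker (ζ : ℂ) (t : ℝ) : ‖gker ζ t‖ = Real.exp (-(π * t ^ 2) + 2 * π * ζ.re * t) := by
  rw [gker, Complex.norm_exp]
  congr 1
  have : (-(π * t ^ 2) + 2 * π * ζ * t : ℂ) = ((-(π * t ^ 2) : ℝ) : ℂ) + ζ * ((2 * π * t : ℝ) : ℂ) := by
    push_cast; ring
  rw [this, add_re, ofReal_re, re_mul_ofReal]
  ring

theorem continuous_gker (ζ : ℂ) : Continuous (gker ζ) := by
  unfold gker
  fun_prop

theorem norm_gker_le (ζ : ℂ) (c : ℝ) (hc : 2 * π * |ζ.re| ≤ c) (t : ℝ) :
    ‖gker ζ t‖ ≤ Real.exp (c * |t|) * Real.exp (-(π * t ^ 2)) := by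
  rw [norm_gker, ← Real.exp_add, Real.exp_le_exp]
  have h1 : 2 * π * ζ.re * t ≤ (2 * π * |ζ.re|) * |t| := by
    calc 2 * π * ζ.re * t ≤ |2 * π * ζ.re * t| := le_abs_self _
      _ = (2 * π * |ζ.re|) * |t| := by
        rw [abs_mul, abs_mul, abs_mul, abs_of_pos Real.pi_pos]
        norm_num
  have h2 : (2 * π * |ζ.re|) * |t| ≤ c * |t| := by gcongr
  linarith

theorem pow_gker_le (k : ℕ) (c : ℝ) : ∃ K : ℝ, 0 ≤ K ∧ ∀ ζ : ℂ, 2 * π * |ζ.re| ≤ c → ∀ t : ℝ,
    |t| ^ k * ‖gker ζ t‖ ≤ K * Real.exp (-(π * t ^ 2 / 2)) := by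
  obtain ⟨K, hK, h⟩ := poly_bound k c
  refine ⟨K, hK, fun ζ hζ t => ?_⟩
  calc |t| ^ k * ‖gker ζ t‖ ≤ |t| ^ k * (Real.exp (c * |t|) * Real.exp (-(π * t ^ 2))) := by
        gcongr
        exact norm_gker_le ζ c hζ t
    _ = (|t| ^ k * Real.exp (c * |t|)) * Real.exp (-(π * t ^ 2)) := by ring
    _ ≤ (K * Real.exp (π * t ^ 2 / 2)) * Real.exp (-(π * t ^ 2)) :=
        mul_le_mul_of_nonneg_right (h t) (Real.exp_pos _).le
    _ = _ := by
        rw [mul_assoc, ← Real.exp_add]
        ring_nf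

theorem memLp_gker (ζ : ℂ) : MemLp (gker ζ) 2 volume := by
  obtain ⟨K, _, h⟩ := pow_gker_le 0 (2 * π * |ζ.re|)
  refine memLp_of_bound _ (continuous_gker ζ).aestronglyMeasurable K (fun t => ?_)
  simpa using h ζ le_rfl t

/-- `G g ζ = ∫ g(t) exp(-π t² + 2 π ζ t) dt`. -/
noncomputable def G (g : ℝ → ℂ) (ζ : ℂ) : ℂ := ∫ t : ℝ, g t * gker ζ t

/-- The Bargmann transform up to normalisation. -/
noncomputable def H (g : ℝ → ℂ) (ζ : ℂ) : ℂ := cexp (-(π * ζ ^ 2 / 2)) * G g ζ

theorem integrable_G (g : ℝ → ℂ) (hg : MemLp g 2 volume) (ζ : ℂ) :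
    Integrable (fun t => g t * gker ζ t) :=
  hg.integrable_mul (memLp_gker ζ)

theorem differentiable_G (g : ℝ → ℂ) (hg : MemLp g 2 volume) : Differentiable ℂ (G g) := by
  intro ζ0
  obtain ⟨K, hK, hb⟩ := pow_gker_le 1 (2 * π * (|ζ0.re| + 1))
  have hmeas : ∀ ζ, AEStronglyMeasurable (fun t => g t * gker ζ t) volume := fun ζ =>
    (integrable_G g hg ζ).aestronglyMeasurable
  have h := hasDerivAt_integral_of_dominated_loc_of_deriv_le (μ := volume) (𝕜 := ℂ)
    (F := fun ζ t => g t * gker ζ t) (F' := fun ζ t => g t * (gker ζ t * (2 * π * t)))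
    (x₀ := ζ0) (s := ball ζ0 1) (bound := fun t => ‖g t‖ * (2 * π * K * Real.exp (-(π * t ^ 2 / 2))))
    (ball_mem_nhds ζ0 one_pos) (Eventually.of_forall hmeas) (integrable_G g hg ζ0)
    (hg.1.mul (by
      have := continuous_gker ζ0
      exact (by fun_prop : Continuous fun t : ℝ => gker ζ0 t * (2 * π * t)).aestronglyMeasurable))
    (by
      filter_upwards with t ζ hζ
      rw [norm_mul, norm_mul]
      have h1 : ‖(2 * π * t : ℂ)‖ = 2 * π * |t| := by
        rw [norm_mul, norm_mul, norm_real, norm_real, Real.norm_of_nonneg Real.pi_pos.le, Real.norm_eq_abs]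
        simp
      rw [h1]
      have h2 : 2 * π * |ζ.re| ≤ 2 * π * (|ζ0.re| + 1) := by
        have h3 : |ζ.re| ≤ |ζ0.re| + 1 := by
          have h4 : |(ζ - ζ0).re| ≤ ‖ζ - ζ0‖ := abs_re_le_norm _
          have h5 : ‖ζ - ζ0‖ < 1 := by simpa [dist_eq_norm] using hζ
          have h6 : |ζ.re| ≤ |ζ0.re| + |(ζ - ζ0).re| := by
            rw [sub_re]
            calc |ζ.re| = |ζ0.re + (ζ.re - ζ0.re)| := by ring_nf
              _ ≤ _ := abs_add_le _ _
          linarith
        have := Real.pi_pos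
        gcongr
      have h7 := hb ζ h2 t
      rw [pow_one] at h7
      have : 0 ≤ ‖g t‖ := norm_nonneg _
      calc ‖g t‖ * (‖gker ζ t‖ * (2 * π * |t|)) = ‖g t‖ * (2 * π * (|t| * ‖gker ζ t‖)) := by ring
        _ ≤ ‖g t‖ * (2 * π * (K * Real.exp (-(π * t ^ 2 / 2)))) := by
          have := Real.pi_pos
          gcongr
        _ = _ := by ring)
    (by
      exact hg.norm.integrable_mul (memLp_gauss (2 * π * K)))
    (by
      filter_upwards with t ζ _
      have h1 : HasDerivAt (fun ζ : ℂ => gker ζ t) (gker ζ t * (2 * π * t)) ζ := by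
        unfold gker
        have h2 : HasDerivAt (fun ζ : ℂ => (-(π * t ^ 2) + 2 * π * ζ * t : ℂ)) (2 * π * t : ℂ) ζ := by
          have h3 : HasDerivAt (fun ζ : ℂ => (2 * π * ζ * t : ℂ)) (2 * π * 1 * t : ℂ) ζ :=
            ((hasDerivAt_id ζ).const_mul (2 * (π : ℂ))).mul_const (t : ℂ)
          rw [mul_one] at h3
          exact h3.const_add _
        exact h2.cexp
      exact h1.const_mul (g t))
  exact h.2.differentiableAt

theorem differentiable_H (g : ℝ → ℂ) (hg : MemLp g 2 volume) : Differentiable ℂ (H g) := by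
  have := differentiable_G g hg
  unfold H
  fun_prop

theorem norm_H_eq (g : ℝ → ℂ) (ζ : ℂ) :
    ‖H g ζ‖ * Real.exp (-(π / 2) * ‖ζ‖ ^ 2) = ‖G g ζ‖ * Real.exp (-(π * ζ.re ^ 2)) := by
  rw [H, norm_mul, Complex.norm_exp]
  have h1 : (-(π * ζ ^ 2 / 2)).re = -(π / 2) * (ζ.re ^ 2 - ζ.im ^ 2) := by
    have : (-(π * ζ ^ 2 / 2) : ℂ) = ((-(π / 2) : ℝ) : ℂ) * ζ ^ 2 := by push_cast; ring
    rw [this, re_ofReal_mul]
    congr 1
    rw [sq, mul_re]
    ring
  have h2 : ‖ζ‖ ^ 2 = ζ.re ^ 2 + ζ.im ^ 2 := by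
    rw [← normSq_eq_norm_sq, normSq_apply]; ring
  rw [h1, h2, mul_comm (Real.exp _), mul_assoc, ← Real.exp_add]
  congr 2
  ring

theorem decay (g : ℝ → ℂ) (hg : MemLp g 2 volume) (e : ℂ) (he : e ≠ 0) :
    Tendsto (fun ρ : ℝ => ‖H g ((ρ : ℂ) * e)‖ * Real.exp (-(π / 2) * ‖((ρ : ℂ) * e)‖ ^ 2)) atTop (𝓝 0) := by
  simp only [norm_H_eq]
  by_cases ha : e.re = 0
  · -- Riemann-Lebesgue
    have hb : e.im ≠ 0 := by
      intro h
      exact he (Complex.ext ha h)
    have h1 := Real.tendsto_integral_exp_smul_cocompact (fun t : ℝ => g t * gker 0 t)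
    have h2 : Tendsto (fun ρ : ℝ => -(ρ * e.im)) atTop (cocompact ℝ) := by
      rw [← Metric.cobounded_eq_cocompact, ← tendsto_norm_atTop_iff_cobounded]
      have h3 : (fun ρ : ℝ => ‖-(ρ * e.im)‖) = fun ρ => |ρ| * |e.im| := by
        ext ρ
        rw [norm_neg, Real.norm_eq_abs, abs_mul]
      rw [h3]
      exact tendsto_abs_atTop_atTop.atTop_mul_const (abs_pos.2 hb)
    have h4 := (h1.comp h2).norm
    rw [norm_zero] at h4
    refine h4.congr (fun ρ => ?_)
    have h5 : ((ρ : ℂ) * e).re = 0 := by rw [re_ofReal_mul, ha, mul_zero]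
    rw [h5]
    have h6 : (ρ : ℂ) * e = ((ρ * e.im : ℝ) : ℂ) * I := by
      apply Complex.ext
      · simp [ha]
      · simp
    simp only [Function.comp, G]
    rw [show Real.exp (-(π * (0 : ℝ) ^ 2)) = 1 by simp, mul_one, h6]
    congr 1
    congr 1
    ext t
    rw [Circle.smul_def, Real.fourierChar_apply, smul_eq_mul, gker, gker]
    rw [← mul_assoc, mul_comm (cexp _) (g t), mul_assoc, ← Complex.exp_add]
    congr 2
    push_cast
    ring
  · -- Cauchy-Schwarz
    have hle : ∀ ρ : ℝ, ∀ ε : ℝ, 0 < ε → ‖G g ((ρ : ℂ) * e)‖ * Real.exp (-(π * ((ρ : ℂ) * e).re ^ 2))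
        ≤ (1 / (2 * ε)) * (∫ t : ℝ, ‖g t‖ ^ 2 * Real.exp (-π * (t - ρ * e.re) ^ 2)) + ε / 2 := by
      intro ρ ε hε
      have hre : ((ρ : ℂ) * e).re = ρ * e.re := re_ofReal_mul _ _
      rw [hre]
      set x := ρ * e.re with hx
      have hint1 : Integrable (fun t : ℝ => ‖g t‖ ^ 2 * Real.exp (-π * (t - x) ^ 2)) := by
        have h1 : Integrable (fun t : ℝ => ‖g t‖ ^ 2) :=
          (memLp_two_iff_integrable_sq_norm hg.1).1 hg
        refine h1.mono (h1.1.mul (by fun_prop)) ?_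
        filter_upwards with t
        rw [norm_mul]
        apply mul_le_of_le_one_right (norm_nonneg _)
        rw [Real.norm_of_nonneg (Real.exp_pos _).le, Real.exp_le_one_iff]
        have := Real.pi_pos
        nlinarith [sq_nonneg (t - x)]
      have hint2 : Integrable (fun t : ℝ => Real.exp (-π * (t - x) ^ 2)) :=
        (integrable_exp_neg_mul_sq (b := π) Real.pi_pos).comp_sub_right x
      have hval2 : ∫ t : ℝ, Real.exp (-π * (t - x) ^ 2) = 1 := by
        rw [integral_sub_right_eq_self (fun t : ℝ => Real.exp (-π * t ^ 2)) x, integral_gaussian,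
          div_self Real.pi_ne_zero, Real.sqrt_one]
      rw [G]
      calc ‖∫ t : ℝ, g t * gker (ρ * e) t‖ * Real.exp (-(π * x ^ 2))
          ≤ (∫ t : ℝ, ‖g t * gker (ρ * e) t‖) * Real.exp (-(π * x ^ 2)) := by
            gcongr
            exact norm_integral_le_integral_norm _
        _ = ∫ t : ℝ, ‖g t * gker (ρ * e) t‖ * Real.exp (-(π * x ^ 2)) := by
            rw [integral_mul_const]
        _ ≤ ∫ t : ℝ, ((1 / (2 * ε)) * (‖g t‖ ^ 2 * Real.exp (-π * (t - x) ^ 2)) + (ε / 2) * Real.exp (-π * (t - x) ^ 2)) := by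
            apply integral_mono
            · exact (integrable_G g hg _).norm.mul_const _
            · exact (hint1.const_mul _).add (hint2.const_mul _)
            · intro t
              simp only
              rw [norm_mul, norm_gker, hre, mul_assoc, ← Real.exp_add]
              have h3 : -(π * t ^ 2) + 2 * π * x * t + -(π * x ^ 2) = -π * (t - x) ^ 2 := by ring
              rw [h3]
              have h4 := Real.exp_pos (-π * (t - x) ^ 2)
              have h5 : ‖g t‖ ≤ (1 / (2 * ε)) * ‖g t‖ ^ 2 + ε / 2 := by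
                have h6 : 0 ≤ (‖g t‖ - ε) ^ 2 / (2 * ε) := by positivity
                have h7 : (‖g t‖ - ε) ^ 2 / (2 * ε) = (1 / (2 * ε)) * ‖g t‖ ^ 2 - ‖g t‖ + ε / 2 := by
                  field_simp
                  ring
                linarith
              calc ‖g t‖ * Real.exp (-π * (t - x) ^ 2) ≤ ((1 / (2 * ε)) * ‖g t‖ ^ 2 + ε / 2) * Real.exp (-π * (t - x) ^ 2) := by
                    gcongr
                _ = _ := by ring
        _ = _ := by
            rw [integral_add (hint1.const_mul _) (hint2.const_mul _), integral_const_mul, integral_const_mul, hval2]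
            ring
    have hDCT : Tendsto (fun ρ : ℝ => ∫ t : ℝ, ‖g t‖ ^ 2 * Real.exp (-π * (t - ρ * e.re) ^ 2)) atTop (𝓝 0) := by
      have h1 : Integrable (fun t : ℝ => ‖g t‖ ^ 2) := (memLp_two_iff_integrable_sq_norm hg.1).1 hg
      have h2 := tendsto_integral_filter_of_dominated_convergence (μ := volume) (l := (atTop : Filter ℝ))
        (F := fun ρ t => ‖g t‖ ^ 2 * Real.exp (-π * (t - ρ * e.re) ^ 2)) (f := fun _ => (0 : ℝ))
        (fun t => ‖g t‖ ^ 2) ?_ ?_ h1 ?_
      · simpa using h2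
      · filter_upwards with ρ
        exact h1.1.mul (by fun_prop)
      · filter_upwards with ρ
        filter_upwards with t
        rw [norm_mul, norm_pow, norm_norm]
        apply mul_le_of_le_one_right (by positivity)
        rw [Real.norm_of_nonneg (Real.exp_pos _).le, Real.exp_le_one_iff]
        have := Real.pi_pos
        nlinarith [sq_nonneg (t - ρ * e.re)]
      · filter_upwards with t
        have h3 : Tendsto (fun ρ : ℝ => -π * (t - ρ * e.re) ^ 2) atTop atBot := by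
          have h4 : Tendsto (fun ρ : ℝ => |t - ρ * e.re|) atTop atTop := by
            have h5 : Tendsto (fun ρ : ℝ => |ρ| * |e.re| - |t|) atTop atTop := by
              apply tendsto_atTop_add_const_right
              exact tendsto_abs_atTop_atTop.atTop_mul_const (abs_pos.2 ha)
            refine tendsto_atTop_mono (fun ρ => ?_) h5
            rw [← abs_mul, abs_sub_comm]
            linarith [abs_sub_abs_le_abs_sub (ρ * e.re) t]
          have h6 : Tendsto (fun ρ : ℝ => |t - ρ * e.re| ^ 2) atTop atTop :=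
            (tendsto_pow_atTop two_ne_zero).comp h4
          have h7 : Tendsto (fun ρ : ℝ => -π * |t - ρ * e.re| ^ 2) atTop atBot :=
            h6.const_mul_atTop_of_neg (by linarith [Real.pi_pos])
          refine h7.congr (fun ρ => ?_)
          rw [sq_abs]
        have h8 := (Real.tendsto_exp_atBot.comp h3).const_mul (‖g t‖ ^ 2)
        rw [mul_zero] at h8
        exact h8
    rw [Metric.tendsto_nhds]
    intro ε hε
    have h1 : Tendsto (fun ρ : ℝ => (1 / (2 * ε)) * (∫ t : ℝ, ‖g t‖ ^ 2 * Real.exp (-π * (t - ρ * e.re) ^ 2)) + ε / 2) atTop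
        (𝓝 ((1 / (2 * ε)) * 0 + ε / 2)) := (hDCT.const_mul _).add_const _
    rw [mul_zero, zero_add] at h1
    filter_upwards [h1.eventually_lt_const (half_lt_self hε)] with ρ hρ
    rw [dist_zero_right, Real.norm_of_nonneg (by positivity)]
    exact (hle ρ ε hε).trans_lt hρ

end Pool.Agent.V11266.LRFc
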