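import Mathlib
import Pool.Agent.V11266.LRFDefs
import Pool.Agent.V11266.LRFc

/-! Injectivity, covariance, Hermite functions, continuity of the ambiguity function. -/

open Complex Filter Topology MeasureTheory Set Metric
open scoped ComplexConjugate Real FourierTransform ContDiff SchwartzMap

namespace Pool.Agent.V11266.LRFd
open LRF LRFc

theorem injective_G (f : ℝ → ℂ) (hf : MemLp f 2 volume) (h0 : ∀ ζ, G f ζ = 0) : f =ᵐ[volume] 0 := by
  set φ : ℝ → ℂ := fun t => f t * gker 0 t with hφdef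
  have hφ : Integrable φ := integrable_G f hf 0
  have hF : ∀ w : ℝ, VectorFourier.fourierIntegral 𝐞 volume (innerₗ ℝ).flip φ w = 0 := by
    intro w
    have h1 := h0 ((-w : ℝ) * I)
    rw [G] at h1
    rw [VectorFourier.fourierIntegral, ← h1]
    congr 1
    ext t
    rw [Circle.smul_def, Real.fourierChar_apply, smul_eq_mul, hφdef]
    simp only [gker]
    rw [mul_comm, mul_assoc, ← Complex.exp_add]
    congr 2
    simp only [LinearMap.flip_apply, innerₗ_apply_apply, RCLike.inner_apply, conj_trivial]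
    push_cast
    ring
  have hφ0 : ∀ᵐ t, φ t = 0 := by
    apply ae_eq_zero_of_integral_contDiff_smul_eq_zero hφ.locallyIntegrable
    intro g hg1 hg2
    have hc : HasCompactSupport (Complex.ofRealCLM ∘ g) := hg2.comp_left rfl
    have hs : ContDiff ℝ ∞ (Complex.ofRealCLM ∘ g) := by fun_prop
    set s : 𝓢(ℝ, ℂ) := hc.toSchwartzMap hs with hsdef
    set h : 𝓢(ℝ, ℂ) := 𝓕⁻ s with hh
    have h1 : 𝓕 h = s := FourierTransform.fourier_fourierInv_eq s
    have h2 : ∀ x, (g x : ℂ) = VectorFourier.fourierIntegral 𝐞 volume (innerₗ ℝ) h x := by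
      intro x
      have h3 : (𝓕 h) x = s x := by rw [h1]
      rw [SchwartzMap.fourier_coe] at h3
      have h4 : s x = (g x : ℂ) := rfl
      rw [← h4, ← h3]
      rfl
    calc ∫ x, g x • φ x = ∫ x, (VectorFourier.fourierIntegral 𝐞 volume (innerₗ ℝ) h x) • φ x := by
          congr 1
          ext x
          rw [← h2 x]
          simp
      _ = ∫ v, h v • (VectorFourier.fourierIntegral 𝐞 volume (innerₗ ℝ).flip φ v) :=
          VectorFourier.integral_fourierIntegral_smul_eq_flip (L := innerₗ ℝ) Real.continuous_fourierChar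
            continuous_inner h.integrable hφ
      _ = 0 := by simp only [hF, smul_zero, integral_zero]
  filter_upwards [hφ0] with t ht
  exact (mul_eq_zero.1 ht).resolve_right (Complex.exp_ne_zero _)

theorem G_tfShift (g : ℝ → ℂ) (x ξ : ℝ) (ζ : ℂ) :
    G (tfShift (x, ξ) g) ζ = cexp (-(π * x ^ 2) + 2 * π * ζ * x + 2 * π * I * ξ * x)
      * G g (ζ + (-x + ξ * I)) := by
  rw [G, G, ← integral_const_mul]
  rw [← integral_sub_right_eq_self (fun s : ℝ => cexp (-(π * x ^ 2) + 2 * π * ζ * x + 2 * π * I * ξ * x)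
      * (g s * gker (ζ + (-x + ξ * I)) s)) x]
  congr 1
  ext t
  simp only [tfShift, gker]
  have h1 : cexp (2 * π * I * ξ * t) * g (t - x) * cexp (-(π * t ^ 2) + 2 * π * ζ * t)
      = g (t - x) * (cexp (2 * π * I * ξ * t) * cexp (-(π * t ^ 2) + 2 * π * ζ * t)) := by ring
  have h2 : ∀ a b : ℂ, cexp a * (g (t - x) * cexp b) = g (t - x) * (cexp a * cexp b) := by
    intro a b; ring
  rw [h1, h2, ← Complex.exp_add, ← Complex.exp_add]
  congr 2
  push_cast
  ring

theorem H_tfShift (g : ℝ → ℂ) (x ξ : ℝ) (ζ : ℂ) :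
    H (tfShift (x, ξ) g) ζ = cexp (π * I * ξ * x - π / 2 * (x ^ 2 + ξ ^ 2))
      * (cexp (-π * ζ * conj (-x + ξ * I : ℂ)) * H g (ζ + (-x + ξ * I))) := by
  rw [H, H, G_tfShift]
  rw [← mul_assoc, ← mul_assoc, ← mul_assoc, ← Complex.exp_add, ← Complex.exp_add, ← Complex.exp_add]
  congr 2
  simp only [map_add, map_neg, map_mul, conj_ofReal, conj_I]
  linear_combination (π * ξ ^ 2 / 2 : ℂ) * I_sq

theorem memLp_tfShift (g : ℝ → ℂ) (hg : MemLp g 2 volume) (z : ℝ × ℝ) : MemLp (tfShift z g) 2 volume := by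
  have h1 : MemLp (fun t => g (t - z.1)) 2 volume :=
    hg.comp_measurePreserving (measurePreserving_sub_right volume z.1)
  refine h1.of_le ?_ ?_
  · exact (by fun_prop : Continuous fun t : ℝ => cexp (2 * π * I * z.2 * t)).aestronglyMeasurable.mul h1.1
  · filter_upwards with t
    rw [tfShift, norm_mul]
    have : ‖cexp (2 * π * I * z.2 * t)‖ = 1 := by
      rw [show (2 * π * I * z.2 * t : ℂ) = ((2 * π * z.2 * t : ℝ) : ℂ) * I by push_cast; ring]
      exact norm_exp_ofReal_mul_I _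
    rw [this, one_mul]

theorem memLp_two_iff' (f : ℝ → ℂ) : MemLp f 2 volume ↔ MemLp f (ENNReal.ofReal 2) volume := by
  rw [ENNReal.ofReal_ofNat]

/-- the cross ambiguity integral -/
noncomputable def Q (f h : ℝ → ℂ) (w : ℝ × ℝ) : ℂ := ∫ t : ℝ, cexp (2 * π * I * w.2 * t) * f (t - w.1) * h t

theorem norm_mod (ξ t : ℝ) : ‖cexp (2 * π * I * ξ * t)‖ = 1 := by
  rw [show (2 * π * I * ξ * t : ℂ) = ((2 * π * ξ * t : ℝ) : ℂ) * I by push_cast; ring]
  exact norm_exp_ofReal_mul_I _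

theorem integrable_Q (f h : ℝ → ℂ) (hf : MemLp f 2 volume) (hh : MemLp h 2 volume) (w : ℝ × ℝ) :
    Integrable (fun t : ℝ => cexp (2 * π * I * w.2 * t) * f (t - w.1) * h t) :=
  (memLp_tfShift f hf w).integrable_mul hh

theorem continuous_Q_cpt (f h : ℝ → ℂ) (hf : Continuous f) (hfc : HasCompactSupport f)
    (hf2 : MemLp f 2 volume) (hh : MemLp h 2 volume) : Continuous (Q f h) := by
  rw [continuous_iff_continuousAt]
  intro w0
  obtain ⟨M, hM⟩ := hf.bounded_above_of_compact_support hfc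
  obtain ⟨A, hA⟩ := hfc.isCompact.isBounded.subset_closedBall (0 : ℝ)
  have hM0 : 0 ≤ M := (norm_nonneg _).trans (hM 0)
  have hint : Integrable ((closedBall (0 : ℝ) (A + |w0.1| + 1)).indicator (fun t => M * ‖h t‖)) := by
    rw [integrable_indicator_iff measurableSet_closedBall]
    exact ((hh.locallyIntegrable one_le_two).integrableOn_isCompact (isCompact_closedBall _ _)).norm.const_mul M
  refine continuousAt_of_dominated (bound := (closedBall (0 : ℝ) (A + |w0.1| + 1)).indicator (fun t => M * ‖h t‖))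
    ?_ ?_ hint ?_
  · filter_upwards with w
    exact (integrable_Q f h hf2 hh w).1
  · filter_upwards [Metric.ball_mem_nhds w0 one_pos] with w hw
    filter_upwards with t
    by_cases ht : t ∈ closedBall (0 : ℝ) (A + |w0.1| + 1)
    · rw [indicator_of_mem ht, norm_mul, norm_mul, norm_mod, one_mul]
      gcongr
      exact hM _
    · have h1 : f (t - w.1) = 0 := by
        by_contra hne
        have h2 : t - w.1 ∈ tsupport f := subset_closure (Function.mem_support.2 hne)
        have h3 := hA h2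
        rw [mem_closedBall, dist_zero_right, Real.norm_eq_abs] at h3
        apply ht
        rw [mem_closedBall, dist_zero_right, Real.norm_eq_abs]
        have h4 : |w.1 - w0.1| ≤ 1 := by
          have h5 : dist w w0 < 1 := hw
          rw [Prod.dist_eq, max_lt_iff, Real.dist_eq] at h5
          exact h5.1.le
        have h6 : |t| ≤ |t - w.1| + |w.1 - w0.1| + |w0.1| := by
          calc |t| = |(t - w.1) + (w.1 - w0.1) + w0.1| := by ring_nf
            _ ≤ _ := abs_add_three _ _ _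
        linarith
      rw [indicator_of_notMem ht, h1]
      simp
  · filter_upwards with t
    apply Continuous.continuousAt
    fun_prop

theorem continuous_Q (f h : ℝ → ℂ) (hf : MemLp f 2 volume) (hh : MemLp h 2 volume) :
    Continuous (Q f h) := by
  apply continuous_of_uniform_approx_of_continuous
  intro u hu
  obtain ⟨ε, hε, hεu⟩ := Metric.mem_uniformity_dist.1 hu
  set S : ℝ := ∫ t : ℝ, ‖h t‖ ^ 2 with hS
  have hS0 : 0 ≤ S := integral_nonneg (fun t => by positivity)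
  have hhi : Integrable (fun t : ℝ => ‖h t‖ ^ 2) := (memLp_two_iff_integrable_sq_norm hh.1).1 hh
  set δ : ℝ := ε / (S + 1) with hδ
  have hδ0 : 0 < δ := by positivity
  obtain ⟨k, hk1, hk2, hk3, hk4⟩ := ((memLp_two_iff' f).1 hf).exists_hasCompactSupport_integral_rpow_sub_le
    two_pos (show (0 : ℝ) < δ * ε / 2 by positivity)
  have hk5 : MemLp k 2 volume := (memLp_two_iff' k).2 hk4
  refine ⟨Q k h, continuous_Q_cpt k h hk3 hk1 hk5 hh, fun w => hεu ?_⟩
  rw [dist_eq_norm, Q, Q, ← integral_sub (integrable_Q f h hf hh w) (integrable_Q k h hk5 hh w)]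
  have hd : MemLp (fun t => f t - k t) 2 volume := hf.sub hk5
  have hdi : Integrable (fun t : ℝ => ‖f t - k t‖ ^ 2) := (memLp_two_iff_integrable_sq_norm hd.1).1 hd
  have hdi2 : Integrable (fun t : ℝ => ‖f (t - w.1) - k (t - w.1)‖ ^ 2) := hdi.comp_sub_right w.1
  have hd3 : ∫ t : ℝ, ‖f (t - w.1) - k (t - w.1)‖ ^ 2 ≤ δ * ε / 2 := by
    rw [integral_sub_right_eq_self (fun t : ℝ => ‖f t - k t‖ ^ 2) w.1]
    refine le_trans (le_of_eq ?_) hk2
    congr 1
    ext t
    rw [Real.rpow_two]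
  calc ‖∫ t : ℝ, (cexp (2 * π * I * w.2 * t) * f (t - w.1) * h t - cexp (2 * π * I * w.2 * t) * k (t - w.1) * h t)‖
      ≤ ∫ t : ℝ, ‖cexp (2 * π * I * w.2 * t) * f (t - w.1) * h t - cexp (2 * π * I * w.2 * t) * k (t - w.1) * h t‖ :=
        norm_integral_le_integral_norm _
    _ ≤ ∫ t : ℝ, ((1 / (2 * δ)) * ‖f (t - w.1) - k (t - w.1)‖ ^ 2 + (δ / 2) * ‖h t‖ ^ 2) := by
        apply integral_mono
        · exact ((integrable_Q f h hf hh w).sub (integrable_Q k h hk5 hh w)).norm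
        · exact (hdi2.const_mul _).add (hhi.const_mul _)
        · intro t
          simp only
          rw [show cexp (2 * π * I * w.2 * t) * f (t - w.1) * h t - cexp (2 * π * I * w.2 * t) * k (t - w.1) * h t
            = cexp (2 * π * I * w.2 * t) * ((f (t - w.1) - k (t - w.1)) * h t) by ring, norm_mul, norm_mod,
            one_mul, norm_mul]
          have h6 : 0 ≤ (‖f (t - w.1) - k (t - w.1)‖ - δ * ‖h t‖) ^ 2 / (2 * δ) := by positivity
          have h7 : (‖f (t - w.1) - k (t - w.1)‖ - δ * ‖h t‖) ^ 2 / (2 * δ)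
            = (1 / (2 * δ)) * ‖f (t - w.1) - k (t - w.1)‖ ^ 2 - ‖f (t - w.1) - k (t - w.1)‖ * ‖h t‖ + (δ / 2) * ‖h t‖ ^ 2 := by
            field_simp
            ring
          linarith
    _ = (1 / (2 * δ)) * (∫ t : ℝ, ‖f (t - w.1) - k (t - w.1)‖ ^ 2) + (δ / 2) * S := by
        rw [integral_add (hdi2.const_mul _) (hhi.const_mul _), integral_const_mul, integral_const_mul]
    _ ≤ (1 / (2 * δ)) * (δ * ε / 2) + (δ / 2) * S := by gcongr
    _ < ε := by
        have h8 : (1 / (2 * δ)) * (δ * ε / 2) = ε / 4 := by field_simp; ring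
        have h9 : δ * S ≤ ε := by
          rw [hδ, div_mul_eq_mul_div, div_le_iff₀ (by positivity)]
          nlinarith
        rw [h8]
        linarith

/-! ### Hermite functions -/

theorem iterDer (n : ℕ) : ∃ P : Polynomial ℂ, ∀ t : ℝ,
    iteratedDeriv n (fun s : ℝ => cexp (-(2 * π * s ^ 2))) t = P.eval (t : ℂ) * cexp (-(2 * π * t ^ 2)) ∧
    HasDerivAt (iteratedDeriv n (fun s : ℝ => cexp (-(2 * π * s ^ 2))))
      (iteratedDeriv (n + 1) (fun s : ℝ => cexp (-(2 * π * s ^ 2))) t) t := by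
  have key : ∀ (P : Polynomial ℂ) (t : ℝ), HasDerivAt (fun t : ℝ => P.eval (t : ℂ) * cexp (-(2 * π * t ^ 2)))
      ((Polynomial.derivative P - Polynomial.C (4 * π : ℂ) * Polynomial.X * P).eval (t : ℂ) * cexp (-(2 * π * t ^ 2))) t := by
    intro P t
    have h1 : HasDerivAt (fun z : ℂ => P.eval z * cexp (-(2 * π * z ^ 2)))
        ((Polynomial.derivative P).eval (t : ℂ) * cexp (-(2 * π * t ^ 2)) +
          P.eval (t : ℂ) * (cexp (-(2 * π * t ^ 2)) * (-(2 * π * (2 * t))))) (t : ℂ) := by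
      have h2 := P.hasDerivAt (t : ℂ)
      have h3 : HasDerivAt (fun z : ℂ => (-(2 * π * z ^ 2) : ℂ)) (-(2 * π * (2 * t)) : ℂ) (t : ℂ) := by
        have h4 : HasDerivAt (fun z : ℂ => z ^ 2) (2 * t : ℂ) (t : ℂ) := by simpa using hasDerivAt_pow 2 (t : ℂ)
        exact (h4.const_mul _).neg
      exact h2.mul h3.cexp
    have h5 := h1.comp_ofReal
    have h6 : (Polynomial.derivative P - Polynomial.C (4 * π : ℂ) * Polynomial.X * P).eval (t : ℂ) * cexp (-(2 * π * t ^ 2))
      = (Polynomial.derivative P).eval (t : ℂ) * cexp (-(2 * π * t ^ 2)) +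
          P.eval (t : ℂ) * (cexp (-(2 * π * t ^ 2)) * (-(2 * π * (2 * t)))) := by
      simp only [Polynomial.eval_sub, Polynomial.eval_mul, Polynomial.eval_C, Polynomial.eval_X]
      ring
    rw [h6]
    exact h5
  induction n with
  | zero =>
    refine ⟨1, fun t => ⟨by simp, ?_⟩⟩
    rw [zero_add, iteratedDeriv_one, iteratedDeriv_zero]
    have h1 := key 1 t
    simp only [Polynomial.eval_one, one_mul] at h1
    exact h1.differentiableAt.hasDerivAt
  | succ n ih =>
    obtain ⟨P, hP⟩ := ih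
    have h1 : iteratedDeriv n (fun s : ℝ => cexp (-(2 * π * s ^ 2))) = fun t : ℝ => P.eval (t : ℂ) * cexp (-(2 * π * t ^ 2)) := by
      ext t
      exact (hP t).1
    have h2 : ∀ t : ℝ, iteratedDeriv (n + 1) (fun s : ℝ => cexp (-(2 * π * s ^ 2))) t =
        (Polynomial.derivative P - Polynomial.C (4 * π : ℂ) * Polynomial.X * P).eval (t : ℂ) * cexp (-(2 * π * t ^ 2)) := by
      intro t
      rw [iteratedDeriv_succ, h1]
      exact (key P t).deriv
    refine ⟨Polynomial.derivative P - Polynomial.C (4 * π : ℂ) * Polynomial.X * P, fun t => ⟨h2 t, ?_⟩⟩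
    have h3 : iteratedDeriv (n + 1) (fun s : ℝ => cexp (-(2 * π * s ^ 2))) = fun t : ℝ =>
        (Polynomial.derivative P - Polynomial.C (4 * π : ℂ) * Polynomial.X * P).eval (t : ℂ) * cexp (-(2 * π * t ^ 2)) := by
      ext t
      exact h2 t
    rw [iteratedDeriv_succ (n := n + 1)]
    have h4 : DifferentiableAt ℝ (iteratedDeriv (n + 1) (fun s : ℝ => cexp (-(2 * π * s ^ 2)))) t := by
      rw [h3]
      exact (key _ t).differentiableAt
    exact h4.hasDerivAt

theorem poly_gker (P : Polynomial ℂ) (ζ : ℂ) : ∃ K : ℝ, ∀ t : ℝ,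
    ‖P.eval (t : ℂ)‖ * ‖gker ζ t‖ ≤ K * Real.exp (-(π * t ^ 2 / 2)) := by
  induction P using Polynomial.induction_on' with
  | add p q hp hq =>
    obtain ⟨K1, h1⟩ := hp
    obtain ⟨K2, h2⟩ := hq
    refine ⟨K1 + K2, fun t => ?_⟩
    rw [Polynomial.eval_add, add_mul]
    calc ‖p.eval (t : ℂ) + q.eval (t : ℂ)‖ * ‖gker ζ t‖ ≤ (‖p.eval (t : ℂ)‖ + ‖q.eval (t : ℂ)‖) * ‖gker ζ t‖ := by
          gcongr
          exact norm_add_le _ _
      _ ≤ _ := by rw [add_mul]; exact add_le_add (h1 t) (h2 t)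
  | monomial n a =>
    obtain ⟨K, hK, h⟩ := pow_gker_le n (2 * π * |ζ.re|)
    refine ⟨‖a‖ * K, fun t => ?_⟩
    rw [Polynomial.eval_monomial, norm_mul, norm_pow, norm_real, Real.norm_eq_abs, mul_assoc, mul_assoc]
    exact mul_le_mul_of_nonneg_left (h ζ le_rfl t) (norm_nonneg a)

theorem hermiteRaw_eq (n : ℕ) : ∃ P : Polynomial ℂ, ∀ t : ℝ, hermiteRaw n t = P.eval (t : ℂ) * gker 0 t := by
  obtain ⟨P, hP⟩ := iterDer n
  refine ⟨P, fun t => ?_⟩
  rw [hermiteRaw, (hP t).1, gker, mul_left_comm, ← Complex.exp_add]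
  congr 2
  push_cast
  ring

theorem memLp_hermiteRaw (n : ℕ) : MemLp (hermiteRaw n) 2 volume := by
  obtain ⟨P, hP⟩ := hermiteRaw_eq n
  obtain ⟨K, hK⟩ := poly_gker P 0
  have hc : Continuous (hermiteRaw n) := by
    have : hermiteRaw n = fun t : ℝ => P.eval (t : ℂ) * gker 0 t := funext hP
    rw [this]
    have := continuous_gker 0
    fun_prop
  refine memLp_of_bound _ hc.aestronglyMeasurable K (fun t => ?_)
  rw [hP t, norm_mul]
  exact hK t

theorem G_hermiteRaw_eq (n : ℕ) (ζ : ℂ) (t : ℝ) : hermiteRaw n t * gker ζ t =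
    iteratedDeriv n (fun s : ℝ => cexp (-(2 * π * s ^ 2))) t * cexp (2 * π * ζ * t) := by
  rw [hermiteRaw, gker, mul_assoc, mul_left_comm, ← Complex.exp_add]
  congr 2
  ring

theorem G_hermiteRaw_succ (n : ℕ) (ζ : ℂ) :
    G (hermiteRaw (n + 1)) ζ = (-(2 * π * ζ)) * G (hermiteRaw n) ζ := by
  obtain ⟨P, hP⟩ := iterDer n
  have i1 := integrable_G (hermiteRaw (n + 1)) (memLp_hermiteRaw (n + 1)) ζ
  have i2 := integrable_G (hermiteRaw n) (memLp_hermiteRaw n) ζ
  have h1 : ∀ t : ℝ, HasDerivAt (fun t : ℝ => hermiteRaw n t * gker ζ t)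
      (hermiteRaw (n + 1) t * gker ζ t + (2 * π * ζ) * (hermiteRaw n t * gker ζ t)) t := by
    intro t
    have h2 : (fun t : ℝ => hermiteRaw n t * gker ζ t) = fun t : ℝ =>
      iteratedDeriv n (fun s : ℝ => cexp (-(2 * π * s ^ 2))) t * cexp (2 * π * ζ * t) :=
      funext (G_hermiteRaw_eq n ζ)
    rw [h2, G_hermiteRaw_eq, G_hermiteRaw_eq]
    have h3 : HasDerivAt (fun t : ℝ => cexp (2 * π * ζ * t)) (cexp (2 * π * ζ * t) * (2 * π * ζ * 1)) t := by
      have h4 : HasDerivAt (fun z : ℂ => cexp (2 * π * ζ * z)) (cexp (2 * π * ζ * t) * (2 * π * ζ * 1)) (t : ℂ) :=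
        ((hasDerivAt_id (t : ℂ)).const_mul (2 * π * ζ)).cexp
      exact h4.comp_ofReal
    have h5 := (hP t).2.mul h3
    have h7 : iteratedDeriv (n + 1) (fun s : ℝ => cexp (-(2 * π * s ^ 2))) t * cexp (2 * π * ζ * t) +
        2 * π * ζ * (iteratedDeriv n (fun s : ℝ => cexp (-(2 * π * s ^ 2))) t * cexp (2 * π * ζ * t)) =
        iteratedDeriv (n + 1) (fun s : ℝ => cexp (-(2 * π * s ^ 2))) t * cexp (2 * π * ζ * t) +
        iteratedDeriv n (fun s : ℝ => cexp (-(2 * π * s ^ 2))) t * (cexp (2 * π * ζ * t) * (2 * π * ζ * 1)) := by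
      ring
    rw [h7]
    exact h5
  have h6 := integral_eq_zero_of_hasDerivAt_of_integrable h1 (i1.add (i2.const_mul _)) i2
  rw [integral_add i1 (i2.const_mul _), integral_const_mul] at h6
  rw [G, G]
  linear_combination h6

/-- the constant -/
noncomputable def k0 : ℂ := (π / (2 * π)) ^ (1 / 2 : ℂ)

theorem k0_ne : k0 ≠ 0 := by
  have hπ : (π : ℂ) ≠ 0 := by exact_mod_cast Real.pi_ne_zero
  rw [k0, Ne, Complex.cpow_eq_zero_iff]
  rintro ⟨h, _⟩
  have : (π : ℂ) / (2 * π) ≠ 0 := div_ne_zero hπ (mul_ne_zero two_ne_zero hπ)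
  exact this h

theorem G_hermiteRaw (n : ℕ) (ζ : ℂ) :
    G (hermiteRaw n) ζ = k0 * (-(2 * π * ζ)) ^ n * cexp (π * ζ ^ 2 / 2) := by
  induction n with
  | zero =>
    have hπ : (π : ℂ) ≠ 0 := by exact_mod_cast Real.pi_ne_zero
    rw [G]
    simp only [G_hermiteRaw_eq, iteratedDeriv_zero, pow_zero, mul_one]
    have h1 := integral_cexp_quadratic (b := -(2 * π : ℂ)) (by simp [Real.pi_pos]) (2 * π * ζ) 0
    rw [k0]
    have h2 : ∀ t : ℝ, cexp (-(2 * π * t ^ 2)) * cexp (2 * π * ζ * t) = cexp (-(2 * π : ℂ) * t ^ 2 + 2 * π * ζ * t + 0) := by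
      intro t
      rw [← Complex.exp_add]
      congr 1
      ring
    simp only [h2]
    rw [h1, neg_neg]
    congr 2
    field_simp
    ring
  | succ n ih =>
    rw [G_hermiteRaw_succ, ih, pow_succ]
    ring

theorem H_hermiteRaw (n : ℕ) (ζ : ℂ) : H (hermiteRaw n) ζ = k0 * (-(2 * π * ζ)) ^ n := by
  rw [H, G_hermiteRaw, mul_comm, mul_assoc, ← Complex.exp_add]
  simp

end Pool.Agent.V11266.LRFd
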