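import Mathlib
import Pool.Agent.V11266.LRFDefs
import Pool.Agent.V11266.LRFb
import Pool.Agent.V11266.LRFd

/-! The local reproducing formula in the Bargmann picture. -/

open Complex Filter Topology MeasureTheory Set Metric
open scoped ComplexConjugate Real

namespace Pool.Agent.V11266.LRFe
open LRF LRFc LRFd

/-- `u ↦ (-Re u, Im u)` -/
def T (u : ℂ) : ℝ × ℝ := (-u.re, u.im)

theorem disc_int (Φ : ℝ × ℝ → ℂ) (R : ℝ) (hR : 0 < R) :
    ∫ w in disc 0 R, Φ w = ∫ u in ball (0 : ℂ) R, Φ (T u) := by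
  set σ : ℂ ≃ₗᵢ[ℝ] ℂ := conjLIE.trans (LinearIsometryEquiv.neg ℝ) with hσ
  have hT : T = Complex.measurableEquivRealProd ∘ σ := by
    ext u
    · simp [T, hσ, Complex.measurableEquivRealProd]
    · simp [T, hσ, Complex.measurableEquivRealProd]
  have h1 : MeasurePreserving T volume volume := by
    rw [hT]
    exact Complex.volume_preserving_equiv_real_prod.comp σ.measurePreserving
  have h2 : MeasurableEmbedding T := by
    rw [hT]
    exact Complex.measurableEquivRealProd.measurableEmbedding.comp σ.toHomeomorph.measurableEmbedding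
  have h3 := h1.setIntegral_preimage_emb h2 Φ (disc 0 R)
  have h4 : T ⁻¹' (disc 0 R) = ball (0 : ℂ) R := by
    ext u
    rw [mem_preimage, mem_ball_zero_iff, disc, Set.mem_ofPred_eq]
    have h5 : ((T u).1 - (0 : ℝ × ℝ).1) ^ 2 + ((T u).2 - (0 : ℝ × ℝ).2) ^ 2 = ‖u‖ ^ 2 := by
      rw [← normSq_eq_norm_sq, normSq_apply]
      simp only [T, Prod.fst_zero, Prod.snd_zero]
      ring
    rw [h5]
    exact pow_lt_pow_iff_left₀ (norm_nonneg u) hR.le two_ne_zero
  rw [← h3, h4]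

theorem tfShift_zero (g : ℝ → ℂ) : tfShift 0 g = g := by
  ext t
  simp [tfShift]

/-- `u ↦ conj ⟨π(w) g, g⟩ exp(π i x ξ - π |w|²/2)` -/
noncomputable def W (g : ℝ → ℂ) (u : ℂ) : ℂ :=
  conj (Q g (fun t => conj (g t)) (T u)) *
    cexp (π * I * u.im * (-u.re : ℝ) - π / 2 * (((-u.re : ℝ) : ℂ) ^ 2 + (u.im : ℂ) ^ 2))

theorem ip_eq_Q (g : ℝ → ℂ) (w : ℝ × ℝ) : ip (tfShift w g) g = Q g (fun t => conj (g t)) w := rfl

theorem H_tfShift_T (g : ℝ → ℂ) (u ζ : ℂ) :
    H (tfShift (T u) g) ζ =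
      cexp (π * I * u.im * (-u.re : ℝ) - π / 2 * (((-u.re : ℝ) : ℂ) ^ 2 + (u.im : ℂ) ^ 2)) *
      (cexp (-π * ζ * conj u) * H g (ζ + u)) := by
  have h := H_tfShift g (-u.re) u.im ζ
  have h2 : (-((-u.re : ℝ) : ℂ) + (u.im : ℂ) * I) = u := by
    push_cast
    rw [neg_neg]
    exact re_add_im u
  rw [h2] at h
  exact h

theorem W_continuous (g : ℝ → ℂ) (hg : MemLp g 2 volume) : Continuous (W g) := by
  have h1 : MemLp (fun t => conj (g t)) 2 volume := hg.star
  have h2 := continuous_Q g _ hg h1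
  have h3 : Continuous T := by
    unfold T
    fun_prop
  have h4 : Continuous fun u => conj (Q g (fun t => conj (g t)) (T u)) :=
    continuous_conj.comp (h2.comp h3)
  unfold W
  fun_prop

theorem W_symm (g : ℝ → ℂ) (u : ℂ) : W g (-u) = conj (W g u) := by
  have hQ : Q g (fun t => conj (g t)) (T (-u)) =
      cexp (2 * π * I * u.im * (-u.re : ℝ)) * conj (Q g (fun t => conj (g t)) (T u)) := by
    rw [Q, Q, ← integral_conj, ← integral_const_mul]
    rw [← integral_sub_right_eq_self (fun t : ℝ => cexp (2 * π * I * (T (-u)).2 * t) *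
      g (t - (T (-u)).1) * conj (g t)) (-u.re)]
    congr 1
    ext t
    simp only [T, neg_re, neg_im, neg_neg, map_mul, Complex.conj_conj]
    rw [show t - -u.re - u.re = t by ring]
    rw [← Complex.exp_conj]
    have h1 : cexp (2 * π * I * ((-u.im : ℝ) : ℂ) * ((t - -u.re : ℝ) : ℂ)) =
        cexp (2 * π * I * u.im * (-u.re : ℝ)) * cexp (conj (2 * π * I * u.im * t)) := by
      rw [← Complex.exp_add]
      congr 1
      simp only [map_mul, conj_ofReal, conj_I, map_ofNat]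
      push_cast
      ring
    rw [h1]
    ring
  set q := Q g (fun t => conj (g t)) (T u) with hq
  have e1 : conj (cexp (2 * π * I * u.im * (-u.re : ℝ)) * conj q) =
      q * cexp (-(2 * π * I * u.im * (-u.re : ℝ))) := by
    rw [map_mul, Complex.conj_conj, mul_comm, ← Complex.exp_conj]
    congr 2
    simp only [map_mul, conj_ofReal, conj_I, map_ofNat]
    ring
  rw [W, W, hQ, e1, ← hq, map_mul, Complex.conj_conj, ← Complex.exp_conj, mul_assoc, ← Complex.exp_add]
  congr 2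
  simp only [neg_re, neg_im, map_mul, map_sub, map_add, map_pow, map_div₀, conj_ofReal, conj_I, map_ofNat]
  push_cast
  ring

theorem form (g : ℝ → ℂ) (h : LocallyReproducing g) :
    ∀ R : ℝ, 0 < R → ∃ C : ℂ, ∀ z, C * H g z =
      ∫ u in ball (0 : ℂ) R, W g u * (cexp (-π * z * conj u) * H g (z + u)) := by
  intro R hR
  obtain ⟨C, _, hC⟩ := h R hR
  refine ⟨conj C, fun ζ => ?_⟩
  have hf : MemLp (fun t => conj (gker ζ t)) 2 volume := (memLp_gker ζ).star
  have h1 := hC _ hf 0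
  have hst : ∀ w, stft g (fun t => conj (gker ζ t)) w = conj (G (tfShift w g) ζ) := by
    intro w
    rw [stft, ip, G, ← integral_conj]
    congr 1
    ext t
    rw [map_mul, mul_comm]
  simp only [hst, tfShift_zero] at h1
  have h2 := congrArg conj h1
  rw [← integral_conj] at h2
  simp only [map_mul, Complex.conj_conj] at h2
  have h3 : conj C * H g ζ = ∫ w in disc 0 R, conj (ip (tfShift w g) g) * H (tfShift w g) ζ := by
    simp only [H]
    rw [mul_left_comm, h2, ← integral_const_mul]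
    congr 1
    ext w
    ring
  rw [h3, disc_int _ R hR]
  congr 1
  ext u
  rw [H_tfShift_T, W, ip_eq_Q]
  ring

theorem norm_sq_pos (g : ℝ → ℂ) (hg : MemLp g 2 volume) (hg0 : ¬ g =ᵐ[volume] 0) :
    0 < ∫ t : ℝ, ‖g t‖ ^ 2 := by
  have hi : Integrable (fun t : ℝ => ‖g t‖ ^ 2) := (memLp_two_iff_integrable_sq_norm hg.1).1 hg
  have hnn : 0 ≤ fun t : ℝ => ‖g t‖ ^ 2 := fun t => by positivity
  refine lt_of_le_of_ne (integral_nonneg hnn) (fun h => hg0 ?_)
  have := (integral_eq_zero_iff_of_nonneg hnn hi).1 h.symm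
  filter_upwards [this] with t ht
  simpa using ht

theorem W_zero (g : ℝ → ℂ) : W g 0 = ((∫ t : ℝ, ‖g t‖ ^ 2 : ℝ) : ℂ) := by
  have h1 : Q g (fun t => conj (g t)) (T 0) = ((∫ t : ℝ, ‖g t‖ ^ 2 : ℝ) : ℂ) := by
    rw [Q, ← integral_complex_ofReal]
    congr 1
    ext t
    simp only [T, zero_re, zero_im, neg_zero, sub_zero, ofReal_zero, mul_zero, zero_mul, Complex.exp_zero, one_mul]
    rw [mul_conj, normSq_eq_norm_sq]
  rw [W, h1]
  simp

theorem G_congr (f g : ℝ → ℂ) (h : f =ᵐ[volume] g) (ζ : ℂ) : G f ζ = G g ζ := by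
  rw [G, G]
  apply integral_congr_ae
  filter_upwards [h] with t ht
  rw [ht]

theorem main (g : ℝ → ℂ) (hg : MemLp g 2 volume) (hg0 : ¬ g =ᵐ[volume] 0)
    (h : LocallyReproducing g) :
    ∃ (n : ℕ) (c : ℂ) (a : ℝ × ℝ), c ≠ 0 ∧ g =ᵐ[volume] fun t => c * tfShift a (hermiteFn n) t := by
  have hne : ∃ z, H g z ≠ 0 := by
    by_contra hcon
    push Not at hcon
    apply hg0
    apply injective_G g hg
    intro ζ
    have := hcon ζ
    rw [H] at this
    exact (mul_eq_zero.1 this).resolve_left (Complex.exp_ne_zero _)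
  obtain ⟨n, c, z0, hc, hH⟩ := LRFb.main_CA (H g) (differentiable_H g hg) hne (decay g hg) (W g)
    (W_continuous g hg) _ (norm_sq_pos g hg hg0) (W_zero g) (W_symm g) (form g h)
  set a : ℝ × ℝ := T (-z0) with ha
  set k1 : ℂ := cexp (π * I * (-z0).im * (-(-z0).re : ℝ) - π / 2 * (((-(-z0).re : ℝ) : ℂ) ^ 2 + ((-z0).im : ℂ) ^ 2)) with hk1
  have hk1' : k1 ≠ 0 := Complex.exp_ne_zero _
  have h2π : (-(2 * π) : ℂ) ≠ 0 := by
    rw [neg_ne_zero]
    exact mul_ne_zero two_ne_zero (by exact_mod_cast Real.pi_ne_zero)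
  set κ : ℂ := k1 * (k0 * (-(2 * π)) ^ n) with hκ
  have hκ0 : κ ≠ 0 := mul_ne_zero hk1' (mul_ne_zero k0_ne (pow_ne_zero _ h2π))
  have hHraw : ∀ ζ, H (tfShift a (hermiteRaw n)) ζ = κ * ((ζ - z0) ^ n * cexp (π * conj z0 * ζ)) := by
    intro ζ
    rw [ha, H_tfShift_T, H_hermiteRaw, ← hk1, hκ]
    have e1 : cexp (-π * ζ * conj (-z0)) = cexp (π * conj z0 * ζ) := by
      congr 1
      rw [map_neg]
      ring
    have e2 : (-(2 * π * (ζ + -z0))) ^ n = (-(2 * π) : ℂ) ^ n * (ζ - z0) ^ n := by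
      rw [← mul_pow]
      congr 1
      ring
    rw [e1, e2]
    ring
  have hraw2 : MemLp (tfShift a (hermiteRaw n)) 2 volume := memLp_tfShift _ (memLp_hermiteRaw n) a
  have hG0 : ∀ ζ, G (fun t => g t - (c / κ) * tfShift a (hermiteRaw n) t) ζ = 0 := by
    intro ζ
    have e1 : G (fun t => g t - (c / κ) * tfShift a (hermiteRaw n) t) ζ
        = G g ζ - (c / κ) * G (tfShift a (hermiteRaw n)) ζ := by
      rw [G, G, G, ← integral_const_mul, ← integral_sub (integrable_G g hg ζ)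
        ((integrable_G _ hraw2 ζ).const_mul _)]
      congr 1
      ext t
      ring
    have e2 := hH ζ
    have e3 := hHraw ζ
    rw [H] at e2 e3
    have e4 : cexp (-(π * ζ ^ 2 / 2)) * (G g ζ - (c / κ) * G (tfShift a (hermiteRaw n)) ζ) = 0 := by
      rw [mul_sub, e2, mul_left_comm, e3]
      field_simp
      ring
    rw [e1]
    exact (mul_eq_zero.1 e4).resolve_left (Complex.exp_ne_zero _)
  have hae := injective_G _ (hg.sub (hraw2.const_mul (c / κ))) hG0
  -- normalisation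
  have hrawne : ¬ (hermiteRaw n =ᵐ[volume] 0) := by
    intro h0
    have e1 : G (hermiteRaw n) 1 = 0 := by
      rw [G_congr _ _ h0]
      simp [G]
    rw [G_hermiteRaw] at e1
    have e2 : (-(2 * π * (1 : ℂ))) ≠ 0 := by rw [mul_one]; exact h2π
    exact (mul_ne_zero (mul_ne_zero k0_ne (pow_ne_zero n e2)) (Complex.exp_ne_zero _)) e1
  have hN : 0 < ∫ s : ℝ, ‖hermiteRaw n s‖ ^ 2 := norm_sq_pos _ (memLp_hermiteRaw n) hrawne
  have hsq : ((√(∫ s : ℝ, ‖hermiteRaw n s‖ ^ 2) : ℝ) : ℂ) ≠ 0 := by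
    exact_mod_cast (Real.sqrt_pos.2 hN).ne'
  refine ⟨n, (c / κ) * ((√(∫ s : ℝ, ‖hermiteRaw n s‖ ^ 2) : ℝ) : ℂ), a,
    mul_ne_zero (div_ne_zero hc hκ0) hsq, ?_⟩
  filter_upwards [hae] with t ht
  have e1 : g t = (c / κ) * tfShift a (hermiteRaw n) t := sub_eq_zero.1 ht
  rw [e1]
  simp only [tfShift, hermiteFn]
  push_cast
  field_simp

end Pool.Agent.V11266.LRFe
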