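import Mathlib

/-! Finite certificate for block parallel addition in the base `β`, `β ^ 3 = β + 1`
(the plastic number), on a binary alphabet, with blocks of length `9`.

An element `a + b β + c β²` of `ℤ[β]` is stored as the triple `(a, b, c)`. -/

namespace V11266.BlockPar

/-- Triples of integers, standing for `a + b β + c β²`. -/
abbrev Z3 := ℤ × ℤ × ℤ

/-- Multiplication by `β` when `β ^ 3 = β + 1`. -/
def mulb (t : Z3) : Z3 := (t.2.2, t.1 + t.2.2, t.2.1)

/-- Multiplication by `β ^ 9` when `β ^ 3 = β + 1`. -/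
def mul9 (t : Z3) : Z3 :=
  (2 * t.1 + 3 * t.2.1 + 4 * t.2.2, 4 * t.1 + 5 * t.2.1 + 7 * t.2.2,
    3 * t.1 + 4 * t.2.1 + 5 * t.2.2)

/-- The value `∑_{i < n} (i-th binary digit of v) * β ^ i`. -/
def valw : ℕ → ℕ → Z3
  | 0, _ => (0, 0, 0)
  | n + 1, v =>
    let t := mulb (valw n (v / 2))
    (t.1 + ((v % 2 : ℕ) : ℤ), t.2.1, t.2.2)

/-- Carries admissible at the bottom of a block; the index is `(word of the five lowest
digits) + 32 * (increment)`. -/
def inT : List (List Z3) :=
  [[(0, 0, 0), (1, 0, 0)],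
   [(0, 0, 0), (0, 1, 0)],
   [(1, 0, 0), (1, -1, 0)],
   [(0, 0, 0), (-1, 0, 1)],
   [(1, 0, -1), (1, 1, -1)],
   [(-1, 1, 0), (0, 1, -1)],
   [(0, 0, 0), (1, 0, 0)],
   [(0, 0, 0), (0, 1, 0)],
   [(0, 0, 0), (-1, 0, 1)],
   [(-1, 0, 1), (-2, 0, 1)],
   [(-1, -1, 1), (0, -1, 1)],
   [(-1, 0, 1), (-1, -1, 1)],
   [(0, 0, 0), (0, 1, 0)],
   [(-1, 0, 0), (-1, 1, 0)],
   [(0, 0, 0), (1, 0, 0)],
   [(0, 0, 0), (-1, 0, 1)],
   [(1, 0, -1), (1, 0, 0)],
   [(0, 0, 0), (0, 1, 0)],
   [(1, 0, 0), (1, -1, 0)],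
   [(0, 0, 0), (1, 0, 0)],
   [(1, 0, -1), (1, 1, -1)],
   [(1, 1, -1), (0, 1, -1)],
   [(1, 0, -1), (1, 0, 0)],
   [(1, 0, -1), (1, 0, 0)],
   [(0, 0, 0), (1, 0, 0)],
   [(0, 0, 0), (-1, 0, 1)],
   [(1, -1, 0), (0, -1, 1)],
   [(-1, -1, 1), (0, -1, 1)],
   [(1, 0, -1), (1, 0, 0)],
   [(0, 0, 0), (0, 1, 0)],
   [(1, 0, 0), (1, -1, 0)],
   [(0, 0, 0), (0, 1, 0)],
   [(0, 0, 0), (0, 1, 0)],
   [(-1, 0, 0), (-1, 1, 0)],
   [(0, 0, 0), (-1, 0, 1)],
   [(-1, 0, 1), (-2, 0, 1)],
   [(-1, 1, 0), (0, 1, -1)],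
   [(-1, 1, 0), (-2, 1, 0)],
   [(0, 0, 0), (0, 1, 0)],
   [(-1, 0, 0), (-1, 1, 0)],
   [(-1, 0, 1), (-2, 0, 1)],
   [(-2, 0, 1), (-2, 1, 1)],
   [(-1, 0, 1), (-1, -1, 1)],
   [(-1, 0, 1), (-2, 0, 1)],
   [(-1, 0, 0), (-1, 1, 0)],
   [(-1, 1, 0), (-2, 1, 0)],
   [(0, 0, 0), (-1, 0, 1)],
   [(-1, 0, 1), (-2, 0, 1)],
   [(0, 0, 0), (0, 1, 0)],
   [(-1, 0, 0), (-1, 1, 0)],
   [(0, 0, 0), (1, 0, 0)],
   [(0, 0, 0), (-1, 0, 1)],
   [(1, 1, -1), (0, 1, -1)],
   [(-1, 1, 0), (0, 1, -1)],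
   [(1, 0, -1), (1, 0, 0)],
   [(0, 0, 0), (0, 1, 0)],
   [(0, 0, 0), (-1, 0, 1)],
   [(-1, 0, 1), (-2, 0, 1)],
   [(-1, -1, 1), (0, -1, 1)],
   [(-1, 0, 1), (-1, -1, 1)],
   [(0, 0, 0), (0, 1, 0)],
   [(-1, 0, 0), (-1, 1, 0)],
   [(0, 0, 0), (0, 1, 0)],
   [(-1, 0, 0), (-1, 1, 0)]]

/-- Carries admissible at the top of a block; the index is the word of the four highest
digits. -/
def outT : List (List Z3) :=
  [[(0, 0, 0), (1, 0, -1), (-1, 0, 0), (-1, -1, 1), (-2, 1, 0), (1, -1, 0), (-2, 0, 1), (0, 1, -1)],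
   [(0, 0, 0), (1, 0, -1), (-1, -1, 1), (-1, 1, 0), (1, -1, 0), (-2, 0, 1), (0, 1, -1)],
   [(0, 0, 0), (1, 0, -1), (-1, -1, 1), (-1, 1, 0), (1, -1, 0), (-2, 0, 1), (0, 1, -1)],
   [(0, 0, 0), (1, 0, -1), (-1, 0, 1), (-1, 1, 0), (1, -1, 0), (-2, 0, 1), (0, 1, -1), (0, -1, 1)],
   [(0, 0, 0), (1, 0, -1), (-1, -1, 1), (-1, 1, 0), (1, 1, -1), (1, -1, 0), (-2, 0, 1)],
   [(0, 0, 0), (1, 0, -1), (-1, -1, 1), (-1, 1, 0), (1, 1, -1), (1, -1, 0), (-2, 0, 1)],
   [(0, 0, 0), (1, 0, 0), (-1, -1, 1), (-1, 1, 0), (1, 1, -1), (-2, 0, 1), (0, -1, 1)],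
   [(0, 0, 0), (1, 0, 0), (-1, -1, 1), (-1, 1, 0), (1, 1, -1), (1, -1, 0), (-2, 0, 1)],
   [(0, 0, 0), (1, 0, -1), (-1, -1, 1), (-1, 1, 0), (1, -1, 0), (-2, 0, 1), (0, 1, -1)],
   [(0, 0, 0), (1, 0, -1), (-1, -1, 1), (-1, 1, 0), (1, 1, -1), (1, -1, 0), (-2, 0, 1)],
   [(0, 0, 0), (1, 0, 0), (-1, 0, 1), (-1, 1, 0), (1, 1, -1), (-2, 1, 1), (0, -1, 1)],
   [(1, 0, 0), (-1, 0, 1), (0, 1, 0), (-1, 1, 0), (1, 1, -1), (-2, 1, 1), (0, -1, 1)],
   [(0, 0, 0), (1, 0, 0), (-1, 0, 1), (-1, -1, 1), (-1, 1, 0), (1, 1, -1), (1, -1, 0), (-2, 1, 1)],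
   [(1, 0, 0), (-1, 0, 1), (0, 1, 0), (-1, 1, 0), (1, 1, -1), (-2, 0, 1), (0, -1, 1)],
   [(0, 0, 0), (1, 0, 0), (-1, 0, 1), (-1, 1, 0), (1, 1, -1), (-2, 1, 1), (0, -1, 1)],
   [(1, 0, 0), (-1, 0, 1), (0, 1, 0), (-1, 1, 0), (1, 1, -1), (-2, 1, 1), (0, -1, 1)]]

/-- Packed table of representations by nine binary digits. -/
def tab : ℕ := 0xffff80000000000000fefdfec00000000000007d7e800000000000000000000000000000000000000000000000000000000000000000000000000000000000000000000000000000000000000000000000000000000000000000000000000000000000000000000000000000fdfe80000000000000f7f7fbc00000000000f6eff7dd6000000000006f76fb6000000000000036bb4000000000000000000000000000000000000000000000000000000000000000000000000000000000000000000000000000000000000000000000000000000000000000000000000000000000f5f6fb400000000000f4dfefdd2000000000005f5fefe000000000006b5faf77b0000000000034af57a00000000000000000000000000000000000000000000000000000000000000000000000000000000000000000000000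00000000000000000000000000000000000000000000000000000000005eef400000000000005bdf6fa000000000005b5dedf6f000000000001dabf5f35800000000000bd5bad800000000000005aad00000000000000000000000000000000000000000000000000000000000000000000000000000000000000000000000000000000000000000000000000000000000005aeb75a000000000005a5d6db6d000000000001d27f3f3480000000025a7d3b9d800000000000ad3a9d12c0000000000052a55280000000000000000000000000000000000000000000000000000000000000000000000000000000000000000000000000000000000000000000000000000000000002974a00000000000002567b3d000000000002526f2f978000000000006d1f8f8ac000000000001e8dc6c00000000000000d4680000000000000000000000000000000000000000000000000000000000000000000000000000000000000000000000000000000000000000000000000000000000000000000000000000000006b2d96800000000000691d8e8a4000000000001787c3c00000000000168742e16000000000000942a140000000000000000000000000000000000000000000000000000000000000000000000000000000000000000000000000000000000000000000000000000000000000000000000000000000002592800000000000001586c34000000000001483c1c12000000000000340e06000000000000000a040000000000000000000000000000000000000000000000000000000000000000000000000000000000000000000000000000000000000000000000000000000000000000000000000000000000000000000000000000002c1400000000000000240602000000000000000200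

/-- The index of a triple in the packed table `tab`. -/
def idx (d : Z3) : ℕ := (d.1 + 8 * (d.2.1 + 12 * d.2.2)).toNat

/-- A nine digit word representing `d` (when there is one in the table). -/
def wit (d : Z3) : ℕ := (tab / 2 ^ (9 * idx d)) % 512

/-- Carries admissible at the bottom. -/
def inC (i : ℕ) : List Z3 := inT.getD i []
/-- Carries admissible at the top. -/
def outC (i : ℕ) : List Z3 := outT.getD i []

/-- The carry at a cut. -/
def q (i j : ℕ) : Z3 := ((inC i).filter (fun c => (outC j).contains c)).headD (7, 7, 7)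

/-- the defect to be represented -/
def dd (m δ : ℕ) (c c' : Z3) : Z3 :=
  let w := valw 9 m
  let e := mul9 c'
  (w.1 + (δ : ℤ) + c.1 - e.1, w.2.1 + c.2.1 - e.2.1, w.2.2 + c.2.2 - e.2.2)

def chkQ : Bool :=
  (List.range 64).all fun i => (List.range 16).all fun j =>
    (inC i).contains (q i j) && (outC j).contains (q i j)

def chkR : Bool :=
  (List.range 512).all fun m => (List.range 2).all fun δ =>
    (inC (m % 32 + 32 * δ)).all fun c => (outC (m / 32)).all fun c' =>
      let d := dd m δ c c'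
      decide (valw 9 (wit d) = d)

theorem chkQ_true : chkQ = true := by decide +kernel

theorem chkR_true : chkR = true := by decide +kernel

end V11266.BlockPar
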