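import Mathlib
import Pool.Agent.V11266.BPCert

namespace V11266.BlockPar

theorem q_mem (i j : ℕ) (hi : i < 64) (hj : j < 16) : q i j ∈ inC i ∧ q i j ∈ outC j := by
  have h := chkQ_true
  simp only [chkQ, List.all_eq_true, List.mem_range, Bool.and_eq_true,
    List.contains_iff_mem] at h
  exact h i hi j hj

theorem rel_ok (m δ : ℕ) (c c' : Z3) (hm : m < 512) (hδ : δ < 2)
    (hc : c ∈ inC (m % 32 + 32 * δ)) (hc' : c' ∈ outC (m / 32)) :
    valw 9 (wit (dd m δ c c')) = dd m δ c c' := by
  have h := chkR_true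
  simp only [chkR, List.all_eq_true, List.mem_range, decide_eq_true_eq] at h
  exact h m hm δ hδ c hc c' hc'

theorem q_zero : q 0 0 = (0, 0, 0) := by decide +kernel

theorem wit_zero : wit (dd 0 0 (0, 0, 0) (0, 0, 0)) = 0 := by decide +kernel

/-- number with binary digits `f 0, ..., f (n-1)` -/
def num : ℕ → (ℕ → Bool) → ℕ
  | 0, _ => 0
  | n + 1, f => (f 0).toNat + 2 * num n (fun i => f (i + 1))

theorem num_lt (n : ℕ) (f : ℕ → Bool) : num n f < 2 ^ n := by
  induction n generalizing f with
  | zero => simp [num]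
  | succ n ih =>
    have h := ih (fun i => f (i + 1))
    have h2 : (f 0).toNat ≤ 1 := Bool.toNat_le (f 0)
    simp only [num, pow_succ]
    omega

theorem num_testBit (n : ℕ) (f : ℕ → Bool) (i : ℕ) (hi : i < n) :
    (num n f).testBit i = f i := by
  induction n generalizing f i with
  | zero => omega
  | succ n ih =>
    cases i with
    | zero =>
      simp only [num, Nat.testBit_zero]
      cases f 0 <;> simp [Nat.add_mod]
    | succ i =>
      have h2 : (f 0).toNat ≤ 1 := Bool.toNat_le (f 0)
      rw [Nat.testBit_succ]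
      have h3 : num (n + 1) f / 2 = num n (fun i => f (i + 1)) := by
        simp only [num]; omega
      rw [h3, ih _ _ (by omega)]

theorem num_congr (n : ℕ) (f g : ℕ → Bool) (h : ∀ i < n, f i = g i) : num n f = num n g := by
  induction n generalizing f g with
  | zero => rfl
  | succ n ih =>
    simp only [num]
    rw [h 0 (by omega), ih (fun i => f (i + 1)) (fun i => g (i + 1)) (fun i hi => h _ (by omega))]

theorem num_zero (n : ℕ) : num n (fun _ => false) = 0 := by
  induction n with
  | zero => rfl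
  | succ n ih => simp only [num, ih]; rfl

/-- evaluation of a triple -/
noncomputable def ev (β : ℂ) (t : Z3) : ℂ := (t.1 : ℂ) + (t.2.1 : ℂ) * β + (t.2.2 : ℂ) * β ^ 2

/-- bit as a complex number -/
noncomputable def bc (b : Bool) : ℂ := if b then 1 else 0

theorem ev_mulb {β : ℂ} (hβ : β ^ 3 = β + 1) (t : Z3) : ev β (mulb t) = β * ev β t := by
  obtain ⟨a, b, c⟩ := t
  simp only [ev, mulb]
  push_cast
  linear_combination (-(c : ℂ)) * hβ

theorem ev_mul9 {β : ℂ} (hβ : β ^ 3 = β + 1) (t : Z3) : ev β (mul9 t) = β ^ 9 * ev β t := by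
  obtain ⟨a, b, c⟩ := t
  simp only [ev, mul9]
  have h4 : β ^ 4 = β ^ 2 + β := by linear_combination β * hβ
  have h9 : β ^ 9 = 2 + 4 * β + 3 * β ^ 2 := by
    have : β ^ 9 = (β ^ 3) ^ 3 := by ring
    rw [this, hβ]
    linear_combination hβ
  rw [h9]
  push_cast
  linear_combination (-(3 : ℂ) * b - 4 * c ) * hβ  - 3 * c * h4

theorem bc_testBit_zero (v : ℕ) : bc (v.testBit 0) = ((v % 2 : ℕ) : ℂ) := by
  rw [Nat.testBit_zero, bc]
  rcases Nat.mod_two_eq_zero_or_one v with h | h <;> simp [h]

theorem ev_valw {β : ℂ} (hβ : β ^ 3 = β + 1) (n v : ℕ) :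
    ev β (valw n v) = ∑ i ∈ Finset.range n, bc (v.testBit i) * β ^ i := by
  induction n generalizing v with
  | zero => simp [ev, valw]
  | succ n ih =>
    rw [Finset.sum_range_succ']
    have h1 : ∀ i ∈ Finset.range n, bc (v.testBit (i + 1)) * β ^ (i + 1)
        = β * (bc ((v / 2).testBit i) * β ^ i) := by
      intro i _
      rw [Nat.testBit_succ]; ring
    rw [Finset.sum_congr rfl h1, ← Finset.mul_sum, ← ih, ← ev_mulb hβ, bc_testBit_zero]
    simp only [ev, valw, Int.cast_add, Int.cast_natCast]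
    ring

theorem ev_valw_num {β : ℂ} (hβ : β ^ 3 = β + 1) (n : ℕ) (f : ℕ → Bool) :
    ev β (valw n (num n f)) = ∑ i ∈ Finset.range n, bc (f i) * β ^ i := by
  rw [ev_valw hβ]
  refine Finset.sum_congr rfl fun i hi => ?_
  rw [num_testBit n f i (Finset.mem_range.1 hi)]

/-! ### One step: adding digits at the positions `≡ r (mod 9)` -/

/-- the word in block `j` (with offset `r`) -/
def W (r : ℤ) (x : ℤ → Bool) (j : ℤ) : ℕ := num 9 (fun i => x (9 * j + r + i))

/-- the increment in block `j` -/
def dl (r : ℤ) (y : ℤ → Bool) (j : ℤ) : ℕ := (y (9 * j + r)).toNat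

/-- the carry into block `j` -/
def car (r : ℤ) (x y : ℤ → Bool) (j : ℤ) : Z3 :=
  q (W r x j % 32 + 32 * dl r y j) (W r x (j - 1) / 32)

/-- the new word in block `j` -/
def outw (r : ℤ) (x y : ℤ → Bool) (j : ℤ) : ℕ :=
  wit (dd (W r x j) (dl r y j) (car r x y j) (car r x y (j + 1)))

/-- the step -/
def T (r : ℤ) (x y : ℤ → Bool) (n : ℤ) : Bool :=
  (outw r x y ((n - r) / 9)).testBit ((n - r) % 9).toNat

theorem W_lt (r : ℤ) (x : ℤ → Bool) (j : ℤ) : W r x j < 512 := num_lt 9 _

theorem dl_lt (r : ℤ) (y : ℤ → Bool) (j : ℤ) : dl r y j < 2 := by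
  have := Bool.toNat_le (y (9 * j + r))
  unfold dl; omega

theorem T_block (r : ℤ) (x y : ℤ → Bool) (j : ℤ) (i : ℕ) (hi : i < 9) :
    T r x y (9 * j + r + i) = (outw r x y j).testBit i := by
  unfold T
  have h1 : (9 * j + r + (i : ℤ) - r) / 9 = j := by omega
  have h2 : ((9 * j + r + (i : ℤ) - r) % 9).toNat = i := by omega
  rw [h1, h2]

theorem block_identity {β : ℂ} (hβ : β ^ 3 = β + 1) (r : ℤ) (x y : ℤ → Bool) (j : ℤ) :
    (∑ i ∈ Finset.range 9, bc (T r x y (9 * j + r + i)) * β ^ i)
        + β ^ 9 * ev β (car r x y (j + 1))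
      = (∑ i ∈ Finset.range 9, bc (x (9 * j + r + i)) * β ^ i) + bc (y (9 * j + r))
        + ev β (car r x y j) := by
  have h1 : ∀ i ∈ Finset.range 9, bc (T r x y (9 * j + r + i)) * β ^ i
      = bc ((outw r x y j).testBit i) * β ^ i := by
    intro i hi
    rw [T_block r x y j i (Finset.mem_range.1 hi)]
  rw [Finset.sum_congr rfl h1, ← ev_valw hβ]
  have hW := W_lt r x j
  have hW' := W_lt r x (j - 1)
  have hd := dl_lt r y j
  have hW2 := W_lt r x (j + 1)
  have hd2 := dl_lt r y (j + 1)
  have hc : car r x y j ∈ inC (W r x j % 32 + 32 * dl r y j) :=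
    (q_mem _ _ (by omega) (by omega)).1
  have hc' : car r x y (j + 1) ∈ outC (W r x j / 32) := by
    have := (q_mem (W r x (j + 1) % 32 + 32 * dl r y (j + 1)) (W r x (j + 1 - 1) / 32)
      (by omega) (by have := W_lt r x (j + 1 - 1); omega)).2
    rw [add_sub_cancel_right] at this
    unfold car
    rw [add_sub_cancel_right]
    exact this
  have h2 : valw 9 (outw r x y j) = dd (W r x j) (dl r y j) (car r x y j) (car r x y (j + 1)) :=
    rel_ok _ _ _ _ hW hd hc hc'
  rw [h2, ← ev_valw_num hβ, ← ev_mul9 hβ]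
  have h3 : bc (y (9 * j + r)) = ((dl r y j : ℕ) : ℂ) := by
    unfold dl bc
    cases y (9 * j + r) <;> simp
  rw [h3]
  have h4 : num 9 (fun i => x (9 * j + r + i)) = W r x j := rfl
  rw [h4]
  simp only [ev, dd]
  push_cast
  ring

theorem W_congr (r : ℤ) (x x' : ℤ → Bool) (j : ℤ)
    (h : ∀ m, 9 * j + r ≤ m → m < 9 * j + r + 9 → x m = x' m) : W r x j = W r x' j :=
  num_congr 9 _ _ fun i hi => h _ (by omega) (by omega)

theorem T_local (r : ℤ) (x x' y y' : ℤ → Bool) (n : ℤ)
    (hx : ∀ m, n - 18 ≤ m → m ≤ n + 18 → x m = x' m)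
    (hy : ∀ m, n - 18 ≤ m → m ≤ n + 18 → y m = y' m) : T r x y n = T r x' y' n := by
  unfold T
  set j := (n - r) / 9 with hj
  have hn : 9 * j + r ≤ n ∧ n < 9 * j + r + 9 := by omega
  have w0 : W r x j = W r x' j := W_congr _ _ _ _ fun m h1 h2 => hx m (by omega) (by omega)
  have w1 : W r x (j + 1) = W r x' (j + 1) :=
    W_congr _ _ _ _ fun m h1 h2 => hx m (by omega) (by omega)
  have w2 : W r x (j - 1) = W r x' (j - 1) :=
    W_congr _ _ _ _ fun m h1 h2 => hx m (by omega) (by omega)
  have d0 : dl r y j = dl r y' j := by unfold dl; rw [hy _ (by omega) (by omega)]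
  have d1 : dl r y (j + 1) = dl r y' (j + 1) := by unfold dl; rw [hy _ (by omega) (by omega)]
  have c0 : car r x y j = car r x' y' j := by unfold car; rw [w0, w2, d0]
  have c1 : car r x y (j + 1) = car r x' y' (j + 1) := by
    unfold car; rw [add_sub_cancel_right, w0, w1, d1]
  unfold outw
  rw [w0, d0, c0, c1]

theorem T_shift (r : ℤ) (x y : ℤ → Bool) (k n : ℤ) :
    T r (fun m => x (m + 9 * k)) (fun m => y (m + 9 * k)) n = T r x y (n + 9 * k) := by
  have hW : ∀ j, W r (fun m => x (m + 9 * k)) j = W r x (j + k) := by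
    intro j
    refine num_congr 9 _ _ fun i _ => ?_
    show x (9 * j + r + i + 9 * k) = x (9 * (j + k) + r + i)
    congr 1; ring
  have hd : ∀ j, dl r (fun m => y (m + 9 * k)) j = dl r y (j + k) := by
    intro j
    show (y (9 * j + r + 9 * k)).toNat = (y (9 * (j + k) + r)).toNat
    congr 2; ring
  have hc : ∀ j, car r (fun m => x (m + 9 * k)) (fun m => y (m + 9 * k)) j
      = car r x y (j + k) := by
    intro j
    unfold car
    rw [hW, hW, hd]
    congr 3; ring
  unfold T
  have e1 : (n + 9 * k - r) / 9 = (n - r) / 9 + k := by omega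
  have e2 : (n + 9 * k - r) % 9 = (n - r) % 9 := by omega
  rw [e1, e2]
  unfold outw
  have e3 : (n - r) / 9 + k + 1 = (n - r) / 9 + 1 + k := by ring
  rw [hW, hd, hc, hc, e3]

theorem T_zero (r : ℤ) (n : ℤ) : T r (fun _ => false) (fun _ => false) n = false := by
  have hW : ∀ j, W r (fun _ => false) j = 0 := fun j => num_zero 9
  have hd : ∀ j, dl r (fun _ => false) j = 0 := fun j => rfl
  have hc : ∀ j, car r (fun _ => false) (fun _ => false) j = (0, 0, 0) := by
    intro j
    unfold car
    rw [hW, hW, hd]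
    exact q_zero
  unfold T outw
  rw [hW, hd, hc, hc, wit_zero]
  simp

/-! ### Composition -/

/-- Add the digits of `y` lying at positions `≡ 0, ..., s-1 (mod 9)`. -/
def add (x y : ℤ → Bool) : ℕ → (ℤ → Bool)
  | 0 => x
  | s + 1 => T s (add x y s) y

theorem add_local (x x' y y' : ℤ → Bool) (s : ℕ) (n : ℤ)
    (hx : ∀ m, n - 18 * s ≤ m → m ≤ n + 18 * s → x m = x' m)
    (hy : ∀ m, n - 18 * s ≤ m → m ≤ n + 18 * s → y m = y' m) :
    add x y s n = add x' y' s n := by
  induction s generalizing n with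
  | zero => exact hx n (by simp) (by simp)
  | succ s ih =>
    refine T_local _ _ _ _ _ _ ?_ ?_
    · intro m h1 h2
      refine ih m ?_ ?_
      · intro m' h3 h4
        exact hx m' (by push_cast; omega) (by push_cast; omega)
      · intro m' h3 h4
        exact hy m' (by push_cast; omega) (by push_cast; omega)
    · intro m h1 h2
      exact hy m (by push_cast; omega) (by push_cast; omega)

theorem add_shift (x y : ℤ → Bool) (s : ℕ) (k n : ℤ) :
    add (fun m => x (m + 9 * k)) (fun m => y (m + 9 * k)) s n = add x y s (n + 9 * k) := by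
  induction s generalizing n with
  | zero => rfl
  | succ s ih =>
    have h : add (fun m => x (m + 9 * k)) (fun m => y (m + 9 * k)) s
        = fun m => add x y s (m + 9 * k) := funext ih
    show T s (add (fun m => x (m + 9 * k)) (fun m => y (m + 9 * k)) s)
      (fun m => y (m + 9 * k)) n = T s (add x y s) y (n + 9 * k)
    rw [h]
    exact T_shift s (add x y s) y k n

theorem add_zero' (s : ℕ) (n : ℤ) : add (fun _ => false) (fun _ => false) s n = false := by
  induction s generalizing n with
  | zero => rfl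
  | succ s ih =>
    have h : add (fun _ => false) (fun _ => false) s = fun _ => false := funext ih
    show T s (add (fun _ => false) (fun _ => false) s) (fun _ => false) n = false
    rw [h]
    exact T_zero s n

end V11266.BlockPar
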