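import Mathlib
import Pool.Agent.V11266.BPStep

namespace V11266.BlockPar

open Function

theorem finsum_blocks (f : ℤ → ℂ) (hf : (support f).Finite) (r : ℤ) :
    ∑ᶠ n, f n = ∑ᶠ j : ℤ, ∑ i ∈ Finset.range 9, f (9 * j + r + i) := by
  let e : ℤ × Fin 9 ≃ ℤ :=
    { toFun := fun p => 9 * p.1 + r + (p.2 : ℕ)
      invFun := fun n => ((n - r) / 9, ⟨((n - r) % 9).toNat, by omega⟩)
      left_inv := by
        rintro ⟨j, i, hi⟩
        simp only [Prod.mk.injEq, Fin.mk.injEq]
        constructor <;> omega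
      right_inv := by
        intro n
        simp only
        omega }
  have h1 : ∑ᶠ n, f n = ∑ᶠ p : ℤ × Fin 9, f (e p) := (finsum_comp_equiv e).symm
  have h2 : (support fun p : ℤ × Fin 9 => f (e p)).Finite :=
    hf.preimage (f := e) (e.injective.injOn)
  rw [h1, finsum_curry _ h2]
  refine finsum_congr fun j => ?_
  rw [finsum_eq_sum_of_fintype]
  exact Fin.sum_univ_eq_sum_range (fun i => f (9 * j + r + (i : ℕ))) 9

theorem finite_of_bound {α : Type*} [Zero α] (f : ℤ → α) (M : ℤ)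
    (h : ∀ j, (j < -M ∨ M < j) → f j = 0) : (support f).Finite := by
  refine (Set.finite_Icc (-M) M).subset fun j hj => ?_
  by_contra hc
  apply hj
  apply h
  simp only [Set.mem_Icc, not_and_or, not_le] at hc
  exact hc

/-- bounded support for bit sequences -/
def BS (x : ℤ → Bool) (N : ℕ) : Prop := ∀ n : ℤ, (n < -N ∨ N < n) → x n = false

theorem BS.mono {x : ℤ → Bool} {N N' : ℕ} (h : BS x N) (hN : N ≤ N') : BS x N' :=
  fun n hn => h n (by omega)

theorem add_BS {x y : ℤ → Bool} {N : ℕ} (hx : BS x N) (hy : BS y N) (s : ℕ) :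
    BS (add x y s) (N + 18 * s) := by
  intro n hn
  rw [← add_zero' s n]
  push_cast at hn
  refine add_local _ _ _ _ s n (fun m h1 h2 => hx m (by omega)) (fun m h1 h2 => hy m (by omega))

theorem bc_false : bc false = 0 := by simp [bc]

/-- value of a bit sequence -/
noncomputable def V (β : ℂ) (x : ℤ → Bool) : ℂ := ∑ᶠ n : ℤ, bc (x n) * β ^ n

theorem supp_V (β : ℂ) {x : ℤ → Bool} {N : ℕ} (hx : BS x N) :
    (support fun n : ℤ => bc (x n) * β ^ n).Finite :=
  finite_of_bound _ N fun j hj => by rw [hx j hj, bc_false, zero_mul]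

theorem zpow_split {β : ℂ} (h0 : β ≠ 0) (j r : ℤ) (i : ℕ) :
    β ^ (9 * j + r + i) = β ^ (9 * j + r) * β ^ i := by
  rw [zpow_add₀ h0, zpow_natCast]

theorem V_T {β : ℂ} (hβ : β ^ 3 = β + 1) (h0 : β ≠ 0) {x y : ℤ → Bool} {N : ℕ} (hx : BS x N)
    (hy : BS y N) (r : ℕ) :
    V β (T r x y) = V β x + ∑ᶠ j : ℤ, bc (y (9 * j + r)) * β ^ (9 * j + r : ℤ) := by
  have hT : BS (T r x y) (N + 18) := by
    intro n hn
    rw [← T_zero r n]
    push_cast at hn
    exact T_local _ _ _ _ _ _ (fun m h1 h2 => hx m (by omega)) (fun m h1 h2 => hy m (by omega))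
  have hW : ∀ j : ℤ, (j < -(N + r + 20 : ℕ) ∨ ((N + r + 20 : ℕ) : ℤ) < j) → W r x j = 0 := by
    intro j hj
    rw [← num_zero 9]
    exact num_congr 9 _ _ fun i hi => hx _ (by push_cast at hj; omega)
  have hd : ∀ j : ℤ, (j < -(N + r + 20 : ℕ) ∨ ((N + r + 20 : ℕ) : ℤ) < j) → dl r y j = 0 := by
    intro j hj
    unfold dl
    rw [hy _ (by push_cast at hj; omega)]; rfl
  have hc : ∀ j : ℤ, (j < -(N + r + 22 : ℕ) ∨ ((N + r + 22 : ℕ) : ℤ) < j) →
      car r x y j = (0, 0, 0) := by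
    intro j hj
    unfold car
    rw [hW j (by push_cast at hj ⊢; omega), hW (j - 1) (by push_cast at hj ⊢; omega),
      hd j (by push_cast at hj ⊢; omega)]
    exact q_zero
  set G : ℤ → ℂ := fun j => β ^ (9 * j + r : ℤ) * ev β (car r x y j) with hG
  have hGs : (support G).Finite := finite_of_bound _ ((N + r + 22 : ℕ) : ℤ) fun j hj => by
    simp only [hG]
    rw [hc j hj]; simp [ev]
  have hGs' : (support fun j => G (j + 1)).Finite :=
    finite_of_bound _ ((N + r + 23 : ℕ) : ℤ) fun j hj => by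
      simp only [hG]
      rw [hc (j + 1) (by push_cast at hj ⊢; omega)]; simp [ev]
  set A : ℤ → ℂ := fun j => ∑ i ∈ Finset.range 9, bc (x (9 * j + r + i)) * β ^ (9 * j + r + i : ℤ)
    with hA
  have hAs : (support A).Finite := finite_of_bound _ ((N + r + 20 : ℕ) : ℤ) fun j hj => by
    simp only [hA]
    refine Finset.sum_eq_zero fun i hi => ?_
    have := Finset.mem_range.1 hi
    rw [hx _ (by push_cast at hj; omega), bc_false, zero_mul]
  set B : ℤ → ℂ := fun j => bc (y (9 * j + r)) * β ^ (9 * j + r : ℤ) with hB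
  have hBs : (support B).Finite := finite_of_bound _ ((N + r + 20 : ℕ) : ℤ) fun j hj => by
    simp only [hB]
    rw [hy _ (by push_cast at hj; omega), bc_false, zero_mul]
  have hAB : (support fun j => A j + B j).Finite :=
    (hAs.union hBs).subset (support_add _ _)
  have hGG : (support fun j => G j - G (j + 1)).Finite :=
    (hGs.union hGs').subset (support_sub _ _)
  have key : ∀ j : ℤ, ∑ i ∈ Finset.range 9,
      bc (T r x y (9 * j + r + i)) * β ^ (9 * j + r + i : ℤ) = (A j + B j) + (G j - G (j + 1)) := by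
    intro j
    have e1 : ∑ i ∈ Finset.range 9, bc (T r x y (9 * j + r + i)) * β ^ (9 * j + r + i : ℤ)
        = β ^ (9 * j + r : ℤ) * ∑ i ∈ Finset.range 9, bc (T r x y (9 * j + r + i)) * β ^ i := by
      rw [Finset.mul_sum]
      refine Finset.sum_congr rfl fun i _ => ?_
      rw [zpow_split h0]; ring
    have e2 : A j = β ^ (9 * j + r : ℤ) * ∑ i ∈ Finset.range 9, bc (x (9 * j + r + i)) * β ^ i := by
      simp only [hA]
      rw [Finset.mul_sum]
      refine Finset.sum_congr rfl fun i _ => ?_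
      rw [zpow_split h0]; ring
    have e3 : G (j + 1) = β ^ (9 * j + r : ℤ) * (β ^ 9 * ev β (car r x y (j + 1))) := by
      simp only [hG]
      have : (9 * (j + 1) + r : ℤ) = 9 * j + r + (9 : ℕ) := by push_cast; ring
      rw [this, zpow_split h0]; ring
    have hb := block_identity hβ (r : ℤ) x y j
    rw [e1, e2, e3]
    simp only [hB, hG]
    linear_combination β ^ (9 * j + r : ℤ) * hb
  unfold V
  rw [finsum_blocks _ (supp_V β hT) r, finsum_congr key, finsum_add_distrib hAB hGG,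
    finsum_add_distrib hAs hBs, finsum_sub_distrib hGs hGs',
    finsum_blocks _ (supp_V β hx) r]
  have hshift : ∑ᶠ j, G (j + 1) = ∑ᶠ j, G j := finsum_comp_equiv (Equiv.addRight (1 : ℤ))
  rw [hshift]
  ring

theorem V_add {β : ℂ} (hβ : β ^ 3 = β + 1) (h0 : β ≠ 0) {x y : ℤ → Bool} {N : ℕ} (hx : BS x N)
    (hy : BS y N) (s : ℕ) :
    V β (add x y s) = V β x
      + ∑ r ∈ Finset.range s, ∑ᶠ j : ℤ, bc (y (9 * j + r)) * β ^ (9 * j + r : ℤ) := by
  induction s with
  | zero => simp [add]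
  | succ s ih =>
    rw [Finset.sum_range_succ, ← add_assoc, ← ih]
    exact V_T hβ h0 (add_BS hx hy s) (hy.mono (by omega)) s

theorem V_add9 {β : ℂ} (hβ : β ^ 3 = β + 1) (h0 : β ≠ 0) {x y : ℤ → Bool} {N : ℕ} (hx : BS x N)
    (hy : BS y N) : V β (add x y 9) = V β x + V β y := by
  rw [V_add hβ h0 hx hy 9]
  congr 1
  unfold V
  rw [finsum_blocks _ (supp_V β hy) 0, finsum_sum_comm]
  · refine Finset.sum_congr rfl fun i _ => finsum_congr fun j => ?_
    simp
  · intro i hi
    have := Finset.mem_range.1 hi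
    exact finite_of_bound _ ((N + 20 : ℕ) : ℤ) fun j hj => by
      rw [hy _ (by push_cast at hj; omega), bc_false, zero_mul]

theorem V_blocks {β : ℂ} (h0 : β ≠ 0) {x : ℤ → Bool} {N : ℕ} (hx : BS x N) (s : ℂ) :
    ∑ᶠ j : ℤ, (s * ∑ i ∈ Finset.range 9, bc (x (9 * j + i)) * β ^ i) * (β ^ 9) ^ j
      = s * V β x := by
  have hpow : ∀ (j : ℤ), (β ^ 9) ^ j = β ^ (9 * j) := by
    intro j
    rw [zpow_mul]
    norm_cast
  unfold V
  rw [finsum_blocks _ (supp_V β hx) 0, mul_finsum]
  refine finsum_congr fun j => ?_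
  rw [hpow, mul_assoc, Finset.sum_mul]
  congr 1
  refine Finset.sum_congr rfl fun i _ => ?_
  rw [add_zero, zpow_add₀ h0, zpow_natCast]; ring

end V11266.BlockPar
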