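import Pool.Agent.V11266.FillB

/-!
The paracompact subspace filling all finite subproducts, with a factor that is not paracompact;
and the transfer from `T × (J → Y)` to honest products.
-/

namespace Pool.Agent.V11266.Fill

open Set Topology Filter

/-- The points `(x, w)` with `w i = c x` for all but finitely many `i`. -/
def DF {T Y : Type} (I : Type) (c : T → Y) : Set (T × (I → Y)) :=
  {z | {i | z.2 i ≠ c z.1}.Finite}

section A
variable {T Y : Type} [TopologicalSpace T] [TopologicalSpace Y] [DiscreteTopology Y]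

theorem DF_t2 [T1Space T]
    (hbase : ∀ (x : T) (U : Set T), U ∈ 𝓝 x → ∃ A : Set T, IsClopen A ∧ x ∈ A ∧ A ⊆ U)
    (D : Set (T × (ℕ → Y))) : T2Space D := by
  have : T2Space T := by
    refine ⟨fun x y hxy => ?_⟩
    obtain ⟨A, hA, hxA, hAU⟩ := hbase x {y}ᶜ (isOpen_compl_singleton.mem_nhds hxy)
    exact ⟨A, Aᶜ, hA.2, hA.1.isOpen_compl, hxA, fun h => hAU h rfl, disjoint_compl_right⟩
  infer_instance

theorem DF_paracompact [Nonempty T] (c : T → Y) (hc : Function.Injective c)
    (hbase : ∀ (x : T) (U : Set T), U ∈ 𝓝 x → ∃ A : Set T, IsClopen A ∧ x ∈ A ∧ A ⊆ U) :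
    ParacompactSpace (DF ℕ c) := by
  classical
  refine ⟨fun α s hs hcov => ?_⟩
  -- a clopen base
  have hbaseD : ∀ (d : DF ℕ c) (O : Set (DF ℕ c)), O ∈ 𝓝 d →
      ∃ W : Set (DF ℕ c), IsClopen W ∧ d ∈ W ∧ W ⊆ O := by
    intro d O hO
    rw [mem_nhds_sub_iff] at hO
    obtain ⟨U, hU, E, hUE⟩ := hO
    obtain ⟨A, hA, hxA, hAU⟩ := hbase _ U hU
    refine ⟨{d' | d'.1.1 ∈ A ∧ ∀ i ∈ E, d'.1.2 i = d.1.2 i}, ⟨?_, ?_⟩, ⟨hxA, fun _ _ => rfl⟩,
      fun d' hd' => hUE d' (hAU hd'.1) hd'.2⟩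
    · rw [← isOpen_compl_iff, isOpen_iff_mem_nhds]
      intro d' hd'
      by_cases h : d'.1.1 ∈ A
      · have h2 : ¬ ∀ i ∈ E, d'.1.2 i = d.1.2 i := fun h2 => hd' ⟨h, h2⟩
        rw [mem_nhds_sub_iff]
        refine ⟨univ, univ_mem, E, fun d'' _ h3 h4 => h2 fun i hi => ?_⟩
        rw [← h3 i hi, h4.2 i hi]
      · rw [mem_nhds_sub_iff]
        exact ⟨Aᶜ, hA.1.isOpen_compl.mem_nhds h, ∅, fun d'' h3 _ h4 => h3 h4.1⟩
    · rw [isOpen_iff_mem_nhds]
      intro d' hd'
      rw [mem_nhds_sub_iff]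
      refine ⟨A, hA.2.mem_nhds hd'.1, E, fun d'' h3 h4 => ⟨h3, fun i hi => ?_⟩⟩
      rw [h4 i hi, hd'.2 i hi]
  let r : ∀ k : ℕ, DF ℕ c → (Fin (k + 1) → Y) := fun k d i => d.1.2 i
  have hr : ∀ k d, {d' : DF ℕ c | r k d' = r k d} ∈ 𝓝 d := by
    intro k d
    rw [mem_nhds_sub_iff]
    refine ⟨univ, univ_mem, Finset.range (k + 1), fun d' _ h => ?_⟩
    funext i
    exact h i (Finset.mem_range.2 i.2)
  obtain ⟨x0⟩ := ‹Nonempty T›
  have hx0 : ((x0, fun _ => c x0) : T × (ℕ → Y)) ∈ DF ℕ c := by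
    show {i | c x0 ≠ c x0}.Finite
    simp
  have hmem : ∀ d : DF ℕ c, ∃ a, d ∈ s a := by
    intro d
    have : d ∈ ⋃ a, s a := by rw [hcov]; trivial
    exact mem_iUnion.1 this
  obtain ⟨a0, _⟩ := hmem ⟨_, hx0⟩
  -- the chosen clopen sets
  have hch : ∀ (k : ℕ) (σ : Fin (k + 1) → Y), ∃ (W : Set (DF ℕ c)) (a : α), IsClopen W ∧
      W ⊆ s a ∧ ∀ d : DF ℕ c, (∀ n ≥ k, d.1.2 n = c d.1.1) → r k d = σ → d ∈ W := by
    intro k σ
    by_cases hex : ∃ d : DF ℕ c, (∀ n ≥ k, d.1.2 n = c d.1.1) ∧ r k d = σ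
    · obtain ⟨d, hd1, hd2⟩ := hex
      obtain ⟨a, ha⟩ := hmem d
      obtain ⟨W, hW, hdW, hWs⟩ := hbaseD d (s a) ((hs a).mem_nhds ha)
      refine ⟨W, a, hW, hWs, fun d' hd1' hd2' => ?_⟩
      have hx : c d'.1.1 = c d.1.1 := by
        have h1 : r k d' (Fin.last k) = r k d (Fin.last k) := by rw [hd2, hd2']
        have h2 : d'.1.2 k = d.1.2 k := h1
        rw [← hd1' k le_rfl, ← hd1 k le_rfl, h2]
      have hdd : d' = d := by
        apply Subtype.ext
        apply Prod.ext
        · exact hc hx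
        · funext n
          by_cases hn : n < k + 1
          · have h1 : r k d' ⟨n, hn⟩ = r k d ⟨n, hn⟩ := by rw [hd2, hd2']
            exact h1
          · rw [hd1' n (by omega), hd1 n (by omega), hx]
      rw [hdd]
      exact hdW
    · exact ⟨∅, a0, isClopen_empty, empty_subset _, fun d h1 h2 => absurd ⟨d, h1, h2⟩ hex⟩
  choose W a hW1 hW2 hW3 using hch
  let G : ℕ → DF ℕ c → Prop := fun k d => d ∈ W k (r k d)
  have hG : ∀ k d, {d' : DF ℕ c | (G k d' ↔ G k d)} ∈ 𝓝 d := by
    intro k d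
    by_cases h : d ∈ W k (r k d)
    · filter_upwards [hr k d, (hW1 k (r k d)).2.mem_nhds h] with d' h1 h2
      have h1 : r k d' = r k d := h1
      have h3 : G k d' := by
        show d' ∈ W k (r k d')
        rw [h1]
        exact h2
      exact ⟨fun _ => h, fun _ => h3⟩
    · filter_upwards [hr k d, (hW1 k (r k d)).1.isOpen_compl.mem_nhds h] with d' h1 h2
      have h1 : r k d' = r k d := h1
      have h3 : ¬ G k d' := by
        show ¬ d' ∈ W k (r k d')
        rw [h1]
        exact h2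
      exact ⟨fun h4 => absurd h4 h3, fun h4 => absurd h4 h⟩
  have hGex : ∀ d, ∃ k, G k d := by
    intro d
    have hd : {i | d.1.2 i ≠ c d.1.1}.Finite := d.2
    obtain ⟨k, hk⟩ := hd.bddAbove
    refine ⟨k + 1, hW3 (k + 1) _ d (fun n hn => ?_) rfl⟩
    by_contra hne
    have := hk hne
    omega
  let K : DF ℕ c → ℕ := fun d => Nat.find (hGex d)
  have hK : ∀ d, {d' : DF ℕ c | K d' = K d} ∈ 𝓝 d := by
    intro d
    have h1 : ∀ᶠ d' in 𝓝 d, ∀ k ∈ Finset.range (K d + 1), (G k d' ↔ G k d) := by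
      rw [eventually_all_finset]
      intro k _
      exact hG k d
    filter_upwards [h1] with d' hd'
    show Nat.find (hGex d') = K d
    rw [Nat.find_eq_iff]
    constructor
    · rw [hd' (K d) (Finset.mem_range.2 (by omega))]
      exact Nat.find_spec (hGex d)
    · intro n hn
      rw [hd' n (Finset.mem_range.2 (by omega))]
      exact Nat.find_min (hGex d) hn
  refine ⟨Σ k : ℕ, (Fin (k + 1) → Y), fun b => {d | K d = b.1 ∧ r b.1 d = b.2}, ?_, ?_, ?_, ?_⟩
  · intro b
    rw [isOpen_iff_mem_nhds]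
    rintro d ⟨h1, h2⟩
    filter_upwards [hK d, hr b.1 d] with d' h3 h4
    exact ⟨h3.trans h1, h4.trans h2⟩
  · ext d
    simp only [mem_iUnion, mem_univ, iff_true]
    exact ⟨⟨K d, r (K d) d⟩, rfl, rfl⟩
  · intro d
    refine ⟨{d' | K d' = K d ∧ r (K d) d' = r (K d) d}, ?_, ?_⟩
    · filter_upwards [hK d, hr (K d) d] with d' h3 h4
      exact ⟨h3, h4⟩
    · refine (finite_singleton (⟨K d, r (K d) d⟩ : Σ k : ℕ, (Fin (k + 1) → Y))).subset ?_
      rintro ⟨k, σ⟩ ⟨d', ⟨h1, h2⟩, ⟨h3, h4⟩⟩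
      simp only at h1 h2
      have h5 : k = K d := h1.symm.trans h3
      subst h5
      have h6 : σ = r (K d) d := h2.symm.trans h4
      rw [h6]
      rfl
  · rintro ⟨k, σ⟩
    refine ⟨a k σ, ?_⟩
    rintro d ⟨h1, h2⟩
    simp only at h1 h2
    refine hW2 k σ ?_
    have h3 : G (K d) d := Nat.find_spec (hGex d)
    have h4 : d ∈ W (K d) (r (K d) d) := h3
    rw [h1] at h4
    rw [← h2]
    exact h4

end A

section transfer

/-- The family of spaces: `T` at `none`, and `Y` elsewhere. -/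
def Fam (J T Y : Type) : Option J → Type
  | none => T
  | some _ => Y

/-- the topologies of the family -/
def famTop (J T Y : Type) (tT : TopologicalSpace T) (tY : TopologicalSpace Y) :
    ∀ o : Option J, TopologicalSpace (Fam J T Y o)
  | none => tT
  | some _ => tY

variable {J T Y : Type} [tT : TopologicalSpace T] [tY : TopologicalSpace Y]

/-- the homeomorphism of the product of the family with `T × (J → Y)` -/
def famHomeo :
    letI := famTop J T Y tT tY
    (∀ o : Option J, Fam J T Y o) ≃ₜ T × (J → Y) :=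
  letI := famTop J T Y tT tY
  { toFun := fun x => (x none, fun j => x (some j))
    invFun := fun z o => match o with
      | none => z.1
      | some j => z.2 j
    left_inv := by
      intro x
      funext o
      cases o <;> rfl
    right_inv := by
      intro z
      rfl
    continuous_toFun := by
      refine Continuous.prodMk ?_ ?_
      · exact continuous_apply (A := Fam J T Y) none
      · refine continuous_pi fun j => ?_
        exact continuous_apply (A := Fam J T Y) (some j)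
    continuous_invFun := by
      refine continuous_pi fun o => ?_
      cases o with
      | none => exact continuous_fst
      | some j => exact (continuous_apply j).comp continuous_snd }

theorem IsNormalT1.homeo {A B : Type} [TopologicalSpace A] [TopologicalSpace B] (e : A ≃ₜ B)
    (h : IsNormalT1 B) : IsNormalT1 A := by
  obtain ⟨h1, h2⟩ := h
  refine ⟨e.isEmbedding.t1Space, fun F G hF hG hFG => ?_⟩
  obtain ⟨U, V, hU, hV, hFU, hGV, hUV⟩ := h2 (e '' F) (e '' G) (e.isClosed_image.2 hF)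
    (e.isClosed_image.2 hG) ((Set.disjoint_image_iff e.injective).2 hFG)
  exact ⟨e ⁻¹' U, e ⁻¹' V, hU.preimage e.continuous, hV.preimage e.continuous,
    image_subset_iff.1 hFU, image_subset_iff.1 hGV, hUV.preimage e⟩

theorem IsCompletelyRegularT1.homeo {A B : Type} [TopologicalSpace A] [TopologicalSpace B]
    (e : A ≃ₜ B) (h : IsCompletelyRegularT1 B) : IsCompletelyRegularT1 A := by
  obtain ⟨h1, h2⟩ := h
  refine ⟨e.isEmbedding.t1Space, fun F x hF hx => ?_⟩
  obtain ⟨f, hf, hfx, hfF⟩ := h2 (e '' F) (e x) (e.isClosed_image.2 hF)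
    (by rintro ⟨y, hy, hyx⟩; exact hx (e.injective hyx ▸ hy))
  exact ⟨f ∘ e, hf.comp e.continuous, hfx, fun y hy => hfF _ ⟨y, hy, rfl⟩⟩

theorem IsParacompactT2.homeo {A B : Type} [TopologicalSpace A] [TopologicalSpace B]
    (e : A ≃ₜ B) (h : IsParacompactT2 B) : IsParacompactT2 A := by
  obtain ⟨h1, h2⟩ := h
  exact ⟨e.isEmbedding.t2Space, e.isClosedEmbedding.paracompactSpace⟩

theorem fam_fill [Nonempty T] (c : T → Y) (Sm : Set J → Prop)
    (hmono : ∀ A B : Set J, A ⊆ B → Sm B → Sm A) (J' : Set (Option J)) (hJ' : Sm (some ⁻¹' J')) :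
    letI := famTop J T Y tT tY
    (fun (d : ∀ o, Fam J T Y o) (j : J') => d j) '' (famHomeo ⁻¹'
      {z : T × (J → Y) | Sm {i | z.2 i ≠ c z.1}}) = Set.univ := by
  classical
  letI := famTop J T Y tT tY
  rw [Set.eq_univ_iff_forall]
  intro x
  let t0 : T := if h : none ∈ J' then x ⟨none, h⟩ else Classical.arbitrary T
  let w : J → Y := fun j => if h : some j ∈ J' then x ⟨some j, h⟩ else c t0
  refine ⟨famHomeo.symm (t0, w), ?_, ?_⟩
  · rw [mem_preimage, Homeomorph.apply_symm_apply]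
    refine hmono _ _ ?_ hJ'
    intro j hj
    by_contra hjJ
    apply hj
    show w j = c t0
    exact dif_neg hjJ
  · funext ⟨o, ho⟩
    cases o with
    | none =>
      show t0 = _
      exact dif_pos ho
    | some j =>
      show w j = _
      exact dif_pos ho

theorem fam_t1 [T1Space T] [T1Space Y] :
    letI := famTop J T Y tT tY
    T1Space (∀ o : Option J, Fam J T Y o) := by
  letI := famTop J T Y tT tY
  exact (famHomeo (J := J) (T := T) (Y := Y)).isEmbedding.t1Space

end transfer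

end Pool.Agent.V11266.Fill
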