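import Pool.Agent.V11266.FillB

/-!
The completely regular subspace filling all countable subproducts, with a factor that is not
completely regular.
-/

namespace Pool.Agent.V11266.Fill

open Set Topology Filter

/-- The space `XS I L`: a point `a`, points `p n l`, `q n b`, and isolated points `m k b l`. -/
inductive XS (I L : Type) : Type
  | a : XS I L
  | p (n : ℕ) (l : L) : XS I L
  | q (n : ℕ) (b : Finset I) : XS I L
  | m (k : ℕ) (b : Finset I) (l : L) : XS I L

namespace XS
variable {I L : Type}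

/-- level of a point -/
def lev : XS I L → ℕ
  | a => 0
  | p n _ => n
  | q n _ => n
  | m k _ _ => k

instance : TopologicalSpace (XS I L) where
  IsOpen U := (a ∈ U → ∃ N, ∀ x : XS I L, N ≤ lev x → x ∈ U) ∧
    (∀ n l, p n l ∈ U → ∀ᶠ b in atTop, ∀ k, (k + 1) / 2 = n → m k b l ∈ U) ∧
    (∀ n b, q n b ∈ U → ∀ᶠ l in cofinite, ∀ k, k / 2 = n → m k b l ∈ U)
  isOpen_univ := by simp
  isOpen_inter := by
    rintro U V ⟨h0, h1, h2⟩ ⟨h0', h3, h4⟩
    refine ⟨fun ha => ?_, fun n l hl => ?_, fun n b hb => ?_⟩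
    · obtain ⟨N, hN⟩ := h0 ha.1
      obtain ⟨N', hN'⟩ := h0' ha.2
      exact ⟨max N N', fun x hx => ⟨hN x (le_trans (le_max_left _ _) hx),
        hN' x (le_trans (le_max_right _ _) hx)⟩⟩
    · filter_upwards [h1 n l hl.1, h3 n l hl.2] with b hb hb' k hk
      exact ⟨hb k hk, hb' k hk⟩
    · filter_upwards [h2 n b hb.1, h4 n b hb.2] with l hl hl' k hk
      exact ⟨hl k hk, hl' k hk⟩
  isOpen_sUnion := by
    intro s hs
    refine ⟨?_, ?_, ?_⟩
    · rintro ⟨U, hU, ha⟩
      obtain ⟨N, hN⟩ := (hs U hU).1 ha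
      exact ⟨N, fun x hx => ⟨U, hU, hN x hx⟩⟩
    · rintro n l ⟨U, hU, hl⟩
      exact ((hs U hU).2.1 n l hl).mono fun b hb k hk => ⟨U, hU, hb k hk⟩
    · rintro n b ⟨U, hU, hb⟩
      exact ((hs U hU).2.2 n b hb).mono fun l hl k hk => ⟨U, hU, hl k hk⟩

theorem isOpen_iff' (U : Set (XS I L)) : IsOpen U ↔
    (a ∈ U → ∃ N, ∀ x : XS I L, N ≤ lev x → x ∈ U) ∧
    (∀ n l, p n l ∈ U → ∀ᶠ b in atTop, ∀ k, (k + 1) / 2 = n → m k b l ∈ U) ∧
    (∀ n b, q n b ∈ U → ∀ᶠ l in cofinite, ∀ k, k / 2 = n → m k b l ∈ U) := Iff.rfl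

theorem nhds_m (k : ℕ) (b : Finset I) (l : L) (S : Set (XS I L)) :
    S ∈ 𝓝 (m k b l) ↔ m k b l ∈ S := by
  refine ⟨mem_of_mem_nhds, fun h => mem_of_superset (IsOpen.mem_nhds (s := {m k b l}) ?_ rfl) ?_⟩
  · rw [isOpen_iff']
    simp
  · simpa using h

theorem nhds_q (n : ℕ) (b : Finset I) (S : Set (XS I L)) :
    S ∈ 𝓝 (q n b : XS I L) ↔ q n b ∈ S ∧ ∀ᶠ l in cofinite, ∀ k, k / 2 = n → m k b l ∈ S := by
  constructor
  · intro h
    obtain ⟨U, hU, hUo, hq⟩ := mem_nhds_iff.1 h
    exact ⟨hU hq, (hUo.2.2 n b hq).mono fun l hl k hk => hU (hl k hk)⟩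
  · rintro ⟨h1, h2⟩
    refine mem_of_superset (IsOpen.mem_nhds (s := {x | x = q n b ∨
      ∃ k l, k / 2 = n ∧ x = m k b l ∧ m k b l ∈ S}) ?_ (Or.inl rfl)) ?_
    · rw [isOpen_iff']
      refine ⟨by simp, by simp, ?_⟩
      intro n' b' hb'
      simp only [mem_ofPred_eq, q.injEq, reduceCtorEq, false_and, and_false, exists_false,
        or_false] at hb'
      obtain ⟨rfl, rfl⟩ := hb'
      filter_upwards [h2] with l hl k hk
      exact Or.inr ⟨k, l, hk, rfl, hl k hk⟩
    · rintro x (rfl | ⟨k, l, hk, rfl, hl⟩)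
      · exact h1
      · exact hl

theorem nhds_p (n : ℕ) (l : L) (S : Set (XS I L)) :
    S ∈ 𝓝 (p n l : XS I L) ↔ p n l ∈ S ∧ ∀ᶠ b in atTop, ∀ k, (k + 1) / 2 = n → m k b l ∈ S := by
  constructor
  · intro h
    obtain ⟨U, hU, hUo, hq⟩ := mem_nhds_iff.1 h
    exact ⟨hU hq, (hUo.2.1 n l hq).mono fun l hl k hk => hU (hl k hk)⟩
  · rintro ⟨h1, h2⟩
    refine mem_of_superset (IsOpen.mem_nhds (s := {x | x = p n l ∨
      ∃ k b, (k + 1) / 2 = n ∧ x = m k b l ∧ m k b l ∈ S}) ?_ (Or.inl rfl)) ?_
    · rw [isOpen_iff']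
      refine ⟨by simp, ?_, by simp⟩
      intro n' b' hb'
      simp only [mem_ofPred_eq, p.injEq, reduceCtorEq, false_and, and_false, exists_false,
        or_false] at hb'
      obtain ⟨rfl, rfl⟩ := hb'
      filter_upwards [h2] with b hb k hk
      exact Or.inr ⟨k, b, hk, rfl, hb k hk⟩
    · rintro x (rfl | ⟨k, l, hk, rfl, hl⟩)
      · exact h1
      · exact hl

theorem nhds_a (S : Set (XS I L)) :
    S ∈ 𝓝 (a : XS I L) ↔ a ∈ S ∧ ∃ N, ∀ x : XS I L, N ≤ lev x → x ∈ S := by
  constructor
  · intro h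
    obtain ⟨U, hU, hUo, hq⟩ := mem_nhds_iff.1 h
    obtain ⟨N, hN⟩ := hUo.1 hq
    exact ⟨hU hq, N, fun x hx => hU (hN x hx)⟩
  · rintro ⟨h1, N, hN⟩
    refine mem_of_superset (IsOpen.mem_nhds (s := {x | x = a ∨ (N + 1 ≤ lev x) ∨
      ∃ k b l, x = m k b l ∧ N ≤ k}) ?_ (Or.inl rfl)) ?_
    · rw [isOpen_iff']
      refine ⟨fun _ => ⟨N + 1, fun x hx => Or.inr (Or.inl hx)⟩, ?_, ?_⟩
      · rintro n l (h | h | ⟨k, b, l', h, _⟩)
        · simp at h
        · simp only [lev] at h
          refine Eventually.of_forall fun b k hk => Or.inr (Or.inr ⟨k, b, l, rfl, ?_⟩)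
          omega
        · simp at h
      · rintro n b (h | h | ⟨k, b, l', h, _⟩)
        · simp at h
        · simp only [lev] at h
          refine Eventually.of_forall fun l k hk => Or.inr (Or.inr ⟨k, b, l, rfl, ?_⟩)
          omega
        · simp at h
    · rintro x (rfl | h | ⟨k, b, l, rfl, h⟩)
      · exact h1
      · exact hN x (by omega)
      · exact hN _ h

instance [Infinite I] : T1Space (XS I L) := by
  classical
  refine ⟨fun x => ?_⟩
  rw [← isOpen_compl_iff, isOpen_iff']
  refine ⟨fun _ => ⟨lev x + 1, fun y hy hyx => ?_⟩, ?_, ?_⟩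
  · simp only [mem_singleton_iff] at hyx
    rw [hyx] at hy
    omega
  · intro n l' _
    cases x with
    | a => simp
    | p n l => simp
    | q n b => simp
    | m k b l =>
      filter_upwards [TS.eventually_ne b] with b' hb' k' _ hb
      simp only [mem_singleton_iff, m.injEq] at hb
      exact hb' hb.2.1
  · intro n b' _
    cases x with
    | a => simp
    | p n l => simp
    | q n b => simp
    | m k b l =>
      have : ∀ᶠ l' in cofinite, l' ≠ l := (finite_singleton l).compl_mem_cofinite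
      filter_upwards [this] with l' hl' k' _ hb
      simp only [mem_singleton_iff, m.injEq] at hb
      exact hl' hb.2.2

open Cardinal in
theorem not_completelyRegular [Infinite I] (h : #I < #L) : ¬ IsCompletelyRegularT1 (XS I L) := by
  rintro ⟨_, hN⟩
  have hP : IsClosed {x : XS I L | ∃ l, x = p 0 l} := by
    rw [← isOpen_compl_iff, isOpen_iff']
    refine ⟨fun _ => ⟨1, ?_⟩, ?_, ?_⟩
    · rintro x hx ⟨l, rfl⟩
      simp [lev] at hx
    · intro n l _
      refine Eventually.of_forall fun b k _ => ?_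
      rintro ⟨l', hl'⟩
      simp at hl'
    · intro n b _
      refine Eventually.of_forall fun l k _ => ?_
      rintro ⟨l', hl'⟩
      simp at hl'
  obtain ⟨f, hf, hfa, hf0⟩ := hN _ a hP (by rintro ⟨l, hl⟩; simp at hl)
  have hq : ∀ j : ℕ × Finset I, {l | f (m j.1 j.2 l) ≠ f (q (j.1 / 2) j.2)}.Countable := by
    rintro ⟨k, b⟩
    have h1 : Tendsto (fun l => f (m k b l)) cofinite (𝓝 (f (q (k / 2) b))) := by
      intro S hS
      have h2 := hf.continuousAt (x := (q (k / 2) b : XS I L)) hS
      exact ((nhds_q _ b _).1 h2).2.mono fun l hl => hl k rfl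
    have h3 := h1.countable_compl_preimage_ker
    refine h3.mono ?_
    intro l hl
    simpa using hl
  have hcard : #(ℕ × Finset I) < #L := by
    rw [mk_prod, lift_uzero, lift_uzero, mk_finset_of_infinite, mk_nat,
      aleph0_mul_eq (aleph0_le_mk I)]
    exact h
  obtain ⟨l, hl⟩ := exists_notMem_iUnion (J := ℕ × Finset I) hcard _ hq
  have hl' : ∀ k b, f (m k b l) = f (q (k / 2) b) := by
    intro k b
    have := hl (k, b)
    simpa using this
  have hp : ∀ n k, (k + 1) / 2 = n → Tendsto (fun b => f (m k b l)) atTop (𝓝 (f (p n l))) := by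
    intro n k hk S hS
    have h2 := hf.continuousAt (x := (p n l : XS I L)) hS
    exact ((nhds_p _ l _).1 h2).2.mono fun b hb => hb k hk
  have hstep : ∀ n, f (p n l) = 0 := by
    intro n
    induction n with
    | zero => exact hf0 _ ⟨l, rfl⟩
    | succ n ih =>
      have h1 := hp (n + 1) (2 * n + 1) (by omega)
      have h2 := hp n (2 * n) (by omega)
      simp only [hl'] at h1 h2
      rw [show (2 * n + 1) / 2 = n by omega] at h1
      rw [show (2 * n) / 2 = n by omega] at h2
      rw [← ih]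
      exact tendsto_nhds_unique h1 h2
  have h1 := hf.continuousAt (x := (a : XS I L)) (Ioi_mem_nhds (show (0 : ℝ) < f a by
    rw [hfa]; norm_num))
  rw [mem_map, nhds_a] at h1
  obtain ⟨_, N, hN⟩ := h1
  have := hN (p N l) (le_refl _)
  simp [hstep] at this

end XS

/-- the code of a point of `XS I L` -/
def codeX {I L : Type} : XS I L → Option L
  | XS.a => none
  | XS.p _ l => some l
  | XS.q _ _ => none
  | XS.m _ _ _ => none

section C
variable {I L : Type}

/-- Local constancy gives clopen neighbourhoods: the separation of points and closed sets. -/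
theorem DDX_clopen [Uncountable I] (d : DD I (codeX (I := I) (L := L)))
    (O : Set (DD I (codeX (I := I) (L := L)))) (hO : O ∈ 𝓝 d) :
    ∃ W : Set (DD I (codeX (I := I) (L := L))), IsClopen W ∧ d ∈ W ∧ W ⊆ O := by
  classical
  rw [mem_nhds_sub_iff] at hO
  obtain ⟨U, hU, E, hUE⟩ := hO
  suffices hsuff : ∃ Φ : XS I L → (I → Option L) → Prop, Φ d.1.1 d.1.2 ∧
      (∀ d' : DD I (codeX (I := I) (L := L)), Φ d'.1.1 d'.1.2 → d'.1.1 ∈ U) ∧
      (∀ d' : DD I (codeX (I := I) (L := L)),
        {d'' : DD I (codeX (I := I) (L := L)) | (Φ d''.1.1 d''.1.2 ↔ Φ d'.1.1 d'.1.2)} ∈ 𝓝 d') by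
    obtain ⟨Φ, h1, h2, h3⟩ := hsuff
    have h4 : ∀ d' : DD I (codeX (I := I) (L := L)),
        {d'' : DD I (codeX (I := I) (L := L)) | ((∀ i ∈ E, d''.1.2 i = d.1.2 i) ↔
          (∀ i ∈ E, d'.1.2 i = d.1.2 i))} ∈ 𝓝 d' := by
      intro d'
      rw [mem_nhds_sub_iff]
      refine ⟨univ, univ_mem, E, fun d'' _ h => ?_⟩
      constructor
      · intro h5 i hi
        rw [← h i hi, h5 i hi]
      · intro h5 i hi
        rw [h i hi, h5 i hi]
    refine ⟨{d' | Φ d'.1.1 d'.1.2 ∧ ∀ i ∈ E, d'.1.2 i = d.1.2 i}, ⟨?_, ?_⟩,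
      ⟨h1, fun _ _ => rfl⟩, fun d' hd' => hUE d' (h2 d' hd'.1) hd'.2⟩
    · rw [← isOpen_compl_iff, isOpen_iff_mem_nhds]
      intro d' hd'
      filter_upwards [h3 d', h4 d'] with d'' h5 h6 h7
      exact hd' ⟨h5.1 h7.1, h6.1 h7.2⟩
    · rw [isOpen_iff_mem_nhds]
      intro d' hd'
      filter_upwards [h3 d', h4 d'] with d'' h5 h6
      exact ⟨h5.2 hd'.1, h6.2 hd'.2⟩
  -- a helper: sets clopen in the first coordinate
  have hfirst : ∀ A : Set (XS I L), (∀ x, {y | (y ∈ A ↔ x ∈ A)} ∈ 𝓝 x) →
      ∀ d' : DD I (codeX (I := I) (L := L)),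
        {d'' : DD I (codeX (I := I) (L := L)) | (d''.1.1 ∈ A ↔ d'.1.1 ∈ A)} ∈ 𝓝 d' := by
    intro A hA d'
    rw [mem_nhds_sub_iff]
    exact ⟨_, hA d'.1.1, ∅, fun d'' h _ => h⟩
  obtain ⟨⟨x, w⟩, hd⟩ := d
  simp only at hU ⊢
  cases x with
  | a =>
    rw [XS.nhds_a] at hU
    obtain ⟨haU, N, hN⟩ := hU
    refine ⟨fun x w => match x with
      | XS.a => True
      | XS.p n _ => N + 1 ≤ n
      | XS.q n _ => N ≤ n
      | XS.m k b l => 2 * N + 1 ≤ k ∨ (k = 2 * N ∧ ∀ δ ∈ b, w δ ≠ some l), trivial, ?_, ?_⟩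
    · rintro ⟨⟨x, w⟩, hd⟩ h
      cases x with
      | a => exact haU
      | p n l =>
        have h : N + 1 ≤ n := h
        exact hN _ (by simp only [XS.lev]; omega)
      | q n b => exact hN _ h
      | m k b l =>
        have h : 2 * N + 1 ≤ k ∨ (k = 2 * N ∧ ∀ δ ∈ b, w δ ≠ some l) := h
        exact hN _ (by simp only [XS.lev]; omega)
    · rintro ⟨⟨x, w'⟩, hd'⟩
      rw [mem_nhds_sub_iff]
      cases x with
      | a =>
        refine ⟨{x | x = XS.a ∨ 2 * N + 2 ≤ XS.lev x}, ?_, ∅, ?_⟩
        · rw [XS.nhds_a]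
          exact ⟨Or.inl rfl, 2 * N + 2, fun x hx => Or.inr hx⟩
        · rintro ⟨⟨x, w''⟩, hd''⟩ hx _
          simp only at hx
          cases x with
          | a => exact Iff.rfl
          | p n l =>
            rcases hx with hx | hx
            · simp at hx
            · simp only [XS.lev] at hx
              show N + 1 ≤ n ↔ True
              simp only [iff_true]
              omega
          | q n b =>
            rcases hx with hx | hx
            · simp at hx
            · simp only [XS.lev] at hx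
              show N ≤ n ↔ True
              simp only [iff_true]
              omega
          | m k b l =>
            rcases hx with hx | hx
            · simp at hx
            · simp only [XS.lev] at hx
              show (2 * N + 1 ≤ k ∨ (k = 2 * N ∧ ∀ δ ∈ b, w'' δ ≠ some l)) ↔ True
              simp only [iff_true]
              left
              omega
      | p n l =>
        have hd2 : {i | w' i ≠ some l}.Countable := hd'
        obtain ⟨δ, hδ⟩ : ∃ δ, w' δ = some l := by
          by_contra hcon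
          push Not at hcon
          have : {i | w' i ≠ some l} = univ := by
            ext i; simpa using hcon i
          rw [this] at hd2
          exact not_countable (α := I) (countable_univ_iff.1 hd2)
        refine ⟨{x | x = XS.p n l ∨ ∃ k b, (k + 1) / 2 = n ∧ δ ∈ b ∧ x = XS.m k b l}, ?_,
          {δ}, ?_⟩
        · rw [XS.nhds_p]
          refine ⟨Or.inl rfl, ?_⟩
          filter_upwards [eventually_ge_atTop ({δ} : Finset I)] with b hb k hk
          exact Or.inr ⟨k, b, hk, hb (Finset.mem_singleton_self _), rfl⟩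
        · rintro ⟨⟨x, w''⟩, hd''⟩ hx hw
          simp only at hx hw
          rcases hx with rfl | ⟨k, b, hk, hb, rfl⟩
          · exact Iff.rfl
          · show (2 * N + 1 ≤ k ∨ (k = 2 * N ∧ ∀ δ ∈ b, w'' δ ≠ some l)) ↔ N + 1 ≤ n
            constructor
            · rintro (h | ⟨h1, h2⟩)
              · omega
              · exact absurd (by rw [hw δ (Finset.mem_singleton_self _)]; exact hδ) (h2 δ hb)
            · intro h
              left
              omega
      | q n b =>
        have hfin : {l | ∃ i ∈ b, w' i = some l}.Finite := by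
          refine ((b.finite_toSet.image w').preimage (Option.some_injective L).injOn).subset ?_
          rintro l ⟨i, hi, hil⟩
          exact ⟨i, hi, hil⟩
        refine ⟨{x | x = XS.q n b ∨ ∃ k l, k / 2 = n ∧ ¬ (∃ i ∈ b, w' i = some l) ∧
          x = XS.m k b l}, ?_, b, ?_⟩
        · rw [XS.nhds_q]
          refine ⟨Or.inl rfl, ?_⟩
          have h2 : ∀ᶠ l in cofinite, l ∉ {l | ∃ i ∈ b, w' i = some l} :=
            hfin.compl_mem_cofinite
          filter_upwards [h2] with l hl2 k hk
          exact Or.inr ⟨k, l, hk, hl2, rfl⟩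
        · rintro ⟨⟨x, w''⟩, hd''⟩ hx hw
          simp only at hx hw
          rcases hx with rfl | ⟨k, l, hk, hb, rfl⟩
          · exact Iff.rfl
          · show (2 * N + 1 ≤ k ∨ (k = 2 * N ∧ ∀ δ ∈ b, w'' δ ≠ some l)) ↔ N ≤ n
            constructor
            · rintro (h | ⟨h1, h2⟩) <;> omega
            · intro h
              by_cases hk2 : 2 * N + 1 ≤ k
              · exact Or.inl hk2
              · refine Or.inr ⟨by omega, fun δ hδ hδ' => hb ⟨δ, hδ, ?_⟩⟩
                rw [← hw δ hδ]
                exact hδ'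
      | m k b l =>
        refine ⟨{XS.m k b l}, (XS.nhds_m k b l _).2 rfl, b, ?_⟩
        rintro ⟨⟨x, w''⟩, hd''⟩ hx hw
        simp only [mem_singleton_iff] at hx hw
        subst hx
        show (2 * N + 1 ≤ k ∨ (k = 2 * N ∧ ∀ δ ∈ b, w'' δ ≠ some l)) ↔
          (2 * N + 1 ≤ k ∨ (k = 2 * N ∧ ∀ δ ∈ b, w' δ ≠ some l))
        have : (∀ δ ∈ b, w'' δ ≠ some l) ↔ (∀ δ ∈ b, w' δ ≠ some l) := by
          constructor
          · intro h δ hδ
            rw [← hw δ hδ]
            exact h δ hδ
          · intro h δ hδ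
            rw [hw δ hδ]
            exact h δ hδ
        rw [this]
  | p n l =>
    rw [XS.nhds_p] at hU
    obtain ⟨h1, h2⟩ := hU
    obtain ⟨E0, hE0⟩ := eventually_atTop.1 h2
    refine ⟨fun x _ => x ∈ {x : XS I L | x = XS.p n l ∨
      ∃ k b, (k + 1) / 2 = n ∧ E0 ⊆ b ∧ x = XS.m k b l}, Or.inl rfl, ?_, ?_⟩
    · rintro ⟨⟨x, w⟩, hd⟩ (h | ⟨k, b, hk, hb, h⟩)
      · simp only at h
        show x ∈ U
        rw [h]; exact h1
      · simp only at h
        show x ∈ U
        rw [h]; exact hE0 b hb k hk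
    · apply hfirst
      intro x
      cases x with
      | a =>
        rw [XS.nhds_a]
        refine ⟨Iff.rfl, 2 * n + 1, fun x hx => ?_⟩
        have h3 : (XS.a : XS I L) ∉ {x : XS I L | x = XS.p n l ∨
          ∃ k b, (k + 1) / 2 = n ∧ E0 ⊆ b ∧ x = XS.m k b l} := by simp
        have h4 : x ∉ {x : XS I L | x = XS.p n l ∨
          ∃ k b, (k + 1) / 2 = n ∧ E0 ⊆ b ∧ x = XS.m k b l} := by
          rintro (h | ⟨k, b, hk, hb, h⟩)
          · rw [h] at hx
            simp only [XS.lev] at hx
            omega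
          · rw [h] at hx
            simp only [XS.lev] at hx
            omega
        exact ⟨fun h => absurd h h4, fun h => absurd h h3⟩
      | p n' l' =>
        rw [XS.nhds_p]
        refine ⟨Iff.rfl, ?_⟩
        filter_upwards [eventually_ge_atTop E0] with b hb k hk
        constructor
        · rintro (h | ⟨k', b', hk', hb', h⟩)
          · simp at h
          · simp only [XS.m.injEq] at h
            obtain ⟨h5, h6, h7⟩ := h
            left
            rw [← hk, ← hk', h5, h7]
        · rintro (h | ⟨k', b', hk', hb', h⟩)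
          · simp only [XS.p.injEq] at h
            obtain ⟨rfl, rfl⟩ := h
            exact Or.inr ⟨k, b, hk, hb, rfl⟩
          · simp at h
      | q n' b' =>
        rw [XS.nhds_q]
        refine ⟨Iff.rfl, ?_⟩
        have : ∀ᶠ l' in cofinite, l' ≠ l := (finite_singleton l).compl_mem_cofinite
        filter_upwards [this] with l' hl' k hk
        constructor
        · rintro (h | ⟨k', b', hk', hb', h⟩)
          · simp at h
          · simp only [XS.m.injEq] at h
            exact absurd h.2.2 hl'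
        · rintro (h | ⟨k', b', hk', hb', h⟩)
          · simp at h
          · simp at h
      | m k' b' l' =>
        rw [XS.nhds_m]
        exact Iff.rfl
  | q n b =>
    rw [XS.nhds_q] at hU
    obtain ⟨h1, h2⟩ := hU
    have hfin : {l | ¬ ∀ k, k / 2 = n → XS.m k b l ∈ U}.Finite := h2
    refine ⟨fun x _ => x ∈ {x : XS I L | x = XS.q n b ∨
      ∃ k l, k / 2 = n ∧ (∀ k, k / 2 = n → XS.m k b l ∈ U) ∧ x = XS.m k b l}, Or.inl rfl, ?_, ?_⟩
    · rintro ⟨⟨x, w⟩, hd⟩ (h | ⟨k, l, hk, hl, h⟩)
      · simp only at h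
        show x ∈ U
        rw [h]; exact h1
      · simp only at h
        show x ∈ U
        rw [h]; exact hl k hk
    · apply hfirst
      intro x
      cases x with
      | a =>
        rw [XS.nhds_a]
        refine ⟨Iff.rfl, 2 * n + 2, fun x hx => ?_⟩
        have h3 : (XS.a : XS I L) ∉ {x : XS I L | x = XS.q n b ∨
          ∃ k l, k / 2 = n ∧ (∀ k, k / 2 = n → XS.m k b l ∈ U) ∧ x = XS.m k b l} := by simp
        have h4 : x ∉ {x : XS I L | x = XS.q n b ∨
          ∃ k l, k / 2 = n ∧ (∀ k, k / 2 = n → XS.m k b l ∈ U) ∧ x = XS.m k b l} := by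
          rintro (h | ⟨k, l, hk, hb, h⟩)
          · rw [h] at hx
            simp only [XS.lev] at hx
            omega
          · rw [h] at hx
            simp only [XS.lev] at hx
            omega
        exact ⟨fun h => absurd h h4, fun h => absurd h h3⟩
      | p n' l' =>
        rw [XS.nhds_p]
        refine ⟨Iff.rfl, ?_⟩
        filter_upwards [TS.eventually_ne b] with b' hb' k hk
        constructor
        · rintro (h | ⟨k', l'', hk', _, h⟩)
          · simp at h
          · simp only [XS.m.injEq] at h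
            exact absurd h.2.1 hb'
        · rintro (h | ⟨k', l'', hk', _, h⟩)
          · simp at h
          · simp at h
      | q n' b' =>
        rw [XS.nhds_q]
        refine ⟨Iff.rfl, ?_⟩
        filter_upwards [h2] with l' hl' k hk
        constructor
        · rintro (h | ⟨k', l'', hk', _, h⟩)
          · simp at h
          · simp only [XS.m.injEq] at h
            obtain ⟨h5, h6, h7⟩ := h
            left
            rw [← hk, ← hk', h5, h6]
        · rintro (h | ⟨k', l'', hk', _, h⟩)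
          · simp only [XS.q.injEq] at h
            obtain ⟨rfl, rfl⟩ := h
            exact Or.inr ⟨k, l', hk, hl', rfl⟩
          · simp at h
      | m k' b' l' =>
        rw [XS.nhds_m]
        exact Iff.rfl
  | m k b l =>
    have h1 := mem_of_mem_nhds hU
    refine ⟨fun x _ => x ∈ ({XS.m k b l} : Set (XS I L)), rfl, ?_, ?_⟩
    · rintro ⟨⟨x, w⟩, hd⟩ h
      have h : x = XS.m k b l := h
      show x ∈ U
      rw [h]; exact h1
    · apply hfirst
      intro x
      have hcl : IsClopen ({XS.m k b l} : Set (XS I L)) := by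
        refine ⟨isClosed_singleton, ?_⟩
        rw [isOpen_iff_mem_nhds]
        rintro y rfl
        exact (XS.nhds_m _ _ _ _).2 rfl
      by_cases hx : x ∈ ({XS.m k b l} : Set (XS I L))
      · filter_upwards [hcl.2.mem_nhds hx] with y hy
        exact ⟨fun _ => hx, fun _ => hy⟩
      · filter_upwards [hcl.1.isOpen_compl.mem_nhds hx] with y hy
        exact ⟨fun h => absurd h hy, fun h => absurd h hx⟩

end C

end Pool.Agent.V11266.Fill
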