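import Mathlib

/-! Embedding antidirected trees into digraphs: tools. -/

set_option autoImplicit false

namespace Pool.Agent.V11266.AntiTree

open Finset

/-- removing a leaf (copied from Pool.Agent.H223R3.Tree.Cliques) -/
theorem remove_leaf {W : Type} [Fintype W] (T : SimpleGraph W) (hT : T.IsTree) (k : ℕ)
    (hk : 1 ≤ k) (hW : Fintype.card W = k + 1) :
    ∃ l p : W, (T.Adj l p ∧ ∀ q, T.Adj l q → q = p) ∧
      (T.induce ({l}ᶜ : Set W)).IsTree ∧ Nat.card ({l}ᶜ : Set W) = k := by
  classical
  have : Nontrivial W := Fintype.one_lt_card_iff_nontrivial.1 (by omega)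
  obtain ⟨v, hv⟩ := hT.exists_vert_degree_one_of_nontrivial
  have hconn := hT.connected.induce_compl_singleton_of_degree_eq_one hv
  have hac := hT.isAcyclic.induce ({v}ᶜ : Set W)
  obtain ⟨p, hvp, hup⟩ := SimpleGraph.degree_eq_one_iff_existsUnique_adj.mp hv
  refine ⟨v, p, ⟨hvp, fun q hq => hup q hq⟩, ⟨hconn, hac⟩, ?_⟩
  rw [Nat.card_eq_fintype_card, Fintype.card_compl_set]
  simp [hW]

/-- Greedy embedding of a properly 2-coloured tree. -/
theorem embed {V : Type} (R : V → V → Prop) (X Y : Finset V) (hXY : Disjoint X Y)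
    (a b : ℕ) (hx : ∀ x ∈ X, ∃ N ⊆ Y, b ≤ N.card ∧ ∀ y ∈ N, R x y)
    (hy : ∀ y ∈ Y, ∃ N ⊆ X, a ≤ N.card ∧ ∀ x ∈ N, R x y)
    (hXne : X.Nonempty) (hYne : Y.Nonempty) (n : ℕ) :
    ∀ (W : Type) [Finite W] (T : SimpleGraph W) (c : W → Prop), T.IsTree →
      Nat.card W = n + 1 → (∀ u v, T.Adj u v → (c u ↔ ¬ c v)) →
      {w | c w}.ncard ≤ a → {w | ¬ c w}.ncard ≤ b →
      ∃ f : W → V, Function.Injective f ∧ (∀ w, c w → f w ∈ X) ∧ (∀ w, ¬ c w → f w ∈ Y) ∧
        ∀ u v, T.Adj u v → c u → ¬ c v → R (f u) (f v) := by
  classical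
  induction n with
  | zero =>
    intro W _ T c hT hW hc ha hb
    have hsub : Subsingleton W := (Nat.card_eq_one_iff_unique.1 hW).1
    obtain ⟨x0, hx0⟩ := hXne
    obtain ⟨y0, hy0⟩ := hYne
    refine ⟨fun w => if c w then x0 else y0, fun u v _ => Subsingleton.elim u v, ?_, ?_, ?_⟩
    · intro w hw; simp only [if_pos hw]; exact hx0
    · intro w hw; simp only [if_neg hw]; exact hy0
    · intro u v huv
      exact absurd (Subsingleton.elim u v) huv.ne
  | succ n ih =>
    intro W _ T c hT hW hc ha hb
    have := Fintype.ofFinite W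
    obtain ⟨l, p, ⟨hlp, hup⟩, hT', hW'⟩ := remove_leaf T hT (n + 1) (by omega)
      (by rw [← Nat.card_eq_fintype_card]; exact hW)
    have hpl : p ≠ l := hlp.ne.symm
    have key : ∀ (P : W → Prop), {w : ({l}ᶜ : Set W) | P w.1}.ncard =
        ({w | P w} \ {l}).ncard := by
      intro P
      have : ({w | P w} \ {l}) = Subtype.val '' {w : ({l}ᶜ : Set W) | P w.1} := by
        ext w
        simp only [Set.mem_sdiff, Set.mem_ofPred_eq, Set.mem_singleton_iff, Set.mem_image,
          Subtype.exists, Set.mem_compl_iff, exists_and_right, exists_eq_right]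
        tauto
      rw [this, Set.ncard_image_of_injective _ Subtype.val_injective]
    have hle : ∀ (P : W → Prop), {w : ({l}ᶜ : Set W) | P w.1}.ncard ≤ {w | P w}.ncard := by
      intro P
      rw [key P]
      exact Set.ncard_le_ncard Set.sdiff_subset (Set.toFinite _)
    have hlt : ∀ (P : W → Prop), P l →
        {w : ({l}ᶜ : Set W) | P w.1}.ncard + 1 ≤ {w | P w}.ncard := by
      intro P hP
      rw [key P, Set.ncard_sdiff_singleton_add_one (show l ∈ {w | P w} from hP) (Set.toFinite _)]
    obtain ⟨f, f1, f2, f3, f4⟩ := ih ({l}ᶜ : Set W) (T.induce ({l}ᶜ : Set W)) (fun w => c w.1) hT'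
      hW' (fun u v huv => hc u.1 v.1 huv) ((hle c).trans ha) ((hle (fun w => ¬ c w)).trans hb)
    by_cases hcl : c l
    · have hcp : ¬ c p := (hc l p hlp).1 hcl
      obtain ⟨N, hN1, hN2, hN3⟩ := hy (f ⟨p, hpl⟩) (f3 ⟨p, hpl⟩ hcp)
      have h1 := hlt c hcl
      have hU : (f '' {w : ({l}ᶜ : Set W) | c w.1}).ncard < (N : Set V).ncard := by
        rw [Set.ncard_coe_finset]
        exact lt_of_le_of_lt (Set.ncard_image_le (Set.toFinite _)) (by omega)
      obtain ⟨x, hxN, hxU⟩ := Set.exists_mem_notMem_of_ncard_lt_ncard hU (Set.toFinite _)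
      have hxN' : x ∈ N := hxN
      refine ⟨fun w => if h : w = l then x else f ⟨w, h⟩, ?_, ?_, ?_, ?_⟩
      · have aux : ∀ w (h : w ≠ l), f ⟨w, h⟩ ≠ x := by
          intro w h he
          by_cases hcw : c w
          · exact hxU ⟨⟨w, h⟩, hcw, he⟩
          · have h2 := f3 ⟨w, h⟩ hcw
            rw [he] at h2
            exact Finset.disjoint_left.1 hXY (hN1 hxN') h2
        intro u v huv
        simp only at huv
        by_cases hu : u = l
        · by_cases hv : v = l
          · rw [hu, hv]
          · rw [dif_pos hu, dif_neg hv] at huv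
            exact absurd huv.symm (aux v hv)
        · by_cases hv : v = l
          · rw [dif_neg hu, dif_pos hv] at huv
            exact absurd huv (aux u hu)
          · rw [dif_neg hu, dif_neg hv] at huv
            exact congrArg Subtype.val (f1 huv)
      · intro w hw
        by_cases h : w = l
        · simp only [dif_pos h]; exact hN1 hxN'
        · simp only [dif_neg h]; exact f2 ⟨w, h⟩ hw
      · intro w hw
        by_cases h : w = l
        · subst h; exact absurd hcl hw
        · simp only [dif_neg h]; exact f3 ⟨w, h⟩ hw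
      · intro u v huv hu hv
        by_cases h : u = l
        · subst h
          have h2 := hup v huv
          subst h2
          simp only [dif_pos, dif_neg hpl]
          exact hN3 x hxN'
        · by_cases h' : v = l
          · subst h'; exact absurd hcl hv
          · simp only [dif_neg h, dif_neg h']
            exact f4 ⟨u, h⟩ ⟨v, h'⟩ huv hu hv
    · have hcp : c p := by
        by_contra hcp
        exact hcl ((hc l p hlp).2 hcp)
      obtain ⟨N, hN1, hN2, hN3⟩ := hx (f ⟨p, hpl⟩) (f2 ⟨p, hpl⟩ hcp)
      have h1 := hlt (fun w => ¬ c w) hcl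
      have hU : (f '' {w : ({l}ᶜ : Set W) | ¬ c w.1}).ncard < (N : Set V).ncard := by
        rw [Set.ncard_coe_finset]
        exact lt_of_le_of_lt (Set.ncard_image_le (Set.toFinite _)) (by omega)
      obtain ⟨x, hxN, hxU⟩ := Set.exists_mem_notMem_of_ncard_lt_ncard hU (Set.toFinite _)
      have hxN' : x ∈ N := hxN
      refine ⟨fun w => if h : w = l then x else f ⟨w, h⟩, ?_, ?_, ?_, ?_⟩
      · have aux : ∀ w (h : w ≠ l), f ⟨w, h⟩ ≠ x := by
          intro w h he
          by_cases hcw : c w
          · have h2 := f2 ⟨w, h⟩ hcw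
            rw [he] at h2
            exact Finset.disjoint_left.1 hXY h2 (hN1 hxN')
          · exact hxU ⟨⟨w, h⟩, hcw, he⟩
        intro u v huv
        simp only at huv
        by_cases hu : u = l
        · by_cases hv : v = l
          · rw [hu, hv]
          · rw [dif_pos hu, dif_neg hv] at huv
            exact absurd huv.symm (aux v hv)
        · by_cases hv : v = l
          · rw [dif_neg hu, dif_pos hv] at huv
            exact absurd huv (aux u hu)
          · rw [dif_neg hu, dif_neg hv] at huv
            exact congrArg Subtype.val (f1 huv)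
      · intro w hw
        by_cases h : w = l
        · subst h; exact absurd hw hcl
        · simp only [dif_neg h]; exact f2 ⟨w, h⟩ hw
      · intro w hw
        by_cases h : w = l
        · simp only [dif_pos h]; exact hN1 hxN'
        · simp only [dif_neg h]; exact f3 ⟨w, h⟩ hw
      · intro u v huv hu hv
        by_cases h : v = l
        · subst h
          have h2 := hup u huv.symm
          subst h2
          simp only [dif_pos, dif_neg hpl]
          exact hN3 x hxN'
        · by_cases h' : u = l
          · subst h'; exact absurd hu hcl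
          · simp only [dif_neg h, dif_neg h']
            exact f4 ⟨u, h'⟩ ⟨v, h⟩ huv hu hv

/-- Pruning to a subpair with large degrees. -/
theorem prune {V : Type} (R : V → V → Prop) [DecidableRel R] (α β : ℕ) (n : ℕ) :
    ∀ X Y : Finset V, X.card + Y.card = n →
      α * Y.card + β * X.card < ∑ x ∈ X, ∑ y ∈ Y, (if R x y then 1 else 0) →
      ∃ X' ⊆ X, ∃ Y' ⊆ Y, X'.Nonempty ∧ Y'.Nonempty ∧
        (∀ x ∈ X', ∃ N ⊆ Y', β + 1 ≤ N.card ∧ ∀ y ∈ N, R x y) ∧
        (∀ y ∈ Y', ∃ N ⊆ X', α + 1 ≤ N.card ∧ ∀ x ∈ N, R x y) := by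
  classical
  induction n with
  | zero =>
    intro X Y hXY h
    have hX : X = ∅ := Finset.card_eq_zero.1 (by omega)
    subst hX
    simp at h
  | succ n ih =>
    intro X Y hXY h
    by_cases h1 : ∀ x ∈ X, β + 1 ≤ (Y.filter (fun y => R x y)).card
    · by_cases h2 : ∀ y ∈ Y, α + 1 ≤ (X.filter (fun x => R x y)).card
      · refine ⟨X, subset_rfl, Y, subset_rfl, ?_, ?_, ?_, ?_⟩
        · rw [Finset.nonempty_iff_ne_empty]
          rintro rfl
          simp at h
        · rw [Finset.nonempty_iff_ne_empty]
          rintro rfl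
          simp at h
        · intro x hx
          exact ⟨_, Finset.filter_subset _ _, h1 x hx, fun y hy => (Finset.mem_filter.1 hy).2⟩
        · intro y hy
          exact ⟨_, Finset.filter_subset _ _, h2 y hy, fun x hx => (Finset.mem_filter.1 hx).2⟩
      · push Not at h2
        obtain ⟨y, hy, hlt⟩ := h2
        have hc := Finset.card_erase_add_one hy
        have hs : ∑ x ∈ X, ∑ y ∈ Y, (if R x y then 1 else 0) =
            ∑ x ∈ X, ∑ y ∈ Y.erase y, (if R x y then 1 else 0) +
              (X.filter (fun x => R x y)).card := by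
          rw [Finset.card_filter, ← Finset.sum_add_distrib]
          refine Finset.sum_congr rfl (fun x _ => ?_)
          rw [Finset.sum_erase_add _ _ hy]
        obtain ⟨X', hX', Y', hY', r⟩ := ih X (Y.erase y) (by omega) (by
          have e : α * Y.card = α * (Y.erase y).card + α := by
            rw [← hc]; ring
          omega)
        exact ⟨X', hX', Y', hY'.trans (Finset.erase_subset _ _), r⟩
    · push Not at h1
      obtain ⟨x, hx, hlt⟩ := h1
      have hc := Finset.card_erase_add_one hx
      have hs : ∑ x ∈ X, ∑ y ∈ Y, (if R x y then 1 else 0) =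
          ∑ x ∈ X.erase x, ∑ y ∈ Y, (if R x y then 1 else 0) +
            (Y.filter (fun y => R x y)).card := by
        rw [Finset.card_filter]
        exact (Finset.sum_erase_add _ _ hx).symm
      obtain ⟨X', hX', Y', hY', r⟩ := ih (X.erase x) Y (by omega) (by
        have e : β * X.card = β * (X.erase x).card + β := by
          rw [← hc]; ring
        omega)
      exact ⟨X', hX'.trans (Finset.erase_subset _ _), Y', hY', r⟩

/-- The function to be rounded. -/
noncomputable def F {V : Type} [Fintype V] (d : V → V → ℝ) (α β : ℝ) (x : V → ℝ) : ℝ :=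
  (∑ u, ∑ w, d u w * (x u * (1 - x w))) - α * ∑ w, (1 - x w) - β * ∑ u, x u

theorem F_affine {V : Type} [Fintype V] [DecidableEq V] (d : V → V → ℝ) (hd : ∀ v, d v v = 0)
    (α β : ℝ) (x : V → ℝ) (v : V) :
    F d α β x = (1 - x v) * F d α β (Function.update x v 0) +
      x v * F d α β (Function.update x v 1) := by
  have h1 : ∀ u, x u = (1 - x v) * Function.update x v 0 u + x v * Function.update x v 1 u := by
    intro u
    by_cases hu : u = v
    · subst hu; simp
    · rw [Function.update_of_ne hu, Function.update_of_ne hu]; ring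
  have h2 : ∀ u w, d u w * (x u * (1 - x w)) =
      (1 - x v) * (d u w * (Function.update x v 0 u * (1 - Function.update x v 0 w))) +
      x v * (d u w * (Function.update x v 1 u * (1 - Function.update x v 1 w))) := by
    intro u w
    by_cases hu : u = v
    · by_cases hw : w = v
      · subst hu; subst hw; rw [hd]; ring
      · subst hu
        simp only [Function.update_self, Function.update_of_ne hw]
        ring
    · by_cases hw : w = v
      · subst hw
        simp only [Function.update_self, Function.update_of_ne hu]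
        ring
      · simp only [Function.update_of_ne hu, Function.update_of_ne hw]
        ring
  have s1 : (∑ u, ∑ w, d u w * (x u * (1 - x w))) =
      (1 - x v) * (∑ u, ∑ w, d u w *
        (Function.update x v 0 u * (1 - Function.update x v 0 w))) +
      x v * (∑ u, ∑ w, d u w *
        (Function.update x v 1 u * (1 - Function.update x v 1 w))) := by
    rw [Finset.mul_sum, Finset.mul_sum, ← Finset.sum_add_distrib]
    refine Finset.sum_congr rfl (fun u _ => ?_)
    rw [Finset.mul_sum, Finset.mul_sum, ← Finset.sum_add_distrib]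
    exact Finset.sum_congr rfl (fun w _ => h2 u w)
  have s2 : ∑ u, x u = (1 - x v) * ∑ u, Function.update x v 0 u +
      x v * ∑ u, Function.update x v 1 u := by
    rw [Finset.mul_sum, Finset.mul_sum, ← Finset.sum_add_distrib]
    exact Finset.sum_congr rfl (fun u _ => h1 u)
  have s3 : ∀ y : V → ℝ, ∑ w, (1 - y w) = Fintype.card V - ∑ w, y w := by
    intro y
    rw [Finset.sum_sub_distrib]
    simp
  unfold F
  rw [s3 x, s3 (Function.update x v 0), s3 (Function.update x v 1), s1, s2]
  ring

theorem round {V : Type} [Fintype V] [DecidableEq V] (d : V → V → ℝ) (hd : ∀ v, d v v = 0)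
    (α β : ℝ) (x : V → ℝ) (hx : ∀ v, 0 ≤ x v ∧ x v ≤ 1) (S : Finset V) :
    ∃ y : V → ℝ, (∀ v ∈ S, y v = 0 ∨ y v = 1) ∧ (∀ v, 0 ≤ y v ∧ y v ≤ 1) ∧
      F d α β x ≤ F d α β y := by
  induction S using Finset.induction_on with
  | empty => exact ⟨x, by simp, hx, le_rfl⟩
  | insert v S hv ih =>
    obtain ⟨y, y1, y2, y3⟩ := ih
    have h := F_affine d hd α β y v
    have h0 := (y2 v).1
    have h1 := (y2 v).2
    have hor : F d α β y ≤ F d α β (Function.update y v 0) ∨
        F d α β y ≤ F d α β (Function.update y v 1) := by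
      by_contra hcon
      push Not at hcon
      obtain ⟨c1, c2⟩ := hcon
      rcases eq_or_lt_of_le h0 with h0' | h0'
      · rw [← h0'] at h
        linarith
      · have e1 := mul_lt_mul_of_pos_left c2 h0'
        have e2 := mul_le_mul_of_nonneg_left c1.le (by linarith : 0 ≤ 1 - y v)
        linarith
    have gen : ∀ t : ℝ, (t = 0 ∨ t = 1) → F d α β y ≤ F d α β (Function.update y v t) →
        ∃ y : V → ℝ, (∀ v' ∈ insert v S, y v' = 0 ∨ y v' = 1) ∧ (∀ v, 0 ≤ y v ∧ y v ≤ 1) ∧
          F d α β x ≤ F d α β y := by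
      intro t ht hle
      refine ⟨Function.update y v t, ?_, ?_, y3.trans hle⟩
      · intro w hw
        by_cases h : w = v
        · subst h; rw [Function.update_self]; exact ht
        · rw [Function.update_of_ne h]
          exact y1 w ((Finset.mem_insert.1 hw).resolve_left h)
      · intro w
        by_cases h : w = v
        · subst h; rw [Function.update_self]
          rcases ht with rfl | rfl <;> norm_num
        · rw [Function.update_of_ne h]; exact y2 w
    rcases hor with h | h
    · exact gen 0 (Or.inl rfl) h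
    · exact gen 1 (Or.inr rfl) h

theorem exists_p (m n α β : ℝ) (hn : 0 ≤ n) (hα : 0 ≤ α) (hβ : 0 ≤ β)
    (h : (Real.sqrt α + Real.sqrt β) ^ 2 * n < m) :
    ∃ p : ℝ, 0 ≤ p ∧ p ≤ 1 ∧ 0 < m * (p * (1 - p)) - α * (n * (1 - p)) - β * (n * p) := by
  have hm : 0 < m := lt_of_le_of_lt (by positivity) h
  rcases eq_or_lt_of_le hα with h0 | h0
  · subst h0
    have h1 : β * n < m := by
      have := Real.sq_sqrt hβ
      rw [Real.sqrt_zero, zero_add, this] at h
      exact h
    have hbn : 0 ≤ β * n := by positivity
    refine ⟨(m - β * n) / (2 * m), by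
      apply div_nonneg <;> linarith, by
      rw [div_le_one (by linarith)]; linarith, ?_⟩
    have e : m * ((m - β * n) / (2 * m) * (1 - (m - β * n) / (2 * m))) -
        0 * (n * (1 - (m - β * n) / (2 * m))) - β * (n * ((m - β * n) / (2 * m))) =
        (m - β * n) / (2 * m) * ((m - β * n) / 2) := by
      field_simp
      ring
    rw [e]
    apply mul_pos <;> apply div_pos <;> linarith
  · rcases eq_or_lt_of_le hβ with h0' | h0'
    · subst h0'
      have h1 : α * n < m := by
        have := Real.sq_sqrt hα
        rw [Real.sqrt_zero, add_zero, this] at h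
        exact h
      have hbn : 0 ≤ α * n := by positivity
      refine ⟨1 - (m - α * n) / (2 * m), by
        have : (m - α * n) / (2 * m) ≤ 1 := by
          rw [div_le_one (by linarith)]; linarith
        linarith, by
        have : 0 ≤ (m - α * n) / (2 * m) := by
          apply div_nonneg <;> linarith
        linarith, ?_⟩
      have e : m * ((1 - (m - α * n) / (2 * m)) * (1 - (1 - (m - α * n) / (2 * m)))) -
          α * (n * (1 - (1 - (m - α * n) / (2 * m)))) -
            0 * (n * (1 - (m - α * n) / (2 * m))) =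
          (m - α * n) / (2 * m) * ((m - α * n) / 2) := by
        field_simp
        ring
      rw [e]
      apply mul_pos <;> apply div_pos <;> linarith
    · have hs1 : 0 < Real.sqrt α := Real.sqrt_pos.2 h0
      have hs2 : 0 < Real.sqrt β := Real.sqrt_pos.2 h0'
      have q1 := Real.sq_sqrt hα
      have q2 := Real.sq_sqrt hβ
      generalize Real.sqrt α = s at *
      generalize Real.sqrt β = t at *
      have hst : 0 < s + t := by linarith
      refine ⟨s / (s + t), by positivity, by
        rw [div_le_one hst]; linarith, ?_⟩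
      have e : m * (s / (s + t) * (1 - s / (s + t))) - α * (n * (1 - s / (s + t))) -
          β * (n * (s / (s + t))) = s * t / (s + t) ^ 2 * (m - (s + t) ^ 2 * n) := by
        rw [← q1, ← q2]
        field_simp
        ring
      rw [e]
      exact mul_pos (by positivity) (by linarith)

/-- A digraph on `V` with more than `(√α + √β)² |V|` arcs contains every antidirected tree with at
most `α + 1` sources and at most `β + 1` sinks. -/
theorem main {V : Type} [Fintype V] (R : V → V → Prop) (hR : ∀ v, ¬ R v v) (α β : ℕ)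
    (h : (Real.sqrt α + Real.sqrt β) ^ 2 * Fintype.card V < Nat.card {p : V × V // R p.1 p.2})
    (W : Type) [Finite W] [Nonempty W] (T : SimpleGraph W) (hT : T.IsTree) (c : W → Prop)
    (hc : ∀ u v, T.Adj u v → (c u ↔ ¬ c v))
    (ha : {w | c w}.ncard ≤ α + 1) (hb : {w | ¬ c w}.ncard ≤ β + 1) :
    ∃ f : W → V, Function.Injective f ∧ ∀ u v, T.Adj u v → c u → ¬ c v → R (f u) (f v) := by
  classical
  have hm : ((Nat.card {p : V × V // R p.1 p.2} : ℕ) : ℝ) =
      ∑ u, ∑ w, (if R u w then (1 : ℝ) else 0) := by
    rw [Nat.card_eq_fintype_card, Fintype.card_subtype, Finset.card_filter]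
    push_cast
    rw [Fintype.sum_prod_type]
  obtain ⟨p, p0, p1, hp⟩ := exists_p (Nat.card {p : V × V // R p.1 p.2}) (Fintype.card V) α β
    (by positivity) (by positivity) (by positivity) h
  let d : V → V → ℝ := fun u w => if R u w then 1 else 0
  have hd : ∀ v, d v v = 0 := fun v => if_neg (hR v)
  have hF : 0 < F d α β (fun _ => p) := by
    have e1 : ∑ u, ∑ w, d u w * (p * (1 - p)) =
        (Nat.card {p : V × V // R p.1 p.2} : ℝ) * (p * (1 - p)) := by
      rw [hm, Finset.sum_mul]
      refine Finset.sum_congr rfl (fun u _ => ?_)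
      rw [Finset.sum_mul]
    have e2 : F d α β (fun _ => p) = (Nat.card {p : V × V // R p.1 p.2} : ℝ) * (p * (1 - p)) -
        α * (Fintype.card V * (1 - p)) - β * (Fintype.card V * p) := by
      unfold F
      rw [e1, Finset.sum_const, Finset.sum_const, Finset.card_univ, nsmul_eq_mul, nsmul_eq_mul]
    rw [e2]
    exact hp
  obtain ⟨y, y1, y2, y3⟩ := round d hd α β (fun _ => p) (fun _ => ⟨p0, p1⟩) Finset.univ
  have y1' : ∀ v, y v = 0 ∨ y v = 1 := fun v => y1 v (Finset.mem_univ v)
  let X : Finset V := Finset.univ.filter (fun v => y v = 1)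
  let Y : Finset V := Finset.univ.filter (fun v => y v = 0)
  have hX : (X.card : ℝ) = ∑ u, y u := by
    rw [Finset.card_filter]
    push_cast
    refine Finset.sum_congr rfl (fun u _ => ?_)
    rcases y1' u with h | h <;> simp [h]
  have hY : (Y.card : ℝ) = ∑ u, (1 - y u) := by
    rw [Finset.card_filter]
    push_cast
    refine Finset.sum_congr rfl (fun u _ => ?_)
    rcases y1' u with h | h <;> simp [h]
  have hE : ((∑ x ∈ X, ∑ w ∈ Y, (if R x w then 1 else 0) : ℕ) : ℝ) =
      ∑ u, ∑ w, d u w * (y u * (1 - y w)) := by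
    push_cast
    rw [Finset.sum_filter]
    refine Finset.sum_congr rfl (fun u _ => ?_)
    rcases y1' u with h | h
    · rw [if_neg (by rw [h]; norm_num)]
      symm
      apply Finset.sum_eq_zero
      intro w _
      rw [h]; ring
    · rw [if_pos h, Finset.sum_filter]
      refine Finset.sum_congr rfl (fun w _ => ?_)
      rcases y1' w with h' | h'
      · rw [if_pos h', h, h']
        show _ = (if R u w then (1 : ℝ) else 0) * (1 * (1 - 0))
        ring
      · rw [if_neg (by rw [h']; norm_num), h']
        ring
  have hpos : α * Y.card + β * X.card < ∑ x ∈ X, ∑ w ∈ Y, (if R x w then 1 else 0) := by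
    have h1 : 0 < F d α β y := lt_of_lt_of_le hF y3
    unfold F at h1
    rw [← hE, ← hX, ← hY] at h1
    have h2 : ((α * Y.card + β * X.card : ℕ) : ℝ) <
        ((∑ x ∈ X, ∑ w ∈ Y, (if R x w then 1 else 0) : ℕ) : ℝ) := by
      rw [Nat.cast_add, Nat.cast_mul, Nat.cast_mul]
      linarith
    exact_mod_cast h2
  obtain ⟨X', hX', Y', hY', n1, n2, d1, d2⟩ := prune R α β _ X Y rfl hpos
  have hdis : Disjoint X' Y' := by
    rw [Finset.disjoint_left]
    intro v hv hv'
    have e1 := (Finset.mem_filter.1 (hX' hv)).2
    have e2 := (Finset.mem_filter.1 (hY' hv')).2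
    rw [e1] at e2
    exact one_ne_zero e2
  have hW : 0 < Nat.card W := Nat.card_pos
  obtain ⟨f, f1, -, -, f4⟩ := embed R X' Y' hdis (α + 1) (β + 1) d1 d2 n1 n2 (Nat.card W - 1) W T c
    hT (by omega) hc ha hb
  exact ⟨f, f1, f4⟩

end Pool.Agent.V11266.AntiTree
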