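import Mathlib

/-! Continued logarithms of rational numbers and `k`-regular sequences. -/

namespace Pool.Agent.V11266.CL

/-- The continued logarithm expansion `cl(p,q)` of `p/q`, for integers `p ≥ q ≥ 1` (junk value
`[]` otherwise).  Here `k = Nat.log 2 (p / q)` is the integer with `2^k q ≤ p < 2^(k+1) q`. -/
def cl (p q : ℕ) : List ℕ :=
  if h : q = 0 ∨ p < q then []
  else
    if h2 : p = 2 ^ (Nat.log 2 (p / q)) * q then [Nat.log 2 (p / q)]
    else Nat.log 2 (p / q) ::
      cl (2 ^ (Nat.log 2 (p / q)) * q) (p - 2 ^ (Nat.log 2 (p / q)) * q)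
termination_by p
decreasing_by
  push Not at h
  have h1 : 2 ^ (Nat.log 2 (p / q)) ≤ p / q :=
    Nat.pow_log_le_self 2 (Nat.div_pos h.2 (Nat.pos_of_ne_zero h.1)).ne'
  have h3 : 2 ^ (Nat.log 2 (p / q)) * q ≤ p :=
    le_trans (Nat.mul_le_mul_right q h1) (Nat.div_mul_le_self p q)
  omega

/-- The number of terms of the continued logarithm expansion of the integer `n ≥ 1`
(and `L 0 = 0`). -/
def L (n : ℕ) : ℕ := (cl n 1).length

/-- The `k`-kernel of a sequence of integers. -/
def kernel (k : ℕ) (a : ℕ → ℤ) : Set (ℕ → ℤ) :=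
  {f | ∃ e r : ℕ, r < k ^ e ∧ f = fun n => a (k ^ e * n + r)}

/-- `a` is `k`-regular: the `ℤ`-module generated by its `k`-kernel is finitely generated. -/
def IsRegular (k : ℕ) (a : ℕ → ℤ) : Prop :=
  (Submodule.span ℤ (kernel k a)).FG

end Pool.Agent.V11266.CL
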