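import Pool.Agent.V11266.CLDefs

namespace Pool.Agent.V11266.CL

/-- number of terms of the expansion of `p/q` -/
def ln (p q : ℕ) : ℕ := (cl p q).length

theorem log_eq {p q k : ℕ} (hq : 0 < q) (h1 : 2 ^ k * q ≤ p) (h2 : p < 2 ^ (k + 1) * q) :
    Nat.log 2 (p / q) = k := by
  apply Nat.log_eq_of_pow_le_of_lt_pow
  · exact (Nat.le_div_iff_mul_le hq).2 h1
  · exact (Nat.div_lt_iff_lt_mul hq).2 h2

theorem ln_pow {q : ℕ} (hq : 0 < q) (k : ℕ) : ln (2 ^ k * q) q = 1 := by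
  have h1 : Nat.log 2 (2 ^ k * q / q) = k := by
    apply log_eq hq le_rfl
    have h0 : 0 < 2 ^ k * q := by positivity
    have h00 : 2 ^ (k + 1) * q = 2 * (2 ^ k * q) := by ring
    omega
  have h2 : ¬ (q = 0 ∨ 2 ^ k * q < q) := by
    push Not
    refine ⟨hq.ne', ?_⟩
    exact Nat.le_mul_of_pos_left q (by positivity)
  unfold ln
  rw [cl, dif_neg h2, dif_pos (by rw [h1])]
  simp

theorem ln_self {q : ℕ} (hq : 0 < q) : ln q q = 1 := by
  have := ln_pow hq 0
  simpa using this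

theorem ln_step {p q k : ℕ} (hq : 0 < q) (h1 : 2 ^ k * q < p) (h2 : p < 2 ^ (k + 1) * q) :
    ln p q = 1 + ln (2 ^ k * q) (p - 2 ^ k * q) := by
  have h3 : Nat.log 2 (p / q) = k := log_eq hq h1.le h2
  have h4 : ¬ (q = 0 ∨ p < q) := by
    push Not
    refine ⟨hq.ne', ?_⟩
    exact le_trans (Nat.le_mul_of_pos_left q (by positivity)) h1.le
  unfold ln
  rw [cl, dif_neg h4, h3, dif_neg (by omega)]
  simp [add_comm]

theorem ln_step0 {p q : ℕ} (h1 : q < p) (h2 : p < 2 * q) : ln p q = 1 + ln q (p - q) := by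
  have := ln_step (p := p) (q := q) (k := 0) (by omega) (by simpa using h1) (by simpa using h2)
  simpa using this

/-- existence of the exponent -/
theorem exists_k {p q : ℕ} (hq : 0 < q) (h : q ≤ p) :
    ∃ k, 2 ^ k * q ≤ p ∧ p < 2 ^ (k + 1) * q := by
  refine ⟨Nat.log 2 (p / q), ?_, ?_⟩
  · exact (Nat.le_div_iff_mul_le hq).1 (Nat.pow_log_le_self 2 (Nat.div_pos h hq).ne')
  · exact (Nat.div_lt_iff_lt_mul hq).1 (Nat.lt_pow_succ_log_self (by norm_num) _)

theorem ln_scale (m : ℕ) (hm : 0 < m) : ∀ p q : ℕ, 0 < q → q ≤ p → ln (m * p) (m * q) = ln p q := by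
  intro p
  induction p using Nat.strong_induction_on with
  | _ p ih =>
    intro q hq hqp
    obtain ⟨k, hk1, hk2⟩ := exists_k hq hqp
    rcases hk1.eq_or_lt with h | h
    · rw [← h, ln_pow hq]
      have h5 : m * (2 ^ k * q) = 2 ^ k * (m * q) := by ring
      rw [h5, ln_pow (by positivity)]
    · rw [ln_step hq h hk2]
      have e1 : 2 ^ k * (m * q) < m * p := by
        have := Nat.mul_lt_mul_of_pos_left h hm
        calc 2 ^ k * (m * q) = m * (2 ^ k * q) := by ring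
          _ < m * p := this
      have e2 : m * p < 2 ^ (k + 1) * (m * q) := by
        have := Nat.mul_lt_mul_of_pos_left hk2 hm
        calc m * p < m * (2 ^ (k + 1) * q) := this
          _ = _ := by ring
      rw [ln_step (by positivity) e1 e2]
      have h5 : 2 ^ k * (m * q) = m * (2 ^ k * q) := by ring
      have h6 : m * p - m * (2 ^ k * q) = m * (p - 2 ^ k * q) := by
        rw [Nat.mul_sub]
      rw [h5, h6, ih (2 ^ k * q) h (p - 2 ^ k * q) (by omega)]
      have : 2 ^ (k + 1) * q = 2 * (2 ^ k * q) := by ring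
      omega

theorem ln_double {p q : ℕ} (hq : 0 < q) (h : q ≤ p) : ln (2 * p) q = ln p q := by
  obtain ⟨k, hk1, hk2⟩ := exists_k hq h
  rcases hk1.eq_or_lt with h | h
  · rw [← h, ln_pow hq]
    have h5 : 2 * (2 ^ k * q) = 2 ^ (k + 1) * q := by ring
    rw [h5, ln_pow hq]
  · rw [ln_step hq h hk2]
    have e1 : 2 ^ (k + 1) * q < 2 * p := by
      have : 2 ^ (k + 1) * q = 2 * (2 ^ k * q) := by ring
      omega
    have e2 : 2 * p < 2 ^ (k + 1 + 1) * q := by
      have : 2 ^ (k + 1 + 1) * q = 2 * (2 ^ (k + 1) * q) := by ring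
      omega
    rw [ln_step hq e1 e2]
    have h5 : 2 ^ (k + 1) * q = 2 * (2 ^ k * q) := by ring
    have h6 : 2 * p - 2 * (2 ^ k * q) = 2 * (p - 2 ^ k * q) := by omega
    rw [h5, h6, ln_scale 2 (by norm_num) _ _ (by omega) (by omega)]

theorem ln_double' {p q : ℕ} (hq : 0 < q) (h : 2 * q ≤ p) : ln p (2 * q) = ln p q := by
  have h1 := ln_scale 2 (by norm_num) p q hq (by omega)
  have h2 := ln_double (p := p) (q := 2 * q) (by omega) h
  rw [← h2, h1]

theorem ln_pow_mul {p q : ℕ} (hq : 0 < q) (h : q ≤ p) (i : ℕ) : ln (2 ^ i * p) q = ln p q := by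
  induction i with
  | zero => simp
  | succ i ih =>
    have h1 : 2 ^ (i + 1) * p = 2 * (2 ^ i * p) := by ring
    rw [h1, ln_double hq, ih]
    exact le_trans h (Nat.le_mul_of_pos_left p (by positivity))

theorem L_def (n : ℕ) : L n = ln n 1 := rfl

/-- the values near a power of two: `L (2^j + s) = 1 + ln (2^j) s` -/
theorem L_near {j s : ℕ} (hs : 0 < s) (h : s < 2 ^ j) : L (2 ^ j + s) = 1 + ln (2 ^ j) s := by
  rw [L_def, ln_step (k := j) (by norm_num) (by omega) (by rw [pow_succ]; omega)]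
  congr 2 <;> simp

/-- `c(s)` -/
def c (s : ℕ) : ℕ := 1 + ln (2 ^ s) s

theorem ln_two_pow {s i j : ℕ} (hs : 0 < s) (hi : s ≤ 2 ^ i) (hj : s ≤ 2 ^ j) :
    ln (2 ^ i) s = ln (2 ^ j) s := by
  rcases le_total i j with h | h
  · obtain ⟨d, rfl⟩ := Nat.exists_eq_add_of_le h
    have : 2 ^ (i + d) = 2 ^ d * 2 ^ i := by ring
    rw [this, ln_pow_mul hs hi]
  · obtain ⟨d, rfl⟩ := Nat.exists_eq_add_of_le h
    have : 2 ^ (j + d) = 2 ^ d * 2 ^ j := by ring
    rw [this, ln_pow_mul hs hj]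

theorem c_eq {s j : ℕ} (hs : 0 < s) (hj : s ≤ 2 ^ j) : c s = 1 + ln (2 ^ j) s := by
  unfold c
  rw [ln_two_pow hs (Nat.lt_two_pow_self).le hj]

theorem L_near' {j s : ℕ} (hs : 0 < s) (h : s < 2 ^ j) : L (2 ^ j + s) = c s := by
  rw [L_near hs h, c_eq hs h.le]

/-- the reflection identity -/
theorem c_reflect {i t : ℕ} (ht : 0 < t) (h : 3 * t ≤ 2 ^ i) :
    c (2 ^ i + t) = c (2 ^ i - t) + 1 := by
  have h1 : c (2 ^ i + t) = 3 + ln (2 ^ i - t) (2 * t) := by
    rw [c_eq (j := i + 1) (by omega) (by rw [pow_succ]; omega),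
      ln_step0 (by rw [pow_succ]; omega) (by rw [pow_succ]; omega)]
    have e1 : 2 ^ (i + 1) - (2 ^ i + t) = 2 ^ i - t := by rw [pow_succ]; omega
    have hne : 3 * t ≠ 2 ^ i := by
      intro hh
      have h3 : 3 ∣ 2 ^ i := ⟨t, hh.symm⟩
      have h4 : 3 ∣ 2 := (Nat.prime_three).dvd_of_dvd_pow h3
      omega
    rw [e1, ln_step0 (by omega) (by omega)]
    have e2 : 2 ^ i + t - (2 ^ i - t) = 2 * t := by omega
    rw [e2]; ring
  have h2 : c (2 ^ i - t) = 2 + ln (2 ^ i - t) t := by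
    rw [c_eq (j := i) (by omega) (by omega), ln_step0 (by omega) (by omega)]
    have e2 : 2 ^ i - (2 ^ i - t) = t := by omega
    rw [e2]; ring
  rw [h1, h2, ln_double' ht (by omega)]
  ring

/-- `L (2^(m+1) - 1) = L (2^m - 1) + 2` for `m ≥ 2` -/
theorem L_mersenne {m : ℕ} (hm : 2 ≤ m) : L (2 ^ (m + 1) - 1) = L (2 ^ m - 1) + 2 := by
  have h4 : 4 ≤ 2 ^ m := by
    calc 4 = 2 ^ 2 := by norm_num
      _ ≤ 2 ^ m := Nat.pow_le_pow_right (by norm_num) hm
  have h5 : 2 ^ (m + 1) = 2 * 2 ^ m := by ring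
  rw [L_def, ln_step (k := m) (by norm_num) (by omega) (by omega)]
  have e1 : 2 ^ (m + 1) - 1 - 2 ^ m * 1 = 2 ^ m - 1 := by omega
  rw [e1, mul_one, ln_step0 (by omega) (by omega)]
  have e2 : 2 ^ m - (2 ^ m - 1) = 1 := by omega
  rw [e2, L_def]; ring

end Pool.Agent.V11266.CL
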