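import Pool.Agent.V11266.CLa

namespace Pool.Agent.V11266.CL

theorem color {k : ℕ} {a : ℕ → ℤ} (h : IsRegular k a) :
    ∃ S : Finset (ℕ → ℤ), ∀ n n' : ℕ, (∀ s ∈ S, ((s n : ℤ) : ZMod 2) = ((s n' : ℤ) : ZMod 2)) →
      ∀ e r : ℕ, r < k ^ e →
        ((a (k ^ e * n + r) : ℤ) : ZMod 2) = ((a (k ^ e * n' + r) : ℤ) : ZMod 2) := by
  obtain ⟨S, hS⟩ := h
  refine ⟨S, fun n n' hnn e r hr => ?_⟩
  have key : ∀ f ∈ Submodule.span ℤ (S : Set (ℕ → ℤ)),
      ((f n : ℤ) : ZMod 2) = ((f n' : ℤ) : ZMod 2) := by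
    intro f hf
    induction hf using Submodule.span_induction with
    | mem x hx => exact hnn x hx
    | zero => simp
    | add x y _ _ hx hy => simp [hx, hy]
    | smul z x _ hx => simp [hx]
  have hmem : (fun m => a (k ^ e * m + r)) ∈ Submodule.span ℤ (S : Set (ℕ → ℤ)) := by
    rw [hS]
    exact Submodule.subset_span ⟨e, r, hr, rfl⟩
  exact key _ hmem

theorem two_pow_between {M : ℕ} (hM : 2 ≤ M) : ∃ i : ℕ, 2 ^ i < M ∧ M ≤ 2 * 2 ^ i := by
  refine ⟨Nat.log 2 (M - 1), ?_, ?_⟩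
  · have := Nat.pow_log_le_self 2 (x := M - 1) (by omega)
    omega
  · have := Nat.lt_pow_succ_log_self (b := 2) (by norm_num) (M - 1)
    rw [pow_succ] at this
    omega

theorem zmod_c_reflect {i t : ℕ} (ht : 0 < t) (h : 3 * t ≤ 2 ^ i)
    (h2 : ((c (2 ^ i + t) : ℕ) : ZMod 2) = ((c (2 ^ i - t) : ℕ) : ZMod 2)) : False := by
  rw [c_reflect ht h] at h2
  push_cast at h2
  have : (1 : ZMod 2) = 0 := by
    have h3 := congrArg (fun x => x - ((c (2 ^ i - t) : ℕ) : ZMod 2)) h2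
    simpa using h3
  exact absurd this (by decide)

theorem main_contra {K n n' v v' j j' : ℕ} (e1 : 2 ^ j = K * n + v) (e2 : 2 ^ j' = K * n' + v')
    (hv : v < v') (hv' : v' < K) (hd : 24 * (v' - v) < K) (hj : 4 * K ≤ 2 ^ j)
    (hj' : 4 * K ≤ 2 ^ j')
    (H1 : ∀ r < K, ((L (K * n + r) : ℕ) : ZMod 2) = ((L (K * n' + r) : ℕ) : ZMod 2))
    (H2 : ∀ r < K, ((L (K * (n + 1) + r) : ℕ) : ZMod 2) = ((L (K * (n' + 1) + r) : ℕ) : ZMod 2)) :
    False := by
  obtain ⟨δ, hδ⟩ := Nat.exists_eq_add_of_lt hv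
  set d := δ + 1 with hd1
  have hv2 : v' = v + d := by omega
  have hdd : 24 * d < K := by omega
  rcases le_or_gt (4 * v') (3 * K) with hA | hB
  · -- floor windows
    have key : ∀ x : ℕ, 0 < x → x + v' < K → ((c x : ℕ) : ZMod 2) = ((c (x + d) : ℕ) : ZMod 2) := by
      intro x hx hxv
      have h := H1 (x + v') hxv
      have g1 : K * n + (x + v') = 2 ^ j + (x + d) := by omega
      have g2 : K * n' + (x + v') = 2 ^ j' + x := by omega
      rw [g1, g2, L_near' (by omega) (by omega), L_near' hx (by omega)] at h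
      exact h.symm
    obtain ⟨i, hi1, hi2⟩ := two_pow_between (M := K - v') (by omega)
    have k1 := key (2 ^ i - d) (by omega) (by omega)
    have k2 := key (2 ^ i) (by positivity) (by omega)
    have e3 : 2 ^ i - d + d = 2 ^ i := by omega
    rw [e3] at k1
    exact zmod_c_reflect (i := i) (t := d) (by omega) (by omega) (by rw [← k2, ← k1])
  · have key : ∀ y : ℕ, K - v' ≤ y → y < K - v' + K →
        ((c y : ℕ) : ZMod 2) = ((c (y + d) : ℕ) : ZMod 2) := by
      intro y hy hyK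
      have h := H2 (y - (K - v')) (by omega)
      have m1 : K * (n + 1) = K * n + K := by ring
      have m2 : K * (n' + 1) = K * n' + K := by ring
      have g1 : K * (n + 1) + (y - (K - v')) = 2 ^ j + (y + d) := by omega
      have g2 : K * (n' + 1) + (y - (K - v')) = 2 ^ j' + y := by omega
      rw [g1, g2, L_near' (by omega) (by omega), L_near' (by omega) (by omega)] at h
      exact h.symm
    obtain ⟨i, hi1, hi2⟩ := two_pow_between (M := K) (by omega)
    have k1 := key (2 ^ i - d) (by omega) (by omega)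
    have k2 := key (2 ^ i) (by omega) (by omega)
    have e3 : 2 ^ i - d + d = 2 ^ i := by omega
    rw [e3] at k1
    exact zmod_c_reflect (i := i) (t := d) (by omega) (by omega) (by rw [← k2, ← k1])

theorem distinct {p k e J i i' : ℕ} (hp : p.Prime) (hp2 : p ≠ 2) (hpk : p ∣ k) (hi : i < i')
    (hi' : i' < e) (h : 2 ^ (J + i) % k ^ e = 2 ^ (J + i') % k ^ e) : False := by
  have h1 : p ^ e ∣ k ^ e := pow_dvd_pow_of_dvd hpk e
  have h2 : k ^ e ∣ 2 ^ (J + i') - 2 ^ (J + i) := (Nat.modEq_iff_dvd' (Nat.pow_le_pow_right (by norm_num) (by omega))).1 h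
  have h3 : 2 ^ (J + i') - 2 ^ (J + i) = 2 ^ (J + i) * (2 ^ (i' - i) - 1) := by
    rw [Nat.mul_sub, mul_one, ← pow_add]
    congr 2; omega
  rw [h3] at h2
  have h4 : Nat.Coprime (p ^ e) (2 ^ (J + i)) := by
    apply Nat.Coprime.pow
    exact (Nat.coprime_primes hp Nat.prime_two).2 hp2
  have h5 : p ^ e ∣ 2 ^ (i' - i) - 1 := h4.dvd_of_dvd_mul_left (dvd_trans h1 h2)
  have h6 : 0 < 2 ^ (i' - i) - 1 := by
    have : 2 ^ 1 ≤ 2 ^ (i' - i) := Nat.pow_le_pow_right (by norm_num) (by omega)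
    omega
  have h7 := Nat.le_of_dvd h6 h5
  have h8 : 2 ^ (i' - i) ≤ 2 ^ e := Nat.pow_le_pow_right (by norm_num) (by omega)
  have h9 : 2 ^ e ≤ p ^ e := Nat.pow_le_pow_left hp.two_le e
  omega

theorem part1 {k p : ℕ} (hk : 2 ≤ k) (hp : p.Prime) (hp2 : p ≠ 2) (hpk : p ∣ k) :
    ¬ IsRegular k (fun n => (L n : ℤ)) := by
  classical
  intro hreg
  obtain ⟨S, hS⟩ := color hreg
  let κ : ℕ → (S → ZMod 2) := fun n s => ((s.1 n : ℤ) : ZMod 2)
  have hκ : ∀ n n' : ℕ, κ n = κ n' → ∀ e r : ℕ, r < k ^ e →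
      ((L (k ^ e * n + r) : ℕ) : ZMod 2) = ((L (k ^ e * n' + r) : ℕ) : ZMod 2) := by
    intro n n' h e r hr
    have := hS n n' (fun s hs => congrFun h ⟨s, hs⟩) e r hr
    simpa using this
  set e : ℕ := Fintype.card ((S → ZMod 2) × (S → ZMod 2) × Fin 24) + 1 with he
  set K : ℕ := k ^ e with hK
  have hKpos : 0 < K := by positivity
  have hK2 : 2 ≤ K := by
    calc 2 ≤ k := hk
      _ = k ^ 1 := (pow_one k).symm
      _ ≤ k ^ e := Nat.pow_le_pow_right (by omega) (by omega)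
  let J : ℕ := 4 * K
  have hJ : ∀ i, 4 * K ≤ 2 ^ (J + i) := by
    intro i
    calc 4 * K ≤ 2 ^ (4 * K) := (Nat.lt_two_pow_self).le
      _ ≤ 2 ^ (J + i) := Nat.pow_le_pow_right (by norm_num) (by omega)
  let col : Fin e → ((S → ZMod 2) × (S → ZMod 2) × Fin 24) := fun i =>
    (κ (2 ^ (J + i.1) / K), κ (2 ^ (J + i.1) / K + 1),
      ⟨24 * (2 ^ (J + i.1) % K) / K, by
        have := Nat.mod_lt (2 ^ (J + i.1)) hKpos
        rw [Nat.div_lt_iff_lt_mul hKpos]
        omega⟩)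
  obtain ⟨i, i', hne, hcol⟩ := Fintype.exists_ne_map_eq_of_card_lt col (by simp [he])
  -- reduce to v < v'
  have main : ∀ i i' : Fin e, col i = col i' → 2 ^ (J + i.1) % K < 2 ^ (J + i'.1) % K → False := by
    intro i i' hcol hlt
    have h1 : κ (2 ^ (J + i.1) / K) = κ (2 ^ (J + i'.1) / K) := congrArg Prod.fst hcol
    have h2 : κ (2 ^ (J + i.1) / K + 1) = κ (2 ^ (J + i'.1) / K + 1) :=
      congrArg (fun x => x.2.1) hcol
    have h3 : 24 * (2 ^ (J + i.1) % K) / K = 24 * (2 ^ (J + i'.1) % K) / K :=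
      congrArg (fun x => x.2.2.1) hcol
    have h4 : 24 * (2 ^ (J + i'.1) % K - 2 ^ (J + i.1) % K) < K := by
      have a1 := Nat.div_add_mod (24 * (2 ^ (J + i.1) % K)) K
      have a2 := Nat.div_add_mod (24 * (2 ^ (J + i'.1) % K)) K
      have a3 := Nat.mod_lt (24 * (2 ^ (J + i'.1) % K)) hKpos
      rw [h3] at a1
      omega
    refine main_contra (K := K) (n := 2 ^ (J + i.1) / K) (n' := 2 ^ (J + i'.1) / K)
      (v := 2 ^ (J + i.1) % K) (v' := 2 ^ (J + i'.1) % K) (j := J + i.1) (j' := J + i'.1)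
      (Nat.div_add_mod _ _).symm (Nat.div_add_mod _ _).symm hlt (Nat.mod_lt _ hKpos) h4 (hJ _)
      (hJ _) ?_ ?_
    · intro r hr
      exact hκ _ _ h1 e r hr
    · intro r hr
      exact hκ _ _ h2 e r hr
  rcases lt_trichotomy (2 ^ (J + i.1) % K) (2 ^ (J + i'.1) % K) with h | h | h
  · exact main i i' hcol h
  · rcases lt_trichotomy i.1 i'.1 with g | g | g
    · exact distinct hp hp2 hpk g i'.2 h
    · exact hne (Fin.ext g)
    · exact distinct hp hp2 hpk g i.2 h.symm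
  · exact main i' i hcol.symm h

end Pool.Agent.V11266.CL
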