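import Pool.Agent.V11266.CLb

namespace Pool.Agent.V11266.CL

theorem st {p q r k P : ℕ} (hq : 0 < q) (hP : 2 ^ k * q = P) (hp : p = P + r) (hr : 0 < r)
    (hr2 : r < P) : ln p q = 1 + ln P r := by
  subst hp
  rw [ln_step (k := k) hq (by omega) (by rw [pow_succ, mul_comm (2 ^ k) 2, mul_assoc]; omega), hP]
  congr 2
  omega

theorem F_one {m Z : ℕ} (hm : 2 ^ m = Z + 1) (hZ : 0 < Z) :
    L (64 * Z ^ 2 + 120 * Z + 57) = 7 + L (2 * Z + 1) := by
  rw [L_def, L_def]
  rw [st (k := 2 * m + 5) (P := 32 * (Z + 1) ^ 2) (r := 32 * Z ^ 2 + 56 * Z + 25) (by norm_num)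
    (by rw [pow_add, mul_comm 2 m, pow_mul, hm]; ring) (by ring) (by positivity) (by nlinarith)]
  rw [st (k := 0) (P := 32 * Z ^ 2 + 56 * Z + 25) (r := 8 * Z + 7) (by positivity)
    (by ring) (by ring) (by positivity) (by nlinarith)]
  rw [st (k := m + 1) (P := 16 * Z ^ 2 + 30 * Z + 14) (r := 16 * Z ^ 2 + 26 * Z + 11) (by positivity)
    (by rw [pow_succ, hm]; ring) (by ring) (by positivity) (by nlinarith)]
  rw [st (k := 0) (P := 16 * Z ^ 2 + 26 * Z + 11) (r := 4 * Z + 3) (by positivity)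
    (by ring) (by ring) (by positivity) (by nlinarith)]
  rw [st (k := m + 1) (P := 8 * Z ^ 2 + 14 * Z + 6) (r := 8 * Z ^ 2 + 12 * Z + 5) (by positivity)
    (by rw [pow_succ, hm]; ring) (by ring) (by positivity) (by nlinarith)]
  rw [st (k := 0) (P := 8 * Z ^ 2 + 12 * Z + 5) (r := 2 * Z + 1) (by positivity)
    (by ring) (by ring) (by positivity) (by nlinarith)]
  rw [st (k := m + 2) (P := 8 * Z ^ 2 + 12 * Z + 4) (r := 1) (by positivity)
    (by rw [pow_add, hm]; ring) (by ring) (by positivity) (by nlinarith)]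
  have h1 : 8 * Z ^ 2 + 12 * Z + 4 = 2 ^ (m + 2) * (2 * Z + 1) := by
    rw [pow_add, hm]; ring
  rw [h1, ln_pow_mul (by norm_num) (by omega)]
  ring

theorem F_two {m Z : ℕ} (hm : 2 ^ m = Z + 1) (hZ : 0 < Z) :
    L (512 * (Z + 1) ^ 3 - 8 * (Z + 1) + 1) = 5 + L (4 * Z + 3) := by
  have h0 : 512 * (Z + 1) ^ 3 - 8 * (Z + 1) + 1
      = 256 * (Z + 1) ^ 3 + (256 * Z ^ 3 + 768 * Z ^ 2 + 760 * Z + 249) := by
    have : 512 * (Z + 1) ^ 3 = 8 * (Z + 1) + (256 * (Z + 1) ^ 3
      + (256 * Z ^ 3 + 768 * Z ^ 2 + 760 * Z + 248)) := by ring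
    omega
  rw [h0, L_def, L_def]
  rw [st (k := 3 * m + 8) (P := 256 * (Z + 1) ^ 3) (r := 256 * Z ^ 3 + 768 * Z ^ 2 + 760 * Z + 249)
    (by norm_num)
    (by rw [pow_add, mul_comm 3 m, pow_mul, hm]; ring) rfl (by positivity) (by nlinarith)]
  rw [st (k := 0) (P := 256 * Z ^ 3 + 768 * Z ^ 2 + 760 * Z + 249) (r := 8 * Z + 7) (by positivity)
    (by ring) (by ring) (by positivity) (by nlinarith)]
  rw [st (k := 2 * m + 5) (P := 256 * Z ^ 3 + 736 * Z ^ 2 + 704 * Z + 224)
    (r := 32 * Z ^ 2 + 56 * Z + 25) (by positivity)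
    (by rw [pow_add, mul_comm 2 m, pow_mul, hm]; ring) (by ring) (by positivity)
    (by nlinarith)]
  rw [st (k := m + 3) (P := 256 * Z ^ 3 + 704 * Z ^ 2 + 648 * Z + 200)
    (r := 32 * Z ^ 2 + 56 * Z + 24) (by positivity)
    (by rw [pow_add, hm]; ring) (by ring) (by positivity) (by nlinarith)]
  rw [st (k := m + 3) (P := 256 * Z ^ 3 + 704 * Z ^ 2 + 640 * Z + 192)
    (r := 8 * Z + 8) (by positivity)
    (by rw [pow_add, hm]; ring) (by ring) (by positivity) (by nlinarith)]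
  have h1 : 256 * Z ^ 3 + 704 * Z ^ 2 + 640 * Z + 192 = (8 * Z + 8) * (2 ^ (m + 3) * (4 * Z + 3)) := by
    rw [pow_add, hm]; ring
  have h2 : ln ((8 * Z + 8) * (2 ^ (m + 3) * (4 * Z + 3))) (8 * Z + 8)
      = ln (2 ^ (m + 3) * (4 * Z + 3)) 1 := by
    have := ln_scale (8 * Z + 8) (by positivity) (2 ^ (m + 3) * (4 * Z + 3)) 1 (by norm_num)
      (Nat.succ_le_of_lt (by positivity))
    rwa [mul_one] at this
  rw [h1, h2, ln_pow_mul (by norm_num) (by omega)]
  ring

theorem F_eq {b : ℕ} (hb : 4 ≤ b) :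
    L (2 ^ b * (2 ^ b - 1) + 1) = L (2 ^ b * (2 ^ (2 * b) - 1) + 1) := by
  obtain ⟨m, rfl⟩ := Nat.exists_eq_add_of_le' (show 3 ≤ b by omega)
  have hpos : 0 < 2 ^ m := by positivity
  obtain ⟨Z, hZ⟩ : ∃ Z, 2 ^ m = Z + 1 := ⟨2 ^ m - 1, by omega⟩
  have hZ2 : 0 < Z := by
    have : 2 ^ 1 ≤ 2 ^ m := Nat.pow_le_pow_right (by norm_num) (by omega)
    omega
  have e0 : 2 ^ (m + 3) = 8 * (Z + 1) := by rw [pow_add, hZ]; ring
  have e1 : 2 ^ (m + 3) * (2 ^ (m + 3) - 1) + 1 = 64 * Z ^ 2 + 120 * Z + 57 := by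
    rw [e0]
    have : 8 * (Z + 1) - 1 = 8 * Z + 7 := by omega
    rw [this]; ring
  have e2 : 2 ^ (m + 3) * (2 ^ (2 * (m + 3)) - 1) + 1 = 512 * (Z + 1) ^ 3 - 8 * (Z + 1) + 1 := by
    rw [mul_comm 2 (m + 3), pow_mul, e0, Nat.mul_sub]
    congr 2
    · ring
    · ring
  rw [e1, e2, F_one hZ hZ2, F_two hZ hZ2]
  have e3 : 4 * Z + 3 = 2 ^ (m + 1 + 1) - 1 := by
    rw [pow_succ, pow_succ, hZ]; omega
  have e4 : 2 * Z + 1 = 2 ^ (m + 1) - 1 := by
    rw [pow_succ, hZ]; omega
  rw [e3, e4, L_mersenne (m := m + 1) (by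
    have : m ≠ 0 := by rintro rfl; simp at hZ; omega
    omega)]
  ring

/-- logarithmic upper bound -/
theorem ln_le : ∀ S p q : ℕ, p + q = S → 0 < q → q ≤ p → ln p q ≤ 3 * Nat.log 2 S := by
  intro S
  induction S using Nat.strong_induction_on with
  | _ S ih =>
    intro p q hS hq hqp
    have hlog : 1 ≤ Nat.log 2 S := Nat.log_pos (by norm_num) (by omega)
    have hstep : ∀ S' p' q' : ℕ, p' + q' = S' → 0 < q' → q' ≤ p' → 2 * S' ≤ S →
        ln p' q' + 3 ≤ 3 * Nat.log 2 S := by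
      intro S' p' q' h1 h2 h3 h4
      have h5 := ih S' (by omega) p' q' h1 h2 h3
      have h6 : Nat.log 2 (2 * S') = Nat.log 2 S' + 1 := by
        rw [mul_comm, Nat.log_mul_base (by norm_num) (by omega)]
      have h7 : Nat.log 2 (2 * S') ≤ Nat.log 2 S := Nat.log_mono_right h4
      omega
    obtain ⟨k, hk1, hk2⟩ := exists_k hq hqp
    rcases hk1.eq_or_lt with h | h
    · rw [← h, ln_pow hq]; omega
    obtain ⟨q', hq'⟩ := Nat.exists_eq_add_of_lt h
    set p' := 2 ^ k * q with hp'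
    have hkk : 2 ^ (k + 1) * q = 2 * p' := by rw [hp']; ring
    have hs1 : ln p q = 1 + ln p' (q' + 1) := by
      rw [ln_step hq h hk2]
      congr 2; omega
    obtain ⟨k', hk'1, hk'2⟩ := exists_k (p := p') (q := q' + 1) (by omega) (by omega)
    rcases hk'1.eq_or_lt with h' | h'
    · rw [hs1, ← h', ln_pow (by omega)]; omega
    obtain ⟨q'', hq''⟩ := Nat.exists_eq_add_of_lt h'
    set p'' := 2 ^ k' * (q' + 1) with hp''
    have hkk' : 2 ^ (k' + 1) * (q' + 1) = 2 * p'' := by rw [hp'']; ring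
    have hs2 : ln p' (q' + 1) = 1 + ln p'' (q'' + 1) := by
      rw [ln_step (by omega) h' hk'2]
      congr 2; omega
    rcases Nat.eq_zero_or_pos k with hk0 | hk0
    · -- k = 0
      subst hk0
      rw [pow_zero, one_mul] at hp'
      have := hstep p' p'' (q'' + 1) (by omega) (by omega) (by omega) (by omega)
      omega
    rcases Nat.eq_zero_or_pos k' with hk0' | hk0'
    · subst hk0'
      rw [pow_zero, one_mul] at hp''
      obtain ⟨k3, hk31, hk32⟩ := exists_k (p := p'') (q := q'' + 1) (by omega) (by omega)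
      rcases hk31.eq_or_lt with h3 | h3
      · rw [hs1, hs2, ← h3, ln_pow (by omega)]; omega
      obtain ⟨q3, hq3⟩ := Nat.exists_eq_add_of_lt h3
      set p3 := 2 ^ k3 * (q'' + 1) with hp3
      have hkk3 : 2 ^ (k3 + 1) * (q'' + 1) = 2 * p3 := by rw [hp3]; ring
      have hs3 : ln p'' (q'' + 1) = 1 + ln p3 (q3 + 1) := by
        rw [ln_step (by omega) h3 hk32]
        congr 2; omega
      have := hstep p'' p3 (q3 + 1) (by omega) (by omega) (by omega) (by omega)
      omega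
    · -- both even
      obtain ⟨a, rfl⟩ := Nat.exists_eq_add_of_le' hk0
      obtain ⟨a', rfl⟩ := Nat.exists_eq_add_of_le' hk0'
      have g1 : p' = 2 * (2 ^ a * q) := by rw [hp']; ring
      have g2 : p'' = 2 * (2 ^ a' * (q' + 1)) := by rw [hp'']; ring
      obtain ⟨t, ht⟩ : ∃ t, q'' + 1 = 2 * t := ⟨2 ^ a * q - 2 ^ a' * (q' + 1), by omega⟩
      have hs3 : ln p'' (q'' + 1) = ln (2 ^ a' * (q' + 1)) t := by
        rw [g2, ht, ln_scale 2 (by norm_num) _ _ (by omega) (by omega)]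
      have := hstep (2 ^ a * q) (2 ^ a' * (q' + 1)) t (by omega) (by omega) (by omega) (by omega)
      omega

/-- binary digit sum -/
def pc (n : ℕ) : ℕ := (Nat.digits 2 n).sum

theorem pc_zero : pc 0 = 0 := by simp [pc]
theorem pc_one : pc 1 = 1 := by simp [pc]

theorem pc_double (n : ℕ) : pc (2 * n) = pc n := by
  rcases Nat.eq_zero_or_pos n with h | h
  · subst h; simp [pc]
  · unfold pc
    have := Nat.digits_add_two_add_one 0 (2 * n - 1)
    rw [Nat.digits_def' (by norm_num) (by omega)]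
    simp

theorem pc_double_add (n : ℕ) : pc (2 * n + 1) = pc n + 1 := by
  unfold pc
  rw [Nat.digits_def' (by norm_num) (by omega)]
  have h1 : (2 * n + 1) % 2 = 1 := by omega
  have h2 : (2 * n + 1) / 2 = n := by omega
  rw [h1, h2]
  simp [add_comm]

theorem pc_add : ∀ S x y : ℕ, x + y = S → pc (x + y) ≤ pc x + pc y := by
  intro S
  induction S using Nat.strong_induction_on with
  | _ S ih =>
    intro x y hS
    rcases Nat.eq_zero_or_pos S with h0 | h0
    · have hx : x = 0 := by omega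
      have hy : y = 0 := by omega
      subst hx; subst hy; simp
    rcases Nat.even_or_odd' x with ⟨a, ha | ha⟩ <;> rcases Nat.even_or_odd' y with ⟨b, hb | hb⟩
    · have e : x + y = 2 * (a + b) := by omega
      rw [e, ha, hb, pc_double, pc_double, pc_double]
      exact ih (a + b) (by omega) a b rfl
    · have e : x + y = 2 * (a + b) + 1 := by omega
      rw [e, ha, hb, pc_double_add, pc_double, pc_double_add]
      have := ih (a + b) (by omega) a b rfl
      omega
    · have e : x + y = 2 * (a + b) + 1 := by omega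
      rw [e, ha, hb, pc_double_add, pc_double_add, pc_double]
      have := ih (a + b) (by omega) a b rfl
      omega
    · have e : x + y = 2 * (a + b + 1) := by omega
      rw [e, ha, hb, pc_double, pc_double_add, pc_double_add]
      rcases Nat.eq_zero_or_pos (a + b) with h1 | h1
      · have ha0 : a = 0 := by omega
        have hb0 : b = 0 := by omega
        subst ha0; subst hb0
        simp [pc_zero, pc_one]
      · have i1 := ih (a + b + 1) (by omega) (a + b) 1 rfl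
        have i2 := ih (a + b) (by omega) a b rfl
        rw [pc_one] at i1
        omega

theorem pc_pow_mul (k n : ℕ) : pc (2 ^ k * n) = pc n := by
  induction k with
  | zero => simp
  | succ k ih =>
    have : 2 ^ (k + 1) * n = 2 * (2 ^ k * n) := by ring
    rw [this, pc_double, ih]

theorem pc_le : ∀ p q g : ℕ, 0 < q → q ≤ p → Nat.gcd p q ∣ 2 ^ g →
    pc p ≤ 2 ^ ln p q ∧ pc q ≤ 2 ^ ln p q := by
  intro p
  induction p using Nat.strong_induction_on with
  | _ p ih =>
    intro q g hq hqp hg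
    obtain ⟨k, hk1, hk2⟩ := exists_k hq hqp
    rcases hk1.eq_or_lt with h | h
    · have hqq : q ∣ 2 ^ g := by
        have : Nat.gcd p q = q := Nat.gcd_eq_right ⟨2 ^ k, by rw [← h]; ring⟩
        rwa [this] at hg
      obtain ⟨j, -, hj⟩ := (Nat.dvd_prime_pow Nat.prime_two).1 hqq
      have h1 : pc q = 1 := by
        rw [hj]
        have := pc_pow_mul j 1
        rw [mul_one] at this
        rw [this, pc_one]
      have h2 : pc p = 1 := by rw [← h, pc_pow_mul, h1]
      rw [h1, h2, ← h, ln_pow hq]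
      norm_num
    · obtain ⟨r, hr⟩ := Nat.exists_eq_add_of_lt h
      have hkk : 2 ^ (k + 1) * q = 2 * (2 ^ k * q) := by ring
      have hs1 : ln p q = 1 + ln (2 ^ k * q) (r + 1) := by
        rw [ln_step hq h hk2]
        congr 2; omega
      have hg2 : Nat.gcd (2 ^ k * q) (r + 1) ∣ 2 ^ (k + g) := by
        have h1 : Nat.gcd (2 ^ k * q) (r + 1) ∣ p := by
          have : p = 2 ^ k * q + (r + 1) := by omega
          rw [this]
          exact dvd_add (Nat.gcd_dvd_left _ _) (Nat.gcd_dvd_right _ _)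
        have h2 : Nat.gcd (2 ^ k * q) (r + 1) ∣ 2 ^ k * p := dvd_mul_of_dvd_right h1 _
        have h3 : Nat.gcd (2 ^ k * q) (r + 1) ∣ Nat.gcd (2 ^ k * p) (2 ^ k * q) :=
          Nat.dvd_gcd h2 (Nat.gcd_dvd_left _ _)
        rw [Nat.gcd_mul_left] at h3
        rw [pow_add]
        exact dvd_trans h3 (mul_dvd_mul_left _ hg)
      obtain ⟨i1, i2⟩ := ih (2 ^ k * q) h (r + 1) (k + g) (by omega) (by omega) hg2
      have i3 := pc_add p (2 ^ k * q) (r + 1) (by omega)
      have i4 : 2 ^ k * q + (r + 1) = p := by omega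
      rw [i4] at i3
      rw [pc_pow_mul] at i1 i3
      rw [hs1, pow_add, pow_one]
      constructor <;> omega

theorem pc_mersenne (n : ℕ) : pc (2 ^ n - 1) = n := by
  induction n with
  | zero => simp [pc_zero]
  | succ n ih =>
    have : 0 < 2 ^ n := by positivity
    have h1 : 2 ^ (n + 1) - 1 = 2 * (2 ^ n - 1) + 1 := by rw [pow_succ]; omega
    rw [h1, pc_double_add, ih]

theorem L_lower {b : ℕ} (hb : 1 ≤ b) (m : ℕ) : m + 1 ≤ 2 ^ L (2 ^ b * (2 ^ m - 1) + 1) := by
  obtain ⟨b', rfl⟩ := Nat.exists_eq_add_of_le' hb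
  have h1 := (pc_le (2 ^ (b' + 1) * (2 ^ m - 1) + 1) 1 0 (by norm_num) (by omega) (by simp)).1
  have h2 : 2 ^ (b' + 1) * (2 ^ m - 1) + 1 = 2 * (2 ^ b' * (2 ^ m - 1)) + 1 := by ring
  rw [L_def]
  rw [h2, pc_double_add, pc_pow_mul, pc_mersenne] at h1
  rw [h2]
  exact h1

end Pool.Agent.V11266.CL
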