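import Pool.Agent.V11266.CLDefs

namespace Pool.Agent.V11266.CL

open Polynomial

theorem poly_dvd {P : ℤ[X]} (hP : P.Monic)
    (hroot : ∀ z : ℂ, z ∈ (P.map (Int.castRingHom ℂ)).roots → ‖z‖ ≤ 1) :
    ∃ r d : ℕ, 0 < d ∧ P ∣ (X * (X ^ d - 1)) ^ r := by
  classical
  set Q : ℂ[X] := P.map (Int.castRingHom ℂ) with hQ
  have hQm : Q.Monic := hP.map _
  have hmah : Q.mahlerMeasure = 1 := by
    rw [mahlerMeasure_eq_leadingCoeff_mul_prod_roots, hQm.leadingCoeff]
    have : Q.roots.map (fun a => max 1 ‖a‖) = Q.roots.map (fun _ => (1 : ℝ)) := by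
      apply Multiset.map_congr rfl
      intro a ha
      exact max_eq_left (hroot a ha)
    rw [this]
    simp
  have hpow : ∀ z : ℂ, z ∈ Q.roots → z ≠ 0 → ∃ n, 0 < n ∧ z ^ n = 1 := by
    intro z hz hz0
    have hz' : z ∈ P.aroots ℂ := by
      simpa [Polynomial.aroots, hQ] using hz
    exact pow_eq_one_of_mahlerMeasure_eq_one (p := P) hmah hz0 hz'
  choose! f hf using hpow
  set d : ℕ := ∏ z ∈ Q.roots.toFinset, (if z = 0 then 1 else f z) with hd
  have hdpos : 0 < d := by
    apply Finset.prod_pos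
    intro z hz
    by_cases h : z = 0
    · simp [h]
    · simp only [h, if_false]
      exact (hf z (by simpa using hz) h).1
  have hroot2 : ∀ z ∈ Q.roots, z * (z ^ d - 1) = 0 := by
    intro z hz
    by_cases h : z = 0
    · simp [h]
    · have h1 := (hf z hz h).2
      have h2 : f z ∣ d := by
        have := Finset.dvd_prod_of_mem (fun z => if z = 0 then 1 else f z)
          (show z ∈ Q.roots.toFinset by simpa using hz)
        simpa [h] using this
      obtain ⟨m, hm⟩ := h2
      rw [hm, pow_mul, h1, one_pow]; simp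
  refine ⟨Multiset.card Q.roots, d, hdpos, ?_⟩
  rw [← map_dvd_map (Int.castRingHom ℂ) (Int.cast_injective) hP]
  have hsplit : Q = (Q.roots.map (X - C ·)).prod :=
    (IsAlgClosed.splits Q).eq_prod_roots_of_monic hQm
  have h3 : (Q.roots.map (X - C ·)).prod ∣
      (Q.roots.map (fun _ => (X * (X ^ d - 1) : ℂ[X]))).prod := by
    apply Multiset.prod_dvd_prod_of_dvd
    intro a ha
    rw [dvd_iff_isRoot]
    simp only [IsRoot.def, eval_mul, eval_X, eval_sub, eval_pow, eval_one]
    exact hroot2 a ha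
  rw [← hsplit, Multiset.map_const', Multiset.prod_replicate] at h3
  simpa [hQ] using h3

/-- a ℤ-independent family of integer sequences stays independent over `ℂ` -/
theorem indep_complex {ι : Type*} [Fintype ι] {b : ι → (ℕ → ℤ)} (hb : LinearIndependent ℤ b)
    {x : ι → ℂ} (hx : ∀ n, ∑ j, x j * (b j n : ℂ) = 0) : x = 0 := by
  classical
  -- pass to ℚ-valued sequences
  let ι' : (ℕ → ℤ) →ₗ[ℤ] (ℕ → ℚ) :=
    { toFun := fun f n => (f n : ℚ)
      map_add' := by intro f g; ext n; simp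
      map_smul' := by intro c f; ext n; simp }
  have hinj : LinearMap.ker ι' = ⊥ := by
    rw [LinearMap.ker_eq_bot]
    intro f g hfg
    ext n
    have := congrFun hfg n
    simpa [ι'] using this
  have h1 : LinearIndependent ℤ (ι' ∘ b) := hb.map' ι' hinj
  rw [LinearIndependent.iff_fractionRing ℤ ℚ] at h1
  rw [Fintype.linearIndependent_iff] at h1
  ext j
  simp only [Pi.zero_apply]
  rw [← Module.forall_dual_apply_eq_zero_iff ℚ]
  intro φ
  refine h1 (fun i => φ (x i)) ?_ j
  ext n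
  have h2 := congrArg φ (hx n)
  rw [map_sum, map_zero] at h2
  simp only [Finset.sum_apply, Pi.smul_apply, Function.comp_apply, smul_eq_mul, Pi.zero_apply, ι',
    LinearMap.coe_mk, AddHom.coe_mk]
  rw [← h2]
  apply Finset.sum_congr rfl
  intro i _
  have h3 : x i * (b i n : ℂ) = (b i n : ℚ) • x i := by
    rw [Algebra.smul_def]; simp [mul_comm]
  rw [h3, map_smul, smul_eq_mul, mul_comm]

theorem le_one_of_linear {ρ c C : ℝ} (hc : 0 < c) (h : ∀ J : ℕ, ρ ^ J * c ≤ C * (J + 1)) :
    ρ ≤ 1 := by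
  by_contra hρ
  push Not at hρ
  have h1 := tendsto_pow_const_div_const_pow_of_one_lt 1 hρ
  have h2 := tendsto_pow_const_div_const_pow_of_one_lt 0 hρ
  have h3 := (h1.add h2).const_mul C
  simp only [add_zero, mul_zero] at h3
  have h4 : ∀ J : ℕ, c ≤ C * ((J : ℝ) ^ 1 / ρ ^ J + (J : ℝ) ^ 0 / ρ ^ J) := by
    intro J
    have hp : 0 < ρ ^ J := by positivity
    rw [pow_one, pow_zero, ← add_div, mul_div_assoc', le_div_iff₀ hp]
    linarith [h J]
  have := ge_of_tendsto' h3 h4
  linarith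

theorem root_le_one {V : Submodule ℤ (ℕ → ℤ)} [Module.Finite ℤ V] [Module.Free ℤ V]
    (T : V →ₗ[ℤ] V)
    (hg : ∀ v : V, ∀ n : ℕ, ∃ C : ℝ, ∀ J : ℕ, |((((T ^ J) v : V) : ℕ → ℤ) n : ℝ)| ≤ C * (J + 1))
    {z : ℂ} (hz : z ∈ (T.charpoly.map (Int.castRingHom ℂ)).roots) : ‖z‖ ≤ 1 := by
  classical
  let b := Module.Free.chooseBasis ℤ V
  set ι := Module.Free.ChooseBasisIndex ℤ V with hι
  set M : Matrix ι ι ℤ := LinearMap.toMatrix b b T with hM
  have h1 : M.charpoly = T.charpoly := T.charpoly_toMatrix b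
  have h2 : ((M.map (Int.castRingHom ℂ)).charpoly).eval z = 0 := by
    rw [Matrix.charpoly_map, h1]
    exact (Polynomial.mem_roots'.1 hz).2
  rw [Matrix.eval_charpoly] at h2
  obtain ⟨x, hx0, hx⟩ := Matrix.exists_mulVec_eq_zero_iff.2 h2
  have hx2 : ∀ i, ∑ j, (M i j : ℂ) * x j = z * x i := by
    intro i
    have := congrFun hx i
    rw [Matrix.sub_mulVec] at this
    simp only [Pi.sub_apply, Pi.zero_apply, Matrix.scalar_apply, Matrix.mulVec_diagonal] at this
    rw [sub_eq_zero] at this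
    rw [this]
    simp [Matrix.mulVec, dotProduct]
  -- action on the basis
  have hT : ∀ j, T (b j) = ∑ i, M i j • b i := by
    intro j
    rw [← b.sum_repr (T (b j))]
    apply Finset.sum_congr rfl
    intro i _
    rw [hM, LinearMap.toMatrix_apply]
  have hW : ∀ J n, ∑ j, x j * ((((T ^ J) (b j) : V) : ℕ → ℤ) n : ℂ)
      = z ^ J * ∑ j, x j * ((((b j : V)) : ℕ → ℤ) n : ℂ) := by
    intro J
    induction J with
    | zero => intro n; simp
    | succ J ih =>
      intro n
      have e1 : ∀ j, ((((T ^ (J + 1)) (b j) : V) : ℕ → ℤ) n : ℂ)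
          = ∑ i, (M i j : ℂ) * ((((T ^ J) (b i) : V) : ℕ → ℤ) n : ℂ) := by
        intro j
        rw [pow_succ, Module.End.mul_apply, hT, map_sum]
        simp
      simp_rw [e1, Finset.mul_sum]
      rw [Finset.sum_comm]
      have e2 : ∀ i, ∑ j, x j * ((M i j : ℂ) * ((((T ^ J) (b i) : V) : ℕ → ℤ) n : ℂ))
          = z * (x i * ((((T ^ J) (b i) : V) : ℕ → ℤ) n : ℂ)) := by
        intro i
        rw [← mul_assoc, ← hx2 i, Finset.sum_mul]
        apply Finset.sum_congr rfl
        intro j _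
        ring
      simp_rw [e2]
      rw [← Finset.mul_sum, ih n, Finset.mul_sum, pow_succ, Finset.mul_sum]
      apply Finset.sum_congr rfl
      intro j _
      ring
  -- a point where the eigenfunction does not vanish
  have hne : ∃ n, ∑ j, x j * ((((b j : V)) : ℕ → ℤ) n : ℂ) ≠ 0 := by
    by_contra hcon
    push Not at hcon
    apply hx0
    refine indep_complex (b := fun j => ((b j : V) : ℕ → ℤ)) ?_ hcon
    exact b.linearIndependent.map' V.subtype (Submodule.ker_subtype V)
  obtain ⟨n, hn⟩ := hne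
  choose C hC using fun j => hg (b j) n
  refine le_one_of_linear (c := ‖∑ j, x j * ((((b j : V)) : ℕ → ℤ) n : ℂ)‖)
    (C := ∑ j, ‖x j‖ * C j) (norm_pos_iff.2 hn) ?_
  intro J
  rw [← norm_pow, ← norm_mul, ← hW J n, Finset.sum_mul]
  refine le_trans (norm_sum_le _ _) (Finset.sum_le_sum ?_)
  intro j _
  rw [norm_mul, mul_assoc]
  apply mul_le_mul_of_nonneg_left _ (norm_nonneg _)
  have := hC j J
  simpa using this

end Pool.Agent.V11266.CL
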