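import Pool.Agent.V11266.CLc
import Pool.Agent.V11266.CLd

namespace Pool.Agent.V11266.CL

open Polynomial

/-- quadratic expansion of powers of a unipotent-type operator -/
theorem pow_quad {V : Type*} [AddCommGroup V] [Module ℤ V] (B : Module.End ℤ V) (u : V)
    (h : (B ^ 3 : Module.End ℤ V) u = 0) (x : ℕ) :
    ((1 + B) ^ x : Module.End ℤ V) u
      = u + x • (B u) + (x.choose 2) • ((B ^ 2 : Module.End ℤ V) u) := by
  have h3 : B (B (B u)) = 0 := by
    simpa [pow_succ] using h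
  have h2 : (B ^ 2 : Module.End ℤ V) u = B (B u) := by simp [pow_succ]
  induction x with
  | zero => simp
  | succ x ih =>
    rw [pow_succ', Module.End.mul_apply, ih, h2]
    have h4 : ∀ w, (1 + B : Module.End ℤ V) w = w + B w := by
      intro w
      simp
    rw [h4, map_add, map_add, map_nsmul, map_nsmul, h3, Nat.choose_succ_succ' x 1]
    simp only [Nat.choose_one_right, smul_zero, add_zero, add_smul, one_smul]
    abel

theorem pow_affine {V : Type*} [AddCommGroup V] [Module ℤ V] (B : Module.End ℤ V) (u : V)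
    (h : (B ^ 2 : Module.End ℤ V) u = 0) (x : ℕ) :
    ((1 + B) ^ x : Module.End ℤ V) u = u + x • (B u) := by
  have h3 : (B ^ 3 : Module.End ℤ V) u = 0 := by
    rw [pow_succ', Module.End.mul_apply, h, map_zero]
  rw [pow_quad B u h3, h]
  simp

theorem quad_zero {α β γ C : ℝ} (h : ∀ x : ℕ, |α + x * β + (x.choose 2 : ℕ) * γ| ≤ C * (x + 1)) :
    γ = 0 := by
  by_contra hγ
  have hγ' : 0 < |γ| := abs_pos.2 hγ
  have hch : ∀ x : ℕ, ((x.choose 2 : ℕ) : ℝ) = x * (x - 1) / 2 := by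
    intro x; exact Nat.cast_choose_two ℝ x
  obtain ⟨D, hD⟩ : ∃ D : ℝ, D = |C| + |α| + |β| := ⟨_, rfl⟩
  have hD0 : 0 ≤ D := by rw [hD]; positivity
  have key : ∀ x : ℕ, 1 ≤ x → (x : ℝ) * (x - 1) * |γ| ≤ 2 * D * (x + 1) := by
    intro x hx
    have hx' : (1 : ℝ) ≤ x := by exact_mod_cast hx
    have h1 := h x
    rw [hch x] at h1
    have h2 : |(x : ℝ) * (x - 1) / 2 * γ| = x * (x - 1) / 2 * |γ| := by
      rw [abs_mul, abs_of_nonneg]
      apply div_nonneg _ (by norm_num)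
      apply mul_nonneg <;> linarith
    have h3 : |(x : ℝ) * (x - 1) / 2 * γ| ≤
        |α + x * β + x * (x - 1) / 2 * γ| + |α| + |x * β| := by
      have e : (x : ℝ) * (x - 1) / 2 * γ = (α + x * β + x * (x - 1) / 2 * γ) + (-α) + (-(x * β)) := by
        ring
      calc |(x : ℝ) * (x - 1) / 2 * γ|
          = |(α + x * β + x * (x - 1) / 2 * γ) + (-α) + (-(x * β))| := by rw [← e]
        _ ≤ |(α + x * β + x * (x - 1) / 2 * γ) + (-α)| + |(-(x * β))| := abs_add_le _ _
        _ ≤ |α + x * β + x * (x - 1) / 2 * γ| + |-α| + |-(x * β)| := by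
            gcongr; exact abs_add_le _ _
        _ = _ := by rw [abs_neg, abs_neg]
    have h4 : |(x : ℝ) * β| = x * |β| := by rw [abs_mul, abs_of_nonneg (by linarith)]
    rw [h2, h4] at h3
    have h5 : C * (x + 1) ≤ |C| * (x + 1) := by
      apply mul_le_mul_of_nonneg_right (le_abs_self C); linarith
    have h6 : |α| ≤ |α| * (x + 1) := by
      nlinarith [abs_nonneg α]
    have h7 : x * |β| ≤ |β| * (x + 1) := by nlinarith [abs_nonneg β]
    rw [hD]
    nlinarith
  obtain ⟨x, hx⟩ := exists_nat_gt (4 * D / |γ| + 2)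
  have hx1 : (1 : ℝ) ≤ x := by
    have : 0 ≤ 4 * D / |γ| := by positivity
    linarith
  have hx2 : 1 ≤ x := by exact_mod_cast hx1
  have k1 := key x hx2
  have k2 : 4 * D + 2 * |γ| < x * |γ| := by
    have := mul_lt_mul_of_pos_right hx hγ'
    rw [add_mul, div_mul_cancel₀ _ hγ'.ne'] at this
    exact this
  -- x (x-1)|γ| > x * (4D + 2|γ|)... use x*(x-1)*|γ| = x*(x|γ| - |γ|) > x*(4D + |γ|) ≥ 2D(x+1)
  have k3 : (x : ℝ) * (x - 1) * |γ| = x * (x * |γ| - |γ|) := by ring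
  rw [k3] at k1
  have k4 : x * (4 * D + |γ|) < x * (x * |γ| - |γ|) := by
    apply mul_lt_mul_of_pos_left _ (by linarith)
    linarith
  have k5 : 2 * D * (x + 1) ≤ 2 * D * (2 * x) := by
    apply mul_le_mul_of_nonneg_left _ (by linarith)
    linarith
  have k6 : 0 ≤ x * |γ| := by positivity
  nlinarith

theorem struct {V : Submodule ℤ (ℕ → ℤ)} [Module.Finite ℤ V] [Module.Free ℤ V]
    (T : Module.End ℤ V)
    (hg : ∀ v : V, ∀ n : ℕ, ∃ C : ℝ, ∀ J : ℕ,
      |((((T ^ J : Module.End ℤ V) v : V) : ℕ → ℤ) n : ℝ)| ≤ C * (J + 1)) :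
    ∃ N d : ℕ, 0 < d ∧ ∀ v : V,
      (aeval T ((X ^ N * (X ^ d - 1) ^ 2 : ℤ[X])) : Module.End ℤ V) v = 0 := by
  obtain ⟨r, d, hd, hdvd⟩ := poly_dvd T.charpoly_monic (fun z hz => root_le_one T hg hz)
  refine ⟨r, d, hd, ?_⟩
  have h0 : ∀ v : V, (aeval T ((X ^ r * (X ^ d - 1) ^ r : ℤ[X])) : Module.End ℤ V) v = 0 := by
    intro v
    rw [← mul_pow]
    obtain ⟨q, hq⟩ := hdvd
    rw [hq, map_mul, LinearMap.aeval_self_charpoly]
    simp
  have h1 : ∀ v : V, (aeval T ((X ^ r * (X ^ d - 1) ^ (r + 2) : ℤ[X])) : Module.End ℤ V) v = 0 := by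
    intro v
    have e : (X ^ r * (X ^ d - 1) ^ (r + 2) : ℤ[X]) = (X ^ d - 1) ^ 2 * (X ^ r * (X ^ d - 1) ^ r) := by
      ring
    rw [e, map_mul, Module.End.mul_apply, h0, map_zero]
  have step : ∀ s : ℕ,
      (∀ v : V, (aeval T ((X ^ r * (X ^ d - 1) ^ (s + 3) : ℤ[X])) : Module.End ℤ V) v = 0) →
      (∀ v : V, (aeval T ((X ^ r * (X ^ d - 1) ^ (s + 2) : ℤ[X])) : Module.End ℤ V) v = 0) := by
    intro s hs v
    obtain ⟨B, hB⟩ : ∃ B : Module.End ℤ V, B = aeval T ((X ^ d - 1 : ℤ[X])) := ⟨_, rfl⟩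
    obtain ⟨u, hu⟩ : ∃ u : V, u = (aeval T ((X ^ r * (X ^ d - 1) ^ s : ℤ[X])) : Module.End ℤ V) v :=
      ⟨_, rfl⟩
    have hB1 : (1 + B : Module.End ℤ V) = T ^ d := by
      rw [hB]; simp
    have hB3 : (B ^ 3 : Module.End ℤ V) u = 0 := by
      rw [hB, hu, ← map_pow, ← Module.End.mul_apply, ← map_mul]
      have e : ((X ^ d - 1) ^ 3 * (X ^ r * (X ^ d - 1) ^ s) : ℤ[X]) = X ^ r * (X ^ d - 1) ^ (s + 3) := by
        ring
      rw [e, hs]
    have hB2 : (B ^ 2 : Module.End ℤ V) u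
        = (aeval T ((X ^ r * (X ^ d - 1) ^ (s + 2) : ℤ[X])) : Module.End ℤ V) v := by
      rw [hB, hu, ← map_pow, ← Module.End.mul_apply, ← map_mul]
      congr 2
      ring
    rw [← hB2]
    ext n
    obtain ⟨C, hC⟩ := hg u n
    have hq := quad_zero (α := ((u : ℕ → ℤ) n : ℝ)) (β := (((B u : V) : ℕ → ℤ) n : ℝ))
      (γ := ((((B ^ 2 : Module.End ℤ V) u : V) : ℕ → ℤ) n : ℝ)) (C := |C| * d) (by
        intro x
        have h3 := pow_quad B u hB3 x
        rw [hB1, ← pow_mul] at h3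
        have h4 := hC (d * x)
        rw [h3] at h4
        have h5 : C * (((d * x : ℕ) : ℝ) + 1) ≤ |C| * d * (x + 1) := by
          have hd1 : (1 : ℝ) ≤ d := by exact_mod_cast hd
          calc C * (((d * x : ℕ) : ℝ) + 1) ≤ |C| * (((d * x : ℕ) : ℝ) + 1) := by
                apply mul_le_mul_of_nonneg_right (le_abs_self C); positivity
            _ ≤ |C| * (d * (x + 1)) := by
                apply mul_le_mul_of_nonneg_left _ (abs_nonneg C)
                push_cast; nlinarith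
            _ = _ := by ring
        refine le_trans (le_of_eq ?_) (le_trans h4 h5)
        simp)
    simpa using hq
  have down : ∀ s : ℕ,
      (∀ v : V, (aeval T ((X ^ r * (X ^ d - 1) ^ (s + 2) : ℤ[X])) : Module.End ℤ V) v = 0) →
      (∀ v : V, (aeval T ((X ^ r * (X ^ d - 1) ^ 2 : ℤ[X])) : Module.End ℤ V) v = 0) := by
    intro s
    induction s with
    | zero => intro h; simpa using h
    | succ s ih => intro h; exact ih (step s h)
  exact down r h1

end Pool.Agent.V11266.CL
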