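import Pool.Agent.V11266.CLb
import Pool.Agent.V11266.CLe

namespace Pool.Agent.V11266.CL

open Polynomial

theorem log_pow_mul (m : ℕ) {x : ℕ} (hx : 0 < x) : Nat.log 2 (2 ^ m * x) = m + Nat.log 2 x := by
  induction m with
  | zero => simp
  | succ m ih =>
    have e : 2 ^ (m + 1) * x = (2 ^ m * x) * 2 := by ring
    rw [e, Nat.log_mul_base (by norm_num) (by positivity), ih]
    ring

theorem L_zero : L 0 = 0 := by
  unfold L
  rw [cl]
  simp

theorem L_growth (n : ℕ) : L n ≤ 3 * Nat.log 2 (n + 1) := by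
  rcases Nat.eq_zero_or_pos n with h | h
  · subst h; rw [L_zero]; simp
  · exact ln_le (n + 1) n 1 rfl (by norm_num) h

/-- the submodule generated by the kernel -/
abbrev Vm (k : ℕ) (a : ℕ → ℤ) : Submodule ℤ (ℕ → ℤ) := Submodule.span ℤ (kernel k a)

theorem growth {k : ℕ} (v : ℕ → ℤ) (hv : v ∈ Vm k (fun n => (L n : ℤ))) :
    ∃ C : ℕ, ∀ n, |v n| ≤ C * (1 + Nat.log 2 (n + 1)) := by
  induction hv using Submodule.span_induction with
  | mem x hx =>
    obtain ⟨e, r, hr, rfl⟩ := hx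
    refine ⟨3 * (k ^ e + 1), fun n => ?_⟩
    have h1 := L_growth (k ^ e * n + r)
    have h2 : Nat.log 2 (k ^ e * n + r + 1) ≤ k ^ e + Nat.log 2 (n + 1) := by
      rw [← log_pow_mul (k ^ e) (Nat.succ_pos n)]
      apply Nat.log_mono_right
      have h3 : k ^ e * n + r + 1 ≤ k ^ e * (n + 1) := by rw [mul_add]; omega
      exact le_trans h3 (Nat.mul_le_mul_right _ (Nat.lt_two_pow_self).le)
    have h4 : L (k ^ e * n + r) ≤ 3 * (k ^ e + 1) * (1 + Nat.log 2 (n + 1)) := by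
      nlinarith [Nat.zero_le (k ^ e * Nat.log 2 (n + 1))]
    have h5 : |((L (k ^ e * n + r) : ℕ) : ℤ)| = ((L (k ^ e * n + r) : ℕ) : ℤ) :=
      abs_of_nonneg (Int.natCast_nonneg _)
    show |((L (k ^ e * n + r) : ℕ) : ℤ)| ≤ _
    rw [h5]
    exact_mod_cast h4
  | zero => exact ⟨0, fun n => by simp⟩
  | add x y _ _ hx hy =>
    obtain ⟨C, hC⟩ := hx
    obtain ⟨D, hD⟩ := hy
    refine ⟨C + D, fun n => ?_⟩
    have := abs_add_le (x n) (y n)
    have h1 := hC n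
    have h2 := hD n
    simp only [Pi.add_apply]
    push_cast at *
    linarith [add_mul (C : ℤ) (D : ℤ) (1 + (Nat.log 2 (n + 1) : ℤ))]
  | smul z x _ hx =>
    obtain ⟨C, hC⟩ := hx
    refine ⟨z.natAbs * C, fun n => ?_⟩
    simp only [Pi.smul_apply, smul_eq_mul, abs_mul]
    have h1 := hC n
    have h2 : ((z.natAbs : ℕ) : ℤ) = |z| := Int.natCast_natAbs z
    push_cast
    rw [mul_assoc]
    exact mul_le_mul_of_nonneg_left (by simpa using h1) (abs_nonneg z)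

/-- the shift `v ↦ (n ↦ v (k n + k - 1))` -/
def sh (k : ℕ) : (ℕ → ℤ) →ₗ[ℤ] (ℕ → ℤ) := LinearMap.funLeft ℤ ℤ (fun n => k * n + (k - 1))

theorem sh_apply (k : ℕ) (v : ℕ → ℤ) (n : ℕ) : sh k v n = v (k * n + (k - 1)) := rfl

theorem sh_mem {k : ℕ} (hk : 1 ≤ k) (a : ℕ → ℤ) : ∀ v ∈ Vm k a, sh k v ∈ Vm k a := by
  intro v hv
  induction hv using Submodule.span_induction with
  | mem x hx =>
    obtain ⟨e, r, hr, rfl⟩ := hx
    apply Submodule.subset_span
    obtain ⟨k', rfl⟩ := Nat.exists_eq_add_of_le' hk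
    refine ⟨e + 1, (k' + 1) ^ e * k' + r, ?_, ?_⟩
    · rw [pow_succ, mul_add, mul_one]; omega
    · ext n
      rw [sh_apply]
      show a _ = a _
      congr 1
      simp only [Nat.add_sub_cancel]
      ring
  | zero => simp
  | add x y _ _ hx hy => rw [map_add]; exact add_mem hx hy
  | smul z x _ hx => rw [map_smul]; exact Submodule.smul_mem _ _ hx

/-- the restriction of the shift to the kernel module -/
def T (k : ℕ) (hk : 1 ≤ k) (a : ℕ → ℤ) : Module.End ℤ (Vm k a) := (sh k).restrict (sh_mem hk a)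

theorem T_apply (k : ℕ) (hk : 1 ≤ k) (a : ℕ → ℤ) (v : Vm k a) (n : ℕ) :
    ((T k hk a v : Vm k a) : ℕ → ℤ) n = (v : ℕ → ℤ) (k * n + (k - 1)) := rfl

theorem T_pow (k : ℕ) (hk : 1 ≤ k) (a : ℕ → ℤ) (J : ℕ) : ∀ (v : Vm k a) (n : ℕ),
    (((T k hk a ^ J : Module.End ℤ (Vm k a)) v : Vm k a) : ℕ → ℤ) n
      = (v : ℕ → ℤ) (k ^ J * n + (k ^ J - 1)) := by
  induction J with
  | zero => intro v n; simp
  | succ J ih =>
    intro v n
    have key : k ^ J * (k * n + (k - 1)) + (k ^ J - 1) = k ^ (J + 1) * n + (k ^ (J + 1) - 1) := by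
      obtain ⟨k', rfl⟩ := Nat.exists_eq_add_of_le' hk
      obtain ⟨p, hp⟩ : ∃ p, (k' + 1) ^ J = p + 1 :=
        ⟨(k' + 1) ^ J - 1, by have : 0 < (k' + 1) ^ J := by positivity
                              omega⟩
      rw [pow_succ, hp]
      simp only [Nat.add_sub_cancel]
      have e : (p + 1) * (k' + 1) - 1 = (p + 1) * k' + p := by
        have : (p + 1) * (k' + 1) = (p + 1) * k' + p + 1 := by ring
        omega
      rw [e]
      ring
    rw [pow_succ', Module.End.mul_apply, T_apply, ih, key]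

theorem T_growth (k : ℕ) (hk : 1 ≤ k) (v : Vm k (fun n => (L n : ℤ))) (n : ℕ) :
    ∃ C : ℝ, ∀ J : ℕ,
      |((((T k hk (fun n => (L n : ℤ)) ^ J : Module.End ℤ (Vm k (fun n => (L n : ℤ)))) v :
        Vm k (fun n => (L n : ℤ))) : ℕ → ℤ) n : ℝ)| ≤ C * (J + 1) := by
  obtain ⟨C, hC⟩ := growth (v : ℕ → ℤ) v.2
  refine ⟨C * (1 + k + Nat.log 2 (n + 1)), fun J => ?_⟩
  rw [T_pow]
  have h1 := hC (k ^ J * n + (k ^ J - 1))
  have hpos : 0 < k ^ J := by positivity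
  have h2 : Nat.log 2 (k ^ J * n + (k ^ J - 1) + 1) ≤ k * J + Nat.log 2 (n + 1) := by
    rw [← log_pow_mul (k * J) (Nat.succ_pos n)]
    apply Nat.log_mono_right
    have h3 : k ^ J * n + (k ^ J - 1) + 1 = k ^ J * (n + 1) := by rw [mul_add]; omega
    rw [h3, pow_mul]
    exact Nat.mul_le_mul_right _ (Nat.pow_le_pow_left (Nat.lt_two_pow_self).le J)
  have h4 : |((v : ℕ → ℤ) (k ^ J * n + (k ^ J - 1)))|
      ≤ (C * (1 + k + Nat.log 2 (n + 1)) * (J + 1) : ℤ) := by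
    refine le_trans h1 ?_
    have h5 : C * (1 + Nat.log 2 (k ^ J * n + (k ^ J - 1) + 1))
        ≤ C * (1 + k + Nat.log 2 (n + 1)) * (J + 1) := by
      rw [mul_assoc]
      apply Nat.mul_le_mul_left
      nlinarith [Nat.zero_le (Nat.log 2 (n + 1) * J), Nat.zero_le J]
    exact_mod_cast h5
  have h6 : ((|((v : ℕ → ℤ) (k ^ J * n + (k ^ J - 1)))| : ℤ) : ℝ)
      ≤ ((C * (1 + k + Nat.log 2 (n + 1)) * (J + 1) : ℤ) : ℝ) := by exact_mod_cast h4
  push_cast at h6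
  exact h6

theorem part2 {e : ℕ} (he : 1 ≤ e) : ¬ IsRegular (2 ^ e) (fun n => (L n : ℤ)) := by
  intro hreg
  have hk : 1 ≤ 2 ^ e := Nat.one_le_two_pow
  set a : ℕ → ℤ := fun n => (L n : ℤ) with ha
  have : Module.Finite ℤ (Vm (2 ^ e) a) := Module.Finite.iff_fg.2 hreg
  obtain ⟨N, d, hd, hN⟩ := struct (T (2 ^ e) hk a) (fun v n => T_growth (2 ^ e) hk v n)
  set t := N + 4 with ht
  have hmem : (fun n => a ((2 ^ e) ^ (d * t) * n + 1)) ∈ Vm (2 ^ e) a := by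
    apply Submodule.subset_span
    refine ⟨d * t, 1, ?_, rfl⟩
    rw [← pow_mul]
    apply Nat.one_lt_two_pow
    positivity
  obtain ⟨B, hB⟩ : ∃ B : Module.End ℤ (Vm (2 ^ e) a), B = aeval (T (2 ^ e) hk a) ((X ^ d - 1 : ℤ[X])) :=
    ⟨_, rfl⟩
  obtain ⟨u, hu⟩ : ∃ u : Vm (2 ^ e) a, u =
      ((T (2 ^ e) hk a) ^ (d * N) : Module.End ℤ (Vm (2 ^ e) a)) ⟨_, hmem⟩ := ⟨_, rfl⟩
  have hB1 : (1 + B : Module.End ℤ (Vm (2 ^ e) a)) = (T (2 ^ e) hk a) ^ d := by
    rw [hB]; simp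
  have hB2 : (B ^ 2 : Module.End ℤ (Vm (2 ^ e) a)) u = 0 := by
    have h1 : ((T (2 ^ e) hk a) ^ (d * N) : Module.End ℤ (Vm (2 ^ e) a))
        = aeval (T (2 ^ e) hk a) ((X ^ (d * N) : ℤ[X])) := by simp
    rw [hB, hu, h1, ← map_pow, ← Module.End.mul_apply, ← map_mul]
    obtain ⟨c, hc⟩ : ∃ c, d * N = N + c := by
      refine ⟨d * N - N, ?_⟩
      have : N ≤ d * N := Nat.le_mul_of_pos_left N hd
      omega
    have e1 : ((X ^ d - 1) ^ 2 * X ^ (d * N) : ℤ[X]) = X ^ c * (X ^ N * (X ^ d - 1) ^ 2) := by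
      rw [hc]; ring
    rw [e1, map_mul, Module.End.mul_apply, hN, map_zero]
  have haff : ∀ x : ℕ, (L (2 ^ (e * d * t) * (2 ^ (e * d * (N + x)) - 1) + 1) : ℤ)
      = (u : ℕ → ℤ) 0 + x * ((B u : Vm (2 ^ e) a) : ℕ → ℤ) 0 := by
    intro x
    have h1 := pow_affine B u hB2 x
    rw [hB1, hu, ← pow_mul, ← Module.End.mul_apply, ← pow_add, ← hu] at h1
    have h2 := congrFun (congrArg (fun w : Vm (2 ^ e) a => (w : ℕ → ℤ)) h1) 0
    rw [T_pow] at h2
    have e1 : (2 ^ e) ^ (d * t) * ((2 ^ e) ^ (d * x + d * N) * 0 + ((2 ^ e) ^ (d * x + d * N) - 1)) + 1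
        = 2 ^ (e * d * t) * (2 ^ (e * d * (N + x)) - 1) + 1 := by
      rw [mul_zero, zero_add, ← pow_mul, ← pow_mul]
      congr 3
      · ring
      · congr 1
        ring
    have h3 : (L ((2 ^ e) ^ (d * t) * ((2 ^ e) ^ (d * x + d * N) * 0
        + ((2 ^ e) ^ (d * x + d * N) - 1)) + 1) : ℤ) = ((u + x • B u : Vm (2 ^ e) a) : ℕ → ℤ) 0 := h2
    rw [e1] at h3
    rw [h3]
    simp
  have h4 := haff 4
  have h8 := haff (N + 8)
  have hb4 : 4 ≤ e * d * t := by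
    have : 1 ≤ e * d := Nat.mul_pos he hd
    calc 4 ≤ t := by omega
      _ = 1 * t := (one_mul t).symm
      _ ≤ e * d * t := Nat.mul_le_mul_right t this
  have hF := F_eq hb4
  have e2 : e * d * (N + (N + 8)) = 2 * (e * d * t) := by rw [ht]; ring
  rw [e2, ← hF] at h8
  have hβ : ((B u : Vm (2 ^ e) a) : ℕ → ℤ) 0 = 0 := by
    rw [h4] at h8
    push_cast at h8
    have h9 : ((N : ℤ) + 4) * ((B u : Vm (2 ^ e) a) : ℕ → ℤ) 0 = 0 := by linarith
    rcases mul_eq_zero.1 h9 with h | h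
    · exfalso; omega
    · exact h
  have hconst : ∀ x : ℕ, L (2 ^ (e * d * t) * (2 ^ (e * d * (N + x)) - 1) + 1)
      = L (2 ^ (e * d * t) * (2 ^ (e * d * (N + 0)) - 1) + 1) := by
    intro x
    have h1 := haff x
    have h2 := haff 0
    rw [hβ, mul_zero] at h1 h2
    have : (L (2 ^ (e * d * t) * (2 ^ (e * d * (N + x)) - 1) + 1) : ℤ)
      = L (2 ^ (e * d * t) * (2 ^ (e * d * (N + 0)) - 1) + 1) := by rw [h1, h2]
    exact_mod_cast this
  set Λ := L (2 ^ (e * d * t) * (2 ^ (e * d * (N + 0)) - 1) + 1) with hΛ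
  have hlow := L_lower (b := e * d * t) (by omega) (e * d * (N + 2 ^ Λ))
  rw [hconst] at hlow
  have : 1 ≤ e * d := Nat.mul_pos he hd
  have h10 : 2 ^ Λ ≤ e * d * (N + 2 ^ Λ) := by
    calc 2 ^ Λ ≤ N + 2 ^ Λ := by omega
      _ = 1 * (N + 2 ^ Λ) := (one_mul _).symm
      _ ≤ _ := Nat.mul_le_mul_right _ this
  omega

theorem not_regular : ∀ k : ℕ, 2 ≤ k → ¬ IsRegular k (fun n => (L n : ℤ)) := by
  intro k hk
  by_cases h : ∃ p, p.Prime ∧ p ≠ 2 ∧ p ∣ k
  · obtain ⟨p, hp, hp2, hpk⟩ := h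
    exact part1 hk hp hp2 hpk
  · push Not at h
    have h1 : k = 2 ^ k.primeFactorsList.length := by
      apply Nat.eq_prime_pow_of_unique_prime_dvd (by omega)
      intro d hd hdk
      by_contra hne
      exact h d hd hne hdk
    have h2 : 1 ≤ k.primeFactorsList.length := by
      by_contra h3
      have : k.primeFactorsList.length = 0 := by omega
      rw [this] at h1
      simp at h1
      omega
    rw [h1]
    exact part2 h2

end Pool.Agent.V11266.CL
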