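import Pool.Agent.H308R2.PPL.Word
set_option autoImplicit false

/-!
# Desubstitution of palindromes of the Fibonacci word
-/

namespace Pool.Agent.V11266.FibPPL

open Pool.Agent.H308R2.FibPal

/-- length of the image of the prefix of length `n` -/
def mu (f : ℕ → Bool) : ℕ → ℕ
  | 0 => 0
  | n + 1 => mu f n + (if f (n + 1) then 2 else 1)

variable {f : ℕ → Bool}

lemma mu_len (n : ℕ) : ((initialBlock f n).flatMap fibMorphism).length = mu f n := by
  induction n with
  | zero => simp [initialBlock, mu]
  | succ n ih =>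
    rw [block_succ, List.flatMap_append, List.length_append, ih]
    cases h : f (n + 1) <;> simp [mu, h, fibMorphism]

lemma image (hf : IsFibonacciWord f) (n : ℕ) :
    (initialBlock f n).flatMap fibMorphism = initialBlock f (mu f n) := by
  rw [← mu_len]; exact hf n

lemma mu_succ_ge (n : ℕ) : mu f n < mu f (n + 1) := by
  simp only [mu]; split <;> omega

lemma mu_succ_true {n : ℕ} (h : f (n + 1) = true) : mu f (n + 1) = mu f n + 2 := by
  simp [mu, h]

lemma mu_succ_false {n : ℕ} (h : f (n + 1) = false) : mu f (n + 1) = mu f n + 1 := by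
  simp [mu, h]

lemma mu_strictMono : StrictMono (mu f) := strictMono_nat_of_lt_succ mu_succ_ge

lemma le_mu (n : ℕ) : n ≤ mu f n := mu_strictMono.le_apply

lemma seg_image (hf : IsFibonacciWord f) (n : ℕ) :
    seg f (mu f n) (mu f (n + 1)) = fibMorphism (f (n + 1)) := by
  have h1 := image hf (n + 1)
  rw [block_succ, List.flatMap_append, image hf n,
    block_append f (mu_succ_ge n).le] at h1
  have h2 := List.append_cancel_left h1
  simpa using h2.symm

lemma f_one (hf : IsFibonacciWord f) (n : ℕ) : f (mu f n + 1) = true := by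
  have h := seg_image hf n
  cases h1 : f (n + 1)
  · rw [mu_succ_false h1, h1] at h
    simpa [seg, fibMorphism] using h
  · rw [mu_succ_true h1, h1] at h
    have e : seg f (mu f n) (mu f n + 2) = [f (mu f n + 1), f (mu f n + 2)] := by
      unfold seg
      rw [show mu f n + 2 - mu f n = 2 by omega]
      rfl
    rw [e] at h
    simpa [fibMorphism] using (List.cons.inj h).1

lemma f_two (hf : IsFibonacciWord f) {n : ℕ} (h1 : f (n + 1) = true) :
    f (mu f n + 2) = false := by
  have h := seg_image hf n
  rw [mu_succ_true h1, h1] at h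
  have e : seg f (mu f n) (mu f n + 2) = [f (mu f n + 1), f (mu f n + 2)] := by
    unfold seg
    rw [show mu f n + 2 - mu f n = 2 by omega]
    rfl
  rw [e] at h
  simpa [fibMorphism] using (List.cons.inj (List.cons.inj h).2).1

/-- the letter at `mu v` is the opposite of the letter at `v` -/
lemma f_mu (hf : IsFibonacciWord f) {v : ℕ} (hv : 1 ≤ v) : f (mu f v) = !f v := by
  obtain ⟨u, rfl⟩ := Nat.exists_eq_add_of_le' hv
  cases h : f (u + 1)
  · rw [mu_succ_false h, f_one hf]; rfl
  · rw [mu_succ_true h, f_two hf h]; rfl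

/-- the letter at `mu v + 2` is the opposite of the letter at `v + 1` -/
lemma f_mu2 (hf : IsFibonacciWord f) (v : ℕ) : f (mu f v + 2) = !f (v + 1) := by
  cases h : f (v + 1)
  · have := f_one hf (v + 1)
    rw [mu_succ_false h] at this
    rw [show mu f v + 2 = mu f v + 1 + 1 by ring, this]; rfl
  · rw [f_two hf h]; rfl

lemma no_bb (hf : IsFibonacciWord f) {v : ℕ} (h : f v = false) (hv : 1 ≤ v) :
    f (v + 1) = true := by
  by_contra hc
  have hc' : f (v + 1) = false := by simpa using hc
  -- `v` is `mu w`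
  have key : ∀ x : ℕ, ∃ w z : ℕ, x = mu f w + z ∧ (z = 0 ∨ (z = 1 ∧ f (w + 1) = true)) := by
    intro x
    induction x with
    | zero => exact ⟨0, 0, rfl, Or.inl rfl⟩
    | succ x ih =>
      obtain ⟨w, z, h1, h2⟩ := ih
      rcases h2 with rfl | ⟨rfl, h3⟩
      · cases h4 : f (w + 1)
        · exact ⟨w + 1, 0, by rw [mu_succ_false h4]; omega, Or.inl rfl⟩
        · exact ⟨w, 1, by omega, Or.inr ⟨rfl, h4⟩⟩
      · exact ⟨w + 1, 0, by rw [mu_succ_true h3]; omega, Or.inl rfl⟩
  obtain ⟨w, z, h1, h2⟩ := key v
  rcases h2 with rfl | ⟨rfl, h3⟩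
  · rw [h1, Nat.add_zero, f_one hf w] at hc'
    exact absurd hc' (by simp)
  · rw [h1, f_one hf w] at h
    exact absurd h (by simp)

lemma exists_rep (f : ℕ → Bool) (x : ℕ) : ∃ (w : ℕ) (z : Bool), x = mu f w + z.toNat ∧
    (z = true → f (w + 1) = true) := by
  induction x with
  | zero => exact ⟨0, false, rfl, by simp⟩
  | succ x ih =>
    obtain ⟨w, z, h1, h2⟩ := ih
    cases z
    · cases h4 : f (w + 1)
      · exact ⟨w + 1, false, by rw [mu_succ_false h4]; simp at h1 ⊢; omega, by simp⟩
      · exact ⟨w, true, by simp at h1 ⊢; omega, fun _ => h4⟩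
    · exact ⟨w + 1, false, by rw [mu_succ_true (h2 rfl)]; simp at h1 ⊢; omega, by simp⟩

/-- uniqueness of the representation -/
lemma rep_unique {w w' : ℕ} {z z' : Bool} (h : mu f w + z.toNat = mu f w' + z'.toNat)
    (hz : z = true → f (w + 1) = true) (hz' : z' = true → f (w' + 1) = true) :
    w = w' ∧ z = z' := by
  have aux : ∀ {w w' : ℕ} {z z' : Bool}, mu f w + z.toNat = mu f w' + z'.toNat →
      (z = true → f (w + 1) = true) → ¬ w < w' := by
    intro w w' z z' h hz hlt
    have h1 : mu f (w + 1) ≤ mu f w' := mu_strictMono.monotone hlt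
    cases z
    · have := mu_succ_ge (f := f) w
      simp at h; omega
    · rw [mu_succ_true (hz rfl)] at h1
      simp at h; omega
  have h1 := aux h hz
  have h2 := aux h.symm hz'
  have e : w = w' := by omega
  subst e
  refine ⟨rfl, ?_⟩
  cases z <;> cases z' <;> simp at h ⊢

/-! ### palindromes -/

/-- reflection of the boundaries -/
lemma refl_core (hf : IsFibonacciWord f) {m n a b : ℕ} (hs : m + n = mu f a + mu f b + 1)
    (hp : Pal f m n) {j : ℕ} (haj : a ≤ j) (hjb : j < b)
    (hsum : mu f j + mu f (a + b - j) = mu f a + mu f b)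
    (h1 : m < mu f j + 2) (h2 : mu f j + 2 ≤ n) :
    f (j + 1) = f (a + b - j) ∧ mu f (j + 1) + mu f (a + b - (j + 1)) = mu f a + mu f b := by
  have h3 := hp _ h1 h2
  rw [show m + n + 1 - (mu f j + 2) = mu f (a + b - j) by omega, f_mu2 hf,
    f_mu hf (by omega)] at h3
  have h4 : f (j + 1) = f (a + b - j) := by
    cases h5 : f (j + 1) <;> cases h6 : f (a + b - j) <;> simp_all
  refine ⟨h4, ?_⟩
  obtain ⟨c, hc⟩ : ∃ c, a + b - j = c + 1 := ⟨a + b - j - 1, by omega⟩
  rw [show a + b - (j + 1) = c by omega]
  rw [hc] at h4 hsum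
  cases h5 : f (c + 1)
  · rw [mu_succ_false h5] at hsum
    rw [mu_succ_false (by rw [h4, h5])]
    omega
  · rw [mu_succ_true h5] at hsum
    rw [mu_succ_true (by rw [h4, h5])]
    omega

/-- palindromes starting and ending with `a` -/
lemma desubA (hf : IsFibonacciWord f) {a b : ℕ} (hab : a ≤ b)
    (hp : Pal f (mu f a) (mu f b + 1)) : Pal f a b := by
  have hmono := (mu_strictMono (f := f)).monotone
  have key : ∀ j, a ≤ j → j ≤ b → mu f j + mu f (a + b - j) = mu f a + mu f b := by
    intro j hj
    induction j, hj using Nat.le_induction with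
    | base => intro _; rw [show a + b - a = b by omega]
    | succ j hj ih =>
      intro hjb
      have h1 : mu f a ≤ mu f j := hmono hj
      have h2 : mu f (j + 1) ≤ mu f b := hmono hjb
      have h3 := mu_succ_ge (f := f) j
      exact (refl_core hf (by ring) hp hj (by omega) (ih (by omega)) (by omega) (by omega)).2
  intro x h1 h2
  obtain ⟨j, rfl⟩ : ∃ j, x = j + 1 := ⟨x - 1, by omega⟩
  have h3 : mu f a ≤ mu f j := hmono (by omega)
  have h4 : mu f (j + 1) ≤ mu f b := hmono h2
  have h5 := mu_succ_ge (f := f) j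
  have h6 := (refl_core hf (by ring) hp (j := j) (by omega) (by omega) (key j (by omega) (by omega))
    (by omega) (by omega)).1
  rw [h6]
  congr 1; omega

/-- palindromes starting and ending with `b` -/
lemma desubB (hf : IsFibonacciWord f) {a b : ℕ} (hab : a < b) (ha : f (a + 1) = true)
    (hb : f b = true) (hp : Pal f (mu f a + 1) (mu f b)) : Pal f a b := by
  have hmono := (mu_strictMono (f := f)).monotone
  obtain ⟨c, rfl⟩ : ∃ c, b = c + 1 := ⟨b - 1, by omega⟩
  have hc := mu_succ_true hb
  have base : mu f (a + 1) + mu f (a + (c + 1) - (a + 1)) = mu f a + mu f (c + 1) := by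
    rw [show a + (c + 1) - (a + 1) = c by omega, mu_succ_true ha, hc]; ring
  have bound : ∀ j, a + 1 ≤ j → j + 1 ≤ c + 1 → mu f a + 1 < mu f j + 2 ∧
      mu f j + 2 ≤ mu f (c + 1) := by
    intro j hj hjc
    have h1 : mu f (a + 1) ≤ mu f j := hmono hj
    have h3 : mu f (j + 1) ≤ mu f (c + 1) := hmono hjc
    rw [mu_succ_true ha] at h1
    refine ⟨by omega, ?_⟩
    cases h4 : f (j + 1)
    · have h5 : j ≠ c := by
        rintro rfl
        rw [hb] at h4; exact absurd h4 (by simp)
      have h6 : mu f (j + 1 + 1) ≤ mu f (c + 1) := hmono (by omega)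
      have h7 := mu_succ_ge (f := f) (j + 1)
      rw [mu_succ_false h4] at h7
      omega
    · rw [mu_succ_true h4] at h3; omega
  have key : ∀ j, a + 1 ≤ j → j ≤ c + 1 →
      mu f j + mu f (a + (c + 1) - j) = mu f a + mu f (c + 1) := by
    intro j hj
    induction j, hj using Nat.le_induction with
    | base => intro _; exact base
    | succ j hj ih =>
      intro hjb
      obtain ⟨b1, b2⟩ := bound j hj hjb
      exact (refl_core hf (by ring) hp (by omega) (by omega) (ih (by omega)) b1 b2).2
  intro x h1 h2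
  obtain ⟨j, rfl⟩ : ∃ j, x = j + 1 := ⟨x - 1, by omega⟩
  rcases Nat.eq_or_lt_of_le (show a ≤ j by omega) with rfl | h3
  · rw [ha]
    rw [show a + (c + 1) + 1 - (a + 1) = c + 1 by omega, hb]
  · obtain ⟨b1, b2⟩ := bound j h3 h2
    have h6 := (refl_core hf (by ring) hp (j := j) (by omega) (by omega)
      (key j h3 (by omega)) b1 b2).1
    rw [h6]
    congr 1; omega

/-- reflection in the image of a palindrome -/
lemma lift_refl (hf : IsFibonacciWord f) {a b : ℕ} (hab : a ≤ b) (hp : Pal f a b) :
    ∀ x, mu f a < x → x ≤ mu f b + 1 → f x = f (mu f a + mu f b + 2 - x) := by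
  have hmono := (mu_strictMono (f := f)).monotone
  have key : ∀ j, a ≤ j → j ≤ b → mu f j + mu f (a + b - j) = mu f a + mu f b := by
    intro j hj
    induction j, hj using Nat.le_induction with
    | base => intro _; rw [show a + b - a = b by omega]
    | succ j hj ih =>
      intro hjb
      have ih' := ih (by omega)
      have h1 := hp (j + 1) (by omega) hjb
      obtain ⟨c, hc⟩ : ∃ c, a + b - j = c + 1 := ⟨a + b - j - 1, by omega⟩
      rw [show a + b - (j + 1) = c by omega]
      rw [show a + b + 1 - (j + 1) = c + 1 by omega] at h1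
      rw [hc] at ih'
      cases h5 : f (c + 1)
      · rw [mu_succ_false h5] at ih'
        rw [mu_succ_false (by rw [h1, h5])]
        omega
      · rw [mu_succ_true h5] at ih'
        rw [mu_succ_true (by rw [h1, h5])]
        omega
  intro x h1 h2
  obtain ⟨j, z, hx, hz⟩ := exists_rep f (x - 1)
  have hx' : x = mu f j + z.toNat + 1 := by omega
  have haj : a ≤ j := by
    by_contra hc
    have h3 : mu f (j + 1) ≤ mu f a := hmono (by omega)
    cases z
    · have := mu_succ_ge (f := f) j
      simp at hx'; omega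
    · rw [mu_succ_true (hz rfl)] at h3
      simp at hx'; omega
  have hjb : j ≤ b := by
    by_contra hc
    have h3 : mu f (b + 1) ≤ mu f j := hmono (by omega)
    have := mu_succ_ge (f := f) b
    omega
  have hk := key j haj hjb
  cases z
  · simp only [Bool.toNat_false, Nat.add_zero] at hx'
    rw [hx', f_one hf]
    rw [show mu f a + mu f b + 2 - (mu f j + 1) = mu f (a + b - j) + 1 by omega, f_one hf]
  · simp only [Bool.toNat_true] at hx'
    have hz1 := hz rfl
    have hjb' : j < b := by
      rcases Nat.eq_or_lt_of_le hjb with rfl | h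
      · omega
      · exact h
    rw [show x = mu f j + 2 by omega, f_two hf hz1]
    rw [show mu f a + mu f b + 2 - (mu f j + 2) = mu f (a + b - j) by omega,
      f_mu hf (by omega)]
    have h3 := hp (j + 1) (by omega) (by omega)
    rw [show a + b + 1 - (j + 1) = a + b - j by omega, hz1] at h3
    rw [← h3]; rfl

lemma liftA (hf : IsFibonacciWord f) {a b : ℕ} (hab : a ≤ b) (hp : Pal f a b) :
    Pal f (mu f a) (mu f b + 1) := by
  intro x h1 h2
  rw [lift_refl hf hab hp x h1 h2]
  congr 1

lemma liftB (hf : IsFibonacciWord f) {a b : ℕ} (hab : a ≤ b) (hp : Pal f a b) :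
    Pal f (mu f a + 1) (mu f b) := by
  intro x h1 h2
  rw [lift_refl hf hab hp x (by omega) (by omega)]
  congr 1; omega

end Pool.Agent.V11266.FibPPL
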