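import Pool.Agent.V11266.FibA
set_option autoImplicit false

/-!
# Palindromic lengths: removing a palindromic suffix
-/

namespace Pool.Agent.V11266.FibPPL

open Pool.Agent.H308R2.FibPal

/-- `w` is a product of at most `k` nonempty palindromes -/
def Q (w : List Bool) (k : ℕ) : Prop :=
  ∃ L : List (List Bool), L.length ≤ k ∧ (∀ p ∈ L, p ≠ [] ∧ p.reverse = p) ∧ L.flatten = w

lemma Q.mono {w : List Bool} {k l : ℕ} (h : Q w k) (hkl : k ≤ l) : Q w l := by
  obtain ⟨L, h1, h2, h3⟩ := h
  exact ⟨L, h1.trans hkl, h2, h3⟩

lemma Q.append {u v : List Bool} {k l : ℕ} (h : Q u k) (h' : Q v l) : Q (u ++ v) (k + l) := by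
  obtain ⟨L, h1, h2, h3⟩ := h
  obtain ⟨M, h4, h5, h6⟩ := h'
  refine ⟨L ++ M, by rw [List.length_append]; omega, ?_, by rw [List.flatten_append, h3, h6]⟩
  intro p hp
  rcases List.mem_append.mp hp with h | h
  · exact h2 p h
  · exact h5 p h

lemma Q.rev {w : List Bool} {k : ℕ} (h : Q w k) : Q w.reverse k := by
  obtain ⟨L, h1, h2, h3⟩ := h
  refine ⟨L.reverse, by simpa using h1, ?_, ?_⟩
  · intro p hp
    exact h2 p (by simpa using hp)
  · rw [← h3, List.reverse_flatten,
      (List.map_congr_left (g := id) (fun p hp => (h2 p hp).2)), List.map_id]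

lemma Q_pal {p : List Bool} (h : p.reverse = p) : Q p 1 := by
  by_cases hp : p = []
  · exact ⟨[], by simp, by simp, by simp [hp]⟩
  · exact ⟨[p], by simp, by simp [hp, h], by simp⟩

lemma Q_list {L : List (List Bool)} (h : ∀ p ∈ L, p ≠ [] ∧ p.reverse = p) :
    Q L.flatten L.length := ⟨L, le_rfl, h, rfl⟩

lemma cut : ∀ (L : List (List Bool)) (x y : List Bool), L.flatten = x ++ y → y ≠ [] →
    ∃ (L1 L2 : List (List Bool)) (u v : List Bool), L = L1 ++ (u ++ v) :: L2 ∧
      x = L1.flatten ++ u ∧ y = v ++ L2.flatten ∧ v ≠ [] := by
  intro L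
  induction L with
  | nil =>
    intro x y h hy
    simp at h
    exact absurd h.2 hy
  | cons p L ih =>
    intro x y h hy
    rw [List.flatten_cons, List.append_eq_append_iff] at h
    rcases h with ⟨a', h1, h2⟩ | ⟨c', h1, h2⟩
    · obtain ⟨L1, L2, u, v, e1, e2, e3, e4⟩ := ih a' y h2 hy
      exact ⟨p :: L1, L2, u, v, by rw [e1]; rfl, by rw [h1, e2]; simp, e3, e4⟩
    · by_cases hc : c' = []
      · subst hc
        simp only [List.append_nil, List.nil_append] at h1 h2
        obtain ⟨L1, L2, u, v, e1, e2, e3, e4⟩ := ih [] y (by simpa using h2.symm) hy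
        refine ⟨p :: L1, L2, u, v, by rw [e1]; rfl, ?_, e3, e4⟩
        rw [List.flatten_cons, List.append_assoc, ← e2, h1]; simp
      · exact ⟨[], L, x, c', by rw [h1]; rfl, by simp, h2, hc⟩

lemma saarela : ∀ (n : ℕ) (x y : List Bool) (k l : ℕ), x.length + y.length ≤ n →
    Q (x ++ y) k → Q y l → Q x (k + l) := by
  intro n
  induction n using Nat.strong_induction_on with
  | _ n IH =>
  -- left version of the induction hypothesis
  have IH' : ∀ (x y : List Bool) (k l : ℕ), y.length + x.length < n →
      Q (y ++ x) k → Q y l → Q x (k + l) := by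
    intro x y k l h h1 h2
    have h3 := IH (y.length + x.length) h x.reverse y.reverse k l (by simp; omega)
      (by rw [← List.reverse_append]; exact h1.rev) h2.rev
    have h4 := h3.rev
    rwa [List.reverse_reverse] at h4
  have B : ∀ (x y : List Bool) (k : ℕ), x.length + y.length ≤ n → y.reverse = y → y ≠ [] →
      Q (x ++ y) k → Q x (k + 1) := by
    intro x y k hn hy hy0 hq
    obtain ⟨L, hL1, hL2, hL3⟩ := hq
    obtain ⟨L1, L2, u, v, e1, e2, e3, e4⟩ := cut L x y hL3 hy0
    have hp : (u ++ v).reverse = u ++ v := (hL2 (u ++ v) (by rw [e1]; simp)).2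
    have q1 : Q L1.flatten L1.length := Q_list (fun p hp => hL2 p (by rw [e1]; simp [hp]))
    have q2 : Q L2.flatten L2.length := Q_list (fun p hp => hL2 p (by rw [e1]; simp [hp]))
    have hlen : L1.length + 1 + L2.length ≤ k := by
      rw [e1] at hL1
      simp at hL1; omega
    by_cases hx : x = []
    · subst hx
      exact ⟨[], by simp, by simp, by simp⟩
    have hxl : 0 < x.length := List.length_pos_iff.mpr hx
    have hyl : y.length < n := by omega
    have qy : Q y 1 := Q_pal hy
    have hyl' : v.length + L2.flatten.length = y.length := by rw [e3, List.length_append]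
    rw [List.reverse_append, List.append_eq_append_iff] at hp
    have hu : Q u (2 + L2.length) := by
      rcases hp with ⟨z, h1, h2⟩ | ⟨z, h1, h2⟩
      · -- `u = v.reverse ++ z`, `u.reverse = z ++ v`
        have hz : z.reverse = z := by
          have h3 : u.reverse = z.reverse ++ v := by rw [h1]; simp
          rw [h2] at h3
          exact (List.append_cancel_right h3).symm
        have qv : Q v (1 + L2.length) := by
          apply IH (y.length) hyl v L2.flatten 1 L2.length (by omega) _ q2
          rw [← e3]; exact qy
        have := qv.rev.append (Q_pal hz)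
        rw [h1]
        exact this.mono (by omega)
      · -- `v.reverse = u ++ z`, `v = z ++ u.reverse`
        have hz : z.reverse = z := by
          have h3 : v = z.reverse ++ u.reverse := by
            have := congrArg List.reverse h1
            simpa using this
          have h4 : z ++ u.reverse = z.reverse ++ u.reverse := by rw [← h2]; exact h3
          exact (List.append_cancel_right h4).symm
        have hlt : z.length + u.length = v.length := by
          have := congrArg List.length h2
          simp at this; omega
        have qt : Q (u.reverse ++ L2.flatten) (1 + 1) := by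
          apply IH' (u.reverse ++ L2.flatten) z 1 1
            (by rw [List.length_append, List.length_reverse]; omega) _ (Q_pal hz)
          rw [← List.append_assoc, ← h2, ← e3]; exact qy
        have qu : Q u.reverse (1 + 1 + L2.length) := by
          apply IH (u.length + L2.flatten.length) (by omega) u.reverse L2.flatten _ _
            (by rw [List.length_reverse]) qt q2
        have := qu.rev
        rw [List.reverse_reverse] at this
        exact this.mono (by omega)
    rw [e2]
    exact (q1.append hu).mono (by omega)
  intro x y k l hn hq hy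
  obtain ⟨M, hM1, hM2, hM3⟩ := hy
  have key : ∀ (M : List (List Bool)) (k : ℕ), (∀ p ∈ M, p ≠ [] ∧ p.reverse = p) →
      x.length + M.flatten.length ≤ n → Q (x ++ M.flatten) k → Q x (k + M.length) := by
    intro M
    induction M using List.reverseRecOn with
    | nil => intro k _ _ h; simpa using h
    | append_singleton M q ih =>
      intro k h1 h2 h3
      have hq := h1 q (by simp)
      rw [List.flatten_append] at h2 h3
      simp only [List.flatten_cons, List.flatten_nil, List.append_nil] at h2 h3
      rw [← List.append_assoc] at h3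
      rw [List.length_append] at h2
      have h4 := B (x ++ M.flatten) q k (by rw [List.length_append]; omega) hq.2 hq.1 h3
      have h5 := ih (k + 1) (fun p hp => h1 p (by simp [hp])) (by omega) h4
      rw [List.length_append, List.length_singleton]
      exact h5.mono (by omega)
  have := key M k hM2 (by rw [hM3]; omega) (by rw [hM3]; exact hq)
  exact this.mono (by omega)

variable {f : ℕ → Bool}

lemma ppl_le_iff {n k : ℕ} : PPL f n ≤ k ↔ Q (initialBlock f n) k := by
  constructor
  · intro h
    obtain ⟨L, h1, h2, h3⟩ := ppl_spec f n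
    exact ⟨L, by omega, h2, h3⟩
  · rintro ⟨L, h1, h2, h3⟩
    have h4 : PPL f n ≤ L.length := by
      unfold PPL
      exact Nat.sInf_le ⟨L, rfl, h2, h3⟩
    exact h4.trans h1

/-- undirected palindromic step, or rest -/
def Edge (f : ℕ → Bool) (a b : ℕ) : Prop :=
  a = b ∨ (a < b ∧ Pal f a b) ∨ (b < a ∧ Pal f b a)

lemma Edge.symm {a b : ℕ} (h : Edge f a b) : Edge f b a := by
  rcases h with rfl | h | h
  · exact Or.inl rfl
  · exact Or.inr (Or.inr h)
  · exact Or.inr (Or.inl h)

lemma Edge.ppl {a b : ℕ} (h : Edge f a b) : PPL f b ≤ PPL f a + 1 := by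
  rcases h with rfl | ⟨h1, h2⟩ | ⟨h1, h2⟩
  · omega
  · exact ppl_step f h1 h2
  · rw [ppl_le_iff]
    apply saarela _ (initialBlock f b) (seg f b a) (PPL f a) 1 le_rfl
    · rw [← block_append f h1.le, ← ppl_le_iff]
    · exact Q_pal ((seg_pal f h1.le).mpr h2)

/-- a palindromic path of length `k` from `0` to `b` -/
inductive Conn (f : ℕ → Bool) : ℕ → ℕ → Prop
  | zero : Conn f 0 0
  | step (k a b : ℕ) : Conn f k a → Edge f a b → Conn f (k + 1) b

lemma Conn.ppl {k b : ℕ} (h : Conn f k b) : PPL f b ≤ k := by
  induction h with
  | zero => rw [ppl_zero]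
  | step k a b h1 h2 ih => exact h2.ppl.trans (by omega)

/-- lifting a step -/
lemma Edge.lift (hf : IsFibonacciWord f) {a b : ℕ} (h : Edge f a b) (c : Bool) :
    Edge f (mu f a + c.toNat) (mu f b + (!c).toNat) := by
  have aux : ∀ {a b : ℕ}, a ≤ b → Pal f a b → ∀ c : Bool,
      Edge f (mu f a + c.toNat) (mu f b + (!c).toNat) := by
    intro a b hab hp c
    have hm : mu f a ≤ mu f b := (mu_strictMono (f := f)).monotone hab
    cases c
    · right; left
      refine ⟨?_, liftA hf hab hp⟩
      simp; omega
    · simp only [Bool.toNat_true, Bool.not_true, Bool.toNat_false, Nat.add_zero]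
      rcases Nat.lt_trichotomy (mu f a + 1) (mu f b) with h | h | h
      · exact Or.inr (Or.inl ⟨h, liftB hf hab hp⟩)
      · exact Or.inl h
      · -- `mu a = mu b`
        have hab' : a = b := by
          rcases Nat.eq_or_lt_of_le hab with h1 | h1
          · exact h1
          · have := (mu_strictMono (f := f)) h1
            omega
        subst hab'
        right; right
        refine ⟨by omega, ?_⟩
        have := liftA hf (le_refl a) hp
        exact this
  rcases h with rfl | ⟨h1, h2⟩ | ⟨h1, h2⟩
  · exact aux le_rfl (fun x h1 h2 => by omega) c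
  · exact aux h1.le h2 c
  · have := (aux h1.le h2 (!c)).symm
    rwa [Bool.not_not] at this

lemma Conn.lift (hf : IsFibonacciWord f) {k b : ℕ} (h : Conn f k b) :
    Conn f k (mu f b + k % 2) := by
  induction h with
  | zero => exact Conn.zero
  | step k a b h1 h2 ih =>
    refine Conn.step _ _ _ ih ?_
    rcases Nat.mod_two_eq_zero_or_one k with h | h
    · have := h2.lift hf false
      rw [h, show (k + 1) % 2 = 1 by omega]
      simpa using this
    · have := h2.lift hf true
      rw [h, show (k + 1) % 2 = 0 by omega]
      simpa using this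

end Pool.Agent.V11266.FibPPL
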