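import Pool.Agent.V11266.FibC
set_option autoImplicit false

/-!
# Upper bound: soundness of the certificate
-/

namespace Pool.Agent.V11266.FibPPL

open Pool.Agent.H308R2.FibPal

variable {f : ℕ → Bool}

/-- the eight letters around the position `v` are coded by `c` -/
def Lets (f : ℕ → Bool) (v c : ℕ) : Prop := ∀ k, k < 8 → f (v - 3 + k) = c.testBit k

/-- bounds for the palindromic lengths (with parity) of the positions around `v` -/
def Vals (f : ℕ → Bool) (N v t : ℕ) : Prop := ∀ q p, q < 9 → p < 2 →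
  ∃ k, k % 2 = p ∧ 3 * k ≤ N + 30 + tv t (2 * q + p) ∧ Conn f k (v - 4 + q)

lemma mu_pos {v c : ℕ} (hv : 4 ≤ v) (hL : Lets f v c) :
    ∀ q, q ≤ 8 → mu f (v - 4 + q) = mu f (v - 4) + pos c q := by
  intro q
  induction q with
  | zero => intro _; rfl
  | succ q ih =>
    intro hq
    have h1 := hL q (by omega)
    rw [← Nat.add_assoc]
    simp only [mu, pos]
    rw [ih (by omega), ← h1, show v - 4 + q + 1 = v - 3 + q by omega]
    ring

lemma pos_ge (c q : ℕ) : q ≤ pos c q := by
  induction q with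
  | zero => simp
  | succ q ih => simp only [pos]; split <;> omega

lemma lets_step (hf : IsFibonacciWord f) {v c z c' : ℕ} (hv : 4 ≤ v) (hL : Lets f v c)
    (hz : z ≤ 1) (h : chkCtx c z c' = true) :
    Lets f (mu f v + z) c' := by
  intro k hk
  have hmu := mu_pos hv hL
  have h4 := hmu 4 (by omega)
  rw [show v - 4 + 4 = v by omega] at h4
  have hp4 := pos_ge c 4
  have hc := List.all_eq_true.mp h k (List.mem_range.mpr hk)
  have hc' : c'.testBit k = (List.range 9).any (fun q => pos c q + 4 == pos c 4 + z + k) := by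
    simpa using hc
  rw [hc']
  have hmono := (mu_strictMono (f := f))
  cases hany : (List.range 9).any (fun q => pos c q + 4 == pos c 4 + z + k)
  · have hno : ∀ q, q < 9 → pos c q + 4 ≠ pos c 4 + z + k := by
      intro q hq he
      have : (List.range 9).any (fun q => pos c q + 4 == pos c 4 + z + k) = true :=
        List.any_eq_true.mpr ⟨q, List.mem_range.mpr hq, by simpa using he⟩
      rw [hany] at this
      exact absurd this (by simp)
    obtain ⟨w, zz, h1, h2⟩ := exists_rep f (mu f v + z - 3 + k - 1)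
    cases zz
    · exfalso
      simp only [Bool.toNat_false, Nat.add_zero] at h1
      have hw1 : v - 4 ≤ w := by
        by_contra hlt
        have := hmono (show w < v - 4 by omega)
        omega
      have hw2 : w ≤ v - 4 + 8 := by
        by_contra hlt
        have h5 := hmono (show v - 4 + 8 < w by omega)
        have h6 := hmu 8 le_rfl
        have h7 : pos c 4 + 4 ≤ pos c 8 := by
          simp only [pos]
          split_ifs <;> omega
        omega
      obtain ⟨q, rfl⟩ : ∃ q, w = v - 4 + q := ⟨w - (v - 4), by omega⟩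
      have h6 := hmu q (by omega)
      exact hno q (by omega) (by omega)
    · simp only [Bool.toNat_true] at h1
      rw [show mu f v + z - 3 + k = mu f w + 2 by omega, f_two hf (h2 rfl)]
  · obtain ⟨q, hq, he⟩ := List.any_eq_true.mp hany
    have hq' := List.mem_range.mp hq
    have he' : pos c q + 4 = pos c 4 + z + k := by simpa using he
    have h6 := hmu q (by omega)
    rw [show mu f v + z - 3 + k = mu f (v - 4 + q) + 1 by omega, f_one hf]

lemma palb_pal {x c a b : ℕ} (hx : 4 ≤ x) (hL : Lets f x c) (hb : b ≤ 8)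
    (h : palb c a b = true) : Pal f (x - 4 + a) (x - 4 + b) := by
  intro y h1 h2
  obtain ⟨i, hi⟩ : ∃ i, y = x - 4 + a + 1 + i := ⟨y - (x - 4 + a + 1), by omega⟩
  have h3 := List.all_eq_true.mp h i (List.mem_range.mpr (by omega))
  have h3' : c.testBit (a + i) = c.testBit (b - 1 - i) := by simpa using h3
  rw [show y = x - 3 + (a + i) by omega, hL (a + i) (by omega), h3',
    ← hL (b - 1 - i) (by omega)]
  congr 1
  omega

lemma vals_step (hf : IsFibonacciWord f) {N v c t z R c' : ℕ} (hv : 4 ≤ v) (hL : Lets f v c)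
    (hV : Vals f N v t) (hL' : Lets f (mu f v + z) c')
    (h : (List.range 9).all (fun q' => chkEntry c t z R c' q' 0 && chkEntry c t z R c' q' 1)
      = true) : Vals f (N + 1) (mu f v + z) R := by
  have hmu := mu_pos hv hL
  have h4 := hmu 4 (by omega)
  rw [show v - 4 + 4 = v by omega] at h4
  have hp4 := pos_ge c 4
  have hx : 4 ≤ mu f v + z := by
    have := le_mu (f := f) v
    omega
  have key : ∀ m q p, q < 9 → p < 2 → tv R (2 * q + p) = m →
      ∃ k, k % 2 = p ∧ 3 * k ≤ N + 1 + 30 + tv R (2 * q + p) ∧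
        Conn f k (mu f v + z - 4 + q) := by
    intro m
    induction m using Nat.strong_induction_on with
    | _ m IH =>
    intro q' p' hq' hp' hm
    have h1 := List.all_eq_true.mp h q' (List.mem_range.mpr hq')
    have h2 : chkEntry c t z R c' q' p' = true := by
      simp only [Bool.and_eq_true] at h1
      interval_cases p'
      · exact h1.1
      · exact h1.2
    unfold chkEntry at h2
    rw [Bool.or_eq_true] at h2
    rcases h2 with h2 | h2
    · obtain ⟨q, hq, he⟩ := List.any_eq_true.mp h2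
      have hq9 := List.mem_range.mp hq
      rw [Bool.and_eq_true, beq_iff_eq, Nat.ble_eq] at he
      obtain ⟨e1, e2⟩ := he
      obtain ⟨k, k1, k2, k3⟩ := hV q p' hq9 hp'
      refine ⟨k, k1, by omega, ?_⟩
      have k4 := k3.lift hf
      have h6 := hmu q (by omega)
      rw [k1, h6] at k4
      rw [show mu f v + z - 4 + q' = mu f (v - 4) + pos c q + p' by omega]
      exact k4
    · obtain ⟨q, hq, he⟩ := List.any_eq_true.mp h2
      have hq9 := List.mem_range.mp hq
      rw [Bool.and_eq_true, Nat.ble_eq] at he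
      obtain ⟨e1, e2⟩ := he
      obtain ⟨k, k1, k2, k3⟩ := IH (tv R (2 * q + (1 - p'))) (by omega) q (1 - p') hq9
        (by omega) rfl
      refine ⟨k + 1, by omega, by omega, ?_⟩
      refine Conn.step _ _ _ k3 ?_
      by_cases hlt : q < q'
      · rw [if_pos hlt] at e1
        exact Or.inr (Or.inl ⟨by omega, palb_pal hx hL' (by omega) e1⟩)
      · rw [if_neg hlt] at e1
        rcases Nat.eq_or_lt_of_le (Nat.le_of_not_lt hlt) with h5 | h5
        · rw [h5]; exact Or.inl rfl
        · exact Or.inr (Or.inr ⟨by omega, palb_pal hx hL' (by omega) e1⟩)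
  intro q p hq hp
  exact key _ q p hq hp rfl

lemma vals_mono {N v R t : ℕ} (h : Vals f N v R)
    (hc : (List.range 18).all (fun i => Nat.ble (tv R i) (tv t i)) = true) : Vals f N v t := by
  intro q p hq hp
  obtain ⟨k, k1, k2, k3⟩ := h q p hq hp
  refine ⟨k, k1, ?_, k3⟩
  have h1 := List.all_eq_true.mp hc (2 * q + p) (List.mem_range.mpr (by omega))
  rw [Nat.ble_eq] at h1
  omega

lemma chk1_sound (hf : IsFibonacciWord f) {N v c t z R c' t' : ℕ} (hv : 4 ≤ v)
    (hL : Lets f v c) (hV : Vals f N v t) (hz : z ≤ 1) (h : chk1 c t z R c' t' = true) :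
    Lets f (mu f v + z) c' ∧ Vals f (N + 1) (mu f v + z) t' := by
  unfold chk1 at h
  rw [Bool.and_eq_true, Bool.and_eq_true] at h
  obtain ⟨⟨h1, h2⟩, h3⟩ := h
  have hL' := lets_step hf hv hL hz h1
  exact ⟨hL', vals_mono (vals_step hf hv hL hV hL' h2) h3⟩

lemma table_step (hf : IsFibonacciWord f) {N v : ℕ} (hv : 4 ≤ v) {z : Bool}
    (hz : z = true → f (v + 1) = true)
    (h : ∃ e ∈ table, Lets f v e.1 ∧ Vals f N v e.2.1) :
    ∃ e ∈ table, Lets f (mu f v + z.toNat) e.1 ∧ Vals f (N + 1) (mu f v + z.toNat) e.2.1 := by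
  obtain ⟨e, he, hL, hV⟩ := h
  have h1 := List.all_eq_true.mp chkAll_true e he
  unfold chkRow at h1
  rw [Bool.and_eq_true, Bool.or_eq_true] at h1
  obtain ⟨h2, h3⟩ := h1
  cases z
  · split at h2
    · rename_i e' he'
      exact ⟨e', List.mem_of_getElem? he', chk1_sound hf hv hL hV (by simp) h2⟩
    · exact absurd h2 (by simp)
  · have h4 : e.1.testBit 4 = true := by
      rw [← hL 4 (by omega), show v - 3 + 4 = v + 1 by omega]
      exact hz rfl
    rw [h4] at h3
    simp only [Bool.not_true, Bool.false_eq_true, false_or] at h3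
    split at h3
    · rename_i e' he'
      exact ⟨e', List.mem_of_getElem? he', chk1_sound hf hv hL hV (by simp) h3⟩
    · exact absurd h3 (by simp)

lemma conn_unit (f : ℕ → Bool) (b : ℕ) : Conn f b b := by
  induction b with
  | zero => exact Conn.zero
  | succ b ih =>
    refine Conn.step _ _ _ ih (Or.inr (Or.inl ⟨by omega, ?_⟩))
    intro x h1 h2
    congr 1; omega

lemma base_vals {N v t : ℕ} (hv : 4 ≤ v) (hv' : v ≤ 6) (hN : 3 ≤ N) : Vals f N v t := by
  intro q p hq hp
  have h1 := conn_unit f (v - 4 + q)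
  by_cases h2 : (v - 4 + q) % 2 = p
  · exact ⟨_, h2, by omega, h1⟩
  · exact ⟨v - 4 + q + 1, by omega, by omega, Conn.step _ _ _ h1 (Or.inl rfl)⟩

lemma small (hf : IsFibonacciWord f) : (f 1 = true ∧ f 2 = false ∧ f 3 = true ∧ f 4 = true ∧
    f 5 = false ∧ f 6 = true ∧ f 7 = false ∧ f 8 = true ∧ f 9 = true ∧ f 10 = false) ∧
    mu f 1 = 2 ∧ mu f 2 = 3 ∧ mu f 3 = 5 := by
  have m0 : mu f 0 = 0 := rfl
  have a1 := f_one hf 0
  rw [m0] at a1
  have m1 := mu_succ_true (n := 0) a1
  have a2 := f_two hf (n := 0) a1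
  rw [m0] at m1 a2
  have a3 := f_one hf 1
  have m2 := mu_succ_false (n := 1) a2
  rw [m1] at a3 m2
  have a4 := f_one hf 2
  rw [m2] at a4
  have a5 := f_two hf (n := 2) a3
  rw [m2] at a5
  have m3 := mu_succ_true (n := 2) a3
  rw [m2] at m3
  have a6 := f_one hf 3
  rw [m3] at a6
  have a7 := f_two hf (n := 3) a4
  rw [m3] at a7
  have m4 := mu_succ_true (n := 3) a4
  rw [m3] at m4
  have a8 := f_one hf 4
  rw [m4] at a8
  have m5 := mu_succ_false (n := 4) a5
  rw [m4] at m5
  have a9 := f_one hf 5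
  rw [m5] at a9
  have a10 := f_two hf (n := 5) a6
  rw [m5] at a10
  exact ⟨⟨a1, a2, a3, a4, a5, a6, a7, a8, a9, a10⟩, m1, m2, m3⟩

lemma mu_mu (hf : IsFibonacciWord f) (n : ℕ) : mu f (mu f n) = mu f n + n := by
  induction n with
  | zero => rfl
  | succ n ih =>
    cases h : f (n + 1)
    · rw [mu_succ_false h, mu_succ_true (f_one hf n), ih]; ring
    · rw [mu_succ_true h, show mu f n + 2 = mu f n + 1 + 1 by ring,
        mu_succ_false (f_two hf h), mu_succ_true (f_one hf n), ih]; ring

lemma mu_fib (hf : IsFibonacciWord f) (i : ℕ) : mu f (Nat.fib (i + 2)) = Nat.fib (i + 3) := by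
  induction i with
  | zero => exact (small hf).2.1
  | succ i ih =>
    have h := mu_mu hf (Nat.fib (i + 2))
    rw [ih] at h
    rw [show i + 1 + 2 = i + 3 by ring, h, show i + 1 + 3 = i + 2 + 2 by ring,
      Nat.fib_add_two (n := i + 2)]
    ring

theorem upper (hf : IsFibonacciWord f) : ∀ n, 4 ≤ n → ∃ N, 3 ≤ N ∧ Nat.fib (N + 1) ≤ n ∧
    ∃ e ∈ table, Lets f n e.1 ∧ Vals f N n e.2.1 := by
  intro n
  induction n using Nat.strong_induction_on with
  | _ n IH =>
  intro hn
  obtain ⟨⟨a1, a2, a3, a4, a5, a6, a7, a8, a9, a10⟩, m1, m2, m3⟩ := small hf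
  by_cases h6 : n ≤ 6
  · have hcase : n = 4 ∨ n = 5 ∨ n = 6 := by omega
    rcases hcase with rfl | rfl | rfl
    · have he : ∃ e ∈ table, e.1 = 173 := by decide
      obtain ⟨e, he, h173⟩ := he
      refine ⟨3, le_rfl, by decide, e, he, ?_, base_vals (by omega) (by omega) (by omega)⟩
      rw [h173]
      intro k hk
      interval_cases k <;> simp [a1, a2, a3, a4, a5, a6, a7, a8, Nat.testBit, Nat.shiftRight_eq_div_pow]
    · have he : ∃ e ∈ table, e.1 = 214 := by decide
      obtain ⟨e, he, h173⟩ := he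
      refine ⟨4, by omega, by decide, e, he, ?_, base_vals (by omega) (by omega) (by omega)⟩
      rw [h173]
      intro k hk
      interval_cases k <;> simp [a2, a3, a4, a5, a6, a7, a8, a9, Nat.testBit, Nat.shiftRight_eq_div_pow]
    · have he : ∃ e ∈ table, e.1 = 107 := by decide
      obtain ⟨e, he, h173⟩ := he
      refine ⟨4, by omega, by decide, e, he, ?_, base_vals (by omega) (by omega) (by omega)⟩
      rw [h173]
      intro k hk
      interval_cases k <;> simp [a3, a4, a5, a6, a7, a8, a9, a10, Nat.testBit, Nat.shiftRight_eq_div_pow]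
  · obtain ⟨v, z, h1, h2⟩ := exists_rep f n
    have hz1 : z.toNat ≤ 1 := Bool.toNat_le z
    have hv4 : 4 ≤ v := by
      by_contra hc
      have : mu f v ≤ mu f 3 := (mu_strictMono (f := f)).monotone (by omega)
      omega
    have hvn : v < n := by
      have h3 := mu_strictMono (f := f) (show 3 < v by omega)
      have h4 := le_mu (f := f) v
      have h5 : v ≠ mu f v := by
        intro h5
        have h7 : ∀ w, 1 ≤ w → w < mu f w := by
          intro w hw
          induction w, hw using Nat.le_induction with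
          | base => omega
          | succ w _ ih => have := mu_succ_ge (f := f) w; omega
        have := h7 v (by omega)
        omega
      omega
    obtain ⟨N, hN, hfib, hG⟩ := IH v hvn hv4
    refine ⟨N + 1, by omega, ?_, ?_⟩
    · obtain ⟨i, rfl⟩ : ∃ i, N = i + 1 := ⟨N - 1, by omega⟩
      have h3 := mu_fib hf i
      have h4 : mu f (Nat.fib (i + 2)) ≤ mu f v := (mu_strictMono (f := f)).monotone hfib
      rw [show i + 1 + 1 + 1 = i + 3 by ring, ← h3]
      omega
    · rw [h1]
      exact table_step hf hv4 h2 hG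

theorem upper_ppl (hf : IsFibonacciWord f) {n : ℕ} (hn : 4 ≤ n) :
    ∃ N, 3 ≤ N ∧ Nat.fib (N + 1) ≤ n ∧ 3 * PPL f n ≤ N + 45 := by
  obtain ⟨N, h1, h2, e, -, -, h3⟩ := upper hf n hn
  obtain ⟨k, -, h4, h5⟩ := h3 4 0 (by omega) (by omega)
  refine ⟨N, h1, h2, ?_⟩
  have h6 := h5.ppl
  rw [show n - 4 + 4 = n by omega] at h6
  have h7 : tv e.2.1 (2 * 4 + 0) < 16 := Nat.mod_lt _ (by norm_num)
  omega

end Pool.Agent.V11266.FibPPL
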