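import Pool.Agent.V11266.FibD
set_option autoImplicit false

/-!
# Lower bound: how pairs of positions desubstitute
-/

namespace Pool.Agent.V11266.FibPPL

open Pool.Agent.H308R2.FibPal

variable {f : ℕ → Bool}

/-- the types of pairs of positions -/
def Rel (f : ℕ → Bool) : ℕ → ℕ → ℕ → Prop
  | 0, t, y => t < y ∧ Pal f t y ∧ f y = true
  | 1, t, y => t < y ∧ Pal f t y ∧ f y = false
  | 2, t, y => t + 1 < y ∧ Pal f t (y - 1) ∧ f y = false
  | 3, t, y => t + 1 < y ∧ Pal f t (y - 1) ∧ f y = true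
  | 4, t, y => y = t + 1 ∧ f y = false
  | 5, t, y => y = t + 1 ∧ f y = true
  | _, _, _ => False

/-- the letter at a position, from its representation -/
lemma letter (hf : IsFibonacciWord f) {v : ℕ} {z : Bool} (h : 1 ≤ mu f v + z.toNat) :
    (z = true ∧ f (mu f v + z.toNat) = true) ∨
    (z = false ∧ 1 ≤ v ∧ f v = true ∧ f (mu f v + z.toNat) = false) ∨
    (z = false ∧ 1 ≤ v ∧ f v = false ∧ f (mu f v + z.toNat) = true) := by
  cases z
  · right
    simp only [Bool.toNat_false, Nat.add_zero] at h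
    have hv : 1 ≤ v := by
      rcases Nat.eq_zero_or_pos v with rfl | hv
      · exact absurd h (by simp [mu])
      · exact hv
    cases h1 : f v
    · right
      refine ⟨rfl, hv, rfl, ?_⟩
      show f (mu f v) = true
      rw [f_mu hf hv, h1]; rfl
    · left
      refine ⟨rfl, hv, rfl, ?_⟩
      show f (mu f v) = false
      rw [f_mu hf hv, h1]; rfl
  · left
    exact ⟨rfl, f_one hf v⟩

lemma pred_true {v : ℕ} (hv : 1 ≤ v) (h : f v = true) : mu f v = mu f (v - 1) + 2 := by
  obtain ⟨u, rfl⟩ := Nat.exists_eq_add_of_le' hv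
  exact mu_succ_true h

lemma pred_false {v : ℕ} (hv : 1 ≤ v) (h : f v = false) : mu f v = mu f (v - 1) + 1 := by
  obtain ⟨u, rfl⟩ := Nat.exists_eq_add_of_le' hv
  exact mu_succ_false h

/-- first letter -/
lemma next_letter (hf : IsFibonacciWord f) {v : ℕ} {z : Bool} (hz : z = true → f (v + 1) = true) :
    f (mu f v + z.toNat + 1) = !z := by
  cases z
  · simpa using f_one hf v
  · exact f_two hf (hz rfl)

/-- a palindrome from `t` to `y = mu u + 1` -/
lemma peelA (hf : IsFibonacciWord f) {vt u : ℕ} {zt : Bool} (hzt : zt = true → f (vt + 1) = true)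
    (hlt : mu f vt + zt.toNat < mu f u + 1)
    (hp : Pal f (mu f vt + zt.toNat) (mu f u + 1)) :
    zt = false ∧ (vt = u ∨ (vt < u ∧ Pal f vt u)) := by
  have h1 := hp (mu f vt + zt.toNat + 1) (by omega) (by omega)
  rw [next_letter hf hzt, show mu f vt + zt.toNat + (mu f u + 1) + 1 - (mu f vt + zt.toNat + 1)
    = mu f u + 1 by omega, f_one hf u] at h1
  have hz : zt = false := by simpa using h1
  subst hz
  refine ⟨rfl, ?_⟩
  simp only [Bool.toNat_false, Nat.add_zero] at hlt hp
  have hle : vt ≤ u := by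
    by_contra hc
    have := mu_strictMono (f := f) (show u < vt by omega)
    omega
  rcases Nat.eq_or_lt_of_le hle with h | h
  · exact Or.inl h
  · exact Or.inr ⟨h, desubA hf hle hp⟩

/-- a palindrome from `t` to `y = mu u`, with `f u = true` -/
lemma peelB (hf : IsFibonacciWord f) {vt u : ℕ} {zt : Bool} (hzt : zt = true → f (vt + 1) = true)
    (hu : 1 ≤ u) (hfu : f u = true) (hlt : mu f vt + zt.toNat < mu f u)
    (hp : Pal f (mu f vt + zt.toNat) (mu f u)) :
    zt = true ∧ vt < u ∧ Pal f vt u := by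
  have h1 := hp (mu f vt + zt.toNat + 1) (by omega) (by omega)
  rw [next_letter hf hzt, show mu f vt + zt.toNat + (mu f u) + 1 - (mu f vt + zt.toNat + 1)
    = mu f u by omega, f_mu hf hu, hfu] at h1
  have hz : zt = true := by simpa using h1
  subst hz
  simp only [Bool.toNat_true] at hlt hp
  have hle : vt < u := by
    by_contra hc
    have := (mu_strictMono (f := f)).monotone (show u ≤ vt by omega)
    omega
  exact ⟨rfl, hle, desubB hf hle (hzt rfl) hfu hp⟩

section steps
variable {vt vy : ℕ} {zt zy : Bool}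

lemma step5 (hf : IsFibonacciWord f) (hzt : zt = true → f (vt + 1) = true)
    (hzy : zy = true → f (vy + 1) = true)
    (h : Rel f 5 (mu f vt + zt.toNat) (mu f vy + zy.toNat)) :
    (zt = false ∧ zy = true ∧ vt = vy) ∨ (zt = false ∧ zy = false ∧ Rel f 4 vt vy) := by
  obtain ⟨h1, h2⟩ := h
  rcases letter hf (v := vy) (z := zy) (by omega) with ⟨h3, -⟩ | ⟨-, -, -, h6⟩ | ⟨h3, h4, h5, -⟩
  · left
    subst h3
    have h7 : mu f vt + zt.toNat = mu f vy + (false).toNat := by simp at h1 ⊢; omega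
    have h8 := rep_unique h7 hzt (by simp)
    exact ⟨h8.2, rfl, h8.1⟩
  · rw [h2] at h6; exact absurd h6 (by simp)
  · right
    subst h3
    have h9 := pred_false h4 h5
    have h7 : mu f vt + zt.toNat = mu f (vy - 1) + (false).toNat := by simp at h1 ⊢; omega
    have h8 := rep_unique h7 hzt (by simp)
    exact ⟨h8.2, rfl, by rw [h8.1]; omega, h5⟩

lemma step4 (hf : IsFibonacciWord f) (hzt : zt = true → f (vt + 1) = true)
    (hzy : zy = true → f (vy + 1) = true)
    (h : Rel f 4 (mu f vt + zt.toNat) (mu f vy + zy.toNat)) :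
    zt = true ∧ zy = false ∧ Rel f 5 vt vy := by
  obtain ⟨h1, h2⟩ := h
  rcases letter hf (v := vy) (z := zy) (by omega) with ⟨-, h6⟩ | ⟨h3, h4, h5, -⟩ | ⟨-, -, -, h6⟩
  · rw [h2] at h6; exact absurd h6 (by simp)
  · subst h3
    have h9 := pred_true h4 h5
    have h7 : mu f vt + zt.toNat = mu f (vy - 1) + (true).toNat := by simp at h1 ⊢; omega
    have h8 := rep_unique h7 hzt (fun _ => by rw [show vy - 1 + 1 = vy by omega]; exact h5)
    exact ⟨h8.2, rfl, by rw [h8.1]; omega, h5⟩
  · rw [h2] at h6; exact absurd h6 (by simp)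

lemma step0 (hf : IsFibonacciWord f) (hzt : zt = true → f (vt + 1) = true)
    (hzy : zy = true → f (vy + 1) = true)
    (h : Rel f 0 (mu f vt + zt.toNat) (mu f vy + zy.toNat)) :
    (zt = false ∧ zy = true ∧ (vt = vy ∨ Rel f 0 vt vy ∨ Rel f 1 vt vy)) ∨
    (zt = false ∧ zy = false ∧ (Rel f 2 vt vy ∨ Rel f 4 vt vy)) := by
  obtain ⟨h1, h2, h3⟩ := h
  rcases letter hf (v := vy) (z := zy) (by omega) with ⟨h4, -⟩ | ⟨-, -, -, h6⟩ | ⟨h4, h5, h6, -⟩
  · left
    subst h4
    have h7 := peelA hf hzt (by simpa using h1) (by simpa using h2)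
    refine ⟨h7.1, rfl, ?_⟩
    rcases h7.2 with h8 | ⟨h8, h9⟩
    · exact Or.inl h8
    · cases h10 : f vy
      · exact Or.inr (Or.inr ⟨h8, h9, h10⟩)
      · exact Or.inr (Or.inl ⟨h8, h9, h10⟩)
  · rw [h3] at h6; exact absurd h6 (by simp)
  · right
    subst h4
    have h9 := pred_false h5 h6
    simp only [Bool.toNat_false, Nat.add_zero] at h1 h2 h3
    rw [h9] at h1 h2
    have h7 := peelA hf hzt h1 h2
    refine ⟨h7.1, rfl, ?_⟩
    rcases h7.2 with h8 | ⟨h8, h10⟩
    · exact Or.inr ⟨by omega, h6⟩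
    · exact Or.inl ⟨by omega, h10, h6⟩

lemma step1 (hf : IsFibonacciWord f) (hzt : zt = true → f (vt + 1) = true)
    (hzy : zy = true → f (vy + 1) = true)
    (h : Rel f 1 (mu f vt + zt.toNat) (mu f vy + zy.toNat)) :
    zt = true ∧ zy = false ∧ Rel f 0 vt vy := by
  obtain ⟨h1, h2, h3⟩ := h
  rcases letter hf (v := vy) (z := zy) (by omega) with ⟨-, h6⟩ | ⟨h4, h5, h6, -⟩ | ⟨-, -, -, h6⟩
  · rw [h3] at h6; exact absurd h6 (by simp)
  · subst h4
    have h7 := peelB hf hzt h5 h6 (by simpa using h1) (by simpa using h2)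
    exact ⟨h7.1, rfl, h7.2.1, h7.2.2, h6⟩
  · rw [h3] at h6; exact absurd h6 (by simp)

lemma step2 (hf : IsFibonacciWord f) (hzt : zt = true → f (vt + 1) = true)
    (hzy : zy = true → f (vy + 1) = true)
    (h : Rel f 2 (mu f vt + zt.toNat) (mu f vy + zy.toNat)) :
    zt = false ∧ zy = false ∧ (Rel f 3 vt vy ∨ Rel f 5 vt vy) := by
  obtain ⟨h1, h2, h3⟩ := h
  rcases letter hf (v := vy) (z := zy) (by omega) with ⟨-, h6⟩ | ⟨h4, h5, h6, -⟩ | ⟨-, -, -, h6⟩
  · rw [h3] at h6; exact absurd h6 (by simp)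
  · subst h4
    have h9 := pred_true h5 h6
    simp only [Bool.toNat_false, Nat.add_zero] at h1 h2 h3
    rw [h9] at h1 h2
    rw [show mu f (vy - 1) + 2 - 1 = mu f (vy - 1) + 1 by omega] at h2
    have h7 := peelA hf hzt (by omega) h2
    refine ⟨h7.1, rfl, ?_⟩
    rcases h7.2 with h8 | ⟨h8, h10⟩
    · exact Or.inr ⟨by omega, h6⟩
    · exact Or.inl ⟨by omega, h10, h6⟩
  · rw [h3] at h6; exact absurd h6 (by simp)

lemma step3 (hf : IsFibonacciWord f) (hzt : zt = true → f (vt + 1) = true)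
    (hzy : zy = true → f (vy + 1) = true)
    (h : Rel f 3 (mu f vt + zt.toNat) (mu f vy + zy.toNat)) :
    (zt = true ∧ zy = true ∧ Rel f 0 vt vy) ∨ (zt = true ∧ zy = false ∧ Rel f 2 vt vy) ∨
    (zt = false ∧ zy = true ∧ (Rel f 2 vt vy ∨ Rel f 4 vt vy)) := by
  obtain ⟨h1, h2, h3⟩ := h
  rcases letter hf (v := vy) (z := zy) (by omega) with ⟨h4, -⟩ | ⟨-, -, -, h6⟩ | ⟨h4, h5, h6, -⟩
  · subst h4
    simp only [Bool.toNat_true] at h1 h2 h3
    rw [show mu f vy + 1 - 1 = mu f vy by omega] at h2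
    have hvy : 1 ≤ vy := by
      rcases Nat.eq_zero_or_pos vy with rfl | hv
      · simp [mu] at h1
      · exact hv
    cases h7 : f vy
    · have h9 := pred_false hvy h7
      rw [h9] at h1 h2
      have h8 := peelA hf hzt (by omega) h2
      right; right
      refine ⟨h8.1, rfl, ?_⟩
      rcases h8.2 with h10 | ⟨h10, h11⟩
      · exact Or.inr ⟨by omega, h7⟩
      · exact Or.inl ⟨by omega, h11, h7⟩
    · have h8 := peelB hf hzt hvy h7 (by omega) h2
      left
      exact ⟨h8.1, rfl, h8.2.1, h8.2.2, h7⟩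
  · rw [h3] at h6; exact absurd h6 (by simp)
  · subst h4
    have h9 := pred_false h5 h6
    simp only [Bool.toNat_false, Nat.add_zero] at h1 h2 h3
    rw [h9] at h1 h2
    rw [show mu f (vy - 1) + 1 - 1 = mu f (vy - 1) by omega] at h2
    have hu : 1 ≤ vy - 1 := by
      rcases Nat.eq_zero_or_pos (vy - 1) with h0 | hv
      · rw [h0] at h1; simp [mu] at h1
      · exact hv
    have hfu : f (vy - 1) = true := by
      by_contra hc
      have hc' : f (vy - 1) = false := by simpa using hc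
      have := no_bb hf hc' hu
      rw [show vy - 1 + 1 = vy by omega, h6] at this
      exact absurd this (by simp)
    have h8 := peelB hf hzt hu hfu (by omega) h2
    right; left
    exact ⟨h8.1, rfl, by omega, h8.2.2, h6⟩

end steps

end Pool.Agent.V11266.FibPPL
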