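import Mathlib

/-!
The tree of cylinders: a combinatorial separation lemma for spaces with countable supports.
-/

namespace Pool.Agent.V11266.Fill

open Set Filter

section tree
variable {S A Y : Type*}

theorem tree_lemma (f : A → S → Y) (sp : S → Set A) (H K : Set S)
    (hcH : ∀ s ∈ H, (sp s).Countable) (hcK : ∀ s ∈ K, (sp s).Countable)
    (hlim : ∀ (h k : ℕ → S) (E : Set A) (g : A → Y), E.Countable →
      (∀ n, h n ∈ H) → (∀ n, k n ∈ K) → (∀ n, sp (h n) ⊆ E) → (∀ n, sp (k n) ⊆ E) →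
      (∀ i ∈ E, ∀ᶠ n in atTop, f i (h n) = g i) →
      (∀ i ∈ E, ∀ᶠ n in atTop, f i (k n) = g i) → False) :
    ∃ V : Set S, (∀ w, ∃ E : Finset A, ∀ w', (∀ i ∈ E, f i w' = f i w) → (w' ∈ V ↔ w ∈ V)) ∧
      H ⊆ V ∧ ∀ w ∈ K, w ∉ V := by
  classical
  -- enumerations of supports
  have hen : ∀ s : S, ∃ a : ℕ → Finset A, (sp s).Countable → ∀ i ∈ sp s, ∃ n, i ∈ a n := by
    intro s
    by_cases hs : (sp s).Countable
    · rcases (sp s).eq_empty_or_nonempty with h0 | h0
      · exact ⟨fun _ => ∅, fun _ i hi => by rw [h0] at hi; exact hi.elim⟩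
      · obtain ⟨r, hr⟩ := hs.exists_eq_range h0
        refine ⟨fun n => {r n}, fun _ i hi => ?_⟩
        rw [hr] at hi
        obtain ⟨n, hn⟩ := hi
        exact ⟨n, by simp [hn]⟩
    · exact ⟨fun _ => ∅, fun h => absurd h hs⟩
  choose a ha using hen
  by_cases hS : Nonempty S
  swap
  · exact ⟨∅, fun w => absurd ⟨w⟩ hS, fun w => absurd ⟨w⟩ hS, fun w => absurd ⟨w⟩ hS⟩
  -- cylinders
  let Cyl : Finset A → S → Set S := fun E w => {w' | ∀ i ∈ E, f i w' = f i w}
  let chH : Set S → S := fun C => Classical.epsilon (fun x => x ∈ H ∧ x ∈ C)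
  let chK : Set S → S := fun C => Classical.epsilon (fun x => x ∈ K ∧ x ∈ C)
  let st : S → ℕ → Finset A × Finset S := fun w n => Nat.rec (∅, ∅) (fun n s =>
    (s.1 ∪ (insert (chH (Cyl s.1 w)) (insert (chK (Cyl s.1 w)) s.2)).biUnion
      (fun x => (Finset.range (n + 1)).biUnion (a x)),
      insert (chH (Cyl s.1 w)) (insert (chK (Cyl s.1 w)) s.2))) n
  let Ee : S → ℕ → Finset A := fun w n => (st w n).1
  have hst : ∀ w n, st w (n + 1) = ((st w n).1 ∪ (insert (chH (Cyl (st w n).1 w))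
      (insert (chK (Cyl (st w n).1 w)) (st w n).2)).biUnion
      (fun x => (Finset.range (n + 1)).biUnion (a x)),
      insert (chH (Cyl (st w n).1 w)) (insert (chK (Cyl (st w n).1 w)) (st w n).2)) :=
    fun w n => rfl
  have hEmono : ∀ w n, Ee w n ⊆ Ee w (n + 1) := by
    intro w n
    show (st w n).1 ⊆ (st w (n + 1)).1
    rw [hst]
    exact Finset.subset_union_left
  have hEmono' : ∀ w n m, n ≤ m → Ee w n ⊆ Ee w m := by
    intro w n m hnm
    induction m, hnm using Nat.le_induction with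
    | base => exact Finset.Subset.refl _
    | succ m _ ih => exact ih.trans (hEmono w m)
  have hLmono : ∀ w n m, n ≤ m → (st w n).2 ⊆ (st w m).2 := by
    intro w n m hnm
    induction m, hnm using Nat.le_induction with
    | base => exact Finset.Subset.refl _
    | succ m _ ih =>
      refine ih.trans ?_
      rw [hst]
      exact (Finset.subset_insert _ _).trans (Finset.subset_insert _ _)
  -- stability
  have hcyl : ∀ (E : Finset A) (w w' : S), w' ∈ Cyl E w → Cyl E w' = Cyl E w := by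
    intro E w w' h
    ext x
    constructor
    · intro hx i hi
      rw [hx i hi, h i hi]
    · intro hx i hi
      rw [hx i hi, h i hi]
  have hstab : ∀ n w w', w' ∈ Cyl (Ee w n) w → st w' n = st w n := by
    intro n
    induction n with
    | zero => intro w w' _; rfl
    | succ n ih =>
      intro w w' h
      have h1 : w' ∈ Cyl (Ee w n) w := fun i hi => h i (hEmono w n hi)
      have h2 := ih w w' h1
      rw [hst, hst, h2]
      rw [show Cyl (st w n).1 w' = Cyl (st w n).1 w from hcyl _ _ _ h1]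
  have hstabC : ∀ n w w', w' ∈ Cyl (Ee w n) w → ∀ m ≤ n, Cyl (Ee w' m) w' = Cyl (Ee w m) w := by
    intro n w w' h m hm
    have h1 : w' ∈ Cyl (Ee w m) w := fun i hi => h i (hEmono' w m n hm hi)
    have h2 := hstab m w w' h1
    show Cyl (st w' m).1 w' = _
    rw [h2]
    exact hcyl _ _ _ h1
  -- every branch terminates
  have hterm : ∀ w, ∃ n, ¬ ((H ∩ Cyl (Ee w n) w).Nonempty ∧ (K ∩ Cyl (Ee w n) w).Nonempty) := by
    intro w
    by_contra hcon
    push Not at hcon
    have hh : ∀ n, chH (Cyl (Ee w n) w) ∈ H ∧ chH (Cyl (Ee w n) w) ∈ Cyl (Ee w n) w := by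
      intro n
      obtain ⟨x, hx⟩ := (hcon n).1
      exact Classical.epsilon_spec (p := fun x => x ∈ H ∧ x ∈ Cyl (Ee w n) w) ⟨x, hx⟩
    have hk : ∀ n, chK (Cyl (Ee w n) w) ∈ K ∧ chK (Cyl (Ee w n) w) ∈ Cyl (Ee w n) w := by
      intro n
      obtain ⟨x, hx⟩ := (hcon n).2
      exact Classical.epsilon_spec (p := fun x => x ∈ K ∧ x ∈ Cyl (Ee w n) w) ⟨x, hx⟩
    have hin : ∀ j n, j ≤ n → ∀ x ∈ (st w (j + 1)).2, ∀ r ≤ n, a x r ⊆ Ee w (n + 1) := by
      intro j n hjn x hx r hr
      show a x r ⊆ (st w (n + 1)).1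
      have hx2 : x ∈ (st w (n + 1)).2 := hLmono w (j + 1) (n + 1) (by omega) hx
      rw [hst] at hx2
      rw [hst]
      intro i hi
      refine Finset.mem_union_right _ (Finset.mem_biUnion.2 ⟨x, hx2, ?_⟩)
      exact Finset.mem_biUnion.2 ⟨r, Finset.mem_range.2 (by omega), hi⟩
    refine hlim (fun n => chH (Cyl (Ee w n) w)) (fun n => chK (Cyl (Ee w n) w))
      (⋃ n, (Ee w n : Set A)) (fun i => f i w)
      (countable_iUnion fun n => (Ee w n).countable_toSet)
      (fun n => (hh n).1) (fun n => (hk n).1) ?_ ?_ ?_ ?_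
    · intro n i hi
      obtain ⟨r, hr⟩ := ha _ (hcH _ (hh n).1) i hi
      refine mem_iUnion.2 ⟨max n r + 1, ?_⟩
      refine hin n (max n r) (le_max_left _ _) _ ?_ r (le_max_right _ _) hr
      rw [hst]
      exact Finset.mem_insert_self _ _
    · intro n i hi
      obtain ⟨r, hr⟩ := ha _ (hcK _ (hk n).1) i hi
      refine mem_iUnion.2 ⟨max n r + 1, ?_⟩
      refine hin n (max n r) (le_max_left _ _) _ ?_ r (le_max_right _ _) hr
      rw [hst]
      exact Finset.mem_insert_of_mem (Finset.mem_insert_self _ _)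
    · intro i hi
      obtain ⟨m, hm⟩ := mem_iUnion.1 hi
      filter_upwards [eventually_ge_atTop m] with n hn
      exact (hh n).2 i (hEmono' w m n hn hm)
    · intro i hi
      obtain ⟨m, hm⟩ := mem_iUnion.1 hi
      filter_upwards [eventually_ge_atTop m] with n hn
      exact (hk n).2 i (hEmono' w m n hn hm)
  -- the separating set
  let N : S → ℕ := fun w => Nat.find (hterm w)
  have hNstab : ∀ w w', w' ∈ Cyl (Ee w (N w)) w → N w' = N w := by
    intro w w' h
    have h1 := hstabC (N w) w w' h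
    rw [show N w' = Nat.find (hterm w') from rfl, Nat.find_eq_iff]
    constructor
    · rw [h1 _ le_rfl]
      exact Nat.find_spec (hterm w)
    · intro n hn
      rw [h1 n hn.le]
      exact Nat.find_min (hterm w) hn
  refine ⟨{w | ¬ (K ∩ Cyl (Ee w (N w)) w).Nonempty}, fun w => ⟨Ee w (N w), fun w' hw' => ?_⟩,
    fun w hw => ?_, fun w hw => ?_⟩
  · have h1 := hstabC (N w) w w' hw' (N w) le_rfl
    show ¬ _ ↔ ¬ _
    rw [hNstab w w' hw', h1]
  · show ¬ _
    intro hK
    exact Nat.find_spec (hterm w) ⟨⟨w, hw, fun i _ => rfl⟩, hK⟩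
  · show ¬ ¬ _
    rw [not_not]
    exact ⟨w, hw, fun i _ => rfl⟩

end tree

end Pool.Agent.V11266.Fill
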