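import Pool.Agent.V11266.FillSpaces
import Pool.Agent.V11266.FillTree

/-!
The normal subspace filling all countable subproducts, with a factor that is not normal.
-/

namespace Pool.Agent.V11266.Fill

open Set Topology Filter

/-- The points `(x, w)` with `w i = c x` for all but countably many `i`. -/
def DD {T Y : Type} (I : Type) (c : T → Y) : Set (T × (I → Y)) :=
  {z | {i | z.2 i ≠ c z.1}.Countable}

/-- the code of a point of `TS I L` -/
def code {I L : Type} : TS I L → Option L
  | TS.p l => some l
  | TS.q _ => none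
  | TS.m _ _ => none

instance optTop (L : Type) : TopologicalSpace (Option L) := ⊥
instance optDisc (L : Type) : DiscreteTopology (Option L) := ⟨rfl⟩

section B
variable {I L : Type}

/-- points of a column -/
def pt (b : Finset I) : Option L → TS I L
  | none => TS.q b
  | some l => TS.m b l

theorem code_pt (b : Finset I) (o : Option L) : code (pt b o) = none := by
  cases o <;> rfl

theorem rowsep (H K : Set (DD I (code (I := I) (L := L)))) (hH : IsClosed H) (hK : IsClosed K)
    (hHK : Disjoint H K) (l : L) :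
    ∃ V : Set (I → Option L), (∀ w, ∃ E : Finset I, ∀ w', (∀ i ∈ E, w' i = w i) →
      (w' ∈ V ↔ w ∈ V)) ∧ (∀ d ∈ H, d.1.1 = TS.p l → d.1.2 ∈ V) ∧
      (∀ d ∈ K, d.1.1 = TS.p l → d.1.2 ∉ V) := by
  classical
  have hlimit : ∀ F : Set (DD I (code (I := I) (L := L))), IsClosed F →
      ∀ (h : ℕ → (I → Option L)) (hm : ∀ n, ((TS.p l, h n) : TS I L × (I → Option L)) ∈
        DD I (code (I := I) (L := L))) (hF : ∀ n, ⟨(TS.p l, h n), hm n⟩ ∈ F)
        (E : Set I) (g : I → Option L) (z : I → Option L)
        (hz : ((TS.p l, z) : TS I L × (I → Option L)) ∈ DD I (code (I := I) (L := L)))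
        (hzE : z = fun i => if i ∈ E then g i else some l),
        (∀ n, {i | h n i ≠ some l} ⊆ E) → (∀ i ∈ E, ∀ᶠ n in atTop, h n i = g i) →
        (⟨(TS.p l, z), hz⟩ : DD I (code (I := I) (L := L))) ∈ F := by
    intro F hF h hm hhF E g z hz hzE hsp hev
    refine hF.mem_of_tendsto (f := fun n => (⟨(TS.p l, h n), hm n⟩ :
      DD I (code (I := I) (L := L)))) (b := atTop) ?_ (Eventually.of_forall hhF)
    intro O hO
    rw [mem_nhds_sub_iff] at hO
    obtain ⟨U, hU, E', hUE⟩ := hO
    have h1 : ∀ᶠ n in atTop, ∀ i ∈ E', h n i = z i := by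
      rw [eventually_all_finset]
      intro i _
      by_cases hi : i ∈ E
      · filter_upwards [hev i hi] with n hn
        rw [hn, hzE]
        simp [hi]
      · refine Eventually.of_forall fun n => ?_
        have : h n i = some l := by
          by_contra hne
          exact hi (hsp n hne)
        rw [this, hzE]
        simp [hi]
    rw [Filter.mem_map]
    filter_upwards [h1] with n hn
    exact hUE _ (mem_of_mem_nhds hU) hn
  obtain ⟨V, hV1, hV2, hV3⟩ := tree_lemma (S := I → Option L) (A := I) (Y := Option L)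
    (fun i w => w i) (fun w => {i | w i ≠ some l})
    {w | ∃ h : ((TS.p l, w) : TS I L × (I → Option L)) ∈ DD I (code (I := I) (L := L)),
      ⟨(TS.p l, w), h⟩ ∈ H}
    {w | ∃ h : ((TS.p l, w) : TS I L × (I → Option L)) ∈ DD I (code (I := I) (L := L)),
      ⟨(TS.p l, w), h⟩ ∈ K}
    (fun s hs => hs.1) (fun s hs => hs.1) (by
      intro h k E g hE hh hk hhE hkE hhg hkg
      have hz : ((TS.p l, fun i => if i ∈ E then g i else some l) : TS I L × (I → Option L)) ∈
          DD I (code (I := I) (L := L)) := by
        refine hE.mono ?_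
        intro i hi
        by_contra hiE
        apply hi
        simp [hiE, code]
      have h1 := hlimit H hH h (fun n => (hh n).1) (fun n => (hh n).2) E g _ hz rfl hhE hhg
      have h2 := hlimit K hK k (fun n => (hk n).1) (fun n => (hk n).2) E g _ hz rfl hkE hkg
      exact Set.disjoint_left.1 hHK h1 h2)
  refine ⟨V, hV1, ?_, ?_⟩
  · rintro ⟨⟨x, w⟩, hd⟩ hdH hx
    simp only at hx
    subst hx
    exact hV2 ⟨hd, hdH⟩
  · rintro ⟨⟨x, w⟩, hd⟩ hdK hx
    simp only at hx
    subst hx
    exact hV3 w ⟨hd, hdK⟩

theorem colsep (H K : Set (DD I (code (I := I) (L := L)))) (hH : IsClosed H) (hK : IsClosed K)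
    (hHK : Disjoint H K) (b : Finset I) :
    ∃ V : Set (Option L × (I → Option L)),
      (∀ l w, ∃ E : Finset I, ∀ w', (∀ i ∈ E, w' i = w i) →
        ((some l, w') ∈ V ↔ (some l, w) ∈ V)) ∧
      (∀ w, ∃ (E : Finset I) (F : Finset L), ∀ w', (∀ i ∈ E, w' i = w i) →
        (((none, w') ∈ V ↔ (none, w) ∈ V) ∧ ∀ l ∉ F, ((some l, w') ∈ V ↔ (none, w) ∈ V))) ∧
      (∀ d ∈ H, ∀ o, d.1.1 = pt b o → (o, d.1.2) ∈ V) ∧
      (∀ d ∈ K, ∀ o, d.1.1 = pt b o → (o, d.1.2) ∉ V) := by
  classical
  let f : L ⊕ I → (Option L × (I → Option L)) → Option L := fun a s =>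
    match a with
    | Sum.inl l => if s.1 = some l then some l else none
    | Sum.inr i => s.2 i
  have hmem : ∀ s : Option L × (I → Option L), {i | s.2 i ≠ none}.Countable →
      ((pt b s.1, s.2) : TS I L × (I → Option L)) ∈ DD I (code (I := I) (L := L)) := by
    intro s hs
    show {i | s.2 i ≠ code (pt b s.1)}.Countable
    rw [code_pt]
    exact hs
  have hlimit : ∀ F : Set (DD I (code (I := I) (L := L))), IsClosed F →
      ∀ (h : ℕ → (Option L × (I → Option L)))
        (hm : ∀ n, ((pt b (h n).1, (h n).2) : TS I L × (I → Option L)) ∈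
        DD I (code (I := I) (L := L))) (hF : ∀ n, ⟨(pt b (h n).1, (h n).2), hm n⟩ ∈ F)
        (E : Set (L ⊕ I)) (g : L ⊕ I → Option L) (z : Option L × (I → Option L))
        (hz : ((pt b z.1, z.2) : TS I L × (I → Option L)) ∈ DD I (code (I := I) (L := L)))
        (hz2 : z.2 = fun i => if Sum.inr i ∈ E then g (Sum.inr i) else none)
        (hz1 : z.1 = if hl : ∃ l, Sum.inl l ∈ E ∧ g (Sum.inl l) = some l then
          some (Classical.choose hl) else none),
        (∀ n, {a | f a (h n) ≠ none} ⊆ E) → (∀ i ∈ E, ∀ᶠ n in atTop, f i (h n) = g i) →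
        (⟨(pt b z.1, z.2), hz⟩ : DD I (code (I := I) (L := L))) ∈ F := by
    intro F hF h hm hhF E g z hz hz2 hz1 hsp hev
    refine hF.mem_of_tendsto (f := fun n => (⟨(pt b (h n).1, (h n).2), hm n⟩ :
      DD I (code (I := I) (L := L)))) (b := atTop) ?_ (Eventually.of_forall hhF)
    intro O hO
    rw [mem_nhds_sub_iff] at hO
    obtain ⟨U, hU, E', hUE⟩ := hO
    have h1 : ∀ᶠ n in atTop, ∀ i ∈ E', (h n).2 i = z.2 i := by
      rw [eventually_all_finset]
      intro i _
      by_cases hi : Sum.inr i ∈ E
      · filter_upwards [hev _ hi] with n hn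
        have : (h n).2 i = g (Sum.inr i) := hn
        rw [this, hz2]
        simp [hi]
      · refine Eventually.of_forall fun n => ?_
        have : (h n).2 i = none := by
          by_contra hne
          exact hi (hsp n (show f (Sum.inr i) (h n) ≠ none from hne))
        rw [this, hz2]
        simp [hi]
    have h2 : ∀ᶠ n in atTop, pt b (h n).1 ∈ U := by
      by_cases hl : ∃ l, Sum.inl l ∈ E ∧ g (Sum.inl l) = some l
      · have hl' := Classical.choose_spec hl
        rw [dif_pos hl] at hz1
        filter_upwards [hev _ hl'.1] with n hn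
        have h3 : f (Sum.inl (Classical.choose hl)) (h n) = some (Classical.choose hl) := by
          rw [hn, hl'.2]
        have h4 : (h n).1 = some (Classical.choose hl) := by
          by_contra hne
          simp only [f, if_neg hne] at h3
          exact absurd h3 (by simp)
        rw [h4, ← hz1]
        exact mem_of_mem_nhds hU
      · rw [dif_neg hl] at hz1
        have hU' : U ∈ 𝓝 (TS.q b : TS I L) := by
          have : pt b z.1 = (TS.q b : TS I L) := by rw [hz1]; rfl
          rw [← this]
          exact hU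
        rw [TS.nhds_q] at hU'
        obtain ⟨hq, hfin⟩ := hU'
        have hfin' : {l : L | TS.m b l ∉ U}.Finite := by simpa using hfin
        have h3 : ∀ᶠ n in atTop, ∀ l ∈ hfin'.toFinset, (h n).1 ≠ some l := by
          rw [eventually_all_finset]
          intro l _
          by_cases hlE : Sum.inl l ∈ E
          · filter_upwards [hev _ hlE] with n hn h5
            have h6 : f (Sum.inl l) (h n) = some l := by simp [f, h5]
            rw [hn] at h6
            exact hl ⟨l, hlE, h6⟩
          · refine Eventually.of_forall fun n h5 => ?_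
            have h6 : f (Sum.inl l) (h n) = some l := by simp [f, h5]
            exact hlE (hsp n (show f (Sum.inl l) (h n) ≠ none by rw [h6]; simp))
        filter_upwards [h3] with n hn
        rcases ho : (h n).1 with _ | l
        · exact hq
        · by_contra hc
          exact hn l (hfin'.mem_toFinset.2 hc) ho
    rw [Filter.mem_map]
    filter_upwards [h1, h2] with n hn hn2
    exact hUE _ hn2 hn
  have hcount : ∀ s : Option L × (I → Option L),
      ((pt b s.1, s.2) : TS I L × (I → Option L)) ∈ DD I (code (I := I) (L := L)) →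
      {a | f a s ≠ none}.Countable := by
    intro s hs
    have h1 : {i | s.2 i ≠ none}.Countable := by
      have : {i | s.2 i ≠ code (pt b s.1)}.Countable := hs
      rw [code_pt] at this
      exact this
    have h2 : {l | s.1 = some l}.Countable := by
      refine Set.Subsingleton.countable ?_
      intro l hl l' hl'
      have : some l = some l' := hl.symm.trans hl'
      simpa using this
    refine ((h2.image Sum.inl).union (h1.image Sum.inr)).mono ?_
    rintro (l | i) ha
    · refine Or.inl ⟨l, ?_, rfl⟩
      by_contra hne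
      exact ha (by simp only [f]; exact if_neg hne)
    · exact Or.inr ⟨i, ha, rfl⟩
  obtain ⟨V, hV1, hV2, hV3⟩ := tree_lemma (S := Option L × (I → Option L)) (A := L ⊕ I)
    (Y := Option L) f (fun s => {a | f a s ≠ none})
    {s | ∃ h : ((pt b s.1, s.2) : TS I L × (I → Option L)) ∈ DD I (code (I := I) (L := L)),
      ⟨(pt b s.1, s.2), h⟩ ∈ H}
    {s | ∃ h : ((pt b s.1, s.2) : TS I L × (I → Option L)) ∈ DD I (code (I := I) (L := L)),
      ⟨(pt b s.1, s.2), h⟩ ∈ K}
    (fun s hs => hcount s hs.1) (fun s hs => hcount s hs.1) (by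
      intro h k E g hE hh hk hhE hkE hhg hkg
      let z : Option L × (I → Option L) :=
        (if hl : ∃ l, Sum.inl l ∈ E ∧ g (Sum.inl l) = some l then
          some (Classical.choose hl) else none,
          fun i => if Sum.inr i ∈ E then g (Sum.inr i) else none)
      have hz : ((pt b z.1, z.2) : TS I L × (I → Option L)) ∈ DD I (code (I := I) (L := L)) := by
        refine hmem z ?_
        refine (hE.preimage (Sum.inr_injective (α := L) (β := I))).mono ?_
        intro i hi
        by_contra hiE
        apply hi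
        show (if Sum.inr i ∈ E then g (Sum.inr i) else none) = none
        exact if_neg hiE
      have h1 := hlimit H hH h (fun n => (hh n).1) (fun n => (hh n).2) E g z hz rfl rfl hhE hhg
      have h2 := hlimit K hK k (fun n => (hk n).1) (fun n => (hk n).2) E g z hz rfl rfl hkE hkg
      exact Set.disjoint_left.1 hHK h1 h2)
  refine ⟨V, ?_, ?_, ?_, ?_⟩
  · intro l w
    obtain ⟨E, hE⟩ := hV1 (some l, w)
    refine ⟨E.preimage Sum.inr (Sum.inr_injective.injOn), fun w' hw' => hE (some l, w') ?_⟩
    rintro (l' | i) ha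
    · rfl
    · exact hw' i (by simpa using ha)
  · intro w
    obtain ⟨E, hE⟩ := hV1 (none, w)
    refine ⟨E.preimage Sum.inr (Sum.inr_injective.injOn),
      E.preimage Sum.inl (Sum.inl_injective.injOn), fun w' hw' => ⟨hE (none, w') ?_,
        fun l hl => hE (some l, w') ?_⟩⟩
    · rintro (l' | i) ha
      · rfl
      · exact hw' i (by simpa using ha)
    · rintro (l' | i) ha
      · have hne : l ≠ l' := by
          rintro rfl
          exact hl (by simpa using ha)
        simp [f, hne]
      · exact hw' i (by simpa using ha)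
  · rintro ⟨⟨x, w⟩, hd⟩ hdH o hx
    simp only at hx
    subst hx
    exact hV2 ⟨hd, hdH⟩
  · rintro ⟨⟨x, w⟩, hd⟩ hdK o hx
    simp only at hx
    subst hx
    exact hV3 (o, w) ⟨hd, hdK⟩

theorem DD_normal [Uncountable I] (H K : Set (DD I (code (I := I) (L := L))))
    (hH : IsClosed H) (hK : IsClosed K) (hHK : Disjoint H K) :
    ∃ W : Set (DD I (code (I := I) (L := L))), IsOpen W ∧ IsOpen Wᶜ ∧ H ⊆ W ∧ K ⊆ Wᶜ := by
  classical
  choose V hV1 hV2 hV3 using rowsep H K hH hK hHK
  choose C hC1 hC2 hC3 hC4 using colsep H K hH hK hHK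
  let cut : L → Finset I → (I → Option L) → (I → Option L) :=
    fun l b w i => if i ∈ b then w i else some l
  let bad : L → Finset I → (DD I (code (I := I) (L := L))) → Prop := fun l b d =>
    (d ∈ H ∧ cut l b d.1.2 ∉ V l) ∨ (d ∈ K ∧ cut l b d.1.2 ∈ V l)
  let Row : L → Finset I → (I → Option L) → Prop := fun l b w => ∃ δ ∈ b, w δ = some l
  let Vs : L → Finset I → (I → Option L) → Prop := fun l b w => ∃ E : Finset I, E ⊆ b ∧
    ∀ (d' : DD I (code (I := I) (L := L))) (b' : Finset I), E ⊆ b' → d'.1.1 = TS.m b' l →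
      (∀ i ∈ E, d'.1.2 i = w i) → ¬ bad l b' d'
  let Φ : TS I L → (I → Option L) → Prop := fun x w =>
    match x with
    | TS.p l => w ∈ V l
    | TS.q b => (none, w) ∈ C b
    | TS.m b l => if Row l b w ∧ Vs l b w then cut l b w ∈ V l else (some l, w) ∈ C b
  -- local constancy
  have hloc : ∀ d : DD I (code (I := I) (L := L)),
      {d' : DD I (code (I := I) (L := L)) | (Φ d'.1.1 d'.1.2 ↔ Φ d.1.1 d.1.2)} ∈ 𝓝 d := by
    rintro ⟨⟨x, w⟩, hd⟩
    rw [mem_nhds_sub_iff]
    cases x with
    | p l =>
      -- find δ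
      have hd' : {i | w i ≠ some l}.Countable := hd
      obtain ⟨δ, hδ⟩ : ∃ δ, w δ = some l := by
        by_contra hcon
        push Not at hcon
        have : {i | w i ≠ some l} = univ := by
          ext i; simpa using hcon i
        rw [this] at hd'
        exact not_countable (α := I) (countable_univ_iff.1 hd')
      obtain ⟨E1, hE1⟩ := hV1 l w
      -- a neighbourhood free of bad points
      obtain ⟨E2, hE2⟩ : ∃ E2 : Finset I, ∀ (d' : DD I (code (I := I) (L := L)))
          (b' : Finset I), E1 ∪ E2 ⊆ b' → d'.1.1 = TS.m b' l →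
          (∀ i ∈ E1 ∪ E2, d'.1.2 i = w i) → ¬ bad l b' d' := by
        by_cases hwV : w ∈ V l
        · have hnK : (⟨(TS.p l, w), hd⟩ : DD I (code (I := I) (L := L))) ∈ Kᶜ :=
            fun hk => hV3 l _ hk rfl hwV
          have := hK.isOpen_compl.mem_nhds hnK
          rw [mem_nhds_sub_iff] at this
          obtain ⟨U, hU, E, hUE⟩ := this
          obtain ⟨_, hU2⟩ := (TS.nhds_p l U).1 hU
          obtain ⟨b0, hb0⟩ := eventually_atTop.1 hU2
          refine ⟨E ∪ b0, fun d' b' hb' hx hw' => ?_⟩
          have hcut : cut l b' d'.1.2 ∈ V l := by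
            rw [hE1]
            · exact hwV
            · intro i hi
              have hib : i ∈ b' := hb' (Finset.mem_union_left _ hi)
              show (if i ∈ b' then d'.1.2 i else some l) = w i
              rw [if_pos hib]
              exact hw' i (Finset.mem_union_left _ hi)
          rintro (⟨_, h2⟩ | ⟨h1, _⟩)
          · exact h2 hcut
          · refine hUE d' ?_ ?_ h1
            · rw [hx]
              exact hb0 b' (fun i hi => hb' (Finset.mem_union_right _
                (Finset.mem_union_right _ hi)))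
            · intro i hi
              exact hw' i (Finset.mem_union_right _ (Finset.mem_union_left _ hi))
        · have hnH : (⟨(TS.p l, w), hd⟩ : DD I (code (I := I) (L := L))) ∈ Hᶜ :=
            fun hk => hwV (hV2 l _ hk rfl)
          have := hH.isOpen_compl.mem_nhds hnH
          rw [mem_nhds_sub_iff] at this
          obtain ⟨U, hU, E, hUE⟩ := this
          obtain ⟨_, hU2⟩ := (TS.nhds_p l U).1 hU
          obtain ⟨b0, hb0⟩ := eventually_atTop.1 hU2
          refine ⟨E ∪ b0, fun d' b' hb' hx hw' => ?_⟩
          have hcut : cut l b' d'.1.2 ∉ V l := by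
            rw [hE1]
            · exact hwV
            · intro i hi
              have hib : i ∈ b' := hb' (Finset.mem_union_left _ hi)
              show (if i ∈ b' then d'.1.2 i else some l) = w i
              rw [if_pos hib]
              exact hw' i (Finset.mem_union_left _ hi)
          rintro (⟨h1, _⟩ | ⟨_, h2⟩)
          · refine hUE d' ?_ ?_ h1
            · rw [hx]
              exact hb0 b' (fun i hi => hb' (Finset.mem_union_right _
                (Finset.mem_union_right _ hi)))
            · intro i hi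
              exact hw' i (Finset.mem_union_right _ (Finset.mem_union_left _ hi))
          · exact hcut h2
      refine ⟨{x | x = TS.p l ∨ ∃ b, insert δ (E1 ∪ E2) ⊆ b ∧ x = TS.m b l}, ?_,
        insert δ (E1 ∪ E2), ?_⟩
      · rw [TS.nhds_p]
        refine ⟨Or.inl rfl, ?_⟩
        filter_upwards [eventually_ge_atTop (insert δ (E1 ∪ E2))] with b hb
        exact Or.inr ⟨b, hb, rfl⟩
      · rintro ⟨⟨x', w'⟩, hd'⟩ hx' hw'
        simp only at hx' hw'
        rcases hx' with hx' | ⟨b, hb, hx'⟩
        · subst hx'
          show w' ∈ V l ↔ w ∈ V l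
          exact hE1 w' (fun i hi => hw' i (Finset.mem_insert_of_mem
            (Finset.mem_union_left _ hi)))
        · subst hx'
          have hrow : Row l b w' := ⟨δ, hb (Finset.mem_insert_self _ _), by
            rw [hw' δ (Finset.mem_insert_self _ _)]; exact hδ⟩
          have hvs : Vs l b w' := by
            refine ⟨E1 ∪ E2, fun i hi => hb (Finset.mem_insert_of_mem hi), ?_⟩
            intro d'' b'' hb'' hx'' hw''
            refine hE2 d'' b'' hb'' hx'' fun i hi => ?_
            rw [hw'' i hi]
            exact hw' i (Finset.mem_insert_of_mem hi)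
          show (if Row l b w' ∧ Vs l b w' then cut l b w' ∈ V l else (some l, w') ∈ C b) ↔ w ∈ V l
          rw [if_pos ⟨hrow, hvs⟩]
          refine hE1 _ fun i hi => ?_
          have hib : i ∈ b := hb (Finset.mem_insert_of_mem (Finset.mem_union_left _ hi))
          show (if i ∈ b then w' i else some l) = w i
          rw [if_pos hib]
          exact hw' i (Finset.mem_insert_of_mem (Finset.mem_union_left _ hi))
    | q b =>
      obtain ⟨E, F, hEF⟩ := hC2 b w
      have hfin : {l | ∃ i ∈ b, w i = some l}.Finite := by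
        refine ((b.finite_toSet.image w).preimage (Option.some_injective L).injOn).subset ?_
        rintro l ⟨i, hi, hil⟩
        exact ⟨i, hi, hil⟩
      refine ⟨{x | x = TS.q b ∨ ∃ l, l ∉ F ∧ ¬ (∃ i ∈ b, w i = some l) ∧ x = TS.m b l}, ?_,
        b ∪ E, ?_⟩
      · rw [TS.nhds_q]
        refine ⟨Or.inl rfl, ?_⟩
        have h1 : ∀ᶠ l in cofinite, l ∉ F := F.finite_toSet.compl_mem_cofinite
        have h2 : ∀ᶠ l in cofinite, l ∉ {l | ∃ i ∈ b, w i = some l} := hfin.compl_mem_cofinite
        filter_upwards [h1, h2] with l hl1 hl2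
        exact Or.inr ⟨l, hl1, hl2, rfl⟩
      · rintro ⟨⟨x', w'⟩, hd'⟩ hx' hw'
        simp only at hx' hw'
        rcases hx' with hx' | ⟨l, hl1, hl2, hx'⟩
        · subst hx'
          exact (hEF w' (fun i hi => hw' i (Finset.mem_union_right _ hi))).1
        · subst hx'
          have hrow : ¬ (Row l b w' ∧ Vs l b w') := by
            rintro ⟨⟨δ, hδ, hδ'⟩, _⟩
            exact hl2 ⟨δ, hδ, by rw [← hw' δ (Finset.mem_union_left _ hδ)]; exact hδ'⟩
          show (if Row l b w' ∧ Vs l b w' then cut l b w' ∈ V l else (some l, w') ∈ C b) ↔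
            (none, w) ∈ C b
          rw [if_neg hrow]
          exact (hEF w' (fun i hi => hw' i (Finset.mem_union_right _ hi))).2 l hl1
    | m b l =>
      obtain ⟨E, hE⟩ := hC1 b l w
      refine ⟨{TS.m b l}, (TS.nhds_m b l _).2 rfl, b ∪ E, ?_⟩
      rintro ⟨⟨x', w'⟩, hd'⟩ hx' hw'
      simp only [mem_singleton_iff] at hx' hw'
      subst hx'
      have hwb : ∀ i ∈ b, w' i = w i := fun i hi => hw' i (Finset.mem_union_left _ hi)
      have hrow : Row l b w' ↔ Row l b w := by
        constructor
        · rintro ⟨δ, hδ, h⟩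
          exact ⟨δ, hδ, by rw [← hwb δ hδ]; exact h⟩
        · rintro ⟨δ, hδ, h⟩
          exact ⟨δ, hδ, by rw [hwb δ hδ]; exact h⟩
      have hvs : Vs l b w' ↔ Vs l b w := by
        constructor
        · rintro ⟨E, hEb, h⟩
          refine ⟨E, hEb, fun d' b' h1 h2 h3 => h d' b' h1 h2 fun i hi => ?_⟩
          rw [h3 i hi, hwb i (hEb hi)]
        · rintro ⟨E, hEb, h⟩
          refine ⟨E, hEb, fun d' b' h1 h2 h3 => h d' b' h1 h2 fun i hi => ?_⟩
          rw [h3 i hi, hwb i (hEb hi)]
      have hcut : cut l b w' = cut l b w := by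
        funext i
        show (if i ∈ b then w' i else some l) = (if i ∈ b then w i else some l)
        by_cases hi : i ∈ b
        · rw [if_pos hi, if_pos hi, hwb i hi]
        · rw [if_neg hi, if_neg hi]
      show (if Row l b w' ∧ Vs l b w' then cut l b w' ∈ V l else (some l, w') ∈ C b) ↔
        (if Row l b w ∧ Vs l b w then cut l b w ∈ V l else (some l, w) ∈ C b)
      by_cases h : Row l b w ∧ Vs l b w
      · have h' : Row l b w' ∧ Vs l b w' := ⟨hrow.2 h.1, hvs.2 h.2⟩
        rw [if_pos h, if_pos h', hcut]
      · have h' : ¬ (Row l b w' ∧ Vs l b w') := fun h' => h ⟨hrow.1 h'.1, hvs.1 h'.2⟩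
        rw [if_neg h, if_neg h']
        exact hE w' (fun i hi => hw' i (Finset.mem_union_right _ hi))
  have hself : ∀ (d : DD I (code (I := I) (L := L))) (l : L) (b : Finset I),
      d.1.1 = TS.m b l → Vs l b d.1.2 → ¬ bad l b d := by
    rintro d l b hx ⟨E, hEb, h⟩
    exact h d b hEb hx (fun i _ => rfl)
  refine ⟨{d | Φ d.1.1 d.1.2}, ?_, ?_, ?_, ?_⟩
  · rw [isOpen_iff_mem_nhds]
    intro d hd
    refine mem_of_superset (hloc d) ?_
    intro d' hd'
    exact hd'.2 hd
  · rw [isOpen_iff_mem_nhds]
    intro d hd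
    refine mem_of_superset (hloc d) ?_
    intro d' hd' h
    exact hd (hd'.1 h)
  · rintro ⟨⟨x, w⟩, hd⟩ hdH
    show Φ x w
    cases x with
    | p l => exact hV2 l _ hdH rfl
    | q b => exact hC3 b _ hdH none rfl
    | m b l =>
      show if Row l b w ∧ Vs l b w then cut l b w ∈ V l else (some l, w) ∈ C b
      by_cases h : Row l b w ∧ Vs l b w
      · rw [if_pos h]
        by_contra hc
        exact hself _ l b rfl h.2 (Or.inl ⟨hdH, hc⟩)
      · rw [if_neg h]
        exact hC3 b _ hdH (some l) rfl
  · rintro ⟨⟨x, w⟩, hd⟩ hdK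
    show ¬ Φ x w
    cases x with
    | p l => exact hV3 l _ hdK rfl
    | q b => exact hC4 b _ hdK none rfl
    | m b l =>
      show ¬ if Row l b w ∧ Vs l b w then cut l b w ∈ V l else (some l, w) ∈ C b
      by_cases h : Row l b w ∧ Vs l b w
      · rw [if_pos h]
        intro hc
        exact hself _ l b rfl h.2 (Or.inr ⟨hdK, hc⟩)
      · rw [if_neg h]
        exact hC4 b _ hdK (some l) rfl

end B

end Pool.Agent.V11266.Fill
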