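import Mathlib

/-!
Definitions for MP_9641f2_gt: subspaces of products that fill subproducts.
-/

namespace Pool.Agent.V11266.Fill

open Set Topology

universe u v

/-- `D` fills all countable subproducts: for every nonempty countable `J`, the projection of `D`
to the subproduct over `J` is onto. -/
def FillsCountable {I : Type u} {X : I → Type v} (D : Set (∀ i, X i)) : Prop :=
  ∀ J : Set I, J.Nonempty → J.Countable →
    (fun (d : ∀ i, X i) (j : J) => d j) '' D = Set.univ

/-- `D` fills all finite subproducts: for every nonempty finite `J`, the projection of `D`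
to the subproduct over `J` is onto. -/
def FillsFinite {I : Type u} {X : I → Type v} (D : Set (∀ i, X i)) : Prop :=
  ∀ J : Set I, J.Nonempty → J.Finite →
    (fun (d : ∀ i, X i) (j : J) => d j) '' D = Set.univ

/-- Normal: `T₁`, and any two disjoint closed sets have disjoint open neighbourhoods. -/
def IsNormalT1 (X : Type u) [TopologicalSpace X] : Prop :=
  T1Space X ∧ ∀ F G : Set X, IsClosed F → IsClosed G → Disjoint F G →
    ∃ U V : Set X, IsOpen U ∧ IsOpen V ∧ F ⊆ U ∧ G ⊆ V ∧ Disjoint U V

/-- Completely regular: `T₁`, and points are separated from closed sets by continuous real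
functions. -/
def IsCompletelyRegularT1 (X : Type u) [TopologicalSpace X] : Prop :=
  T1Space X ∧ ∀ (F : Set X) (x : X), IsClosed F → x ∉ F →
    ∃ f : X → ℝ, Continuous f ∧ f x = 1 ∧ ∀ y ∈ F, f y = 0

/-- Paracompact: Hausdorff, and every open cover has a locally finite open refinement. -/
def IsParacompactT2 (X : Type u) [TopologicalSpace X] : Prop :=
  T2Space X ∧ ParacompactSpace X

theorem FillsCountable.finite {I : Type u} {X : I → Type v} {D : Set (∀ i, X i)}
    (h : FillsCountable D) : FillsFinite D :=
  fun J hJ hf => h J hJ hf.countable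

theorem FillsCountable.exists_mem {I : Type u} {X : I → Type v} {D : Set (∀ i, X i)}
    (h : FillsCountable D) (J : Set I) (hJ : J.Nonempty) (hc : J.Countable) (t : ∀ i, X i) :
    ∃ d : D, ∀ j ∈ J, d.1 j = t j := by
  have h1 : (fun j : J => t j) ∈ (fun (d : ∀ i, X i) (j : J) => d j) '' D := by
    rw [h J hJ hc]; trivial
  obtain ⟨d, hd, hdt⟩ := h1
  exact ⟨⟨d, hd⟩, fun j hj => congrFun hdt ⟨j, hj⟩⟩

end Pool.Agent.V11266.Fill
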