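import Pool.Agent.V11266.FillDefs

/-!
A paracompact subspace filling all countable subproducts is the whole product.
-/

namespace Pool.Agent.V11266.Fill

open Set Topology Function

universe u v

theorem exists_omega1 : ∃ (W : Type) (_ : LinearOrder W), WellFoundedLT W ∧
    (∀ a : W, (Iio a).Countable) ∧ ¬ (univ : Set W).Countable := by
  refine ⟨(Cardinal.aleph 1).ord.ToType, inferInstance, inferInstance, fun a => ?_, fun h => ?_⟩
  · rw [← Cardinal.le_aleph0_iff_set_countable, ← Cardinal.lt_aleph_one_iff]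
    simpa using Cardinal.mk_Iio_lt a
  · rw [← Cardinal.le_aleph0_iff_set_countable] at h
    simp at h

section pos
variable {I : Type u} {X : I → Type v} [∀ i, TopologicalSpace (X i)]

theorem exists_box (D : Set (∀ i, X i)) (p : D) (N : Set D) (hN : N ∈ 𝓝 p) :
    ∃ (E : Finset I) (O : ∀ i, Set (X i)), (∀ i ∈ E, p.1 i ∈ O i) ∧
      ∀ x : D, (∀ i ∈ E, x.1 i ∈ O i) → x ∈ N := by
  obtain ⟨N', hN'N, hN'o, hpN'⟩ := mem_nhds_iff.1 hN
  obtain ⟨O, hO, hOV⟩ := isOpen_induced_iff.1 hN'o
  have hdO : p.1 ∈ O := by rw [← hOV] at hpN'; exact hpN'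
  obtain ⟨e, u, hu, huO⟩ := isOpen_pi_iff.1 hO p.1 hdO
  refine ⟨e, u, fun i hi => (hu i hi).2, fun x hx => hN'N ?_⟩
  rw [← hOV]
  exact huO (fun j hj => hx j hj)

theorem pos_main [∀ i, T1Space (X i)] (D : Set (∀ i, X i)) (hD : FillsCountable D)
    [ParacompactSpace D] (t : ∀ i, X i) (i0 : I) : t ∈ D := by
  by_contra ht
  classical
  have hne : ∀ d : D, ∃ i, d.1 i ≠ t i := by
    intro d
    by_contra h
    push Not at h
    exact ht (by have : d.1 = t := funext h
                 rw [← this]; exact d.2)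
  obtain ⟨V, hVo, hVc, hVf, hVU⟩ := precise_refinement (fun i : I => {d : D | d.1 i ≠ t i})
    (fun i => by
      have : Continuous (fun d : D => d.1 i) := (continuous_apply i).comp continuous_subtype_val
      exact (isClosed_singleton.preimage this).isOpen_compl)
    (by ext d; simpa using hne d)
  have h1 : ∀ d : D, ∃ (i : I) (e : Finset I), i ∈ e ∧ d.1 i ≠ t i ∧
      ∀ x : D, (∀ j ∈ e, x.1 j = d.1 j) → x ∈ V i := by
    intro d
    have : d ∈ ⋃ i, V i := by rw [hVc]; trivial
    obtain ⟨i, hi⟩ := mem_iUnion.1 this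
    obtain ⟨E, O, hpO, hOV⟩ := exists_box D d (V i) ((hVo i).mem_nhds hi)
    refine ⟨i, insert i E, Finset.mem_insert_self _ _, hVU i hi, fun x hx => hOV x ?_⟩
    intro j hj
    rw [hx j (Finset.mem_insert_of_mem hj)]
    exact hpO j hj
  choose ι e hιe hιt heV using h1
  have h2 : ∀ S : Set I, ∃ d : D, S.Countable → ∀ j ∈ S, d.1 j = t j := by
    intro S
    by_cases hS : S.Countable
    · obtain ⟨d, hd⟩ := hD.exists_mem (insert i0 S) (insert_nonempty _ _) (hS.insert i0) t
      exact ⟨d, fun _ j hj => hd j (mem_insert_of_mem _ hj)⟩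
    · obtain ⟨d, hd⟩ := hD.exists_mem {i0} (singleton_nonempty _) (countable_singleton _) t
      exact ⟨d, fun h => absurd h hS⟩
  choose g hg using h2
  obtain ⟨W, hW, hwf, hcount, hunc⟩ := exists_omega1
  let w : W → D := hwf.wf.fix (fun a IH => g (⋃ (b : W) (h : b < a), (e (IH b h) : Set I)))
  have hw : ∀ a, w a = g (⋃ (b : W) (h : b < a), (e (w b) : Set I)) :=
    fun a => hwf.wf.fix_eq _ a
  have hagree : ∀ a b, b < a → ∀ j ∈ e (w b), (w a).1 j = t j := by
    intro a b hba j hj
    have hc : (⋃ (b : W) (h : b < a), (e (w b) : Set I)).Countable :=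
      (hcount a).biUnion (fun b _ => (e (w b)).countable_toSet)
    have := hg _ hc j (mem_iUnion₂.2 ⟨b, hba, hj⟩)
    rw [hw a]
    exact this
  have hinj : Injective (fun a => ι (w a)) := by
    have key : ∀ a b, b < a → ι (w a) ≠ ι (w b) := by
      intro a b hba h
      have := hagree a b hba _ (hιe (w b))
      rw [← h] at this
      exact hιt (w a) this
    intro a b hab
    rcases lt_trichotomy a b with h | h | h
    · exact absurd hab.symm (key b a h)
    · exact h
    · exact absurd hab (key a b h)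
  obtain ⟨n, hn⟩ : ∃ n : ℕ, ¬ {a : W | (e (w a)).card ≤ n}.Countable := by
    by_contra h
    push Not at h
    apply hunc
    refine (countable_iUnion h).mono ?_
    intro a _
    exact mem_iUnion.2 ⟨(e (w a)).card, by simp⟩
  obtain ⟨F, hF, hFmax⟩ : ∃ F : Finset I, ¬ {a : W | (e (w a)).card ≤ n ∧ F ⊆ e (w a)}.Countable ∧
      ∀ i ∉ F, {a : W | (e (w a)).card ≤ n ∧ insert i F ⊆ e (w a)}.Countable := by
    by_contra hcon
    push Not at hcon
    have hk : ∀ k : ℕ, ∃ F : Finset I, F.card = k ∧
        ¬ {a : W | (e (w a)).card ≤ n ∧ F ⊆ e (w a)}.Countable := by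
      intro k
      induction k with
      | zero => exact ⟨∅, rfl, by simpa using hn⟩
      | succ k ih =>
        obtain ⟨F, hFk, hF⟩ := ih
        obtain ⟨i, hi, hi2⟩ := hcon F hF
        exact ⟨insert i F, by rw [Finset.card_insert_of_notMem hi, hFk], hi2⟩
    obtain ⟨F, hFk, hF⟩ := hk (n + 1)
    apply hF
    convert countable_empty
    ext a
    simp only [mem_ofPred_eq, mem_empty_iff_false, iff_false, not_and]
    intro h1 h2
    have := Finset.card_le_card h2
    omega
  obtain ⟨p, hp⟩ := hD.exists_mem (insert i0 (F : Set I)) (insert_nonempty _ _)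
    (F.countable_toSet.insert i0) t
  obtain ⟨N, hN, hNf⟩ := hVf p
  obtain ⟨E, O, hpO, hON⟩ := exists_box D p N hN
  -- the good indices
  obtain ⟨b0, hb0⟩ : {a : W | (e (w a)).card ≤ n ∧ F ⊆ e (w a)}.Nonempty := by
    by_contra h
    rw [not_nonempty_iff_eq_empty] at h
    exact hF (by rw [h]; exact countable_empty)
  set A : Set W := {a : W | (e (w a)).card ≤ n ∧ F ⊆ e (w a)} with hA
  set Bad : Set W := (⋃ i ∈ (E \ F : Finset I), {a : W | (e (w a)).card ≤ n ∧
    insert i F ⊆ e (w a)}) ∪ insert b0 (Iio b0) with hBad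
  have hBadc : Bad.Countable := by
    refine Countable.union ?_ ((hcount b0).insert b0)
    refine Countable.biUnion (Finset.countable_toSet _) fun i hi => ?_
    exact hFmax i (Finset.mem_sdiff.1 hi).2
  have hAB : (A \ Bad).Infinite := by
    intro hfin
    apply hF
    refine (hfin.countable.union hBadc).mono ?_
    intro a ha
    by_cases hb : a ∈ Bad
    · exact Or.inr hb
    · exact Or.inl ⟨ha, hb⟩
  apply hAB
  refine Set.Finite.of_finite_image (f := fun a => ι (w a)) (hNf.subset ?_) hinj.injOn
  rintro i ⟨a, ⟨haA, haB⟩, rfl⟩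
  have hab0 : b0 < a := by
    rcases lt_trichotomy a b0 with h | h | h
    · exact absurd (Or.inr (mem_insert_of_mem _ h) : a ∈ Bad) haB
    · exact absurd (Or.inr (by rw [h]; exact mem_insert _ _) : a ∈ Bad) haB
    · exact h
  have hEF : ∀ i ∈ E, i ∈ e (w a) → i ∈ F := by
    intro i hiE hie
    by_contra hiF
    apply haB
    refine Or.inl (mem_iUnion₂.2 ⟨i, Finset.mem_sdiff.2 ⟨hiE, hiF⟩, haA.1, ?_⟩)
    exact Finset.insert_subset hie haA.2
  -- the amalgamated point
  obtain ⟨x, hx⟩ := hD.exists_mem ((e (w a) ∪ E : Finset I) : Set I)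
    ⟨ι (w a), by simp [hιe]⟩ (Finset.countable_toSet _)
    (fun j => if j ∈ e (w a) then (w a).1 j else p.1 j)
  refine ⟨x, heV (w a) x ?_, hON x ?_⟩
  · intro j hj
    rw [hx j (by simp [hj]), if_pos hj]
  · intro j hj
    rw [hx j (by simp [hj])]
    by_cases hje : j ∈ e (w a)
    · rw [if_pos hje]
      have hjF := hEF j hj hje
      rw [hagree a b0 hab0 j (hb0.2 hjF), ← hp j (mem_insert_of_mem _ hjF)]
      exact hpO j hj
    · rw [if_neg hje]
      exact hpO j hj

theorem pos_result [T1Space (∀ i, X i)] (D : Set (∀ i, X i)) (hD : FillsCountable D)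
    (hP : IsParacompactT2 D) (i : I) : D = univ ∧ IsParacompactT2 (X i) := by
  classical
  by_cases hne : Nonempty (∀ i, X i)
  · obtain ⟨t⟩ := hne
    have hT1 : ∀ i, T1Space (X i) := by
      intro j
      refine ⟨fun y => ?_⟩
      have h1 : IsClosed ({update t j y} : Set (∀ i, X i)) := isClosed_singleton
      have h2 : Continuous (fun z : X j => update t j z) := continuous_const.update j continuous_id
      have h3 := h1.preimage h2
      convert h3
      ext z
      simp only [mem_singleton_iff, mem_preimage]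
      exact ⟨fun h => by rw [h], fun h => update_injective t j h⟩
    have := hP.1
    have := hP.2
    have huniv : D = univ := by
      ext s
      simp only [mem_univ, iff_true]
      exact pos_main D hD s i
    refine ⟨huniv, ?_⟩
    subst huniv
    have hemb : IsClosedEmbedding (fun y : X i => (⟨update t i y, trivial⟩ : (univ : Set (∀ i, X i)))) := by
      have h1 := (Homeomorph.Set.univ (∀ i, X i)).symm.isClosedEmbedding.comp
        (isClosedEmbedding_update t i)
      exact h1
    exact ⟨hemb.isEmbedding.t2Space, hemb.paracompactSpace⟩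
  · have hD0 : D = univ := by
      ext s
      exact absurd ⟨s⟩ hne
    refine ⟨hD0, ?_⟩
    have hempty : IsEmpty (X i) := by
      by_contra h
      rw [not_isEmpty_iff] at h
      obtain ⟨y⟩ := h
      have h1 := hD {i} (singleton_nonempty i) (countable_singleton i)
      have h0 : Nonempty (∀ j : ({i} : Set I), X j) :=
        ⟨fun j => cast (congrArg X (show i = j.1 from j.2.symm)) y⟩
      obtain ⟨z⟩ := h0
      have h2 : z ∈ (fun (d : ∀ i, X i) (j : ({i} : Set I)) => d j) '' D := by
        rw [h1]; trivial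
      obtain ⟨d, _, _⟩ := h2
      exact hne ⟨d⟩
    refine ⟨inferInstance, ?_⟩
    have : CompactSpace (X i) := inferInstance
    exact inferInstance

end pos

end Pool.Agent.V11266.Fill
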