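import Pool.Agent.V11266.FillDefs

/-!
General facts on the subspaces `DD c I` of `T × (I → Y)`, and the space `TS`.
-/

namespace Pool.Agent.V11266.Fill

open Set Topology Filter

section gen
variable {T I Y : Type} [TopologicalSpace T] [TopologicalSpace Y] [DiscreteTopology Y]

theorem mem_nhds_sub_iff (D : Set (T × (I → Y))) (d : D) (O : Set D) :
    O ∈ 𝓝 d ↔ ∃ U ∈ 𝓝 d.1.1, ∃ E : Finset I, ∀ d' : D, d'.1.1 ∈ U →
      (∀ i ∈ E, d'.1.2 i = d.1.2 i) → d' ∈ O := by
  rw [mem_nhds_subtype]
  constructor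
  · rintro ⟨u, hu, huO⟩
    rw [mem_nhds_prod_iff] at hu
    obtain ⟨U, hU, V, hV, hUV⟩ := hu
    rw [nhds_pi, Filter.mem_pi] at hV
    obtain ⟨J, hJ, t, ht, htV⟩ := hV
    refine ⟨U, hU, hJ.toFinset, fun d' h1 h2 => huO (hUV ⟨h1, htV ?_⟩)⟩
    intro i hi
    rw [h2 i (hJ.mem_toFinset.2 hi)]
    exact mem_of_mem_nhds (ht i)
  · rintro ⟨U, hU, E, hUE⟩
    refine ⟨U ×ˢ {w | ∀ i ∈ E, w i = d.1.2 i}, ?_, ?_⟩
    · refine prod_mem_nhds (x := d.1.1) (y := d.1.2) hU ?_
      refine (eventually_all_finset E).2 fun i _ => ?_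
      have h1 : Tendsto (fun w : I → Y => w i) (𝓝 d.1.2) (𝓝 (d.1.2 i)) :=
        (continuous_apply i).continuousAt
      have h2 : {y | y = d.1.2 i} ∈ 𝓝 (d.1.2 i) := by
        rw [nhds_discrete]
        exact mem_pure.2 rfl
      exact h1 h2
    · intro d' hd'
      exact hUE d' hd'.1 hd'.2

end gen

section count
open Cardinal

theorem exists_notMem_iUnion {J L : Type} [Infinite J] (h : #J < #L) (C : J → Set L)
    (hC : ∀ j, (C j).Countable) : ∃ l, ∀ j, l ∉ C j := by
  by_contra hcon
  push Not at hcon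
  have h1 : (⋃ j, C j) = Set.univ := by
    ext l
    simpa using hcon l
  have h2 : #(⋃ j, C j) ≤ #J * ℵ₀ := by
    refine (mk_iUnion_le_sum_mk).trans ?_
    refine (sum_le_sum _ (fun _ => ℵ₀) fun j => le_aleph0_iff_set_countable.2 (hC j)).trans ?_
    simp
  rw [h1, mk_univ, mul_aleph0_eq (aleph0_le_mk J)] at h2
  exact absurd h (not_lt.2 h2)

end count

/-- The space `TS I L`: isolated points `m b l`, and limit points `p l`, `q b`. -/
inductive TS (I L : Type) : Type
  | p (l : L) : TS I L
  | q (b : Finset I) : TS I L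
  | m (b : Finset I) (l : L) : TS I L

namespace TS
variable {I L : Type}

instance : TopologicalSpace (TS I L) where
  IsOpen U := (∀ l, p l ∈ U → ∀ᶠ b in atTop, m b l ∈ U) ∧
    (∀ b, q b ∈ U → ∀ᶠ l in cofinite, m b l ∈ U)
  isOpen_univ := by simp
  isOpen_inter := by
    rintro U V ⟨h1, h2⟩ ⟨h3, h4⟩
    exact ⟨fun l hl => (h1 l hl.1).and (h3 l hl.2), fun b hb => (h2 b hb.1).and (h4 b hb.2)⟩
  isOpen_sUnion := by
    intro s hs
    constructor
    · rintro l ⟨U, hU, hl⟩
      exact ((hs U hU).1 l hl).mono fun b hb => ⟨U, hU, hb⟩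
    · rintro b ⟨U, hU, hb⟩
      exact ((hs U hU).2 b hb).mono fun l hl => ⟨U, hU, hl⟩

theorem isOpen_iff' (U : Set (TS I L)) : IsOpen U ↔
    (∀ l, p l ∈ U → ∀ᶠ b in atTop, m b l ∈ U) ∧
    (∀ b, q b ∈ U → ∀ᶠ l in cofinite, m b l ∈ U) := Iff.rfl

theorem nhds_m (b : Finset I) (l : L) (S : Set (TS I L)) : S ∈ 𝓝 (m b l) ↔ m b l ∈ S := by
  refine ⟨mem_of_mem_nhds, fun h => mem_of_superset (IsOpen.mem_nhds (s := {m b l}) ?_ rfl) ?_⟩
  · rw [isOpen_iff']
    simp
  · simpa using h

theorem nhds_q (b : Finset I) (S : Set (TS I L)) :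
    S ∈ 𝓝 (q b : TS I L) ↔ q b ∈ S ∧ ∀ᶠ l in cofinite, m b l ∈ S := by
  constructor
  · intro h
    obtain ⟨U, hU, hUo, hq⟩ := mem_nhds_iff.1 h
    exact ⟨hU hq, (hUo.2 b hq).mono fun l hl => hU hl⟩
  · rintro ⟨h1, h2⟩
    refine mem_of_superset (IsOpen.mem_nhds (s := {x | x = q b ∨ ∃ l, x = m b l ∧ m b l ∈ S})
      ?_ (Or.inl rfl)) ?_
    · rw [isOpen_iff']
      constructor
      · simp
      · intro b' hb'
        simp only [mem_ofPred_eq, q.injEq, reduceCtorEq, false_and, exists_false, or_false] at hb'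
        subst hb'
        simpa using h2
    · rintro x (rfl | ⟨l, rfl, hl⟩)
      · exact h1
      · exact hl

theorem nhds_p (l : L) (S : Set (TS I L)) :
    S ∈ 𝓝 (p l : TS I L) ↔ p l ∈ S ∧ ∀ᶠ b in atTop, m b l ∈ S := by
  constructor
  · intro h
    obtain ⟨U, hU, hUo, hq⟩ := mem_nhds_iff.1 h
    exact ⟨hU hq, (hUo.1 l hq).mono fun b hb => hU hb⟩
  · rintro ⟨h1, h2⟩
    refine mem_of_superset (IsOpen.mem_nhds (s := {x | x = p l ∨ ∃ b, x = m b l ∧ m b l ∈ S})
      ?_ (Or.inl rfl)) ?_
    · rw [isOpen_iff']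
      constructor
      · intro l' hl'
        simp only [mem_ofPred_eq, p.injEq, reduceCtorEq, false_and, exists_false, or_false] at hl'
        subst hl'
        simpa using h2
      · simp
    · rintro x (rfl | ⟨l, rfl, hl⟩)
      · exact h1
      · exact hl

theorem eventually_ne [Infinite I] (b : Finset I) : ∀ᶠ b' in (atTop : Filter (Finset I)), b' ≠ b := by
  classical
  obtain ⟨i, hi⟩ := Infinite.exists_notMem_finset b
  filter_upwards [eventually_ge_atTop ({i} : Finset I)] with b' hb' h
  subst h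
  exact hi (hb' (Finset.mem_singleton_self i))

/-- clopen base of `TS` -/
theorem exists_clopen [Infinite I] (x : TS I L) (U : Set (TS I L)) (hU : U ∈ 𝓝 x) :
    ∃ A : Set (TS I L), IsClopen A ∧ x ∈ A ∧ A ⊆ U := by
  classical
  cases x with
  | p l =>
    rw [nhds_p] at hU
    obtain ⟨h1, h2⟩ := hU
    obtain ⟨E, hE⟩ := eventually_atTop.1 h2
    refine ⟨{x | x = p l ∨ ∃ b, E ⊆ b ∧ x = m b l}, ⟨?_, ?_⟩, Or.inl rfl, ?_⟩
    · rw [← isOpen_compl_iff, isOpen_iff']
      constructor
      · intro l' hl'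
        have hne : l' ≠ l := fun h => hl' (Or.inl (by rw [h]))
        refine Eventually.of_forall fun b hb => ?_
        rcases hb with hb | ⟨b', _, hb'⟩
        · simp at hb
        · simp only [m.injEq] at hb'
          exact hne hb'.2
      · intro b _
        have : ∀ᶠ l' in cofinite, l' ≠ l := (finite_singleton l).compl_mem_cofinite
        filter_upwards [this] with l' hl' hb
        rcases hb with hb | ⟨b', _, hb'⟩
        · simp at hb
        · simp only [m.injEq] at hb'
          exact hl' hb'.2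
    · rw [isOpen_iff']
      constructor
      · rintro l' (h | ⟨b', _, hb'⟩)
        · simp only [p.injEq] at h
          subst h
          filter_upwards [eventually_ge_atTop E] with b hb
          exact Or.inr ⟨b, hb, rfl⟩
        · simp at hb'
      · rintro b (h | ⟨b', _, hb'⟩)
        · simp at h
        · simp at hb'
    · rintro x (rfl | ⟨b, hb, rfl⟩)
      · exact h1
      · exact hE b hb
  | q b =>
    rw [nhds_q] at hU
    obtain ⟨h1, h2⟩ := hU
    refine ⟨{x | x = q b ∨ ∃ l, m b l ∈ U ∧ x = m b l}, ⟨?_, ?_⟩, Or.inl rfl, ?_⟩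
    · rw [← isOpen_compl_iff, isOpen_iff']
      constructor
      · intro l _
        filter_upwards [eventually_ne b] with b' hb' hb
        rcases hb with hb | ⟨l', _, hb2⟩
        · simp at hb
        · simp only [m.injEq] at hb2
          exact hb' hb2.1
      · intro b' hb'
        have hne : b' ≠ b := fun h => hb' (Or.inl (by rw [h]))
        refine Eventually.of_forall fun l hb => ?_
        rcases hb with hb | ⟨l', _, hb2⟩
        · simp at hb
        · simp only [m.injEq] at hb2
          exact hne hb2.1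
    · rw [isOpen_iff']
      constructor
      · rintro l (h | ⟨b', _, hb'⟩)
        · simp at h
        · simp at hb'
      · rintro b' (h | ⟨l', _, hb'⟩)
        · simp only [q.injEq] at h
          subst h
          filter_upwards [h2] with l hl
          exact Or.inr ⟨l, hl, rfl⟩
        · simp at hb'
    · rintro x (rfl | ⟨b, hb, rfl⟩)
      · exact h1
      · exact hb
  | m b l =>
    refine ⟨{m b l}, ⟨?_, ?_⟩, rfl, by simpa using mem_of_mem_nhds hU⟩
    · rw [← isOpen_compl_iff, isOpen_iff']
      constructor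
      · intro l' _
        filter_upwards [eventually_ne b] with b' hb' hb
        simp only [mem_singleton_iff, m.injEq] at hb
        exact hb' hb.1
      · intro b' _
        have : ∀ᶠ l' in cofinite, l' ≠ l := (finite_singleton l).compl_mem_cofinite
        filter_upwards [this] with l' hl' hb
        simp only [mem_singleton_iff, m.injEq] at hb
        exact hl' hb.2
    · rw [isOpen_iff']
      simp

instance [Infinite I] : T1Space (TS I L) := by
  classical
  refine ⟨fun x => ?_⟩
  rw [← isOpen_compl_iff, isOpen_iff']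
  constructor
  · intro l' _
    cases x with
    | p l => simp
    | q b => simp
    | m b l =>
      filter_upwards [eventually_ne b] with b' hb' hb
      simp only [mem_singleton_iff, m.injEq] at hb
      exact hb' hb.1
  · intro b' _
    cases x with
    | p l => simp
    | q b => simp
    | m b l =>
      have : ∀ᶠ l' in cofinite, l' ≠ l := (finite_singleton l).compl_mem_cofinite
      filter_upwards [this] with l' hl' hb
      simp only [mem_singleton_iff, m.injEq] at hb
      exact hl' hb.2

open Cardinal in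
theorem not_normal [Infinite I] (h : #I < #L) : ¬ IsNormalT1 (TS I L) := by
  rintro ⟨_, hN⟩
  have : NormalSpace (TS I L) := by
    refine ⟨fun F G hF hG hFG => ?_⟩
    obtain ⟨U, V, hU, hV, h1, h2, h3⟩ := hN F G hF hG hFG
    exact ⟨U, V, hU, hV, h1, h2, h3⟩
  have hP : IsClosed {x : TS I L | ∃ l, x = p l} := by
    rw [← isOpen_compl_iff, isOpen_iff']
    constructor
    · intro l hl
      exact absurd ⟨l, rfl⟩ hl
    · intro b _
      refine Eventually.of_forall fun l => ?_
      rintro ⟨l', hl'⟩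
      simp at hl'
  have hQ : IsClosed {x : TS I L | ∃ b, x = q b} := by
    rw [← isOpen_compl_iff, isOpen_iff']
    constructor
    · intro l _
      refine Eventually.of_forall fun b => ?_
      rintro ⟨l', hl'⟩
      simp at hl'
    · intro b hb
      exact absurd ⟨b, rfl⟩ hb
  have hPQ : Disjoint {x : TS I L | ∃ l, x = p l} {x : TS I L | ∃ b, x = q b} := by
    rw [Set.disjoint_left]
    rintro x ⟨l, rfl⟩ ⟨b, hb⟩
    simp at hb
  obtain ⟨f, hf0, hf1, _⟩ := exists_continuous_zero_one_of_isClosed hP hQ hPQ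
  have hq : ∀ b : Finset I, {l | f (m b l) ≠ f (q b)}.Countable := by
    intro b
    have h1 : Tendsto (fun l => f (m b l)) cofinite (𝓝 (f (q b))) := by
      intro S hS
      have h2 := f.continuous.continuousAt (x := (q b : TS I L)) hS
      exact ((nhds_q b _).1 h2).2
    have h3 := h1.countable_compl_preimage_ker
    refine h3.mono ?_
    intro l hl
    simpa using hl
  obtain ⟨l, hl⟩ := exists_notMem_iUnion (J := Finset I) (by rwa [mk_finset_of_infinite]) _ hq
  have h1 : Tendsto (fun b => f (m b l)) atTop (𝓝 (f (p l))) := by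
    intro S hS
    have h2 := f.continuous.continuousAt (x := (p l : TS I L)) hS
    exact ((nhds_p l _).1 h2).2
  have h2 : ∀ b, f (m b l) = 1 := by
    intro b
    have h3 : f (q b) = 1 := hf1 ⟨b, rfl⟩
    have h4 := hl b
    simp only [mem_ofPred_eq, ne_eq, not_not] at h4
    rw [h4, h3]
  simp only [h2] at h1
  have h3 : f (p l) = 0 := hf0 ⟨l, rfl⟩
  rw [h3] at h1
  have := tendsto_nhds_unique h1 tendsto_const_nhds
  norm_num at this

end TS

end Pool.Agent.V11266.Fill
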