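import Pool.Agent.V11266.GreedyPack

/-! Packing the trees `T_2, …, T_s` into graphs of average degree at least `k - 1`. -/

set_option autoImplicit false

namespace Pool.Agent.V11266.FirstTrees

open Finset

theorem sum_tail (s j : ℕ) (hj : 2 ≤ j) (hjs : j ≤ s) :
    2 * ∑ i ∈ Finset.Icc j s, (i - 1) + (j - 1) * (j - 2) = s * (s - 1) := by
  induction s, hjs using Nat.le_induction with
  | base =>
    obtain ⟨r, rfl⟩ : ∃ r, j = r + 2 := ⟨j - 2, by omega⟩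
    have e1 : r + 2 - 1 = r + 1 := by omega
    have e2 : r + 2 - 2 = r := by omega
    rw [Finset.Icc_self, Finset.sum_singleton, e1, e2]
    ring
  | succ s hs ih =>
    rw [← Finset.insert_Icc_right_eq_Icc_add_one (by omega), Finset.sum_insert (by simp)]
    obtain ⟨r, rfl⟩ : ∃ r, s = r + 1 := ⟨s - 1, by omega⟩
    have e1 : r + 1 + 1 - 1 = r + 1 := by omega
    have e2 : r + 1 - 1 = r := by omega
    rw [e2] at ih
    rw [e1]
    have : (r + 1 + 1) * (r + 1) = (r + 1) * r + 2 * (r + 1) := by ring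
    rw [this, ← ih]
    ring

theorem numeric (k s j N E S : ℕ) (hj2 : 2 ≤ j) (hjs : j ≤ s) (hsk : s ≤ k)
    (hs1 : 2 * S + (j - 1) * (j - 2) = s * (s - 1)) (hG : (k - 1) * N ≤ 2 * E)
    (h : 2 * s ≤ N + 1 ∨ 4 * (s * (s - 1)) + (N + 1) ^ 2 < 4 * (k + 1) * N) :
    (j - 2) * N + 2 * S < 2 * E + 2 * (j - 1) := by
  obtain ⟨l, rfl⟩ : ∃ l, j = l + 2 := ⟨j - 2, by omega⟩
  obtain ⟨r, rfl⟩ : ∃ r, s = r + 1 := ⟨s - 1, by omega⟩
  obtain ⟨q, rfl⟩ : ∃ q, k = q + 1 := ⟨k - 1, by omega⟩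
  have e1 : l + 2 - 1 = l + 1 := by omega
  have e2 : l + 2 - 2 = l := by omega
  have e3 : r + 1 - 1 = r := by omega
  have e4 : q + 1 - 1 = q := by omega
  rw [e1, e2, e3] at hs1
  rw [e3] at h
  rw [e4] at hG
  rw [e1, e2]
  zify at hs1 h hG hjs hsk ⊢
  rcases h with h | h
  · have h1 : ((r : ℤ) + 1 - (l + 2)) * ((N : ℤ) + 1 - 2 * (r + 1)) ≥ 0 :=
      mul_nonneg (by linarith) (by linarith)
    have h2 : ((q : ℤ) + 1 - (r + 1)) * (N : ℤ) ≥ 0 :=
      mul_nonneg (by linarith) (by linarith)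
    have h3 : ((r : ℤ) + 1 - (l + 2)) * ((r : ℤ) + 1 - (l + 2)) ≥ 0 := mul_self_nonneg _
    nlinarith
  · have h3 : (2 * ((l : ℤ) + 2) - (N + 1)) * (2 * ((l : ℤ) + 2) - (N + 1)) ≥ 0 :=
      mul_self_nonneg _
    nlinarith

theorem main {V : Type*} [Finite V] [Nonempty V] (G : SimpleGraph V) (k s : ℕ) (hsk : s ≤ k)
    (T : (i : ℕ) → SimpleGraph (Fin i)) (hT : ∀ i, 2 ≤ i → i ≤ s → (T i).IsTree)
    (hG : (k - 1) * Nat.card V ≤ 2 * G.edgeSet.ncard)
    (h : 2 * s ≤ Nat.card V + 1 ∨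
      4 * (s * (s - 1)) + (Nat.card V + 1) ^ 2 < 4 * (k + 1) * Nat.card V) :
    ∃ f : (i : ℕ) → Fin i → V,
      (∀ i, 2 ≤ i → i ≤ s → Function.Injective (f i) ∧
        ∀ a b : Fin i, (T i).Adj a b → G.Adj (f i a) (f i b)) ∧
      (∀ i j, 2 ≤ i → i ≤ s → 2 ≤ j → j ≤ s → i ≠ j →
        ∀ (a b : Fin i) (c d : Fin j), (T i).Adj a b → (T j).Adj c d →
          s(f i a, f i b) ≠ s(f j c, f j d)) := by
  classical
  obtain ⟨f, f1, f2, -⟩ := GreedyPack.pack_fam G (fun i => i) T (Finset.Icc 2 s).card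
    (Finset.Icc 2 s) rfl (fun i hi => hT i (Finset.mem_Icc.1 hi).1 (Finset.mem_Icc.1 hi).2) (by
      intro j hj _
      obtain ⟨hj2, hjs⟩ := Finset.mem_Icc.1 hj
      have hfil : (Finset.Icc 2 s).filter (fun i => j ≤ i) = Finset.Icc j s := by
        ext i
        simp only [Finset.mem_filter, Finset.mem_Icc]
        omega
      show (j - 2) * Nat.card V + 2 * ∑ i ∈ (Finset.Icc 2 s).filter (fun i => j ≤ i), (i - 1) <
        2 * G.edgeSet.ncard + 2 * (j - 1)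
      rw [hfil]
      have hs1 := sum_tail s j hj2 hjs
      exact numeric k s j (Nat.card V) G.edgeSet.ncard _ hj2 hjs hsk hs1 hG h)
  exact ⟨f, fun i hi2 his => f1 i (Finset.mem_Icc.2 ⟨hi2, his⟩),
    fun i j hi2 his hj2 hjs hij a b c d hab hcd =>
      f2 i (Finset.mem_Icc.2 ⟨hi2, his⟩) j (Finset.mem_Icc.2 ⟨hj2, hjs⟩) hij a b c d hab hcd⟩

theorem two_mul_edges_le {V : Type*} [Finite V] (G : SimpleGraph V) :
    2 * G.edgeSet.ncard ≤ Nat.card V * (Nat.card V - 1) := by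
  classical
  have := Fintype.ofFinite V
  have h1 : G.edgeSet.ncard = G.edgeFinset.card := by
    rw [← SimpleGraph.coe_edgeFinset, Set.ncard_coe_finset]
  have h2 := G.card_edgeFinset_le_card_choose_two
  rw [h1, Nat.card_eq_fintype_card]
  rw [Nat.choose_two_right] at h2
  have h3 := Nat.mul_div_cancel' (Nat.even_mul_pred_self (Fintype.card V)).two_dvd
  omega

/-- The numerical condition of `main` for `s ≤ (√3 / 2) k + 1 / 2` and `n ≥ k`. -/
theorem cond_of_sqrt (k s n : ℕ) (hk : 1 ≤ k) (hn : k ≤ n)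
    (hs : (s : ℝ) ≤ Real.sqrt 3 / 2 * k + 1 / 2) :
    s ≤ k ∧ (2 * s ≤ n + 1 ∨ 4 * (s * (s - 1)) + (n + 1) ^ 2 < 4 * (k + 1) * n) := by
  rcases Nat.eq_zero_or_pos s with h0 | hpos
  · subst h0
    exact ⟨Nat.zero_le _, Or.inl (by omega)⟩
  have h1 : 2 * (s : ℝ) - 1 ≤ Real.sqrt 3 * k := by linarith
  have hs1 : (1 : ℝ) ≤ s := by exact_mod_cast hpos
  have h2 : (2 * (s : ℝ) - 1) ^ 2 ≤ 3 * (k : ℝ) ^ 2 := by
    have h3 : (2 * (s : ℝ) - 1) ^ 2 ≤ (Real.sqrt 3 * k) ^ 2 :=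
      pow_le_pow_left₀ (by linarith) h1 2
    rw [mul_pow, Real.sq_sqrt (by norm_num)] at h3
    exact h3
  have h4 : (2 * (s : ℤ) - 1) ^ 2 ≤ 3 * (k : ℤ) ^ 2 := by exact_mod_cast h2
  obtain ⟨r, rfl⟩ : ∃ r, s = r + 1 := ⟨s - 1, by omega⟩
  have e3 : r + 1 - 1 = r := by omega
  push_cast at h4
  have hsk : r + 1 ≤ k := by
    by_contra hcon
    have : k ≤ r := by omega
    have h5 : (k : ℤ) ≤ r := by exact_mod_cast this
    have h6 : (0 : ℤ) ≤ k := by positivity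
    nlinarith
  refine ⟨hsk, ?_⟩
  by_cases h5 : 2 * (r + 1) ≤ n + 1
  · exact Or.inl h5
  · right
    rw [e3]
    have h6 : n ≤ 2 * k := by omega
    zify at h6 hn hk ⊢
    have h7 : ((n : ℤ) - k) * (3 * k + 2 - n) ≥ 0 := mul_nonneg (by linarith) (by linarith)
    nlinarith

theorem card_ge {V : Type*} [Finite V] [Nonempty V] (G : SimpleGraph V) (k : ℕ)
    (hG : (k - 1) * Nat.card V ≤ 2 * G.edgeSet.ncard) : k ≤ Nat.card V := by
  have h1 := two_mul_edges_le G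
  have hN : 1 ≤ Nat.card V := Nat.card_pos
  have h2 : (k - 1) * Nat.card V ≤ (Nat.card V - 1) * Nat.card V := by
    rw [mul_comm (Nat.card V - 1)]
    exact hG.trans h1
  have h3 := Nat.le_of_mul_le_mul_right h2 hN
  omega

theorem min_degree {V : Type*} [Finite V] (G : SimpleGraph V) (d : ℕ)
    (h : ∀ v, d ≤ (G.neighborSet v).ncard) : d * Nat.card V ≤ 2 * G.edgeSet.ncard := by
  classical
  have := Fintype.ofFinite V
  have h1 : G.edgeSet.ncard = G.edgeFinset.card := by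
    rw [← SimpleGraph.coe_edgeFinset, Set.ncard_coe_finset]
  have h2 := G.sum_degrees_eq_twice_card_edges
  have h3 : ∀ v, d ≤ G.degree v := by
    intro v
    have h4 := h v
    rw [← SimpleGraph.coe_neighborFinset, Set.ncard_coe_finset] at h4
    exact h4
  rw [h1, ← h2, Nat.card_eq_fintype_card, mul_comm]
  have h5 : Finset.univ.card • d ≤ ∑ v, G.degree v :=
    Finset.card_nsmul_le_sum _ _ _ (fun v _ => h3 v)
  rwa [smul_eq_mul, Finset.card_univ] at h5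

end Pool.Agent.V11266.FirstTrees
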