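import Pool.Agent.Helper903.ES.Main

/-! Greedy edge-disjoint packing of a family of trees, from the largest to the smallest, by
repeated use of the Erdős–Sós bound of the starting library. -/

set_option autoImplicit false

namespace Pool.Agent.V11266.GreedyPack

open Finset

theorem card_used {V : Type*} [DecidableEq V] {i : ℕ} (T : SimpleGraph (Fin i))
    (hT : T.IsTree) (f : Fin i → V) :
    ((Sym2.map f) '' T.edgeSet).ncard ≤ i - 1 := by
  classical
  have h1 : ((Sym2.map f) '' T.edgeSet).ncard ≤ T.edgeSet.ncard :=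
    Set.ncard_image_le (Set.toFinite _)
  have h2 : T.edgeFinset.card + 1 = Fintype.card (Fin i) := hT.card_edgeFinset
  have h3 : T.edgeSet.ncard = T.edgeFinset.card := by
    rw [← SimpleGraph.coe_edgeFinset, Set.ncard_coe_finset]
  rw [Fintype.card_fin] at h2
  omega

theorem ncard_deleteEdges {V : Type*} [Finite V] (G : SimpleGraph V) (R : Set (Sym2 V)) :
    G.edgeSet.ncard ≤ (G.deleteEdges R).edgeSet.ncard + R.ncard := by
  rw [SimpleGraph.edgeSet_deleteEdges]
  have h1 : G.edgeSet ⊆ (G.edgeSet \ R) ∪ R := by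
    intro e he
    by_cases h : e ∈ R
    · exact Or.inr h
    · exact Or.inl ⟨he, h⟩
  exact (Set.ncard_le_ncard h1 (Set.toFinite _)).trans (Set.ncard_union_le _ _)

theorem es_ncard {V : Type*} [Finite V] (G : SimpleGraph V) (i : ℕ) (hi : 2 ≤ i)
    (T : SimpleGraph (Fin i)) (hT : T.IsTree)
    (h : (i - 2) * Nat.card V < 2 * G.edgeSet.ncard) :
    ∃ f : Fin i → V, Function.Injective f ∧ ∀ a b, T.Adj a b → G.Adj (f a) (f b) := by
  classical
  have := Fintype.ofFinite V
  have h1 : (i - 1 - 1) * Fintype.card V < 2 * G.edgeFinset.card := by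
    rw [← Set.ncard_coe_finset, SimpleGraph.coe_edgeFinset, ← Nat.card_eq_fintype_card]
    have : i - 1 - 1 = i - 2 := by omega
    rw [this]; exact h
  obtain ⟨f, hf⟩ := ES903.erdos_sos G (i - 1) h1 T hT (by rw [Fintype.card_fin]; omega)
  exact ⟨f, f.injective, hf⟩

/-- Greedy packing of a finite family of trees. -/
theorem pack_fam {V : Type*} [Finite V] [Nonempty V] {ι : Type*} (G : SimpleGraph V)
    (m : ι → ℕ) (T : (i : ι) → SimpleGraph (Fin (m i))) (c : ℕ) : ∀ (s : Finset ι), s.card = c →
    (∀ i ∈ s, (T i).IsTree) →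
    (∀ j ∈ s, 2 ≤ m j → (m j - 2) * Nat.card V +
      2 * ∑ i ∈ s.filter (fun i => m j ≤ m i), (m i - 1) <
        2 * G.edgeSet.ncard + 2 * (m j - 1)) →
    ∃ f : (i : ι) → Fin (m i) → V,
      (∀ i ∈ s, Function.Injective (f i) ∧ ∀ a b, (T i).Adj a b → G.Adj (f i a) (f i b)) ∧
      (∀ i ∈ s, ∀ j ∈ s, i ≠ j → ∀ a b c d, (T i).Adj a b → (T j).Adj c d →
        s(f i a, f i b) ≠ s(f j c, f j d)) ∧
      ∃ R : Set (Sym2 V), R.ncard ≤ ∑ i ∈ s, (m i - 1) ∧
        ∀ i ∈ s, ∀ a b, (T i).Adj a b → s(f i a, f i b) ∈ R := by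
  classical
  induction c with
  | zero =>
    intro s hs hT h
    rw [Finset.card_eq_zero] at hs
    subst hs
    exact ⟨fun _ _ => Classical.arbitrary V, by simp, by simp, ∅, by simp, by simp⟩
  | succ c ih =>
    intro s hs hT h
    have hne : s.Nonempty := by
      rw [← Finset.card_pos]; omega
    obtain ⟨j, hj, hmin⟩ := Finset.exists_min_image s m hne
    have hc : (s.erase j).card = c := by
      rw [Finset.card_erase_of_mem hj]; omega
    obtain ⟨f, f1, f2, R, R1, R2⟩ := ih (s.erase j) hc
      (fun i hi => hT i (Finset.mem_of_mem_erase hi)) (by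
        intro j' hj' h2
        have h3 := h j' (Finset.mem_of_mem_erase hj') h2
        have h4 : ∑ i ∈ (s.erase j).filter (fun i => m j' ≤ m i), (m i - 1) ≤
            ∑ i ∈ s.filter (fun i => m j' ≤ m i), (m i - 1) := by
          apply Finset.sum_le_sum_of_subset
          apply Finset.filter_subset_filter
          exact Finset.erase_subset _ _
        omega)
    have hsum : ∑ i ∈ s, (m i - 1) = ∑ i ∈ s.erase j, (m i - 1) + (m j - 1) :=
      (Finset.sum_erase_add s _ hj).symm
    -- the new copy
    have hnew : ∃ g : Fin (m j) → V, Function.Injective g ∧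
        ∀ a b, (T j).Adj a b → (G.Adj (g a) (g b) ∧ s(g a, g b) ∉ R) := by
      by_cases h2 : 2 ≤ m j
      · have h3 := h j hj h2
        have h4 : s.filter (fun i => m j ≤ m i) = s := by
          apply Finset.filter_true_of_mem
          intro i hi; exact hmin i hi
        rw [h4, hsum] at h3
        have hdel := ncard_deleteEdges G R
        obtain ⟨g, g1, g2⟩ := es_ncard (G.deleteEdges R) (m j) h2 (T j) (hT j hj) (by omega)
        refine ⟨g, g1, ?_⟩
        intro a b hab
        have := g2 a b hab
        rw [SimpleGraph.deleteEdges_adj] at this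
        exact this
      · refine ⟨fun _ => Classical.arbitrary V, ?_, ?_⟩
        · intro a b _
          apply Fin.ext
          have := a.2
          have := b.2
          omega
        · intro a b hab
          exfalso
          have h5 : a = b := by
            apply Fin.ext
            have := a.2
            have := b.2
            omega
          subst h5
          exact (T j).irrefl hab
    obtain ⟨g, g1, g2⟩ := hnew
    refine ⟨Function.update f j g, ?_, ?_, R ∪ (Sym2.map g) '' (T j).edgeSet, ?_, ?_⟩
    · intro i hi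
      by_cases hij : i = j
      · subst hij
        rw [Function.update_self]
        exact ⟨g1, fun a b hab => (g2 a b hab).1⟩
      · rw [Function.update_of_ne hij]
        exact f1 i (Finset.mem_erase.2 ⟨hij, hi⟩)
    · intro i hi i' hi' hne' a b c d hab hcd
      by_cases hij : i = j
      · subst hij
        have hi'j : i' ≠ i := fun h => hne' h.symm
        rw [Function.update_self, Function.update_of_ne hi'j]
        intro hh
        exact (g2 a b hab).2 (hh ▸ R2 i' (Finset.mem_erase.2 ⟨hi'j, hi'⟩) c d hcd)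
      · by_cases hi'j : i' = j
        · subst hi'j
          rw [Function.update_self, Function.update_of_ne hij]
          intro hh
          exact (g2 c d hcd).2 (hh ▸ R2 i (Finset.mem_erase.2 ⟨hij, hi⟩) a b hab)
        · rw [Function.update_of_ne hij, Function.update_of_ne hi'j]
          exact f2 i (Finset.mem_erase.2 ⟨hij, hi⟩) i' (Finset.mem_erase.2 ⟨hi'j, hi'⟩) hne'
            a b c d hab hcd
    · have h1 := card_used (T j) (hT j hj) g
      have h2 := Set.ncard_union_le R ((Sym2.map g) '' (T j).edgeSet)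
      rw [hsum]
      omega
    · intro i hi a b hab
      by_cases hij : i = j
      · subst hij
        rw [Function.update_self]
        refine Or.inr ⟨s(a, b), ?_, rfl⟩
        exact hab
      · rw [Function.update_of_ne hij]
        exact Or.inl (R2 i (Finset.mem_erase.2 ⟨hij, hi⟩) a b hab)

theorem top_edges (N : ℕ) : 2 * (⊤ : SimpleGraph (Fin N)).edgeSet.ncard = N * (N - 1) := by
  classical
  have h1 : (⊤ : SimpleGraph (Fin N)).edgeSet.ncard = N.choose 2 := by
    rw [← SimpleGraph.coe_edgeFinset, Set.ncard_coe_finset, SimpleGraph.card_edgeFinset_top_eq_card_choose_two,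
      Fintype.card_fin]
  rw [h1, Nat.choose_two_right]
  exact Nat.mul_div_cancel' (Nat.even_mul_pred_self N).two_dvd

/-- Greedy packing into a complete graph: it is enough that for every `t` the trees of the family
with at least `t` edges have together fewer than `N (N - t) / 2 + t` edges. -/
theorem pack_complete (N : ℕ) (hN : 0 < N) {ι : Type*} (s : Finset ι)
    (m : ι → ℕ) (T : (i : ι) → SimpleGraph (Fin (m i))) (hT : ∀ i ∈ s, (T i).IsTree)
    (h : ∀ j ∈ s, 2 ≤ m j → 2 * ∑ i ∈ s.filter (fun i => m j ≤ m i), (m i - 1) <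
        N * (N - (m j - 1)) + 2 * (m j - 1)) :
    ∃ f : (i : ι) → Fin (m i) → Fin N,
      (∀ i ∈ s, Function.Injective (f i)) ∧
      (∀ i ∈ s, ∀ j ∈ s, i ≠ j → ∀ a b c d, (T i).Adj a b → (T j).Adj c d →
        s(f i a, f i b) ≠ s(f j c, f j d)) := by
  have : Nonempty (Fin N) := ⟨⟨0, hN⟩⟩
  obtain ⟨f, f1, f2, -⟩ := pack_fam (⊤ : SimpleGraph (Fin N)) m T s.card s rfl hT (by
    intro j hj h2
    have h3 := h j hj h2
    rw [top_edges, Nat.card_eq_fintype_card, Fintype.card_fin]
    have hself : m j - 1 ≤ ∑ i ∈ s.filter (fun i => m j ≤ m i), (m i - 1) :=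
      Finset.single_le_sum (f := fun i => m i - 1) (fun _ _ => Nat.zero_le _)
        (Finset.mem_filter.2 ⟨hj, le_rfl⟩)
    obtain ⟨l, hl⟩ : ∃ l, m j = l + 2 := ⟨m j - 2, by omega⟩
    rw [hl] at h3 hself ⊢
    have e1 : l + 2 - 1 = l + 1 := by omega
    have e2 : l + 2 - 2 = l := by omega
    rw [e1] at h3 hself ⊢
    rw [e2]
    by_cases hlN : l + 1 ≤ N
    · obtain ⟨r, hr⟩ : ∃ r, N = l + 1 + r := ⟨N - (l + 1), by omega⟩
      have e3 : N - (l + 1) = r := by omega
      have e4 : N - 1 = l + r := by omega
      rw [e3] at h3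
      rw [e4]
      have : N * (l + r) = N * r + l * N := by ring
      omega
    · have e3 : N - (l + 1) = 0 := by omega
      rw [e3, Nat.mul_zero] at h3
      omega)
  exact ⟨f, fun i hi => (f1 i hi).1, f2⟩

end Pool.Agent.V11266.GreedyPack
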