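import Mathlib

/-!
Bounded functions on the circle with vanishing negative Fourier coefficients.
-/

namespace Pool.Agent.V11266.HX

open MeasureTheory Filter Topology AddCircle
open scoped ENNReal ComplexConjugate

variable {T : ℝ} [hT : Fact (0 < T)]

/-- bounded, measurable, with vanishing negative Fourier coefficients -/
def HI (g : AddCircle T → ℂ) : Prop :=
  AEStronglyMeasurable g (haarAddCircle (T := T)) ∧
    (∃ C : ℝ, ∀ᵐ x ∂(haarAddCircle (T := T)), ‖g x‖ ≤ C) ∧
    ∀ n : ℤ, n < 0 → fourierCoeff g n = 0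

theorem HI.integrable {g : AddCircle T → ℂ} (h : HI g) : Integrable g (haarAddCircle (T := T)) := by
  obtain ⟨h1, ⟨C, h2⟩, _⟩ := h
  exact Integrable.of_bound h1 C h2

theorem integrable_bdd {g : AddCircle T → ℂ} (h1 : AEStronglyMeasurable g (haarAddCircle (T := T)))
    (h2 : ∃ C : ℝ, ∀ᵐ x ∂(haarAddCircle (T := T)), ‖g x‖ ≤ C) :
    Integrable g (haarAddCircle (T := T)) := by
  obtain ⟨C, h2⟩ := h2
  exact Integrable.of_bound h1 C h2

theorem integral_mul_eq_zero {p g : AddCircle T → ℂ}
    (hp : AEStronglyMeasurable p (haarAddCircle (T := T)))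
    (hpb : ∃ C : ℝ, ∀ᵐ x ∂(haarAddCircle (T := T)), ‖p x‖ ≤ C)
    (hp0 : ∀ n : ℤ, n ≤ 0 → fourierCoeff p n = 0) (hg : HI g) :
    ∫ x, p x * g x ∂(haarAddCircle (T := T)) = 0 := by
  obtain ⟨Cp, hCp⟩ := hpb
  obtain ⟨hg1, ⟨Cg, hCg⟩, hg3⟩ := hg
  have hgL : MemLp g 2 (haarAddCircle (T := T)) := MemLp.of_bound hg1 Cg hCg
  have hpL : MemLp (fun x => conj (p x)) 2 (haarAddCircle (T := T)) := by
    refine MemLp.of_bound (Complex.continuous_conj.comp_aestronglyMeasurable hp) Cp ?_
    filter_upwards [hCp] with x hx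
    rw [RCLike.norm_conj]
    exact hx
  have hsum := hasSum_fourier_series_L2 hgL.toLp
  have h1 := (innerSL ℂ (hpL.toLp (fun x => conj (p x)))).hasSum hsum
  have h2 : ∀ i : ℤ, (innerSL ℂ (hpL.toLp (fun x => conj (p x))))
      (fourierCoeff (hgL.toLp g) i • fourierLp 2 i) = 0 := by
    intro i
    rw [map_smul, smul_eq_mul]
    rcases lt_or_ge i 0 with hi | hi
    · rw [fourierCoeff_congr_ae hgL.coeFn_toLp, hg3 i hi, zero_mul]
    · have : (innerSL ℂ (hpL.toLp (fun x => conj (p x)))) (fourierLp 2 i) = 0 := by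
        rw [innerSL_apply_apply, L2.inner_def]
        rw [← hp0 (-i) (by omega), fourierCoeff]
        apply integral_congr_ae
        filter_upwards [coeFn_fourierLp 2 i, hpL.coeFn_toLp] with x hx1 hx2
        rw [hx1, hx2, RCLike.inner_apply', Complex.conj_conj, smul_eq_mul, neg_neg]
        ring
      rw [this, mul_zero]
  have h3 : (innerSL ℂ (hpL.toLp (fun x => conj (p x)))) (hgL.toLp g) = 0 := by
    simp only [h2] at h1
    exact h1.unique hasSum_zero
  rw [innerSL_apply_apply, L2.inner_def] at h3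
  rw [← h3]
  apply integral_congr_ae
  filter_upwards [hgL.coeFn_toLp, hpL.coeFn_toLp] with x hx1 hx2
  rw [hx1, hx2, RCLike.inner_apply', Complex.conj_conj]

theorem HI.add {f g : AddCircle T → ℂ} (hf : HI f) (hg : HI g) : HI (fun x => f x + g x) := by
  have hfi := hf.integrable
  have hgi := hg.integrable
  obtain ⟨hf1, ⟨Cf, hCf⟩, hf3⟩ := hf
  obtain ⟨hg1, ⟨Cg, hCg⟩, hg3⟩ := hg
  refine ⟨hf1.add hg1, ⟨Cf + Cg, ?_⟩, fun n hn => ?_⟩
  · filter_upwards [hCf, hCg] with x h1 h2
    exact (norm_add_le _ _).trans (add_le_add h1 h2)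
  · have := congrFun (fourierCoeff.add hfi hgi) n
    rw [Pi.add_apply, hf3 n hn, hg3 n hn, add_zero] at this
    exact this

theorem HI.const_mul {f : AddCircle T → ℂ} (c : ℂ) (hf : HI f) : HI (fun x => c * f x) := by
  obtain ⟨hf1, ⟨Cf, hCf⟩, hf3⟩ := hf
  refine ⟨hf1.const_mul c, ⟨‖c‖ * Cf, ?_⟩, fun n hn => ?_⟩
  · filter_upwards [hCf] with x h1
    rw [norm_mul]
    exact mul_le_mul_of_nonneg_left h1 (norm_nonneg _)
  · rw [fourierCoeff.const_mul, hf3 n hn, mul_zero]

theorem fourierCoeff_const (c : ℂ) (n : ℤ) (hn : n ≠ 0) :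
    fourierCoeff (fun _ : AddCircle T => c) n = 0 := by
  have h1 : (fun _ : AddCircle T => c) = fun x => c * (fourier 0 : C(AddCircle T, ℂ)) x := by
    funext x
    simp
  rw [h1, fourierCoeff.const_mul]
  have h2 := congrFun (fourierCoeff_fourier (T := T) 0) n
  rw [h2, Pi.single_eq_of_ne hn, mul_zero]

theorem HI.const (c : ℂ) : HI (fun _ : AddCircle T => c) :=
  ⟨aestronglyMeasurable_const, ⟨‖c‖, Eventually.of_forall fun _ => le_rfl⟩,
    fun n hn => fourierCoeff_const c n hn.ne⟩

theorem HI.sub {f g : AddCircle T → ℂ} (hf : HI f) (hg : HI g) : HI (fun x => f x - g x) := by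
  have := hf.add (hg.const_mul (-1))
  convert this using 2
  ring

theorem HI.fourier (n : ℤ) (hn : 0 ≤ n) : HI (fun x : AddCircle T => fourier n x) := by
  refine ⟨(map_continuous (_root_.fourier n)).aestronglyMeasurable,
    ⟨1, Eventually.of_forall fun x => ?_⟩, fun m hm => ?_⟩
  · show ‖_root_.fourier n x‖ ≤ 1
    rw [fourier_apply, Circle.norm_coe]
  · have h2 := congrFun (fourierCoeff_fourier (T := T) n) m
    rw [Pi.single_eq_of_ne (by omega)] at h2
    exact h2

theorem fourierCoeff_zero (f : AddCircle T → ℂ) :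
    fourierCoeff f 0 = ∫ x, f x ∂(haarAddCircle (T := T)) := by
  simp [fourierCoeff]

theorem HI.mul {f g : AddCircle T → ℂ} (hf : HI f) (hg : HI g) : HI (fun x => f x * g x) := by
  have hg' := hg
  obtain ⟨hf1, ⟨Cf, hCf⟩, hf3⟩ := hf
  obtain ⟨hg1, ⟨Cg, hCg⟩, hg3⟩ := hg
  refine ⟨hf1.mul hg1, ⟨Cf * Cg, ?_⟩, fun n hn => ?_⟩
  · filter_upwards [hCf, hCg] with x h1 h2
    rw [norm_mul]
    exact mul_le_mul h1 h2 (norm_nonneg _) ((norm_nonneg _).trans h1)
  · have h := integral_mul_eq_zero (p := fun x => _root_.fourier (-n) x * f x) (g := g)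
      ((map_continuous (_root_.fourier (-n))).aestronglyMeasurable.mul hf1)
      ⟨Cf, by
        filter_upwards [hCf] with x hx
        rw [norm_mul, fourier_apply, Circle.norm_coe, one_mul]
        exact hx⟩
      (by
        intro m hm
        rw [← hf3 (m + n) (by omega), fourierCoeff, fourierCoeff]
        apply integral_congr_ae
        refine Eventually.of_forall fun x => ?_
        simp only [smul_eq_mul]
        rw [show -(m + n) = -m + -n by ring, fourier_add]
        ring) hg'
    rw [fourierCoeff, ← h]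
    apply integral_congr_ae
    refine Eventually.of_forall fun x => ?_
    simp only [smul_eq_mul]
    ring

theorem HI.integral_mul {f g : AddCircle T → ℂ} (hf : HI f) (hg : HI g) :
    ∫ x, f x * g x ∂(haarAddCircle (T := T)) =
      (∫ x, f x ∂(haarAddCircle (T := T))) * ∫ x, g x ∂(haarAddCircle (T := T)) := by
  set c := ∫ x, f x ∂(haarAddCircle (T := T)) with hc
  have hfc := hf.sub (HI.const (T := T) c)
  have h0 : ∀ n : ℤ, n ≤ 0 → fourierCoeff (fun x : AddCircle T => f x - c) n = 0 := by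
    intro n hn
    rcases lt_or_eq_of_le hn with h | h
    · exact hfc.2.2 n h
    · rw [h, fourierCoeff_zero, integral_sub hf.integrable (integrable_const c), ← hc]
      simp
  have h1 := integral_mul_eq_zero hfc.1 hfc.2.1 h0 hg
  have h2 : ∫ x, (f x - c) * g x ∂(haarAddCircle (T := T)) =
      (∫ x, f x * g x ∂(haarAddCircle (T := T))) -
        c * ∫ x, g x ∂(haarAddCircle (T := T)) := by
    rw [← integral_const_mul, ← integral_sub (hf.mul hg).integrable
      (hg.integrable.const_mul c)]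
    apply integral_congr_ae
    exact Eventually.of_forall fun x => by ring
  rw [h2] at h1
  exact sub_eq_zero.1 h1

theorem HI.lim {g : ℕ → AddCircle T → ℂ} {G : AddCircle T → ℂ} (C : ℝ)
    (hg : ∀ n, HI (g n)) (hC : ∀ n, ∀ᵐ x ∂(haarAddCircle (T := T)), ‖g n x‖ ≤ C)
    (hlim : ∀ᵐ x ∂(haarAddCircle (T := T)), Tendsto (fun n => g n x) atTop (𝓝 (G x))) :
    HI G ∧ Tendsto (fun n => ∫ x, g n x ∂(haarAddCircle (T := T))) atTop
      (𝓝 (∫ x, G x ∂(haarAddCircle (T := T)))) := by
  have hm : AEStronglyMeasurable G (haarAddCircle (T := T)) :=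
    aestronglyMeasurable_of_tendsto_ae atTop (fun n => (hg n).1) hlim
  refine ⟨⟨hm, ⟨C, ?_⟩, fun n hn => ?_⟩, ?_⟩
  · filter_upwards [hlim, ae_all_iff.2 hC] with x h1 h2
    exact le_of_tendsto h1.norm (Eventually.of_forall h2)
  · have h1 : Tendsto (fun j => fourierCoeff (g j) n) atTop (𝓝 (fourierCoeff G n)) := by
      refine tendsto_integral_of_dominated_convergence (fun _ => C) ?_ (integrable_const C) ?_ ?_
      · intro j
        exact (map_continuous (_root_.fourier (-n))).aestronglyMeasurable.smul (hg j).1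
      · intro j
        filter_upwards [hC j] with x hx
        rw [norm_smul, fourier_apply, Circle.norm_coe, one_mul]
        exact hx
      · filter_upwards [hlim] with x hx
        exact hx.const_smul _
    have h2 : ∀ j, fourierCoeff (g j) n = 0 := fun j => (hg j).2.2 n hn
    simp only [h2] at h1
    exact (tendsto_nhds_unique h1 tendsto_const_nhds)
  · refine tendsto_integral_of_dominated_convergence (fun _ => C) (fun j => (hg j).1)
      (integrable_const C) hC hlim

theorem HI.pow {f : AddCircle T → ℂ} (hf : HI f) (n : ℕ) : HI (fun x => f x ^ n) := by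
  induction n with
  | zero => simpa using HI.const (T := T) 1
  | succ n ih =>
    have := ih.mul hf
    simpa [pow_succ] using this

theorem HI.sum {ι : Type*} (s : Finset ι) (f : ι → AddCircle T → ℂ) (hf : ∀ i ∈ s, HI (f i)) :
    HI (fun x => ∑ i ∈ s, f i x) := by
  classical
  induction s using Finset.induction_on with
  | empty => simpa using HI.const (T := T) 0
  | insert a s ha ih =>
    simp only [Finset.sum_insert ha]
    exact (hf a (Finset.mem_insert_self _ _)).add
      (ih fun i hi => hf i (Finset.mem_insert_of_mem hi))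

theorem HI.integral_pow {f : AddCircle T → ℂ} (hf : HI f) (n : ℕ) :
    ∫ x, f x ^ n ∂(haarAddCircle (T := T)) = (∫ x, f x ∂(haarAddCircle (T := T))) ^ n := by
  induction n with
  | zero => simp
  | succ n ih =>
    have := (hf.pow n).integral_mul hf
    simp only [← pow_succ] at this
    rw [this, ih, pow_succ]

/-- inverse of a function with real part bounded below -/
theorem HI.inv {g : AddCircle T → ℂ} (hg : HI g) {c : ℝ} (hc : 0 < c)
    (hre : ∀ᵐ x ∂(haarAddCircle (T := T)), c ≤ (g x).re) : HI (fun x => (g x)⁻¹) := by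
  obtain ⟨C, hC⟩ := hg.2.1
  -- choose R
  set C' := max C 1 with hC'
  have hC'1 : 1 ≤ C' := le_max_right _ _
  set R := C' ^ 2 / c with hR
  have hRpos : 0 < R := by positivity
  have hcR : c * R = C' ^ 2 := by rw [hR]; field_simp
  set θ := Real.sqrt (1 - c / R) with hθ
  have hcR1 : c / R ≤ 1 ∨ 1 < c / R := le_or_gt _ _
  have hθ0 : 0 ≤ θ := Real.sqrt_nonneg _
  have hθ1 : θ < 1 := by
    rw [hθ, Real.sqrt_lt' one_pos]
    have : 0 < c / R := by positivity
    linarith
  -- w = 1 - g / R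
  have hw : HI (fun x => 1 - (1 / (R : ℂ)) * g x) := (HI.const 1).sub (hg.const_mul _)
  have hwn : ∀ᵐ x ∂(haarAddCircle (T := T)), ‖1 - (1 / (R : ℂ)) * g x‖ ≤ θ := by
    filter_upwards [hC, hre] with x h1 h2
    rw [hθ]
    apply Real.le_sqrt_of_sq_le
    have h3 : ‖1 - (1 / (R : ℂ)) * g x‖ ^ 2 =
        1 - 2 * (g x).re / R + ‖g x‖ ^ 2 / R ^ 2 := by
      rw [← Complex.normSq_eq_norm_sq, ← Complex.normSq_eq_norm_sq, Complex.normSq_apply,
        Complex.normSq_apply]
      have hre1 : (1 - (1 / (R : ℂ)) * g x).re = 1 - (g x).re / R := by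
        have : (1 / (R : ℂ)) * g x = ((1 / R : ℝ) : ℂ) * g x := by push_cast; ring
        rw [this, Complex.sub_re, Complex.re_ofReal_mul, Complex.one_re]
        ring
      have him1 : (1 - (1 / (R : ℂ)) * g x).im = - (g x).im / R := by
        have : (1 / (R : ℂ)) * g x = ((1 / R : ℝ) : ℂ) * g x := by push_cast; ring
        rw [this, Complex.sub_im, Complex.im_ofReal_mul, Complex.one_im]
        ring
      rw [hre1, him1]
      field_simp
      ring
    rw [h3]
    have h4 : ‖g x‖ ^ 2 ≤ C' ^ 2 := by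
      have : ‖g x‖ ≤ C' := h1.trans (le_max_left _ _)
      have h0 := norm_nonneg (g x)
      nlinarith
    have h5 : ‖g x‖ ^ 2 / R ^ 2 ≤ c / R := by
      rw [div_le_div_iff₀ (by positivity) hRpos]
      have : c * R ^ 2 = C' ^ 2 * R := by rw [← hcR]; ring
      rw [this]
      exact mul_le_mul_of_nonneg_right h4 hRpos.le
    have h6 : 2 * c / R ≤ 2 * (g x).re / R := by
      apply div_le_div_of_nonneg_right _ hRpos.le
      linarith
    have h7 : 2 * c / R = c / R + c / R := by ring
    linarith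
  have hS : ∀ n : ℕ, HI (fun x => (1 / (R : ℂ)) * ∑ i ∈ Finset.range n,
      (1 - (1 / (R : ℂ)) * g x) ^ i) := fun n =>
    (HI.sum _ _ fun i _ => hw.pow i).const_mul _
  refine (HI.lim (1 / R * (1 / (1 - θ))) hS ?_ ?_).1
  · intro n
    filter_upwards [hwn] with x hx
    rw [norm_mul]
    have h1 : ‖(1 / (R : ℂ))‖ = 1 / R := by
      rw [norm_div, norm_one, Complex.norm_real, Real.norm_of_nonneg hRpos.le]
    rw [h1]
    apply mul_le_mul_of_nonneg_left _ (by positivity)
    refine (norm_sum_le _ _).trans ?_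
    have h2 : ∑ i ∈ Finset.range n, ‖(1 - (1 / (R : ℂ)) * g x) ^ i‖ ≤
        ∑ i ∈ Finset.range n, θ ^ i := by
      refine Finset.sum_le_sum fun i _ => ?_
      rw [norm_pow]
      exact pow_le_pow_left₀ (norm_nonneg _) hx i
    refine h2.trans ?_
    have h3 : ∑ i ∈ Finset.range n, θ ^ i ≤ ∑' i, θ ^ i :=
      (summable_geometric_of_lt_one hθ0 hθ1).sum_le_tsum _ (fun i _ => pow_nonneg hθ0 i)
    rw [tsum_geometric_of_lt_one hθ0 hθ1] at h3
    rw [one_div]
    exact h3
  · filter_upwards [hwn, hre] with x hx hx2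
    have h1 : ‖1 - (1 / (R : ℂ)) * g x‖ < 1 := lt_of_le_of_lt hx hθ1
    have h2 := (hasSum_geometric_of_norm_lt_one h1).tendsto_sum_nat.const_mul (1 / (R : ℂ))
    convert h2 using 2
    have hR0 : (R : ℂ) ≠ 0 := by exact_mod_cast hRpos.ne'
    rw [sub_sub_cancel]
    field_simp

end Pool.Agent.V11266.HX
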