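import Pool.Agent.V11266.HX1

/-!
For every integrable nonnegative `F` there is `k` in `H^∞` with `Re (1/k) ≥ 1 + F` a.e.
-/

namespace Pool.Agent.V11266.HX

open MeasureTheory Filter Topology AddCircle
open scoped ENNReal ComplexConjugate

variable {T : ℝ} [hT : Fact (0 < T)]

theorem ae_summable {f : ℕ → AddCircle T → ℝ}
    (hf : ∀ n, Integrable (f n) (haarAddCircle (T := T)))
    (h0 : ∀ n, ∀ᵐ x ∂(haarAddCircle (T := T)), 0 ≤ f n x)
    (hs : Summable (fun n => ∫ x, f n x ∂(haarAddCircle (T := T)))) :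
    ∀ᵐ x ∂(haarAddCircle (T := T)), Summable (fun n => f n x) := by
  have h1 : ∫⁻ x, ∑' n, ENNReal.ofReal (f n x) ∂(haarAddCircle (T := T)) ≠ ∞ := by
    rw [lintegral_tsum (fun n => (hf n).1.aemeasurable.ennreal_ofReal)]
    have h2 : ∀ n, ∫⁻ x, ENNReal.ofReal (f n x) ∂(haarAddCircle (T := T)) =
        ENNReal.ofReal (∫ x, f n x ∂(haarAddCircle (T := T))) := fun n =>
      (ofReal_integral_eq_lintegral_ofReal (hf n) (h0 n)).symm
    simp only [h2]
    exact hs.tsum_ofReal_ne_top
  have h3 := ae_lt_top' (AEMeasurable.tsum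
    (fun n => (hf n).1.aemeasurable.ennreal_ofReal)) h1
  filter_upwards [h3, ae_all_iff.2 h0] with x hx hx0
  have h4 := ENNReal.summable_toReal hx.ne
  convert h4 using 2 with n
  exact (ENNReal.toReal_ofReal (hx0 n)).symm

theorem exists_analytic (g : C(AddCircle T, ℝ)) {ε : ℝ} (hε : 0 < ε) :
    ∃ h : AddCircle T → ℂ, HI h ∧ (∀ x, |(h x).re - g x| ≤ ε) ∧
      (∫ x, h x ∂(haarAddCircle (T := T))).im = 0 := by
  let gc : C(AddCircle T, ℂ) := ⟨fun x => (g x : ℂ), Complex.continuous_ofReal.comp g.continuous⟩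
  have hmem : gc ∈ (Submodule.span ℂ (Set.range (@fourier T))).topologicalClosure := by
    rw [span_fourier_closure_eq_top]; trivial
  rw [← SetLike.mem_coe, Submodule.topologicalClosure_coe, Metric.mem_closure_iff] at hmem
  obtain ⟨P, hP, hPg⟩ := hmem ε hε
  have key : ∀ P ∈ Submodule.span ℂ (Set.range (@fourier T)),
      ∀ a : ℂ, ∃ h : AddCircle T → ℂ, HI h ∧ ∀ x, (h x).re = (a * P x).re := by
    intro P hP
    induction hP using Submodule.span_induction with
    | mem P hP =>
      obtain ⟨n, rfl⟩ := hP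
      intro a
      rcases le_or_gt 0 n with hn | hn
      · exact ⟨fun x => a * fourier n x, (HI.fourier n hn).const_mul a, fun x => rfl⟩
      · refine ⟨fun x => conj a * fourier (-n) x, (HI.fourier (-n) (by omega)).const_mul _,
          fun x => ?_⟩
        show (conj a * fourier (-n) x).re = _
        rw [fourier_neg, ← map_mul, Complex.conj_re]
    | zero => exact fun a => ⟨fun _ => 0, HI.const 0, fun x => by simp⟩
    | add P Q _ _ hP hQ =>
      intro a
      obtain ⟨h1, h2, h3⟩ := hP a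
      obtain ⟨h4, h5, h6⟩ := hQ a
      refine ⟨fun x => h1 x + h4 x, h2.add h5, fun x => ?_⟩
      rw [Complex.add_re, h3, h6, ContinuousMap.add_apply, mul_add, Complex.add_re]
    | smul b P _ hP =>
      intro a
      obtain ⟨h1, h2, h3⟩ := hP (a * b)
      refine ⟨h1, h2, fun x => ?_⟩
      rw [h3, ContinuousMap.smul_apply, smul_eq_mul, mul_assoc]
  obtain ⟨h, hh, hre⟩ := key P hP 1
  refine ⟨fun x => h x - ((∫ x, h x ∂(haarAddCircle (T := T))).im * Complex.I : ℂ),
    hh.sub (HI.const _), fun x => ?_, ?_⟩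
  · have h1 : (h x - ((∫ x, h x ∂(haarAddCircle (T := T))).im * Complex.I : ℂ)).re = (P x).re := by
      rw [Complex.sub_re, hre x, one_mul]
      simp
    rw [h1]
    have h2 : (P x).re - g x = (P x - gc x).re := by
      rw [Complex.sub_re]
      rfl
    rw [h2]
    refine (Complex.abs_re_le_norm _).trans ?_
    have h3 : dist (gc x) (P x) ≤ dist gc P := ContinuousMap.dist_apply_le_dist x
    rw [dist_comm, dist_eq_norm] at h3
    exact h3.trans hPg.le
  · rw [integral_sub hh.integrable (integrable_const _)]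
    simp

theorem norm_inv_le_one {z : ℂ} (hz : 1 ≤ z.re) : ‖z⁻¹‖ ≤ 1 := by
  rw [norm_inv]
  exact inv_le_one_of_one_le₀ (hz.trans (Complex.re_le_norm z))

theorem HI.inv_integral {g : AddCircle T → ℂ} (hg : HI g) {c : ℝ} (hc : 0 < c)
    (hre : ∀ᵐ x ∂(haarAddCircle (T := T)), c ≤ (g x).re) :
    ∫ x, (g x)⁻¹ ∂(haarAddCircle (T := T)) = (∫ x, g x ∂(haarAddCircle (T := T)))⁻¹ := by
  have h1 := (hg.inv hc hre).integral_mul hg
  have h2 : ∫ x, (g x)⁻¹ * g x ∂(haarAddCircle (T := T)) = 1 := by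
    have : (fun x => (g x)⁻¹ * g x) =ᵐ[haarAddCircle (T := T)] fun _ => (1 : ℂ) := by
      filter_upwards [hre] with x hx
      refine inv_mul_cancel₀ ?_
      intro h
      rw [h] at hx
      simp at hx
      linarith
    rw [integral_congr_ae this]
    simp
  rw [h2] at h1
  exact eq_inv_of_mul_eq_one_left h1.symm

/-- The main construction. -/
theorem exists_k (F : AddCircle T → ℝ) (hF : Integrable F (haarAddCircle (T := T)))
    (hF0 : ∀ᵐ x ∂(haarAddCircle (T := T)), 0 ≤ F x) {ε : ℝ} (hε : 0 < ε) :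
    ∃ k : AddCircle T → ℂ, HI k ∧
      (∀ᵐ x ∂(haarAddCircle (T := T)), k x ≠ 0 ∧ 1 + F x ≤ ((k x)⁻¹).re) ∧
      ∃ η : ℝ, 0 ≤ η ∧ η ≤ (∫ x, F x ∂(haarAddCircle (T := T))) + ε ∧
        ∫ x, k x ∂(haarAddCircle (T := T)) = ((1 + η : ℝ) : ℂ)⁻¹ := by
  let e : ℕ → ℝ := fun j => ε / 8 * (1 / 4) ^ j
  have he : ∀ j, 0 < e j := fun j => by positivity
  have hes : ∀ j, e (j + 1) = e j / 4 := fun j => by simp only [e, pow_succ]; ring
  choose G hG1 hG2 using fun j => hF.exists_boundedContinuous_integral_sub_le (he j)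
  -- continuous increments
  let g : ℕ → C(AddCircle T, ℝ) := fun j => Nat.casesOn j
    ⟨fun x => |G 0 x|, (G 0).continuous.abs⟩
    (fun j => ⟨fun x => |G (j + 1) x - G j x|, ((G (j + 1)).continuous.sub (G j).continuous).abs⟩)
  have hg0 : ∀ x, g 0 x = |G 0 x| := fun x => rfl
  have hgs : ∀ j x, g (j + 1) x = |G (j + 1) x - G j x| := fun j x => rfl
  have hgsum : ∀ n x, G n x ≤ ∑ j ∈ Finset.range (n + 1), g j x := by
    intro n x
    induction n with
    | zero => simp [hg0, le_abs_self]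
    | succ n ih =>
      rw [Finset.sum_range_succ, hgs]
      have := le_abs_self (G (n + 1) x - G n x)
      linarith
  choose h hh1 hh2 hh3 using fun j => exists_analytic
    (⟨fun x => g j x + e j, (g j).continuous.add continuous_const⟩ : C(AddCircle T, ℝ)) (he j)
  have hre1 : ∀ j x, g j x ≤ (h j x).re := by
    intro j x
    have h1 : |(h j x).re - (g j x + e j)| ≤ e j := hh2 j x
    rw [abs_le] at h1
    linarith [h1.1]
  have hre2 : ∀ j x, (h j x).re ≤ g j x + 2 * e j := by
    intro j x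
    have h1 : |(h j x).re - (g j x + e j)| ≤ e j := hh2 j x
    rw [abs_le] at h1
    linarith [h1.2]
  have hg_nonneg : ∀ j x, 0 ≤ g j x := by
    intro j x
    cases j with
    | zero => rw [hg0]; exact abs_nonneg _
    | succ j => rw [hgs]; exact abs_nonneg _
  have hre0 : ∀ j x, 0 ≤ (h j x).re := fun j x => (hg_nonneg j x).trans (hre1 j x)
  -- integrals
  let η : ℕ → ℝ := fun j => (∫ x, h j x ∂(haarAddCircle (T := T))).re
  have hη : ∀ j, ∫ x, h j x ∂(haarAddCircle (T := T)) = (η j : ℂ) := by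
    intro j
    apply Complex.ext
    · simp [η]
    · rw [hh3 j]; simp
  have hηint : ∀ j, η j = ∫ x, (h j x).re ∂(haarAddCircle (T := T)) := by
    intro j
    exact (integral_re (hh1 j).integrable).symm
  have hη0 : ∀ j, 0 ≤ η j := by
    intro j
    rw [hηint]
    exact integral_nonneg (hre0 j)
  have hgint : ∀ j, Integrable (fun x => g j x) (haarAddCircle (T := T)) := by
    intro j
    obtain ⟨C, hC⟩ := (isCompact_range (g j).continuous).isBounded.exists_norm_le
    refine Integrable.of_bound (g j).continuous.aestronglyMeasurable C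
      (Eventually.of_forall fun x => hC _ ⟨x, rfl⟩)
  have hηle : ∀ j, η j ≤ (∫ x, g j x ∂(haarAddCircle (T := T))) + 2 * e j := by
    intro j
    rw [hηint]
    have h1 : ∫ x, (h j x).re ∂(haarAddCircle (T := T)) ≤
        ∫ x, (g j x + 2 * e j) ∂(haarAddCircle (T := T)) := by
      refine integral_mono (hh1 j).integrable.re ((hgint j).add (integrable_const _)) ?_
      exact fun x => hre2 j x
    rw [integral_add (hgint j) (integrable_const _)] at h1
    simpa using h1
  have hFG : ∀ j, Integrable (fun x => ‖F x - G j x‖) (haarAddCircle (T := T)) :=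
    fun j => (hF.sub (hG2 j)).norm
  have hη00 : η 0 ≤ (∫ x, F x ∂(haarAddCircle (T := T))) + 3 * e 0 := by
    have h1 : ∫ x, g 0 x ∂(haarAddCircle (T := T)) ≤
        ∫ x, (F x + ‖F x - G 0 x‖) ∂(haarAddCircle (T := T)) := by
      refine integral_mono_ae (hgint 0) (hF.add (hFG 0)) ?_
      filter_upwards [hF0] with x hx
      rw [hg0, Real.norm_eq_abs, abs_sub_comm]
      have := abs_add_le (G 0 x - F x) (F x)
      rw [sub_add_cancel, abs_of_nonneg hx] at this
      linarith
    rw [integral_add hF (hFG 0)] at h1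
    have := hηle 0
    have := hG1 0
    linarith
  have hηs : ∀ j, η (j + 1) ≤ 2 * e j := by
    intro j
    have h1 : ∫ x, g (j + 1) x ∂(haarAddCircle (T := T)) ≤
        ∫ x, (‖F x - G (j + 1) x‖ + ‖F x - G j x‖) ∂(haarAddCircle (T := T)) := by
      refine integral_mono (hgint (j + 1)) ((hFG (j + 1)).add (hFG j)) ?_
      intro x
      show g (j + 1) x ≤ ‖F x - G (j + 1) x‖ + ‖F x - G j x‖
      rw [hgs, Real.norm_eq_abs, Real.norm_eq_abs]
      have := abs_sub_le (G (j + 1) x) (F x) (G j x)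
      rw [abs_sub_comm (G (j + 1) x) (F x)] at this
      exact this
    rw [integral_add (hFG (j + 1)) (hFG j)] at h1
    have h2 := hηle (j + 1)
    have h3 := hG1 j
    have h4 := hG1 (j + 1)
    have h5 := he j
    rw [hes] at h2 h4
    linarith
  have hesum : HasSum e (ε / 6) := by
    have := (hasSum_geometric_of_lt_one (r := (1 / 4 : ℝ)) (by norm_num) (by norm_num)).mul_left
      (ε / 8)
    have h46 : ε / 8 * (1 - 1 / 4 : ℝ)⁻¹ = ε / 6 := by
      rw [show (1 - 1 / 4 : ℝ)⁻¹ = 4 / 3 by norm_num]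
      ring
    rw [h46] at this
    exact this
  have hηsum : Summable η := by
    rw [← summable_nat_add_iff 1]
    exact Summable.of_nonneg_of_le (fun j => hη0 _) hηs (hesum.summable.mul_left 2)
  have hηtot : ∑' j, η j ≤ (∫ x, F x ∂(haarAddCircle (T := T))) + ε := by
    rw [hηsum.tsum_eq_zero_add]
    have h1 : ∑' j, η (j + 1) ≤ ∑' j, 2 * e j :=
      ((summable_nat_add_iff 1).2 hηsum).tsum_le_tsum hηs (hesum.summable.mul_left 2)
    rw [tsum_mul_left, hesum.tsum_eq] at h1
    have h2 : e 0 = ε / 8 := by simp [e]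
    rw [h2] at hη00
    linarith
  have hη2 : Summable (fun j => 2 ^ j * η j) := by
    rw [← summable_nat_add_iff 1]
    have h1 : Summable (fun j : ℕ => ε / 2 * (1 / 2 : ℝ) ^ j) :=
      (summable_geometric_of_lt_one (by norm_num) (by norm_num)).mul_left _
    refine Summable.of_nonneg_of_le (fun j => mul_nonneg (by positivity) (hη0 _)) (fun j => ?_) h1
    have h2 := hηs j
    have h3 : (2 : ℝ) ^ (j + 1) * η (j + 1) ≤ 2 ^ (j + 1) * (2 * e j) :=
      mul_le_mul_of_nonneg_left h2 (by positivity)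
    refine h3.trans (le_of_eq ?_)
    simp only [e]
    have h4 : (1 / 4 : ℝ) ^ j = (1 / 2) ^ j * (1 / 2) ^ j := by
      rw [← mul_pow]; norm_num
    have h5 : (2 : ℝ) ^ j * (1 / 2) ^ j = 1 := by
      rw [← mul_pow]; norm_num
    rw [h4, pow_succ]
    calc (2 : ℝ) ^ j * 2 * (2 * (ε / 8 * ((1 / 2) ^ j * (1 / 2) ^ j)))
        = ε / 2 * ((2 : ℝ) ^ j * (1 / 2) ^ j) * (1 / 2) ^ j := by ring
      _ = ε / 2 * (1 / 2) ^ j := by rw [h5, mul_one]
  -- almost everywhere convergence of the series of h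
  have hq : ∀ j, HI (fun x => 1 + (2 ^ j : ℂ) * h j x) := fun j =>
    (HI.const 1).add ((hh1 j).const_mul _)
  have hqre : ∀ j x, 1 ≤ (1 + (2 ^ j : ℂ) * h j x).re := by
    intro j x
    have h1 : (2 ^ j : ℂ) * h j x = ((2 ^ j : ℝ) : ℂ) * h j x := by push_cast; ring
    rw [h1, Complex.add_re, Complex.re_ofReal_mul, Complex.one_re]
    have := mul_nonneg (show (0 : ℝ) ≤ 2 ^ j by positivity) (hre0 j x)
    linarith
  have hp : ∀ j, HI (fun x => (1 + (2 ^ j : ℂ) * h j x)⁻¹) := fun j =>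
    (hq j).inv one_pos (Eventually.of_forall (hqre j))
  have hpint : ∀ j, ∫ x, (1 + (2 ^ j : ℂ) * h j x)⁻¹ ∂(haarAddCircle (T := T)) =
      ((1 + 2 ^ j * η j : ℝ) : ℂ)⁻¹ := by
    intro j
    rw [(hq j).inv_integral one_pos (Eventually.of_forall (hqre j)),
      integral_add (integrable_const _) ((hh1 j).const_mul _).integrable, integral_const_mul, hη]
    simp
  have hpn : ∀ j x, ‖(1 + (2 ^ j : ℂ) * h j x)⁻¹‖ ≤ 1 := fun j x => norm_inv_le_one (hqre j x)
  have hpsq : ∀ j, ∫ x, ‖(1 + (2 ^ j : ℂ) * h j x)⁻¹ - 1‖ ^ 2 ∂(haarAddCircle (T := T)) ≤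
      2 * (2 ^ j * η j) := by
    intro j
    have h1 : ∀ x, ‖(1 + (2 ^ j : ℂ) * h j x)⁻¹ - 1‖ ^ 2 ≤
        2 - 2 * ((1 + (2 ^ j : ℂ) * h j x)⁻¹).re := by
      intro x
      have h2 := hpn j x
      set z := (1 + (2 ^ j : ℂ) * h j x)⁻¹ with hz
      have h3 : ‖z - 1‖ ^ 2 = ‖z‖ ^ 2 - 2 * z.re + 1 := by
        rw [← Complex.normSq_eq_norm_sq, ← Complex.normSq_eq_norm_sq, Complex.normSq_apply,
          Complex.normSq_apply, Complex.sub_re, Complex.sub_im, Complex.one_re, Complex.one_im]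
        ring
      rw [h3]
      have h4 : ‖z‖ ^ 2 ≤ 1 := by
        have := norm_nonneg z
        nlinarith
      linarith
    have h2 : ∫ x, ‖(1 + (2 ^ j : ℂ) * h j x)⁻¹ - 1‖ ^ 2 ∂(haarAddCircle (T := T)) ≤
        ∫ x, (2 - 2 * ((1 + (2 ^ j : ℂ) * h j x)⁻¹).re) ∂(haarAddCircle (T := T)) := by
      refine integral_mono_of_nonneg (Eventually.of_forall fun x => by positivity) ?_
        (Eventually.of_forall h1)
      exact (integrable_const _).sub ((hp j).integrable.re.const_mul 2)
    have h3 : ∫ x, (2 - 2 * ((1 + (2 ^ j : ℂ) * h j x)⁻¹).re) ∂(haarAddCircle (T := T)) =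
        2 - 2 * (1 + 2 ^ j * η j)⁻¹ := by
      have hi : Integrable (fun x => 2 * ((1 + (2 ^ j : ℂ) * h j x)⁻¹).re)
          (haarAddCircle (T := T)) := (hp j).integrable.re.const_mul 2
      rw [integral_sub (integrable_const _) hi, integral_const_mul]
      have h4 : ∫ x, ((1 + (2 ^ j : ℂ) * h j x)⁻¹).re ∂(haarAddCircle (T := T)) =
          (∫ x, (1 + (2 ^ j : ℂ) * h j x)⁻¹ ∂(haarAddCircle (T := T))).re :=
        integral_re (hp j).integrable
      rw [h4, hpint j, ← Complex.ofReal_inv, Complex.ofReal_re]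
      simp
    rw [h3] at h2
    refine h2.trans ?_
    have h5 : 0 ≤ 2 ^ j * η j := mul_nonneg (by positivity) (hη0 j)
    set s := 2 ^ j * η j with hs
    have h6 : 1 - (1 + s)⁻¹ ≤ s := by
      have h7 : (1 + s) * (1 + s)⁻¹ = 1 := mul_inv_cancel₀ (by positivity)
      have h8 : 0 < (1 + s)⁻¹ := by positivity
      nlinarith
    linarith
  have hae1 : ∀ᵐ x ∂(haarAddCircle (T := T)),
      Summable (fun j => ‖(1 + (2 ^ j : ℂ) * h j x)⁻¹ - 1‖ ^ 2) := by
    refine ae_summable (f := fun j x => ‖(1 + (2 ^ j : ℂ) * h j x)⁻¹ - 1‖ ^ 2) ?_ ?_ ?_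
    · intro j
      refine Integrable.of_bound (((hp j).sub (HI.const 1)).1.norm.pow 2) 4
        (Eventually.of_forall fun x => ?_)
      rw [Real.norm_of_nonneg (by positivity)]
      have h1 : ‖(1 + (2 ^ j : ℂ) * h j x)⁻¹ - 1‖ ≤ 2 := by
        refine (norm_sub_le _ _).trans ?_
        have := hpn j x
        rw [norm_one]
        linarith
      have h0 := norm_nonneg ((1 + (2 ^ j : ℂ) * h j x)⁻¹ - 1)
      nlinarith
    · exact fun j => Eventually.of_forall fun x => by positivity
    · refine Summable.of_nonneg_of_le (fun j => integral_nonneg fun x => by positivity) hpsq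
        (hη2.mul_left 2)
  have hae2 : ∀ᵐ x ∂(haarAddCircle (T := T)), Summable (fun j => h j x) := by
    filter_upwards [hae1] with x hx
    have h1 := hx.tendsto_atTop_zero
    have h2 : ∀ᶠ j in atTop, ‖(1 + (2 ^ j : ℂ) * h j x)⁻¹ - 1‖ ^ 2 < (1 / 2) ^ 2 :=
      h1.eventually_lt_const (by norm_num)
    have h3 : ∀ᶠ j in atTop, ‖h j x‖ ≤ (1 / 2 : ℝ) ^ j := by
      filter_upwards [h2] with j hj
      have h4 : ‖(1 + (2 ^ j : ℂ) * h j x)⁻¹ - 1‖ < 1 / 2 :=
        lt_of_pow_lt_pow_left₀ 2 (by norm_num) hj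
      have hne : (1 + (2 ^ j : ℂ) * h j x) ≠ 0 := by
        intro h0
        have := hqre j x
        rw [h0] at this
        simp at this
        linarith
      have h5 : (1 + (2 ^ j : ℂ) * h j x)⁻¹ - 1 =
          -((2 ^ j : ℂ) * h j x) * (1 + (2 ^ j : ℂ) * h j x)⁻¹ := by
        field_simp
        ring
      rw [h5, norm_mul, norm_neg, norm_inv, ← div_eq_mul_inv,
        div_lt_iff₀ (norm_pos_iff.2 hne)] at h4
      have h6 : ‖1 + (2 ^ j : ℂ) * h j x‖ ≤ 1 + ‖(2 ^ j : ℂ) * h j x‖ := by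
        refine (norm_add_le _ _).trans ?_
        rw [norm_one]
      have h7 : ‖(2 ^ j : ℂ) * h j x‖ ≤ 1 := by linarith
      rw [norm_mul, norm_pow, Complex.norm_two] at h7
      rw [one_div, inv_pow]
      rw [← one_div, le_div_iff₀ (by positivity)]
      linarith
    obtain ⟨N, hN⟩ := eventually_atTop.1 h3
    rw [← summable_nat_add_iff N]
    refine Summable.of_norm_bounded (g := fun j => (1 / 2 : ℝ) ^ (j + N)) ?_
      (fun j => hN (j + N) (by omega))
    exact (summable_nat_add_iff N).2 (summable_geometric_of_lt_one (by norm_num) (by norm_num))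
  have hae3 : ∀ᵐ x ∂(haarAddCircle (T := T)), Tendsto (fun j => G j x) atTop (𝓝 (F x)) := by
    have h1 := ae_summable (f := fun j x => ‖F x - G j x‖) hFG
      (fun j => Eventually.of_forall fun x => norm_nonneg _)
      (Summable.of_nonneg_of_le (fun j => integral_nonneg fun x => norm_nonneg _) hG1
        hesum.summable)
    filter_upwards [h1] with x hx
    have h2 := hx.tendsto_atTop_zero
    rw [tendsto_iff_norm_sub_tendsto_zero]
    simpa [norm_sub_rev] using h2
  -- the function k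
  let kN : ℕ → AddCircle T → ℂ := fun N x => (1 + ∑ j ∈ Finset.range N, h j x)⁻¹
  have hHN : ∀ N, HI (fun x => 1 + ∑ j ∈ Finset.range N, h j x) := fun N =>
    (HI.const 1).add (HI.sum _ _ fun j _ => hh1 j)
  have hHNre : ∀ N x, 1 ≤ (1 + ∑ j ∈ Finset.range N, h j x).re := by
    intro N x
    rw [Complex.add_re, Complex.re_sum, Complex.one_re]
    have : 0 ≤ ∑ j ∈ Finset.range N, (h j x).re := Finset.sum_nonneg fun j _ => hre0 j x
    linarith
  have hkN : ∀ N, HI (kN N) := fun N => (hHN N).inv one_pos (Eventually.of_forall (hHNre N))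
  have hkNint : ∀ N, ∫ x, kN N x ∂(haarAddCircle (T := T)) =
      ((1 + ∑ j ∈ Finset.range N, η j : ℝ) : ℂ)⁻¹ := by
    intro N
    show ∫ x, (1 + ∑ j ∈ Finset.range N, h j x)⁻¹ ∂(haarAddCircle (T := T)) = _
    rw [(hHN N).inv_integral one_pos (Eventually.of_forall (hHNre N)),
      integral_add (integrable_const _) (HI.sum _ _ fun j _ => hh1 j).integrable,
      integral_finsetSum _ fun j _ => (hh1 j).integrable]
    simp only [hη]
    simp
  have hHre : ∀ x, Summable (fun j => h j x) → 1 ≤ (1 + ∑' j, h j x).re := by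
    intro x hx
    have h1 := (hx.hasSum.tendsto_sum_nat).const_add 1
    have h2 := (Complex.continuous_re.tendsto _).comp h1
    exact ge_of_tendsto h2 (Eventually.of_forall fun N => hHNre N x)
  have hlim : ∀ᵐ x ∂(haarAddCircle (T := T)),
      Tendsto (fun N => kN N x) atTop (𝓝 ((1 + ∑' j, h j x)⁻¹)) := by
    filter_upwards [hae2] with x hx
    refine ((hx.hasSum.tendsto_sum_nat).const_add 1).inv₀ ?_
    intro h0
    have := hHre x hx
    rw [h0] at this
    simp at this
    linarith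
  have hlimres := HI.lim 1 hkN (fun N => Eventually.of_forall fun x =>
    norm_inv_le_one (hHNre N x)) hlim
  refine ⟨fun x => (1 + ∑' j, h j x)⁻¹, hlimres.1, ?_, ∑' j, η j, tsum_nonneg hη0, hηtot, ?_⟩
  · filter_upwards [hae2, hae3] with x hx hx3
    have h1 := hHre x hx
    have hne : 1 + ∑' j, h j x ≠ 0 := by
      intro h0
      rw [h0] at h1
      simp at h1
      linarith
    refine ⟨inv_ne_zero hne, ?_⟩
    rw [inv_inv, Complex.add_re, Complex.one_re]
    have h2 : F x ≤ (∑' j, h j x).re := by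
      have h3 := (Complex.continuous_re.tendsto _).comp (hx.hasSum.tendsto_sum_nat)
      have h4 : Tendsto (fun N => (∑ j ∈ Finset.range (N + 1), h j x).re) atTop
          (𝓝 ((∑' j, h j x).re)) := h3.comp (tendsto_add_atTop_nat 1)
      refine le_of_tendsto_of_tendsto hx3 h4 (Eventually.of_forall fun N => ?_)
      show G N x ≤ (∑ j ∈ Finset.range (N + 1), h j x).re
      rw [Complex.re_sum]
      exact (hgsum N x).trans (Finset.sum_le_sum fun j _ => hre1 j x)
    linarith
  · have h1 := hlimres.2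
    simp only [hkNint] at h1
    have h2 : Tendsto (fun N => ((1 + ∑ j ∈ Finset.range N, η j : ℝ) : ℂ)⁻¹) atTop
        (𝓝 (((1 + ∑' j, η j : ℝ) : ℂ)⁻¹)) := by
      refine Tendsto.inv₀ ?_ ?_
      · exact (Complex.continuous_ofReal.tendsto _).comp
          ((hηsum.hasSum.tendsto_sum_nat).const_add 1)
      · have : 0 ≤ ∑' j, η j := tsum_nonneg hη0
        exact_mod_cast (by positivity : (1 + ∑' j, η j : ℝ) ≠ 0)
    exact tendsto_nhds_unique h1 h2

end Pool.Agent.V11266.HX
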