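import Pool.Agent.V11266.HX2

/-!
The uniqueness theorem: a function of `H^∞` vanishing on a set of positive measure vanishes.
-/

namespace Pool.Agent.V11266.HX

open MeasureTheory Filter Topology AddCircle
open scoped ENNReal ComplexConjugate

variable {T : ℝ} [hT : Fact (0 < T)]

theorem integral_eq_zero_of_zero_on {h : AddCircle T → ℂ} (hh : HI h) {E : Set (AddCircle T)}
    (hE : MeasurableSet E) (hE0 : haarAddCircle E ≠ 0)
    (hz : ∀ᵐ x ∂(haarAddCircle (T := T)), x ∈ E → h x = 0) :
    ∫ x, h x ∂(haarAddCircle (T := T)) = 0 := by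
  set δ : ℝ := (haarAddCircle E).toReal with hδ
  have hδ0 : 0 < δ := ENNReal.toReal_pos hE0 (measure_ne_top _ _)
  set M : ℝ := 2 / δ with hM
  have hM0 : 0 < M := by positivity
  have hMδ : M * δ = 2 := by rw [hM]; field_simp
  have hFint : Integrable (Eᶜ.indicator fun _ : AddCircle T => M) (haarAddCircle (T := T)) :=
    (integrable_const M).indicator hE.compl
  have hFval : ∫ x, Eᶜ.indicator (fun _ : AddCircle T => M) x ∂(haarAddCircle (T := T)) =
      M * (1 - δ) := by
    rw [integral_indicator hE.compl, setIntegral_const, smul_eq_mul, measureReal_def,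
      prob_compl_eq_one_sub hE, ENNReal.toReal_sub_of_le prob_le_one ENNReal.one_ne_top]
    simp only [ENNReal.toReal_one, ← hδ]
    ring
  obtain ⟨k, hk, hk2, η, hη0, hη1, hη2⟩ := exists_k _ hFint
    (Eventually.of_forall fun x => Set.indicator_nonneg (fun _ _ => hM0.le) x) one_pos
  rw [hFval] at hη1
  set θ : ℝ := M / (1 + M) with hθ
  have hθ0 : 0 ≤ θ := by positivity
  have hθ1 : θ < 1 := by rw [hθ, div_lt_one (by positivity)]; linarith
  let p : AddCircle T → ℂ := fun x => ((1 + η : ℝ) : ℂ) * k x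
  have hp : HI p := hk.const_mul _
  have hpint : ∫ x, p x ∂(haarAddCircle (T := T)) = 1 := by
    show ∫ x, ((1 + η : ℝ) : ℂ) * k x ∂(haarAddCircle (T := T)) = 1
    rw [integral_const_mul, hη2, mul_inv_cancel₀]
    exact_mod_cast (by positivity : (1 + η : ℝ) ≠ 0)
  have hpn : ∀ᵐ x ∂(haarAddCircle (T := T)), x ∉ E → ‖p x‖ ≤ θ := by
    filter_upwards [hk2] with x hx hxE
    obtain ⟨h1, h2⟩ := hx
    rw [Set.indicator_of_mem (show x ∈ Eᶜ from hxE)] at h2
    have h3 : 1 + M ≤ ‖(k x)⁻¹‖ := h2.trans (Complex.re_le_norm _)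
    rw [norm_inv] at h3
    have h4 : 0 < ‖k x‖ := norm_pos_iff.2 h1
    have h5 : ‖k x‖ ≤ 1 / (1 + M) := by
      rw [le_div_iff₀ (by positivity)]
      have := mul_le_mul_of_nonneg_left h3 h4.le
      rwa [mul_inv_cancel₀ h4.ne'] at this
    show ‖((1 + η : ℝ) : ℂ) * k x‖ ≤ θ
    rw [norm_mul, Complex.norm_real, Real.norm_of_nonneg (by positivity)]
    have h6 : 1 + η ≤ M := by nlinarith
    calc (1 + η) * ‖k x‖ ≤ M * (1 / (1 + M)) :=
          mul_le_mul h6 h5 (norm_nonneg _) hM0.le
      _ = θ := by rw [hθ]; ring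
  obtain ⟨C, hC⟩ := hh.2.1
  have hbound : ∀ n : ℕ, ‖∫ x, h x ∂(haarAddCircle (T := T))‖ ≤ |C| * θ ^ n := by
    intro n
    have h1 := hh.integral_mul (hp.pow n)
    rw [hp.integral_pow, hpint, one_pow, mul_one] at h1
    rw [← h1]
    have h2 := norm_integral_le_of_norm_le_const (μ := haarAddCircle (T := T))
      (f := fun x => h x * p x ^ n) (C := |C| * θ ^ n) ?_
    · simpa using h2
    · filter_upwards [hz, hpn, hC] with x h3 h4 h5
      by_cases hx : x ∈ E
      · rw [h3 hx, zero_mul, norm_zero]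
        positivity
      · rw [norm_mul, norm_pow]
        exact mul_le_mul (h5.trans (le_abs_self C))
          (pow_le_pow_left₀ (norm_nonneg _) (h4 hx) n) (by positivity) (abs_nonneg _)
  have hlim : Tendsto (fun n : ℕ => |C| * θ ^ n) atTop (𝓝 (|C| * 0)) :=
    (tendsto_pow_atTop_nhds_zero_of_lt_one hθ0 hθ1).const_mul _
  rw [mul_zero] at hlim
  have h1 := ge_of_tendsto hlim (Eventually.of_forall hbound)
  exact norm_le_zero_iff.1 h1

theorem ae_eq_zero_of_fourierCoeff {h : AddCircle T → ℂ} (hh : HI h)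
    (h0 : ∀ n, fourierCoeff h n = 0) : ∀ᵐ x ∂(haarAddCircle (T := T)), h x = 0 := by
  obtain ⟨C, hC⟩ := hh.2.1
  have hL : MemLp h 2 (haarAddCircle (T := T)) := MemLp.of_bound hh.1 C hC
  have hsum := hasSum_fourier_series_L2 hL.toLp
  have h1 : ∀ i : ℤ, fourierCoeff (hL.toLp h) i •
      (fourierLp 2 i : Lp ℂ 2 (haarAddCircle (T := T))) = 0 := by
    intro i
    rw [fourierCoeff_congr_ae hL.coeFn_toLp, h0 i, zero_smul]
  simp only [h1] at hsum
  have h2 : hL.toLp h = 0 := hsum.unique hasSum_zero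
  have h3 := hL.coeFn_toLp
  rw [h2] at h3
  filter_upwards [h3, Lp.coeFn_zero ℂ 2 (haarAddCircle (T := T))] with x hx hx2
  rw [← hx, hx2]
  rfl

theorem uniqueness {h : AddCircle T → ℂ} (hh : HI h) {E : Set (AddCircle T)}
    (hE : MeasurableSet E) (hE0 : haarAddCircle E ≠ 0)
    (hz : ∀ᵐ x ∂(haarAddCircle (T := T)), x ∈ E → h x = 0) :
    ∀ᵐ x ∂(haarAddCircle (T := T)), h x = 0 := by
  apply ae_eq_zero_of_fourierCoeff hh
  have key : ∀ n : ℕ, fourierCoeff h n = 0 := by
    intro n
    induction n using Nat.strong_induction_on with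
    | _ n ih =>
      have hall : ∀ m : ℤ, m < n → fourierCoeff h m = 0 := by
        intro m hm
        rcases lt_or_ge m 0 with h0 | h0
        · exact hh.2.2 m h0
        · obtain ⟨m', rfl⟩ := Int.eq_ofNat_of_zero_le h0
          exact ih m' (by exact_mod_cast hm)
      have h1 : HI (fun x => fourier (-(n : ℤ)) x * h x) := by
        obtain ⟨hm, ⟨C, hC⟩, _⟩ := hh
        refine ⟨(map_continuous (fourier (-(n : ℤ)))).aestronglyMeasurable.mul hm, ⟨C, ?_⟩, ?_⟩
        · filter_upwards [hC] with x hx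
          rw [norm_mul, fourier_apply, Circle.norm_coe, one_mul]
          exact hx
        · intro m hm
          rw [← hall (m + n) (by omega), fourierCoeff, fourierCoeff]
          apply integral_congr_ae
          refine Eventually.of_forall fun x => ?_
          simp only [smul_eq_mul]
          rw [show -(m + (n : ℤ)) = -m + -n by ring, fourier_add]
          ring
      have h2 := integral_eq_zero_of_zero_on h1 hE hE0 (by
        filter_upwards [hz] with x hx hxE
        rw [hx hxE, mul_zero])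
      exact h2
  intro n
  rcases lt_or_ge n 0 with h0 | h0
  · exact hh.2.2 n h0
  · obtain ⟨m, rfl⟩ := Int.eq_ofNat_of_zero_le h0
    exact key m

end Pool.Agent.V11266.HX
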