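import Pool.Agent.V11266.HX3

/-!
The Banach space `H^∞`, its subspaces of finite codimension, and exposed points.
-/

namespace Pool.Agent.V11266.HX

open MeasureTheory Filter Topology AddCircle
open scoped ENNReal ComplexConjugate

/-- `H^∞` on the circle `ℝ / Tℤ` with its normalized Haar measure: the subspace of `L^∞` of the
functions whose Fourier coefficients of negative index vanish. -/
def Hinf (T : ℝ) [hT : Fact (0 < T)] : Submodule ℂ (Lp ℂ ∞ (haarAddCircle (T := T))) where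
  carrier := {f | ∀ n : ℤ, n < 0 → fourierCoeff (f : AddCircle T → ℂ) n = 0}
  add_mem' := by
    intro f g hf hg n hn
    rw [fourierCoeff_congr_ae (Lp.coeFn_add f g)]
    have hfi : Integrable (f : AddCircle T → ℂ) (haarAddCircle (T := T)) :=
      (Lp.memLp f).integrable le_top
    have hgi : Integrable (g : AddCircle T → ℂ) (haarAddCircle (T := T)) :=
      (Lp.memLp g).integrable le_top
    rw [fourierCoeff.add hfi hgi, Pi.add_apply, hf n hn, hg n hn, add_zero]
  zero_mem' := by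
    intro n hn
    rw [fourierCoeff_congr_ae (Lp.coeFn_zero ℂ ∞ _)]
    simp [fourierCoeff]
  smul_mem' := by
    intro c f hf n hn
    rw [fourierCoeff_congr_ae (Lp.coeFn_smul c f), fourierCoeff.const_smul, hf n hn, smul_zero]

/-- `H^∞_Φ`: the common kernel of the functionals in `Φ`. -/
def HPhi {T : ℝ} [Fact (0 < T)] (Φ : Set (Hinf T →L[ℂ] ℂ)) : Submodule ℂ (Hinf T) where
  carrier := {f | ∀ φ ∈ Φ, φ f = 0}
  add_mem' := by
    intro f g hf hg φ hφ
    rw [map_add, hf φ hφ, hg φ hφ, add_zero]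
  zero_mem' := fun φ _ => map_zero φ
  smul_mem' := by
    intro c f hf φ hφ
    rw [map_smul, hf φ hφ, smul_zero]

/-- `x` is an exposed point of the unit ball: some norm one functional `φ` satisfies
`{y | ‖y‖ ≤ 1, φ y = 1} = {x}`. -/
def IsExposedPoint {X : Type*} [NormedAddCommGroup X] [NormedSpace ℂ X] (x : X) : Prop :=
  ∃ φ : X →L[ℂ] ℂ, ‖φ‖ = 1 ∧ {y : X | ‖y‖ ≤ 1 ∧ φ y = 1} = {x}

variable {T : ℝ} [hT : Fact (0 < T)]

theorem ae_norm_le (f : Lp ℂ ∞ (haarAddCircle (T := T))) :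
    ∀ᵐ x ∂(haarAddCircle (T := T)), ‖f x‖ ≤ ‖f‖ := by
  have h1 := ae_le_eLpNormEssSup (f := f) (μ := haarAddCircle (T := T))
  have h2 : eLpNormEssSup f (haarAddCircle (T := T)) ≠ ∞ := by
    rw [← eLpNorm_exponent_top]
    exact Lp.eLpNorm_ne_top f
  filter_upwards [h1] with x hx
  rw [Lp.norm_def, eLpNorm_exponent_top]
  have h3 := ENNReal.toReal_mono h2 hx
  simpa using h3

theorem norm_le_of_ae {f : Lp ℂ ∞ (haarAddCircle (T := T))} {C : ℝ} (hC : 0 ≤ C)
    (h : ∀ᵐ x ∂(haarAddCircle (T := T)), ‖f x‖ ≤ C) : ‖f‖ ≤ C := by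
  have h1 := Lp.norm_le_of_ae_bound hC h
  simpa using h1

theorem hiOf (f : Hinf T) : HI ((f : Lp ℂ ∞ (haarAddCircle (T := T))) : AddCircle T → ℂ) :=
  ⟨Lp.aestronglyMeasurable _, ⟨_, ae_norm_le _⟩, f.2⟩

theorem HI.memLp {g : AddCircle T → ℂ} (hg : HI g) : MemLp g ∞ (haarAddCircle (T := T)) := by
  obtain ⟨h1, ⟨C, hC⟩, _⟩ := hg
  exact memLp_top_of_bound h1 C hC

/-- The element of `H^∞` given by a function. -/
noncomputable def toH (g : AddCircle T → ℂ) (hg : HI g) : Hinf T :=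
  ⟨hg.memLp.toLp g, by
    intro n hn
    rw [fourierCoeff_congr_ae hg.memLp.coeFn_toLp]
    exact hg.2.2 n hn⟩

theorem coe_toH (g : AddCircle T → ℂ) (hg : HI g) :
    ((toH g hg : Hinf T) : Lp ℂ ∞ (haarAddCircle (T := T))) =ᵐ[haarAddCircle (T := T)] g :=
  hg.memLp.coeFn_toLp

theorem hinf_ext {f g : Hinf T}
    (h : ((f : Lp ℂ ∞ (haarAddCircle (T := T))) : AddCircle T → ℂ) =ᵐ[haarAddCircle (T := T)]
      ((g : Lp ℂ ∞ (haarAddCircle (T := T))) : AddCircle T → ℂ)) : f = g :=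
  Subtype.ext (Lp.ext h)

theorem norm_toH_le {g : AddCircle T → ℂ} (hg : HI g) {C : ℝ} (hC : 0 ≤ C)
    (h : ∀ᵐ x ∂(haarAddCircle (T := T)), ‖g x‖ ≤ C) : ‖toH g hg‖ ≤ C := by
  refine norm_le_of_ae (f := (toH g hg : Lp ℂ ∞ (haarAddCircle (T := T)))) hC ?_
  filter_upwards [h, coe_toH g hg] with x h1 h2
  rw [h2]
  exact h1

theorem toH_add {f g : AddCircle T → ℂ} (hf : HI f) (hg : HI g) :
    toH (fun x => f x + g x) (hf.add hg) = toH f hf + toH g hg := by
  apply hinf_ext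
  have h1 := coe_toH _ (hf.add hg)
  have h2 := coe_toH f hf
  have h3 := coe_toH g hg
  have h4 := Lp.coeFn_add (toH f hf : Lp ℂ ∞ (haarAddCircle (T := T))) (toH g hg)
  filter_upwards [h1, h2, h3, h4] with x h1 h2 h3 h4
  rw [h1, Submodule.coe_add, h4, Pi.add_apply, h2, h3]

theorem toH_const_mul (c : ℂ) {f : AddCircle T → ℂ} (hf : HI f) :
    toH (fun x => c * f x) (hf.const_mul c) = c • toH f hf := by
  apply hinf_ext
  have h1 := coe_toH _ (hf.const_mul c)
  have h2 := coe_toH f hf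
  have h4 := Lp.coeFn_smul c (toH f hf : Lp ℂ ∞ (haarAddCircle (T := T)))
  filter_upwards [h1, h2, h4] with x h1 h2 h4
  rw [h1, Submodule.coe_smul, h4, Pi.smul_apply, h2, smul_eq_mul]

theorem toH_congr {f g : AddCircle T → ℂ} (hf : HI f) (hg : HI g)
    (h : f =ᵐ[haarAddCircle (T := T)] g) : toH f hf = toH g hg := by
  apply hinf_ext
  filter_upwards [coe_toH f hf, coe_toH g hg, h] with x h1 h2 h3
  rw [h1, h2, h3]

theorem toH_coe (f : Hinf T) : toH _ (hiOf f) = f := by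
  apply hinf_ext
  exact coe_toH _ _

end Pool.Agent.V11266.HX
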