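import Pool.Agent.V11266.HX4

/-!
The perturbation argument.
-/

namespace Pool.Agent.V11266.HX

open MeasureTheory Filter Topology AddCircle
open scoped ENNReal ComplexConjugate

variable {T : ℝ} [hT : Fact (0 < T)]

/-- An integrable function tending to infinity where `|f|` tends to one. -/
theorem exists_F {f : AddCircle T → ℂ} (hf : AEStronglyMeasurable f (haarAddCircle (T := T)))
    (hf1 : ∀ᵐ x ∂(haarAddCircle (T := T)), ‖f x‖ < 1) :
    ∃ F : AddCircle T → ℝ, Integrable F (haarAddCircle (T := T)) ∧ (∀ x, 0 ≤ F x) ∧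
      ∀ M : ℕ, ∃ δ : ℝ, 0 < δ ∧ ∀ᵐ x ∂(haarAddCircle (T := T)), 1 - δ < ‖f x‖ → (M : ℝ) ≤ F x := by
  set g := hf.mk f with hg
  have hgm : StronglyMeasurable g := hf.stronglyMeasurable_mk
  have hfg : f =ᵐ[haarAddCircle (T := T)] g := hf.ae_eq_mk
  let A : ℕ → Set (AddCircle T) := fun n => {x | 1 - 1 / ((n : ℝ) + 1) < ‖g x‖}
  have hAm : ∀ n, MeasurableSet (A n) := fun n =>
    measurableSet_lt measurable_const hgm.norm.measurable
  have hAanti : Antitone A := by
    intro m n hmn x hx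
    have h1 : 1 - 1 / ((n : ℝ) + 1) < ‖g x‖ := hx
    have h2 : 1 / ((n : ℝ) + 1) ≤ 1 / ((m : ℝ) + 1) := by
      apply one_div_le_one_div_of_le (by positivity)
      have : (m : ℝ) ≤ n := by exact_mod_cast hmn
      linarith
    show 1 - 1 / ((m : ℝ) + 1) < ‖g x‖
    linarith
  have hA0 : haarAddCircle (⋂ n, A n) = 0 := by
    have h1 : ∀ᵐ x ∂(haarAddCircle (T := T)), x ∉ ⋂ n, A n := by
      filter_upwards [hf1, hfg] with x h1 h2 h3
      rw [h2] at h1
      rw [Set.mem_iInter] at h3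
      obtain ⟨n, hn⟩ := exists_nat_one_div_lt (sub_pos.2 h1)
      have h4 : 1 - 1 / ((n : ℝ) + 1) < ‖g x‖ := h3 n
      linarith
    exact measure_eq_zero_iff_ae_notMem.2 h1
  have hAt : Tendsto (fun n => haarAddCircle (A n)) atTop (𝓝 0) := by
    rw [← hA0]
    exact tendsto_measure_iInter_atTop (fun n => (hAm n).nullMeasurableSet) hAanti
      ⟨0, measure_ne_top _ _⟩
  have hex : ∀ j : ℕ, ∃ n, haarAddCircle (A n) ≤ ((1 / 2 : ℝ≥0∞)) ^ j := by
    intro j
    have h1 : (0 : ℝ≥0∞) < (1 / 2) ^ j := by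
      apply ENNReal.pow_pos
      simp
    obtain ⟨n, hn⟩ := (hAt.eventually_lt_const h1).exists
    exact ⟨n, hn.le⟩
  choose n hn using hex
  let Fe : AddCircle T → ℝ≥0∞ := fun x => ∑' j, (A (n j)).indicator (fun _ => (1 : ℝ≥0∞)) x
  have hFem : Measurable Fe := Measurable.tsum fun j =>
    measurable_const.indicator (hAm (n j))
  have hFei : ∫⁻ x, Fe x ∂(haarAddCircle (T := T)) ≠ ∞ := by
    have h1 : ∫⁻ x, Fe x ∂(haarAddCircle (T := T)) = ∑' j, haarAddCircle (A (n j)) := by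
      rw [lintegral_tsum fun j => (measurable_const.indicator (hAm (n j))).aemeasurable]
      congr 1
      funext j
      rw [lintegral_indicator_const (hAm (n j)), one_mul]
    rw [h1]
    refine ne_top_of_le_ne_top ?_ (ENNReal.tsum_le_tsum hn)
    rw [ENNReal.tsum_geometric]
    simp
  have hFint : Integrable (fun x => (Fe x).toReal) (haarAddCircle (T := T)) :=
    integrable_toReal_of_lintegral_ne_top hFem.aemeasurable hFei
  refine ⟨fun x => (Fe x).toReal, hFint, fun x => ENNReal.toReal_nonneg, fun M => ?_⟩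
  set N : ℕ := (Finset.range M).sup n with hN
  refine ⟨1 / ((N : ℝ) + 1), by positivity, ?_⟩
  have hlt : ∀ᵐ x ∂(haarAddCircle (T := T)), Fe x < ∞ := ae_lt_top hFem hFei
  filter_upwards [hlt, hfg] with x h1 h2 h3
  have h4 : (M : ℝ≥0∞) ≤ Fe x := by
    have h5 : ∑ j ∈ Finset.range M, (A (n j)).indicator (fun _ => (1 : ℝ≥0∞)) x ≤ Fe x :=
      ENNReal.sum_le_tsum _
    have h6 : ∑ j ∈ Finset.range M, (A (n j)).indicator (fun _ => (1 : ℝ≥0∞)) x = M := by
      have : ∀ j ∈ Finset.range M, (A (n j)).indicator (fun _ => (1 : ℝ≥0∞)) x = 1 := by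
        intro j hj
        apply Set.indicator_of_mem
        show 1 - 1 / ((n j : ℝ) + 1) < ‖g x‖
        rw [← h2]
        have h7 : 1 / ((N : ℝ) + 1) ≤ 1 / ((n j : ℝ) + 1) := by
          apply one_div_le_one_div_of_le (by positivity)
          have : n j ≤ N := Finset.le_sup (f := n) hj
          have : (n j : ℝ) ≤ N := by exact_mod_cast this
          linarith
        linarith
      rw [Finset.sum_congr rfl this]
      simp
    rw [h6] at h5
    exact h5
  have h5 := ENNReal.toReal_mono h1.ne h4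
  simpa using h5

/-- Multiplication by an element of `H^∞`. -/
noncomputable def mulH (a : AddCircle T → ℂ) (ha : HI a) : Hinf T →ₗ[ℂ] Hinf T where
  toFun r := toH (fun x => a x * (r : Lp ℂ ∞ (haarAddCircle (T := T))) x) (ha.mul (hiOf r))
  map_add' := by
    intro r s
    rw [← toH_add (ha.mul (hiOf r)) (ha.mul (hiOf s))]
    apply toH_congr
    filter_upwards [Lp.coeFn_add (r : Lp ℂ ∞ (haarAddCircle (T := T)))
      (s : Lp ℂ ∞ (haarAddCircle (T := T)))] with x hx
    rw [Submodule.coe_add, hx, Pi.add_apply]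
    ring
  map_smul' := by
    intro c r
    rw [RingHom.id_apply, ← toH_const_mul c (ha.mul (hiOf r))]
    apply toH_congr
    filter_upwards [Lp.coeFn_smul c (r : Lp ℂ ∞ (haarAddCircle (T := T)))] with x hx
    rw [Submodule.coe_smul, hx, Pi.smul_apply, smul_eq_mul]
    ring

/-- The finite-dimensional step: finitely many functionals can be annihilated by
`f (k - k² r)`. -/
theorem exists_r {ι : Type*} [Fintype ι] (L : ι → (Hinf T →L[ℂ] ℂ)) {f k : AddCircle T → ℂ}
    (hf : HI f) (hf1 : ∀ᵐ x ∂(haarAddCircle (T := T)), ‖f x‖ ≤ 1) (hk : HI k)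
    (hkre : ∀ᵐ x ∂(haarAddCircle (T := T)), 0 ≤ (k x).re)
    (hk1 : ∀ᵐ x ∂(haarAddCircle (T := T)), ‖k x‖ ≤ 1) :
    ∃ r : AddCircle T → ℂ, ∃ hr : HI r, ∃ C : ℝ, 0 ≤ C ∧
      (∀ᵐ x ∂(haarAddCircle (T := T)), ‖r x‖ ≤ C) ∧
      ∀ i, L i (toH (fun x => f x * (k x - k x * k x * r x))
        (hf.mul (hk.sub ((hk.mul hk).mul hr)))) = 0 := by
  classical
  let A : Hinf T →ₗ[ℂ] (ι → ℂ) :=
    LinearMap.pi fun i => (L i).toLinearMap.comp (mulH _ (hf.mul (hk.mul hk)))
  let y0 : ι → ℂ := fun i => L i (toH (fun x => f x * k x) (hf.mul hk))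
  have hclosed : IsClosed ((LinearMap.range A : Submodule ℂ (ι → ℂ)) : Set (ι → ℂ)) :=
    Submodule.closed_of_finiteDimensional _
  -- approximations
  let t : ℕ → ℝ := fun n => 1 / ((n : ℝ) + 1)
  have ht : ∀ n, 0 < t n := fun n => by positivity
  have hkt : ∀ n, HI (fun x => k x + (t n : ℂ)) := fun n => hk.add (HI.const _)
  have hktre : ∀ n, ∀ᵐ x ∂(haarAddCircle (T := T)), t n ≤ (k x + (t n : ℂ)).re := by
    intro n
    filter_upwards [hkre] with x hx
    rw [Complex.add_re, Complex.ofReal_re]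
    linarith
  have hinv : ∀ n, HI (fun x => (k x + (t n : ℂ))⁻¹) := fun n => (hkt n).inv (ht n) (hktre n)
  have hlim : Tendsto (fun n => A (toH _ (hinv n))) atTop (𝓝 y0) := by
    rw [tendsto_pi_nhds]
    intro i
    have hdiff : ∀ n, ‖A (toH _ (hinv n)) i - y0 i‖ ≤ ‖L i‖ * t n := by
      intro n
      have h1 : A (toH _ (hinv n)) i - y0 i =
          L i (mulH _ (hf.mul (hk.mul hk)) (toH _ (hinv n)) - toH _ (hf.mul hk)) := by
        rw [map_sub]
        rfl
      rw [h1]
      refine (L i).le_opNorm_of_le ?_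
      show ‖((mulH _ (hf.mul (hk.mul hk)) (toH _ (hinv n)) - toH _ (hf.mul hk) : Hinf T) :
        Lp ℂ ∞ (haarAddCircle (T := T)))‖ ≤ t n
      refine norm_le_of_ae (ht n).le ?_
      rw [Submodule.coe_sub]
      have e1 := Lp.coeFn_sub
        ((mulH _ (hf.mul (hk.mul hk)) (toH _ (hinv n)) : Hinf T) :
          Lp ℂ ∞ (haarAddCircle (T := T))) (toH _ (hf.mul hk) : Hinf T)
      have e2 := coe_toH _ ((hf.mul (hk.mul hk)).mul (hiOf (toH _ (hinv n))))
      have e3 := coe_toH _ (hf.mul hk)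
      have e4 := coe_toH _ (hinv n)
      filter_upwards [e1, e2, e3, e4, hf1, hkre] with x e1 e2 e3 e4 h5 h6
      have e2' : ((mulH _ (hf.mul (hk.mul hk)) (toH _ (hinv n)) : Hinf T) :
          Lp ℂ ∞ (haarAddCircle (T := T))) x = f x * (k x * k x) * (k x + (t n : ℂ))⁻¹ := by
        rw [← e4]
        exact e2
      rw [e1, Pi.sub_apply, e2', e3]
      have hre : t n ≤ (k x + (t n : ℂ)).re := by
        rw [Complex.add_re, Complex.ofReal_re]
        linarith
      have hne : k x + (t n : ℂ) ≠ 0 := by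
        intro h0
        rw [h0] at hre
        simp only [Complex.zero_re] at hre
        exact absurd hre (not_le.2 (ht n))
      have h7 : f x * (k x * k x) * (k x + (t n : ℂ))⁻¹ - f x * k x =
          -(f x * ((t n : ℂ) * (k x * (k x + (t n : ℂ))⁻¹))) := by
        field_simp
        ring
      rw [h7, norm_neg, norm_mul, norm_mul, Complex.norm_real, Real.norm_of_nonneg (ht n).le,
        norm_mul, norm_inv]
      have h8 : ‖k x‖ * ‖k x + (t n : ℂ)‖⁻¹ ≤ 1 := by
        rw [← div_eq_mul_inv, div_le_one (norm_pos_iff.2 hne)]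
        rw [← sq_le_sq₀ (norm_nonneg _) (norm_nonneg _), ← Complex.normSq_eq_norm_sq,
          ← Complex.normSq_eq_norm_sq, Complex.normSq_apply, Complex.normSq_apply,
          Complex.add_re, Complex.add_im, Complex.ofReal_re, Complex.ofReal_im]
        nlinarith [ht n]
      have h9 : 0 ≤ ‖k x‖ * ‖k x + (t n : ℂ)‖⁻¹ := by positivity
      calc ‖f x‖ * (t n * (‖k x‖ * ‖k x + (t n : ℂ)‖⁻¹)) ≤ 1 * (t n * 1) := by
            apply mul_le_mul h5 _ (by positivity) (by norm_num)
            exact mul_le_mul_of_nonneg_left h8 (ht n).le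
        _ = t n := by ring
    have h0 : Tendsto (fun n => ‖L i‖ * t n) atTop (𝓝 0) := by
      have := (tendsto_one_div_add_atTop_nhds_zero_nat (𝕜 := ℝ)).const_mul ‖L i‖
      rw [mul_zero] at this
      exact this
    rw [tendsto_iff_norm_sub_tendsto_zero]
    exact squeeze_zero (fun n => norm_nonneg _) hdiff h0
  have hy0 : y0 ∈ LinearMap.range A :=
    hclosed.mem_of_tendsto hlim (Eventually.of_forall fun n => ⟨_, rfl⟩)
  obtain ⟨r, hr⟩ := hy0
  refine ⟨(r : Lp ℂ ∞ (haarAddCircle (T := T))), hiOf r,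
    ‖(r : Lp ℂ ∞ (haarAddCircle (T := T)))‖, norm_nonneg _, ae_norm_le _, fun i => ?_⟩
  have h1 : toH (fun x => f x * (k x - k x * k x *
      (r : Lp ℂ ∞ (haarAddCircle (T := T))) x)) (hf.mul (hk.sub ((hk.mul hk).mul (hiOf r)))) =
      toH (fun x => f x * k x) (hf.mul hk) - mulH _ (hf.mul (hk.mul hk)) r := by
    apply hinf_ext
    have e1 := Lp.coeFn_sub ((toH _ (hf.mul hk) : Hinf T) : Lp ℂ ∞ (haarAddCircle (T := T)))
      ((mulH _ (hf.mul (hk.mul hk)) r : Hinf T))
    have e2 := coe_toH _ ((hf.mul (hk.mul hk)).mul (hiOf r))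
    have e3 := coe_toH _ (hf.mul hk)
    have e4 := coe_toH _ (hf.mul (hk.sub ((hk.mul hk).mul (hiOf r))))
    filter_upwards [e1, e2, e3, e4] with x e1 e2 e3 e4
    have e2' : ((mulH _ (hf.mul (hk.mul hk)) r : Hinf T) :
        Lp ℂ ∞ (haarAddCircle (T := T))) x =
        f x * (k x * k x) * (r : Lp ℂ ∞ (haarAddCircle (T := T))) x := e2
    rw [e4, Submodule.coe_sub, e1, Pi.sub_apply, e2', e3]
    ring
  rw [h1, map_sub]
  have h2 := congrFun hr i
  have h3 : A r i = L i (mulH _ (hf.mul (hk.mul hk)) r) := rfl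
  rw [← h3, h2]
  exact sub_self _

end Pool.Agent.V11266.HX
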