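import Pool.Agent.V11266.HX5

/-!
Both directions.
-/

namespace Pool.Agent.V11266.HX

open MeasureTheory Filter Topology AddCircle
open scoped ENNReal ComplexConjugate

variable {T : ℝ} [hT : Fact (0 < T)]

/-- An elementary inequality. -/
theorem pert_ineq {k r : ℂ} {C M ε : ℝ} (hC : 0 ≤ C) (hr : ‖r‖ ≤ C) (hM : C ≤ M)
    (hk : k ≠ 0) (hkM : 1 + M ≤ (k⁻¹).re) (hε : 0 ≤ ε) (hε1 : ε * (1 + C) ^ 2 ≤ 1) :
    ‖1 - (ε : ℂ) * (k - k * k * r)‖ ≤ 1 ∧ k - k * k * r ≠ 0 := by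
  have hk0 : 0 < ‖k‖ := norm_pos_iff.2 hk
  have hk2 : (k⁻¹).re = k.re / ‖k‖ ^ 2 := by
    rw [Complex.inv_re, Complex.normSq_eq_norm_sq]
  have hre : (1 + M) * ‖k‖ ^ 2 ≤ k.re := by
    rw [hk2, le_div_iff₀ (by positivity)] at hkM
    exact hkM
  have hk1 : ‖k‖ ≤ 1 := by
    have h1 : k.re ≤ ‖k‖ := Complex.re_le_norm k
    have h2 : ‖k‖ ^ 2 ≤ ‖k‖ := by nlinarith [sq_nonneg ‖k‖]
    nlinarith
  set w := k - k * k * r with hw
  have hwre : ‖k‖ ^ 2 ≤ w.re := by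
    have h1 : (k * k * r).re ≤ ‖k‖ ^ 2 * C := by
      refine (Complex.re_le_norm _).trans ?_
      rw [norm_mul, norm_mul, ← sq]
      exact mul_le_mul_of_nonneg_left hr (by positivity)
    rw [hw, Complex.sub_re]
    nlinarith [sq_nonneg ‖k‖]
  have hwn : ‖w‖ ≤ ‖k‖ * (1 + C) := by
    rw [hw]
    refine (norm_sub_le _ _).trans ?_
    rw [norm_mul, norm_mul]
    have h1 : ‖k‖ * ‖k‖ * ‖r‖ ≤ ‖k‖ * C := by
      calc ‖k‖ * ‖k‖ * ‖r‖ ≤ ‖k‖ * 1 * C := by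
            apply mul_le_mul _ hr (norm_nonneg _) (by positivity)
            exact mul_le_mul_of_nonneg_left hk1 hk0.le
        _ = ‖k‖ * C := by ring
    linarith
  constructor
  · have h1 : ‖1 - (ε : ℂ) * w‖ ^ 2 = 1 - 2 * ε * w.re + ε ^ 2 * ‖w‖ ^ 2 := by
      rw [← Complex.normSq_eq_norm_sq, ← Complex.normSq_eq_norm_sq, Complex.normSq_apply,
        Complex.normSq_apply, Complex.sub_re, Complex.sub_im, Complex.re_ofReal_mul,
        Complex.im_ofReal_mul, Complex.one_re, Complex.one_im]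
      ring
    have h2 : ‖w‖ ^ 2 ≤ ‖k‖ ^ 2 * (1 + C) ^ 2 := by
      rw [← mul_pow]
      exact pow_le_pow_left₀ (norm_nonneg _) hwn 2
    have h3 : ε ^ 2 * ‖w‖ ^ 2 ≤ ε * ‖k‖ ^ 2 := by
      calc ε ^ 2 * ‖w‖ ^ 2 ≤ ε ^ 2 * (‖k‖ ^ 2 * (1 + C) ^ 2) :=
            mul_le_mul_of_nonneg_left h2 (by positivity)
        _ = ε * ‖k‖ ^ 2 * (ε * (1 + C) ^ 2) := by ring
        _ ≤ ε * ‖k‖ ^ 2 * 1 := mul_le_mul_of_nonneg_left hε1 (by positivity)
        _ = ε * ‖k‖ ^ 2 := by ring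
    have h4 : ε * ‖k‖ ^ 2 ≤ ε * w.re := mul_le_mul_of_nonneg_left hwre hε
    have h5 : ‖1 - (ε : ℂ) * w‖ ^ 2 ≤ 1 := by
      rw [h1]
      have h6 : 0 ≤ ε * ‖k‖ ^ 2 := by positivity
      linarith
    nlinarith [norm_nonneg (1 - (ε : ℂ) * w)]
  · intro h0
    rw [h0] at hwre
    simp only [Complex.zero_re] at hwre
    have : 0 < ‖k‖ ^ 2 := by positivity
    linarith

theorem norm_eq_one_of {X : Type*} [NormedAddCommGroup X] [NormedSpace ℂ X] (φ : X →L[ℂ] ℂ)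
    (x : X) (h1 : ‖φ‖ = 1) (h2 : φ x = 1) (h3 : ‖x‖ ≤ 1) : ‖x‖ = 1 := by
  refine le_antisymm h3 ?_
  have h4 := φ.le_opNorm x
  rw [h1, h2, one_mul, norm_one] at h4
  exact h4

/-- Exposed points have `|f| = 1` on a set of positive measure. -/
theorem exposed_pos (Φ : Set (Hinf T →L[ℂ] ℂ)) (hΦ : Φ.Finite) (f : HPhi Φ)
    (hf : IsExposedPoint f) : ‖f‖ = 1 ∧
      0 < haarAddCircle {x : AddCircle T |
        ‖((f : Hinf T) : Lp ℂ ∞ (haarAddCircle (T := T))) x‖ = 1} := by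
  obtain ⟨φ, hφ1, hφ⟩ := hf
  have hfm : ‖f‖ ≤ 1 ∧ φ f = 1 := by
    have : f ∈ {y : HPhi Φ | ‖y‖ ≤ 1 ∧ φ y = 1} := by rw [hφ]; rfl
    exact this
  have hkey := @norm_eq_one_of (HPhi Φ) _ _
  have hfn : ‖f‖ = 1 := hkey φ f hφ1 hfm.2 hfm.1
  refine ⟨hfn, ?_⟩
  by_contra hcon
  have hzero : haarAddCircle {x : AddCircle T |
      ‖((f : Hinf T) : Lp ℂ ∞ (haarAddCircle (T := T))) x‖ = 1} = 0 := by
    simpa using hcon
  obtain ⟨ψ, hψ, _⟩ := exists_extension_norm_eq (HPhi Φ) φ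
  let f0 : AddCircle T → ℂ := ((f : Hinf T) : Lp ℂ ∞ (haarAddCircle (T := T)))
  have hf0 : HI f0 := hiOf (f : Hinf T)
  have hnorm : ‖((f : Hinf T) : Lp ℂ ∞ (haarAddCircle (T := T)))‖ = 1 := hfn
  have hf1 : ∀ᵐ x ∂(haarAddCircle (T := T)), ‖f0 x‖ ≤ 1 := by
    have := ae_norm_le ((f : Hinf T) : Lp ℂ ∞ (haarAddCircle (T := T)))
    rw [hnorm] at this
    exact this
  have hflt : ∀ᵐ x ∂(haarAddCircle (T := T)), ‖f0 x‖ < 1 := by
    have h2 := measure_eq_zero_iff_ae_notMem.1 hzero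
    filter_upwards [hf1, h2] with x h3 h4
    exact lt_of_le_of_ne h3 h4
  obtain ⟨F, hF1, hF2, hF3⟩ := exists_F hf0.1 hflt
  obtain ⟨k, hk, hk2, _⟩ := exists_k F hF1 (Eventually.of_forall hF2) one_pos
  have hkre : ∀ᵐ x ∂(haarAddCircle (T := T)), 0 ≤ (k x).re := by
    filter_upwards [hk2] with x hx
    have h1 : 0 ≤ ((k x)⁻¹).re := by linarith [hx.2, hF2 x]
    rw [Complex.inv_re] at h1
    have h2 : 0 < Complex.normSq (k x) := Complex.normSq_pos.2 hx.1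
    by_contra h3
    push Not at h3
    have := div_neg_of_neg_of_pos h3 h2
    linarith
  have hk1 : ∀ᵐ x ∂(haarAddCircle (T := T)), ‖k x‖ ≤ 1 := by
    filter_upwards [hk2] with x hx
    have h1 : 1 ≤ ((k x)⁻¹).re := by linarith [hx.2, hF2 x]
    have h2 := norm_inv_le_one h1
    rwa [inv_inv] at h2
  have : Fintype Φ := hΦ.fintype
  let L : Option Φ → (Hinf T →L[ℂ] ℂ) := fun o => match o with
    | none => ψ
    | some χ => χ.1
  obtain ⟨r, hr, C, hC0, hC, hLr⟩ := exists_r L hf0 hf1 hk hkre hk1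
  set w : AddCircle T → ℂ := fun x => k x - k x * k x * r x with hw
  have hwHI : HI w := hk.sub ((hk.mul hk).mul hr)
  obtain ⟨M, hM⟩ := exists_nat_ge C
  obtain ⟨δ, hδ0, hδ⟩ := hF3 M
  set ε : ℝ := min (1 / (1 + C) ^ 2) (δ / (1 + C)) with hε
  have hε0 : 0 < ε := lt_min (by positivity) (by positivity)
  have hε1 : ε * (1 + C) ^ 2 ≤ 1 := by
    have h1 : ε ≤ 1 / (1 + C) ^ 2 := min_le_left _ _
    rw [le_div_iff₀ (by positivity)] at h1
    exact h1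
  have hε2 : ε * (1 + C) ≤ δ := by
    have h1 : ε ≤ δ / (1 + C) := min_le_right _ _
    rw [le_div_iff₀ (by positivity)] at h1
    exact h1
  -- the perturbed function
  have hgHI : HI (fun x => f0 x * (1 - (ε : ℂ) * w x)) :=
    hf0.mul ((HI.const 1).sub (hwHI.const_mul _))
  have hgn : ∀ᵐ x ∂(haarAddCircle (T := T)), ‖f0 x * (1 - (ε : ℂ) * w x)‖ ≤ 1 := by
    filter_upwards [hf1, hk2, hk1, hC, hδ] with x h1 h2 h3 h4 h5
    rw [norm_mul]
    by_cases h6 : 1 - δ < ‖f0 x‖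
    · have h7 := (pert_ineq hC0 h4 hM h2.1 (by linarith [h2.2, h5 h6]) hε0.le hε1).1
      calc ‖f0 x‖ * ‖1 - (ε : ℂ) * w x‖ ≤ 1 * 1 :=
            mul_le_mul h1 h7 (norm_nonneg _) (by norm_num)
        _ = 1 := by norm_num
    · push Not at h6
      have h7 : ‖w x‖ ≤ 1 + C := by
        rw [hw]
        refine (norm_sub_le _ _).trans ?_
        rw [norm_mul, norm_mul]
        have h8 : ‖k x‖ * ‖k x‖ * ‖r x‖ ≤ 1 * 1 * C := by
          apply mul_le_mul _ h4 (norm_nonneg _) (by norm_num)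
          exact mul_le_mul h3 h3 (norm_nonneg _) (by norm_num)
        linarith
      have h8 : ‖1 - (ε : ℂ) * w x‖ ≤ 1 + δ := by
        refine (norm_sub_le _ _).trans ?_
        rw [norm_one, norm_mul, Complex.norm_real, Real.norm_of_nonneg hε0.le]
        have := mul_le_mul_of_nonneg_left h7 hε0.le
        linarith
      have h9 := norm_nonneg (f0 x)
      calc ‖f0 x‖ * ‖1 - (ε : ℂ) * w x‖ ≤ (1 - δ) * (1 + δ) :=
            mul_le_mul h6 h8 (norm_nonneg _) (h9.trans h6)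
        _ ≤ 1 := by nlinarith
  set g : Hinf T := toH _ hgHI with hg
  set u : Hinf T := toH (fun x => f0 x * (k x - k x * k x * r x))
    (hf0.mul (hk.sub ((hk.mul hk).mul hr))) with hu
  have hgu : g = (f : Hinf T) - (ε : ℂ) • u := by
    apply hinf_ext
    have e1 := Lp.coeFn_sub ((f : Hinf T) : Lp ℂ ∞ (haarAddCircle (T := T)))
      ((((ε : ℂ) • u : Hinf T)) : Lp ℂ ∞ (haarAddCircle (T := T)))
    have e2 := Lp.coeFn_smul (ε : ℂ) (u : Lp ℂ ∞ (haarAddCircle (T := T)))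
    have e3 := coe_toH _ hgHI
    have e4 := coe_toH _ (hf0.mul (hk.sub ((hk.mul hk).mul hr)))
    filter_upwards [e1, e2, e3, e4] with x e1 e2 e3 e4
    rw [e3, Submodule.coe_sub, e1, Pi.sub_apply, Submodule.coe_smul, e2, Pi.smul_apply, e4,
      smul_eq_mul]
    show f0 x * (1 - (ε : ℂ) * w x) = f0 x - (ε : ℂ) * (f0 x * (k x - k x * k x * r x))
    rw [hw]
    ring
  have hu0 : ∀ o, L o u = 0 := fun o => hLr o
  have hgΦ : g ∈ HPhi Φ := by
    intro χ hχ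
    rw [hgu, map_sub, map_smul]
    have h1 : χ u = 0 := hu0 (some ⟨χ, hχ⟩)
    have h2 : χ (f : Hinf T) = 0 := f.2 χ hχ
    rw [h1, h2, smul_zero, sub_zero]
  have hgφ : φ ⟨g, hgΦ⟩ = 1 := by
    rw [← hψ ⟨g, hgΦ⟩]
    show ψ g = 1
    rw [hgu, map_sub, map_smul]
    have h1 : ψ u = 0 := hu0 none
    have h2 : ψ (f : Hinf T) = φ f := hψ f
    rw [h1, h2, hfm.2, smul_zero, sub_zero]
  have hg1 : ‖(⟨g, hgΦ⟩ : HPhi Φ)‖ ≤ 1 := norm_toH_le hgHI zero_le_one hgn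
  have hgf : (⟨g, hgΦ⟩ : HPhi Φ) ∈ {y : HPhi Φ | ‖y‖ ≤ 1 ∧ φ y = 1} := ⟨hg1, hgφ⟩
  rw [hφ] at hgf
  have hgf2 : g = (f : Hinf T) := congrArg Subtype.val hgf
  have hu1 : u = 0 := by
    rw [hgu, sub_eq_self] at hgf2
    rcases smul_eq_zero.1 hgf2 with h | h
    · exact absurd (by exact_mod_cast h) hε0.ne'
    · exact h
  -- contradiction
  have hae : ∀ᵐ x ∂(haarAddCircle (T := T)), f0 x * (k x - k x * k x * r x) = 0 := by
    have e4 := coe_toH _ (hf0.mul (hk.sub ((hk.mul hk).mul hr)))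
    rw [← hu, hu1] at e4
    filter_upwards [e4, Lp.coeFn_zero ℂ ∞ (haarAddCircle (T := T))] with x h1 h2
    rw [← h1]
    exact h2
  set s : ℝ := max (1 - δ) (1 / 2) with hs
  have hs1 : s < 1 := max_lt (by linarith) (by norm_num)
  have hle : ∀ᵐ x ∂(haarAddCircle (T := T)), ‖f0 x‖ ≤ s := by
    filter_upwards [hae, hk2, hC, hδ] with x h1 h2 h3 h4
    by_contra h5
    push Not at h5
    have h6 : 1 - δ < ‖f0 x‖ := lt_of_le_of_lt (le_max_left _ _) h5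
    have h7 : (1 / 2 : ℝ) < ‖f0 x‖ := lt_of_le_of_lt (le_max_right _ _) h5
    have h8 := (pert_ineq hC0 h3 hM h2.1 (by linarith [h2.2, h4 h6]) hε0.le hε1).2
    rcases mul_eq_zero.1 h1 with h9 | h9
    · rw [h9, norm_zero] at h7
      norm_num at h7
    · exact h8 h9
  have hcontra := norm_le_of_ae (f := ((f : Hinf T) : Lp ℂ ∞ (haarAddCircle (T := T))))
    (C := s) (le_trans (by norm_num) (le_max_right _ _)) hle
  rw [hnorm] at hcontra
  linarith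

end Pool.Agent.V11266.HX
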