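import Pool.Agent.V11266.HX6

/-!
The easy direction.
-/

namespace Pool.Agent.V11266.HX

open MeasureTheory Filter Topology AddCircle
open scoped ENNReal ComplexConjugate

variable {T : ℝ} [hT : Fact (0 < T)]

theorem exposed_of {X : Type*} [NormedAddCommGroup X] [NormedSpace ℂ X] (x : X) (hx : ‖x‖ = 1)
    (L : X →ₗ[ℂ] ℂ) (hL : ∀ y, ‖L y‖ ≤ 1 * ‖y‖) (hLx : L x = 1)
    (huniq : ∀ y, ‖y‖ ≤ 1 → L y = 1 → y = x) : IsExposedPoint x := by
  refine ⟨L.mkContinuous 1 hL, ?_, ?_⟩
  · refine le_antisymm (L.mkContinuous_norm_le zero_le_one hL) ?_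
    have h1 := (L.mkContinuous 1 hL).le_opNorm x
    rw [hx, mul_one, LinearMap.mkContinuous_apply, hLx, norm_one] at h1
    exact h1
  · ext y
    simp only [Set.mem_ofPred_eq, LinearMap.mkContinuous_apply, Set.mem_singleton_iff]
    constructor
    · rintro ⟨h1, h2⟩
      exact huniq y h1 h2
    · rintro rfl
      exact ⟨hx.le, hLx⟩

theorem pos_exposed (Φ : Set (Hinf T →L[ℂ] ℂ)) (f : HPhi Φ) (hfn : ‖f‖ = 1)
    (hpos : 0 < haarAddCircle {x : AddCircle T |
        ‖((f : Hinf T) : Lp ℂ ∞ (haarAddCircle (T := T))) x‖ = 1}) : IsExposedPoint f := by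
  let f0 : AddCircle T → ℂ := ((f : Hinf T) : Lp ℂ ∞ (haarAddCircle (T := T)))
  have hf0 : HI f0 := hiOf (f : Hinf T)
  have hf0m : StronglyMeasurable f0 := Lp.stronglyMeasurable _
  set E : Set (AddCircle T) := {x | ‖f0 x‖ = 1} with hE
  have hEm : MeasurableSet E := by
    have := hf0m.norm.measurable (measurableSet_singleton (1 : ℝ))
    exact this
  have hnorm : ‖((f : Hinf T) : Lp ℂ ∞ (haarAddCircle (T := T)))‖ = 1 := hfn
  have hf1 : ∀ᵐ x ∂(haarAddCircle (T := T)), ‖f0 x‖ ≤ 1 := by
    have := ae_norm_le ((f : Hinf T) : Lp ℂ ∞ (haarAddCircle (T := T)))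
    rw [hnorm] at this
    exact this
  set c : ℝ := (haarAddCircle E).toReal with hc
  have hc0 : 0 < c := ENNReal.toReal_pos hpos.ne' (measure_ne_top _ _)
  let e : AddCircle T → ℂ := E.indicator fun x => conj (f0 x)
  have hem : AEStronglyMeasurable e (haarAddCircle (T := T)) :=
    ((Complex.continuous_conj.comp_stronglyMeasurable hf0m).indicator hEm).aestronglyMeasurable
  have hen : ∀ x, ‖e x‖ ≤ E.indicator (fun _ => (1 : ℝ)) x := by
    intro x
    by_cases hx : x ∈ E
    · show ‖E.indicator (fun x => conj (f0 x)) x‖ ≤ _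
      rw [Set.indicator_of_mem hx, Set.indicator_of_mem hx, RCLike.norm_conj]
      exact le_of_eq hx
    · show ‖E.indicator (fun x => conj (f0 x)) x‖ ≤ _
      rw [Set.indicator_of_notMem hx, Set.indicator_of_notMem hx, norm_zero]
  have hen1 : ∀ x, ‖e x‖ ≤ 1 := by
    intro x
    refine (hen x).trans ?_
    by_cases hx : x ∈ E
    · rw [Set.indicator_of_mem hx]
    · rw [Set.indicator_of_notMem hx]; exact zero_le_one
  have hint : ∀ g : HPhi Φ, Integrable (fun x => e x *
      ((g : Hinf T) : Lp ℂ ∞ (haarAddCircle (T := T))) x) (haarAddCircle (T := T)) := by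
    intro g
    refine integrable_bdd (hem.mul (Lp.aestronglyMeasurable _))
      ⟨‖((g : Hinf T) : Lp ℂ ∞ (haarAddCircle (T := T)))‖, ?_⟩
    filter_upwards [ae_norm_le ((g : Hinf T) : Lp ℂ ∞ (haarAddCircle (T := T)))] with x hx
    rw [norm_mul]
    calc ‖e x‖ * _ ≤ 1 * ‖((g : Hinf T) : Lp ℂ ∞ (haarAddCircle (T := T)))‖ :=
          mul_le_mul (hen1 x) hx (norm_nonneg _) zero_le_one
      _ = _ := one_mul _
  let L : HPhi Φ →ₗ[ℂ] ℂ :=
    { toFun := fun g => (c : ℂ)⁻¹ * ∫ x, e x *
        ((g : Hinf T) : Lp ℂ ∞ (haarAddCircle (T := T))) x ∂(haarAddCircle (T := T))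
      map_add' := by
        intro g h
        rw [← mul_add, ← integral_add (hint g) (hint h)]
        congr 1
        apply integral_congr_ae
        filter_upwards [Lp.coeFn_add ((g : Hinf T) : Lp ℂ ∞ (haarAddCircle (T := T)))
          ((h : Hinf T) : Lp ℂ ∞ (haarAddCircle (T := T)))] with x hx
        rw [Submodule.coe_add, Submodule.coe_add, hx, Pi.add_apply]
        ring
      map_smul' := by
        intro a g
        have h1 : ∫ x, e x * ((((a • g : HPhi Φ)) : Hinf T) : Lp ℂ ∞ (haarAddCircle (T := T))) x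
            ∂(haarAddCircle (T := T)) = a * ∫ x, e x *
            ((g : Hinf T) : Lp ℂ ∞ (haarAddCircle (T := T))) x ∂(haarAddCircle (T := T)) := by
          rw [← integral_const_mul]
          apply integral_congr_ae
          filter_upwards [Lp.coeFn_smul a ((g : Hinf T) : Lp ℂ ∞ (haarAddCircle (T := T)))]
            with x hx
          rw [Submodule.coe_smul, Submodule.coe_smul, hx, Pi.smul_apply, smul_eq_mul]
          ring
        rw [RingHom.id_apply, smul_eq_mul, h1]
        ring }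
  have hLapp : ∀ g : HPhi Φ, L g = (c : ℂ)⁻¹ * ∫ x, e x *
        ((g : Hinf T) : Lp ℂ ∞ (haarAddCircle (T := T))) x ∂(haarAddCircle (T := T)) :=
    fun g => rfl
  have hindint : ∫ x, E.indicator (fun _ => (1 : ℝ)) x ∂(haarAddCircle (T := T)) = c := by
    rw [integral_indicator_const _ hEm, smul_eq_mul, mul_one, measureReal_def]
  have hcc : (c : ℂ) ≠ 0 := by exact_mod_cast hc0.ne'
  have hkey := @exposed_of (HPhi Φ) _ _
  apply hkey f hfn L
  · intro g
    rw [hLapp, norm_mul, norm_inv, Complex.norm_real, Real.norm_of_nonneg hc0.le, one_mul]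
    set G := ‖((g : Hinf T) : Lp ℂ ∞ (haarAddCircle (T := T)))‖ with hG
    have hgG : ‖g‖ = G := rfl
    rw [hgG]
    have h1 : ‖∫ x, e x * ((g : Hinf T) : Lp ℂ ∞ (haarAddCircle (T := T))) x
        ∂(haarAddCircle (T := T))‖ ≤ ∫ x, E.indicator (fun _ => (1 : ℝ)) x * G
          ∂(haarAddCircle (T := T)) := by
      apply norm_integral_le_of_norm_le
      · exact ((integrable_const (1 : ℝ)).indicator hEm).mul_const G
      · filter_upwards [ae_norm_le ((g : Hinf T) : Lp ℂ ∞ (haarAddCircle (T := T)))] with x hx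
        rw [norm_mul]
        exact mul_le_mul (hen x) hx (norm_nonneg _)
          (Set.indicator_nonneg (fun _ _ => zero_le_one) x)
    rw [integral_mul_const, hindint] at h1
    calc c⁻¹ * _ ≤ c⁻¹ * (c * G) := mul_le_mul_of_nonneg_left h1 (by positivity)
      _ = G := by field_simp
  · rw [hLapp]
    have h1 : ∫ x, e x * ((f : Hinf T) : Lp ℂ ∞ (haarAddCircle (T := T))) x
        ∂(haarAddCircle (T := T)) = ∫ x, ((E.indicator (fun _ => (1 : ℝ)) x : ℝ) : ℂ)
          ∂(haarAddCircle (T := T)) := by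
      apply integral_congr_ae
      refine Eventually.of_forall fun x => ?_
      show E.indicator (fun x => conj (f0 x)) x * f0 x =
        ((E.indicator (fun _ => (1 : ℝ)) x : ℝ) : ℂ)
      by_cases hx : x ∈ E
      · rw [Set.indicator_of_mem hx, Set.indicator_of_mem hx]
        have h2 : ‖f0 x‖ = 1 := hx
        rw [mul_comm, Complex.mul_conj, Complex.normSq_eq_norm_sq, h2]
        norm_num
      · rw [Set.indicator_of_notMem hx, Set.indicator_of_notMem hx, zero_mul]
        norm_num
    rw [h1, integral_complex_ofReal, hindint, inv_mul_cancel₀ hcc]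
  · intro g hg hLg
    have hG : ‖((g : Hinf T) : Lp ℂ ∞ (haarAddCircle (T := T)))‖ ≤ 1 := hg
    let g0 : AddCircle T → ℂ := ((g : Hinf T) : Lp ℂ ∞ (haarAddCircle (T := T)))
    have hg0 : HI g0 := hiOf (g : Hinf T)
    have hg1 : ∀ᵐ x ∂(haarAddCircle (T := T)), ‖g0 x‖ ≤ 1 := by
      filter_upwards [ae_norm_le ((g : Hinf T) : Lp ℂ ∞ (haarAddCircle (T := T)))] with x hx
      exact hx.trans hG
    rw [hLapp] at hLg
    have h1 : ∫ x, e x * g0 x ∂(haarAddCircle (T := T)) = (c : ℂ) := by
      have := congrArg (fun z => (c : ℂ) * z) hLg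
      simp only [mul_one] at this
      rw [← mul_assoc, mul_inv_cancel₀ hcc, one_mul] at this
      exact this
    have h2 : ∫ x, (e x * g0 x).re ∂(haarAddCircle (T := T)) = c := by
      have := integral_re (hint g)
      have h3 : ∫ x, (e x * g0 x).re ∂(haarAddCircle (T := T)) =
          (∫ x, e x * g0 x ∂(haarAddCircle (T := T))).re := this
      rw [h3, h1, Complex.ofReal_re]
    have hnn : ∀ᵐ x ∂(haarAddCircle (T := T)),
        0 ≤ E.indicator (fun _ => (1 : ℝ)) x - (e x * g0 x).re := by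
      filter_upwards [hg1] with x hx
      have h3 : (e x * g0 x).re ≤ ‖e x‖ * ‖g0 x‖ := by
        rw [← norm_mul]; exact Complex.re_le_norm _
      have h4 : ‖e x‖ * ‖g0 x‖ ≤ E.indicator (fun _ => (1 : ℝ)) x * 1 :=
        mul_le_mul (hen x) hx (norm_nonneg _) (Set.indicator_nonneg (fun _ _ => zero_le_one) x)
      linarith
    have hint2 : Integrable (fun x => E.indicator (fun _ => (1 : ℝ)) x - (e x * g0 x).re)
        (haarAddCircle (T := T)) :=
      ((integrable_const (1 : ℝ)).indicator hEm).sub (hint g).re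
    have h5 : ∫ x, (E.indicator (fun _ => (1 : ℝ)) x - (e x * g0 x).re)
        ∂(haarAddCircle (T := T)) = 0 := by
      have h6 : Integrable (fun x => (e x * g0 x).re) (haarAddCircle (T := T)) := (hint g).re
      rw [integral_sub ((integrable_const (1 : ℝ)).indicator hEm) h6, h2, hindint, sub_self]
    have h7 := (integral_eq_zero_iff_of_nonneg_ae hnn hint2).1 h5
    have h8 : ∀ᵐ x ∂(haarAddCircle (T := T)), x ∈ E → g0 x - f0 x = 0 := by
      filter_upwards [h7, hg1] with x hx hx1 hxE
      have hx2 : E.indicator (fun _ => (1 : ℝ)) x - (e x * g0 x).re = 0 := hx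
      have hx3 : e x = conj (f0 x) := Set.indicator_of_mem hxE _
      rw [Set.indicator_of_mem hxE, hx3] at hx2
      have h9 : ‖f0 x‖ = 1 := hxE
      have h10 : ‖g0 x - f0 x‖ ^ 2 = ‖g0 x‖ ^ 2 - 2 * (conj (f0 x) * g0 x).re + ‖f0 x‖ ^ 2 := by
        rw [← Complex.normSq_eq_norm_sq, ← Complex.normSq_eq_norm_sq,
          ← Complex.normSq_eq_norm_sq, Complex.normSq_apply, Complex.normSq_apply,
          Complex.normSq_apply, Complex.sub_re, Complex.sub_im, Complex.mul_re, Complex.conj_re,
          Complex.conj_im]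
        ring
      have h11 : ‖g0 x‖ ^ 2 ≤ 1 := by
        have := norm_nonneg (g0 x)
        nlinarith
      have h12 : ‖g0 x - f0 x‖ ^ 2 ≤ 0 := by
        rw [h10, h9]
        linarith
      have h13 : ‖g0 x - f0 x‖ = 0 := by
        have := norm_nonneg (g0 x - f0 x)
        nlinarith
      exact norm_eq_zero.1 h13
    have h9 := uniqueness (hg0.sub hf0) hEm hpos.ne' h8
    apply Subtype.ext
    apply hinf_ext
    filter_upwards [h9] with x hx
    exact sub_eq_zero.1 hx

end Pool.Agent.V11266.HX
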