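import Mathlib

/-!
# Integrality of torsion points of squarefree order on `y² = x³ + A x² + B x`
-/

set_option autoImplicit false

namespace Pool.Agent.V11266.LN

open WeierstrassCurve

section norm

variable {p : ℕ} [hp : Fact p.Prime]

theorem add_le {a b c : ℚ} (ha : padicNorm p a ≤ c) (hb : padicNorm p b ≤ c) :
    padicNorm p (a + b) ≤ c :=
  padicNorm.nonarchimedean.trans (max_le ha hb)

theorem sub_le' {a b c : ℚ} (ha : padicNorm p a ≤ c) (hb : padicNorm p b ≤ c) :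
    padicNorm p (a - b) ≤ c := by
  rw [sub_eq_add_neg]
  exact add_le ha (by rw [padicNorm.neg]; exact hb)

theorem one_add {u : ℚ} (hu : padicNorm p u < 1) : padicNorm p (1 + u) = 1 := by
  rw [padicNorm.add_eq_max_of_ne (by rw [padicNorm.one]; exact hu.ne'), padicNorm.one]
  exact max_eq_left hu.le

omit hp in
theorem nonneg' (a : ℚ) : 0 ≤ padicNorm p a := padicNorm.nonneg a

theorem mul_le' {a b c d : ℚ} (ha : padicNorm p a ≤ c) (hb : padicNorm p b ≤ d) (hc : 0 ≤ c) :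
    padicNorm p (a * b) ≤ c * d := by
  rw [padicNorm.mul]
  exact mul_le_mul ha hb (nonneg' _) hc

theorem pow' (a : ℚ) (n : ℕ) : padicNorm p (a ^ n) = padicNorm p a ^ n := by
  induction n with
  | zero => rw [pow_zero, pow_zero, padicNorm.one]
  | succ n ih => rw [pow_succ, pow_succ, padicNorm.mul, ih]

variable {A B : ℚ}

/-- the size of `y` -/
theorem y_size (hA : padicNorm p A ≤ 1) (hB : padicNorm p B ≤ 1) {x y : ℚ}
    (hE : y ^ 2 = x ^ 3 + A * x ^ 2 + B * x) (hx : 1 < padicNorm p x) :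
    padicNorm p y ^ 2 = padicNorm p x ^ 3 := by
  have h0 : (0 : ℚ) < padicNorm p x := by linarith
  have h1 : padicNorm p (A * x ^ 2 + B * x) < padicNorm p (x ^ 3) := by
    have e1 : padicNorm p (A * x ^ 2 + B * x) ≤ padicNorm p x ^ 2 := by
      refine add_le ?_ ?_
      · rw [padicNorm.mul, pow']
        nlinarith [pow_pos h0 2]
      · rw [padicNorm.mul]
        nlinarith [nonneg' (p := p) B]
    refine e1.trans_lt ?_
    rw [pow']
    nlinarith [pow_pos h0 2]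
  rw [← pow', hE, add_assoc, padicNorm.add_eq_max_of_ne h1.ne', max_eq_left h1.le, pow']

/-- conversely, if `y` is large then so is `x` -/
theorem x_large (hA : padicNorm p A ≤ 1) (hB : padicNorm p B ≤ 1) {x y : ℚ}
    (hE : y ^ 2 = x ^ 3 + A * x ^ 2 + B * x) (hy : 1 < padicNorm p y) :
    1 < padicNorm p x := by
  by_contra hx
  push Not at hx
  have h1 : padicNorm p (y ^ 2) ≤ 1 := by
    rw [hE]
    have h0 := nonneg' (p := p) x
    refine add_le (add_le ?_ ?_) ?_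
    · rw [pow']; exact pow_le_one₀ h0 hx
    · rw [padicNorm.mul, pow']
      exact mul_le_one₀ hA (pow_nonneg h0 _) (pow_le_one₀ h0 hx)
    · rw [padicNorm.mul]
      exact mul_le_one₀ hB h0 hx
  rw [pow'] at h1
  nlinarith

theorem core (hA : padicNorm p A ≤ 1) (hB : padicNorm p B ≤ 1) {x1 y1 x2 y2 x3 l m ρ : ℚ}
    (hρ0 : 0 < ρ) (hρ1 : ρ < 1) (hy1 : y1 ≠ 0) (hy2 : y2 ≠ 0)
    (hz1 : padicNorm p (x1 / y1) ≤ ρ) (hz2 : padicNorm p (x2 / y2) ≤ ρ)
    (hw1 : padicNorm p (1 / y1) ≤ ρ ^ 3) (hw2 : padicNorm p (1 / y2) ≤ ρ ^ 3)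
    (L1 : y1 = l * x1 + m) (L2 : y2 = l * x2 + m)
    (hU : l * (1 - A * (x2 / y2) ^ 2 - B * (x2 / y2) * (1 / y1 + 1 / y2)) =
      -m * ((x1 / y1) ^ 2 + (x1 / y1) * (x2 / y2) + (x2 / y2) ^ 2 +
        A * (x1 / y1 + x2 / y2) * (1 / y1) + B * (1 / y1) ^ 2))
    (e1 : x1 + x2 + x3 = l ^ 2 - A) (e2 : x1 * x2 + (x1 + x2) * x3 = B - 2 * l * m)
    (e3 : x1 * x2 * x3 = m ^ 2) :
    l * x3 + m ≠ 0 ∧ padicNorm p (1 / (l * x3 + m)) ≤ ρ ^ 3 ∧
      padicNorm p (x1 / y1 + x2 / y2 + x3 / (l * x3 + m)) ≤ ρ ^ 3 := by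
  have hl1 : 1 = l * (x1 / y1) + m * (1 / y1) := by
    field_simp; exact L1
  set z1 := x1 / y1 with hz1d
  set z2 := x2 / y2 with hz2d
  set w1 := 1 / y1 with hw1d
  set w2 := 1 / y2 with hw2d
  have hρ2 : ρ ^ 2 < 1 := pow_lt_one₀ hρ0.le hρ1 (by norm_num)
  have hρ3 : ρ ^ 3 ≤ ρ ^ 2 := pow_le_pow_of_le_one hρ0.le hρ1.le (by norm_num)
  have hρ31 : ρ ^ 3 ≤ ρ := by
    calc ρ ^ 3 ≤ ρ ^ 1 := pow_le_pow_of_le_one hρ0.le hρ1.le (by norm_num)
      _ = ρ := pow_one ρ
  -- the unit `U`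
  have hUn : padicNorm p (1 - A * z2 ^ 2 - B * z2 * (w1 + w2)) = 1 := by
    have : 1 - A * z2 ^ 2 - B * z2 * (w1 + w2) = 1 + -(A * z2 ^ 2 + B * z2 * (w1 + w2)) := by ring
    rw [this]
    apply one_add
    rw [padicNorm.neg]
    refine lt_of_le_of_lt (add_le ?_ ?_) hρ2
    · have := mul_le' (p := p) hA (show padicNorm p (z2 ^ 2) ≤ ρ ^ 2 by
        rw [pow']; exact pow_le_pow_left₀ (nonneg' _) hz2 2) zero_le_one
      simpa using this
    · have h1 : padicNorm p (B * z2) ≤ 1 * ρ := mul_le' hB hz2 zero_le_one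
      have h2 : padicNorm p (w1 + w2) ≤ ρ ^ 3 := add_le hw1 hw2
      have h3 := mul_le' h1 h2 (by linarith)
      refine h3.trans ?_
      nlinarith
  set U := 1 - A * z2 ^ 2 - B * z2 * (w1 + w2) with hUd
  have hU0 : U ≠ 0 := by
    intro h
    rw [h, padicNorm.zero] at hUn
    norm_num at hUn
  set V := z1 ^ 2 + z1 * z2 + z2 ^ 2 + A * (z1 + z2) * w1 + B * w1 ^ 2 with hVd
  have hVn : padicNorm p V ≤ ρ ^ 2 := by
    refine add_le (add_le (add_le (add_le ?_ ?_) ?_) ?_) ?_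
    · rw [pow']; exact pow_le_pow_left₀ (nonneg' _) hz1 2
    · have := mul_le' hz1 hz2 hρ0.le
      nlinarith
    · rw [pow']; exact pow_le_pow_left₀ (nonneg' _) hz2 2
    · have h1 : padicNorm p (A * (z1 + z2)) ≤ 1 * ρ := mul_le' hA (add_le hz1 hz2) zero_le_one
      have h2 := mul_le' h1 hw1 (by linarith)
      refine h2.trans ?_
      calc 1 * ρ * ρ ^ 3 = ρ ^ 4 := by ring
        _ ≤ ρ ^ 2 := pow_le_pow_of_le_one hρ0.le hρ1.le (by norm_num)
    · have h1 : padicNorm p (w1 ^ 2) ≤ (ρ ^ 3) ^ 2 := by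
        rw [pow']; exact pow_le_pow_left₀ (nonneg' _) hw1 2
      have h2 := mul_le' hB h1 zero_le_one
      refine h2.trans ?_
      calc 1 * (ρ ^ 3) ^ 2 = ρ ^ 6 := by ring
        _ ≤ ρ ^ 2 := pow_le_pow_of_le_one hρ0.le hρ1.le (by norm_num)
  have hm0 : m ≠ 0 := by
    rintro rfl
    have h1 : l * U = 0 := by rw [hU]; ring
    rcases mul_eq_zero.1 h1 with h2 | h2
    · rw [h2] at hl1; norm_num at hl1
    · exact hU0 h2
  -- `λ = -l / m = V / U`, `ν = 1 / m = w1 - z1 V / U`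
  set lam := V / U with hlam
  have hlm : l = -m * lam := by
    rw [hlam]; field_simp; linear_combination hU
  have hnu : 1 / m = w1 - z1 * lam := by
    have : 1 = m * (w1 - z1 * lam) := by
      rw [hlm] at hl1; linear_combination hl1
    field_simp
    linear_combination this
  have hlamn : padicNorm p lam ≤ ρ ^ 2 := by
    rw [hlam, padicNorm.div, hUn, div_one]; exact hVn
  have hnun : padicNorm p (1 / m) ≤ ρ ^ 3 := by
    rw [hnu]
    refine sub_le' hw1 ?_
    have := mul_le' hz1 hlamn hρ0.le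
    calc _ ≤ ρ * ρ ^ 2 := this
      _ = ρ ^ 3 := by ring
  set Δ := 1 + (A * lam + B * lam ^ 2) with hΔ
  have hΔn : padicNorm p Δ = 1 := by
    apply one_add
    refine lt_of_le_of_lt (add_le ?_ ?_) hρ2
    · have := mul_le' hA hlamn zero_le_one
      simpa using this
    · have h1 : padicNorm p (lam ^ 2) ≤ (ρ ^ 2) ^ 2 := by
        rw [pow']; exact pow_le_pow_left₀ (nonneg' _) hlamn 2
      have h2 := mul_le' hB h1 zero_le_one
      refine h2.trans ?_
      nlinarith [pow_pos hρ0 2]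
  have hΔ0 : Δ ≠ 0 := by
    intro h
    rw [h, padicNorm.zero] at hΔn
    norm_num at hΔn
  have hprod : y1 * y2 * (l * x3 + m) = m ^ 3 * Δ := by
    rw [L1, L2, hΔ]
    have : (l * x1 + m) * (l * x2 + m) * (l * x3 + m) =
        l ^ 3 * (x1 * x2 * x3) + l ^ 2 * m * (x1 * x2 + (x1 + x2) * x3) +
          l * m ^ 2 * (x1 + x2 + x3) + m ^ 3 := by ring
    rw [this, e1, e2, e3, hlm]
    ring
  have hy3 : l * x3 + m ≠ 0 := by
    intro h
    rw [h, mul_zero] at hprod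
    exact mul_ne_zero (pow_ne_zero 3 hm0) hΔ0 hprod.symm
  have hsum : z1 + z2 + x3 / (l * x3 + m) = 1 / m * (-(A + 2 * B * lam)) / Δ := by
    rw [hz1d, hz2d]
    have hn : x1 * y2 * (l * x3 + m) + x2 * y1 * (l * x3 + m) + x3 * y1 * y2 =
        m ^ 2 * (-(A + 2 * B * lam)) := by
      rw [L1, L2]
      have : x1 * (l * x2 + m) * (l * x3 + m) + x2 * (l * x1 + m) * (l * x3 + m) +
          x3 * (l * x1 + m) * (l * x2 + m) = 3 * l ^ 2 * (x1 * x2 * x3) +
            2 * l * m * (x1 * x2 + (x1 + x2) * x3) + m ^ 2 * (x1 + x2 + x3) := by ring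
      rw [this, e1, e2, e3, hlm]
      ring
    have h1 : x1 / y1 + x2 / y2 + x3 / (l * x3 + m) =
        (x1 * y2 * (l * x3 + m) + x2 * y1 * (l * x3 + m) + x3 * y1 * y2) /
          (y1 * y2 * (l * x3 + m)) := by
      have hy3' : l * x3 + m ≠ 0 := hy3
      generalize l * x3 + m = D3 at hy3' ⊢
      field_simp
    rw [h1, hn, hprod]
    field_simp
  have hsumn : padicNorm p (z1 + z2 + x3 / (l * x3 + m)) ≤ ρ ^ 3 := by
    rw [hsum, padicNorm.div, hΔn, div_one]
    have h2B : padicNorm p (2 * B) ≤ 1 := by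
      have h2 : padicNorm p ((2 : ℕ) : ℚ) ≤ 1 := padicNorm.of_nat 2
      have := mul_le' h2 hB zero_le_one
      simpa using this
    have h3 : padicNorm p (2 * B * lam) ≤ 1 := by
      have := mul_le' h2B hlamn zero_le_one
      refine this.trans ?_
      linarith
    have h1 : padicNorm p (-(A + 2 * B * lam)) ≤ 1 := by
      rw [padicNorm.neg]
      exact add_le hA h3
    have := mul_le' hnun h1 (by positivity)
    simpa using this
  refine ⟨hy3, ?_, hsumn⟩
  -- the size of `w3`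
  have hz3 : padicNorm p (x3 / (l * x3 + m)) ≤ ρ := by
    have : x3 / (l * x3 + m) = (z1 + z2 + x3 / (l * x3 + m)) - (z1 + z2) := by ring
    rw [this]
    exact sub_le' (hsumn.trans hρ31) (add_le hz1 hz2)
  have hw3 : 1 / (l * x3 + m) = 1 / m + lam * (x3 / (l * x3 + m)) := by
    have : lam = -l / m := by rw [hlm]; field_simp
    rw [this]
    field_simp
    ring
  rw [hw3]
  refine add_le hnun ?_
  have := mul_le' hlamn hz3 (by positivity)
  calc _ ≤ ρ ^ 2 * ρ := this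
    _ = ρ ^ 3 := by ring

end norm

/-- the curve `y² = x³ + A x² + B x` -/
def E (A B : ℚ) : WeierstrassCurve.Affine ℚ := (⟨0, A, 0, B, 0⟩ : WeierstrassCurve ℚ)

theorem eqn {A B x y : ℚ} (h : (E A B).Nonsingular x y) : y ^ 2 = x ^ 3 + A * x ^ 2 + B * x := by
  have := (Affine.equation_iff _ _).1 h.1
  simp only [E] at this
  linear_combination this

theorem chordVieta {A B x1 y1 x2 y2 l m x3 : ℚ} (E1 : y1 ^ 2 = x1 ^ 3 + A * x1 ^ 2 + B * x1)
    (E2 : y2 ^ 2 = x2 ^ 3 + A * x2 ^ 2 + B * x2) (hx : x1 ≠ x2) (L1 : y1 = l * x1 + m)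
    (L2 : y2 = l * x2 + m) (e1 : x1 + x2 + x3 = l ^ 2 - A) :
    x1 * x2 + (x1 + x2) * x3 = B - 2 * l * m ∧ x1 * x2 * x3 = m ^ 2 := by
  have hsub : x1 - x2 ≠ 0 := sub_ne_zero.2 hx
  rw [L1] at E1
  rw [L2] at E2
  have h3 : x3 = l ^ 2 - A - x1 - x2 := by linear_combination e1
  have q2 : x1 * x2 + (x1 + x2) * x3 = B - 2 * l * m := by
    apply mul_left_cancel₀ hsub
    rw [h3]
    linear_combination E1 - E2
  refine ⟨q2, ?_⟩
  have : x3 = l ^ 2 - A - x1 - x2 := h3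
  rw [h3] at q2 ⊢
  linear_combination (-1 : ℚ) * E1 + x1 * q2

theorem chordU {A B x1 y1 x2 y2 l m : ℚ} (E1 : y1 ^ 2 = x1 ^ 3 + A * x1 ^ 2 + B * x1)
    (E2 : y2 ^ 2 = x2 ^ 3 + A * x2 ^ 2 + B * x2) (hx : x1 ≠ x2) (hy1 : y1 ≠ 0) (hy2 : y2 ≠ 0)
    (L1 : y1 = l * x1 + m) (L2 : y2 = l * x2 + m)
    (hU0 : 1 - A * (x2 / y2) ^ 2 - B * (x2 / y2) * (1 / y1 + 1 / y2) ≠ 0) :
    l * (1 - A * (x2 / y2) ^ 2 - B * (x2 / y2) * (1 / y1 + 1 / y2)) =
      -m * ((x1 / y1) ^ 2 + (x1 / y1) * (x2 / y2) + (x2 / y2) ^ 2 +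
        A * (x1 / y1 + x2 / y2) * (1 / y1) + B * (1 / y1) ^ 2) := by
  have a1 : 1 = l * (x1 / y1) + m * (1 / y1) := by field_simp; exact L1
  have a2 : 1 = l * (x2 / y2) + m * (1 / y2) := by field_simp; exact L2
  have c1 : 1 / y1 = (x1 / y1) ^ 3 + A * (x1 / y1) ^ 2 * (1 / y1) + B * (x1 / y1) * (1 / y1) ^ 2 := by
    field_simp; linear_combination E1
  have c2 : 1 / y2 = (x2 / y2) ^ 3 + A * (x2 / y2) ^ 2 * (1 / y2) + B * (x2 / y2) * (1 / y2) ^ 2 := by
    field_simp; linear_combination E2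
  have hxx : x1 = (x1 / y1) / (1 / y1) := by field_simp
  have hxx2 : x2 = (x2 / y2) / (1 / y2) := by field_simp
  generalize x1 / y1 = z1 at *
  generalize x2 / y2 = z2 at *
  generalize 1 / y1 = w1 at *
  generalize 1 / y2 = w2 at *
  have key : (w1 - w2) * (1 - A * z2 ^ 2 - B * z2 * (w1 + w2)) =
      (z1 - z2) * (z1 ^ 2 + z1 * z2 + z2 ^ 2 + A * (z1 + z2) * w1 + B * w1 ^ 2) := by
    linear_combination c1 - c2
  have hz : z1 - z2 ≠ 0 := by
    intro h
    rw [h, zero_mul] at key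
    rcases mul_eq_zero.1 key with h1 | h1
    · apply hx
      rw [hxx, hxx2, sub_eq_zero.1 h, sub_eq_zero.1 h1]
    · exact hU0 h1
  apply mul_left_cancel₀ hz
  linear_combination (-(1 - A * z2 ^ 2 - B * z2 * (w1 + w2))) * (a1 - a2) - m * key

theorem tangU {A B x y l m : ℚ} (E1 : y ^ 2 = x ^ 3 + A * x ^ 2 + B * x) (hy : y ≠ 0)
    (hl : 2 * y * l = 3 * x ^ 2 + 2 * A * x + B) (L : y = l * x + m) :
    l * (1 - A * (x / y) ^ 2 - B * (x / y) * (1 / y + 1 / y)) =
      -m * ((x / y) ^ 2 + (x / y) * (x / y) + (x / y) ^ 2 +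
        A * (x / y + x / y) * (1 / y) + B * (1 / y) ^ 2) := by
  have hm : m = y - l * x := by linear_combination -L
  rw [hm]
  field_simp
  linear_combination (3 * l) * E1 - y * hl

theorem tangVieta {A B x y l m x3 : ℚ} (E1 : y ^ 2 = x ^ 3 + A * x ^ 2 + B * x)
    (hl : 2 * y * l = 3 * x ^ 2 + 2 * A * x + B) (L : y = l * x + m)
    (e1 : x + x + x3 = l ^ 2 - A) :
    x * x + (x + x) * x3 = B - 2 * l * m ∧ x * x * x3 = m ^ 2 := by
  have hm : m = y - l * x := by linear_combination -L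
  have h3 : x3 = l ^ 2 - A - x - x := by linear_combination e1
  rw [hm, h3]
  constructor
  · linear_combination hl
  · linear_combination (-1 : ℚ) * E1 + x * hl


section pts

variable {p : ℕ} [hp : Fact p.Prime] {A B : ℚ}

abbrev Pt (A B : ℚ) : Type := (E A B).Point

/-- the coordinate `x / y` at infinity -/
def zc : Pt A B → ℚ
  | .zero => 0
  | .some x y _ => x / y

/-- the coordinate `1 / y` at infinity -/
def wc : Pt A B → ℚ
  | .zero => 0
  | .some _ y _ => 1 / y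

/-- the kernel of the reduction modulo `p` -/
def Ker (p : ℕ) : Pt A B → Prop
  | .zero => True
  | .some x _ _ => 1 < padicNorm p x

theorem ker_some {x y : ℚ} (h : (E A B).Nonsingular x y) :
    Ker p (Affine.Point.some x y h : Pt A B) ↔ 1 < padicNorm p x := Iff.rfl

theorem negY_eq (x y : ℚ) : (E A B).negY x y = -y := by
  simp [Affine.negY, E]

theorem z_size (hA : padicNorm p A ≤ 1) (hB : padicNorm p B ≤ 1) {x y : ℚ}
    (hE : y ^ 2 = x ^ 3 + A * x ^ 2 + B * x) (hx : 1 < padicNorm p x) :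
    y ≠ 0 ∧ padicNorm p (x / y) ^ 2 = 1 / padicNorm p x ∧
      padicNorm p (1 / y) = padicNorm p (x / y) ^ 3 ∧ 0 < padicNorm p (x / y) ∧
      padicNorm p (x / y) < 1 := by
  have h1 := y_size hA hB hE hx
  have h0 : (0 : ℚ) < padicNorm p x := by linarith
  have hy : y ≠ 0 := by
    rintro rfl
    rw [padicNorm.zero] at h1
    have : 0 < padicNorm p x ^ 3 := pow_pos h0 3
    rw [← h1] at this
    norm_num at this
  have hyn : 0 < padicNorm p y := lt_of_le_of_ne (nonneg' _) (fun h => by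
    rw [← h] at h1
    have : 0 < padicNorm p x ^ 3 := pow_pos h0 3
    rw [← h1] at this
    norm_num at this)
  have h2 : padicNorm p (x / y) ^ 2 = 1 / padicNorm p x := by
    rw [padicNorm.div, div_pow, h1]
    field_simp
  have hzp : 0 < padicNorm p (x / y) := by
    rw [padicNorm.div]; positivity
  refine ⟨hy, h2, ?_, hzp, ?_⟩
  · have h3 : padicNorm p (1 / y) ^ 2 = (padicNorm p (x / y) ^ 3) ^ 2 := by
      have : (padicNorm p (x / y) ^ 3) ^ 2 = (padicNorm p (x / y) ^ 2) ^ 3 := by ring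
      rw [this, h2, padicNorm.div, padicNorm.one, div_pow, h1]
      field_simp
    exact (pow_left_inj₀ (nonneg' _) (by positivity) (by norm_num)).1 h3
  · by_contra h
    push Not at h
    have h4 : 1 ≤ padicNorm p (x / y) ^ 2 := one_le_pow₀ h
    rw [h2, le_div_iff₀ h0] at h4
    linarith

/-- approximate additivity -/
theorem zadd (hA : padicNorm p A ≤ 1) (hB : padicNorm p B ≤ 1) (P Q : Pt A B) (hP : Ker p P)
    (hQ : Ker p Q) {ρ : ℚ} (hρ0 : 0 < ρ) (hρ1 : ρ < 1) (hPz : padicNorm p (zc P) ≤ ρ)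
    (hQz : padicNorm p (zc Q) ≤ ρ) :
    Ker p (P + Q) ∧ padicNorm p (zc (P + Q) - (zc P + zc Q)) ≤ ρ ^ 3 := by
  rcases P with _ | ⟨x1, y1, h1⟩
  · change Ker p (0 + Q) ∧ padicNorm p (zc (0 + Q) - (0 + zc Q)) ≤ ρ ^ 3
    rw [zero_add]
    refine ⟨hQ, ?_⟩
    rw [zero_add, sub_self, padicNorm.zero]
    positivity
  rcases Q with _ | ⟨x2, y2, h2⟩
  · change Ker p (Affine.Point.some x1 y1 h1 + 0) ∧
      padicNorm p (zc (Affine.Point.some x1 y1 h1 + 0) - (zc (Affine.Point.some x1 y1 h1) + 0)) ≤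
        ρ ^ 3
    rw [add_zero]
    refine ⟨hP, ?_⟩
    rw [add_zero, sub_self, padicNorm.zero]
    positivity
  have E1 := eqn h1
  have E2 := eqn h2
  have hx1 : 1 < padicNorm p x1 := hP
  have hx2 : 1 < padicNorm p x2 := hQ
  obtain ⟨hy1, -, hw1, -, -⟩ := z_size hA hB E1 hx1
  obtain ⟨hy2, -, hw2, -, -⟩ := z_size hA hB E2 hx2
  have hz1 : padicNorm p (x1 / y1) ≤ ρ := hPz
  have hz2 : padicNorm p (x2 / y2) ≤ ρ := hQz
  have hw1' : padicNorm p (1 / y1) ≤ ρ ^ 3 := by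
    rw [hw1]; exact pow_le_pow_left₀ (nonneg' _) hz1 3
  have hw2' : padicNorm p (1 / y2) ≤ ρ ^ 3 := by
    rw [hw2]; exact pow_le_pow_left₀ (nonneg' _) hz2 3
  have hρ2 : ρ ^ 2 < 1 := pow_lt_one₀ hρ0.le hρ1 (by norm_num)
  have hρ3 : ρ ^ 3 < 1 := pow_lt_one₀ hρ0.le hρ1 (by norm_num)
  -- the generic case
  have fin : ∀ l m x3 : ℚ, l = (E A B).slope x1 x2 y1 y2 → ¬ (x1 = x2 ∧ y1 = (E A B).negY x2 y2) →
      x3 = l ^ 2 - A - x1 - x2 → m = y1 - l * x1 → y2 = l * x2 + m →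
      l * (1 - A * (x2 / y2) ^ 2 - B * (x2 / y2) * (1 / y1 + 1 / y2)) =
      -m * ((x1 / y1) ^ 2 + (x1 / y1) * (x2 / y2) + (x2 / y2) ^ 2 +
        A * (x1 / y1 + x2 / y2) * (1 / y1) + B * (1 / y1) ^ 2) →
      x1 * x2 + (x1 + x2) * x3 = B - 2 * l * m → x1 * x2 * x3 = m ^ 2 →
      Ker p ((Affine.Point.some x1 y1 h1 : Pt A B) + Affine.Point.some x2 y2 h2) ∧
        padicNorm p (zc ((Affine.Point.some x1 y1 h1 : Pt A B) + Affine.Point.some x2 y2 h2) -
          (x1 / y1 + x2 / y2)) ≤ ρ ^ 3 := by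
    intro l m x3 hl hxy hx3 hm L2 hU e2 e3
    have L1 : y1 = l * x1 + m := by rw [hm]; ring
    obtain ⟨hy3, hw3, hs⟩ := core hA hB hρ0 hρ1 hy1 hy2 hz1 hz2 hw1' hw2' L1 L2 hU
      (by rw [hx3]; ring) e2 e3
    have hadd := Affine.Point.add_some hxy (h₁ := h1) (h₂ := h2)
    have hX : (E A B).addX x1 x2 ((E A B).slope x1 x2 y1 y2) = x3 := by
      rw [← hl, hx3]; simp [Affine.addX, E]
    have hY : (E A B).addY x1 x2 y1 ((E A B).slope x1 x2 y1 y2) = -(l * x3 + m) := by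
      rw [Affine.addY, Affine.negAddY, hX, negY_eq, ← hl, hm]; ring
    have hns := Affine.nonsingular_add h1 h2 hxy
    rw [hX, hY] at hns
    have hsum : (Affine.Point.some x1 y1 h1 : Pt A B) + Affine.Point.some x2 y2 h2 =
        Affine.Point.some x3 (-(l * x3 + m)) hns := by
      rw [hadd]
      congr 1
    rw [hsum]
    have hE3 := eqn hns
    constructor
    · refine x_large hA hB hE3 ?_
      rw [padicNorm.neg]
      rw [padicNorm.div, padicNorm.one] at hw3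
      have : 0 < padicNorm p (l * x3 + m) := lt_of_le_of_ne (nonneg' _)
        (Ne.symm (padicNorm.nonzero hy3))
      rw [div_le_iff₀ this] at hw3
      nlinarith
    · change padicNorm p (x3 / -(l * x3 + m) - (x1 / y1 + x2 / y2)) ≤ ρ ^ 3
      have : x3 / -(l * x3 + m) - (x1 / y1 + x2 / y2) =
          -(x1 / y1 + x2 / y2 + x3 / (l * x3 + m)) := by
        rw [div_neg]; ring
      rw [this, padicNorm.neg]
      exact hs
  change Ker p ((Affine.Point.some x1 y1 h1 : Pt A B) + Affine.Point.some x2 y2 h2) ∧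
        padicNorm p (zc ((Affine.Point.some x1 y1 h1 : Pt A B) + Affine.Point.some x2 y2 h2) -
          (x1 / y1 + x2 / y2)) ≤ ρ ^ 3
  by_cases hx : x1 = x2
  · subst hx
    by_cases hy : y1 = -y2
    · have h0 : (Affine.Point.some x1 y1 h1 : Pt A B) + Affine.Point.some x1 y2 h2 = 0 :=
        Affine.Point.add_of_Y_eq rfl (by rw [negY_eq]; exact hy)
      rw [h0]
      refine ⟨trivial, ?_⟩
      change padicNorm p (0 - (x1 / y1 + x1 / y2)) ≤ ρ ^ 3
      rw [hy, div_neg]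
      simp only [neg_add_cancel, sub_self, padicNorm.zero]
      positivity
    · have hyy : y1 = y2 := by
        have : (y1 - y2) * (y1 + y2) = 0 := by linear_combination E1 - E2
        rcases mul_eq_zero.1 this with h | h
        · linarith
        · exact absurd (by linarith) hy
      subst hyy
      have hsl : (E A B).slope x1 x1 y1 y1 = (3 * x1 ^ 2 + 2 * A * x1 + B) / (2 * y1) := by
        rw [Affine.slope_of_Y_ne rfl (by rw [negY_eq]; exact hy), negY_eq]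
        simp only [E]
        congr 1 <;> ring
      have hlt : 2 * y1 * ((3 * x1 ^ 2 + 2 * A * x1 + B) / (2 * y1)) =
          3 * x1 ^ 2 + 2 * A * x1 + B := by
        field_simp
      obtain ⟨e2, e3⟩ := tangVieta (m := y1 - (3 * x1 ^ 2 + 2 * A * x1 + B) / (2 * y1) * x1)
        E1 hlt (by ring) (x3 := ((3 * x1 ^ 2 + 2 * A * x1 + B) / (2 * y1)) ^ 2 - A - x1 - x1)
        (by ring)
      exact fin _ _ _ hsl.symm (by rw [negY_eq]; tauto) rfl rfl (by ring)
        (tangU E1 hy1 hlt (by ring)) e2 e3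
  · have hsl : (E A B).slope x1 x2 y1 y2 = (y1 - y2) / (x1 - x2) := Affine.slope_of_X_ne hx
    have hsub : x1 - x2 ≠ 0 := sub_ne_zero.2 hx
    have L2 : y2 = (y1 - y2) / (x1 - x2) * x2 + (y1 - (y1 - y2) / (x1 - x2) * x1) := by
      field_simp; ring
    obtain ⟨e2, e3⟩ := chordVieta (m := y1 - (y1 - y2) / (x1 - x2) * x1) E1 E2 hx (by ring) L2
      (x3 := ((y1 - y2) / (x1 - x2)) ^ 2 - A - x1 - x2) (by ring)
    refine fin _ _ _ hsl.symm (by tauto) rfl rfl L2 (chordU E1 E2 hx hy1 hy2 (by ring) L2 ?_) e2 e3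
    -- the unit is not zero
    have hUn : padicNorm p (1 - A * (x2 / y2) ^ 2 - B * (x2 / y2) * (1 / y1 + 1 / y2)) = 1 := by
      have : 1 - A * (x2 / y2) ^ 2 - B * (x2 / y2) * (1 / y1 + 1 / y2) =
          1 + -(A * (x2 / y2) ^ 2 + B * (x2 / y2) * (1 / y1 + 1 / y2)) := by ring
      rw [this]
      apply one_add
      rw [padicNorm.neg]
      refine lt_of_le_of_lt (add_le ?_ ?_) hρ2
      · have := mul_le' (p := p) hA (show padicNorm p ((x2 / y2) ^ 2) ≤ ρ ^ 2 by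
          rw [pow']; exact pow_le_pow_left₀ (nonneg' _) hz2 2) zero_le_one
        simpa using this
      · have h1 : padicNorm p (B * (x2 / y2)) ≤ 1 * ρ := mul_le' hB hz2 zero_le_one
        have h2 : padicNorm p (1 / y1 + 1 / y2) ≤ ρ ^ 3 := add_le hw1' hw2'
        have h3 := mul_le' h1 h2 (by linarith)
        refine h3.trans ?_
        calc 1 * ρ * ρ ^ 3 = ρ ^ 4 := by ring
          _ ≤ ρ ^ 2 := pow_le_pow_of_le_one hρ0.le hρ1.le (by norm_num)
    intro h
    rw [h, padicNorm.zero] at hUn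
    norm_num at hUn

/-- multiples of a point in the kernel of reduction -/
theorem zmul (hA : padicNorm p A ≤ 1) (hB : padicNorm p B ≤ 1) (P : Pt A B) (hP : Ker p P)
    {ρ : ℚ} (hρ0 : 0 < ρ) (hρ1 : ρ < 1) (hPz : padicNorm p (zc P) ≤ ρ) (k : ℕ) :
    Ker p (k • P) ∧ padicNorm p (zc (k • P) - k * zc P) ≤ ρ ^ 3 := by
  have hρ31 : ρ ^ 3 ≤ ρ := by
    calc ρ ^ 3 ≤ ρ ^ 1 := pow_le_pow_of_le_one hρ0.le hρ1.le (by norm_num)
      _ = ρ := pow_one ρ
  induction k with
  | zero =>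
    rw [zero_nsmul]
    refine ⟨trivial, ?_⟩
    change padicNorm p (0 - ((0 : ℕ) : ℚ) * zc P) ≤ ρ ^ 3
    simp only [Nat.cast_zero, zero_mul, sub_self, padicNorm.zero]
    positivity
  | succ k ih =>
    obtain ⟨h1, h2⟩ := ih
    have h3 : padicNorm p (zc (k • P)) ≤ ρ := by
      have : zc (k • P) = (zc (k • P) - k * zc P) + k * zc P := by ring
      rw [this]
      refine add_le (h2.trans hρ31) ?_
      have := mul_le' (p := p) (padicNorm.of_nat k) hPz zero_le_one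
      simpa using this
    rw [succ_nsmul]
    obtain ⟨h4, h5⟩ := zadd hA hB (k • P) P h1 hP hρ0 hρ1 h3 hPz
    refine ⟨h4, ?_⟩
    have : zc (k • P + P) - ((k + 1 : ℕ) : ℚ) * zc P =
        (zc (k • P + P) - (zc (k • P) + zc P)) + (zc (k • P) - k * zc P) := by
      push_cast; ring
    rw [this]
    exact add_le h5 h2

theorem norm_le_inv {a : ℚ} (h : padicNorm p a < 1) : padicNorm p a ≤ 1 / p := by
  by_cases ha : a = 0
  · rw [ha, padicNorm.zero]; positivity
  rw [padicNorm.eq_zpow_of_nonzero ha] at h ⊢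
  have hp1 : (1 : ℚ) < p := by exact_mod_cast hp.out.one_lt
  have h1 : -padicValRat p a < 0 := by
    by_contra hc
    push Not at hc
    exact absurd (one_le_zpow₀ hp1.le hc) (not_le.2 h)
  have h2 : -padicValRat p a ≤ -1 := by omega
  calc (p : ℚ) ^ (-padicValRat p a) ≤ (p : ℚ) ^ (-1 : ℤ) := zpow_le_zpow_right₀ hp1.le h2
    _ = 1 / p := by rw [zpow_neg_one, one_div]

/-- a point of squarefree order is not in the kernel of the reduction -/
theorem not_ker (hA : padicNorm p A ≤ 1) (hB : padicNorm p B ≤ 1) {n : ℕ} (hn : Squarefree n)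
    {x y : ℚ} (h : (E A B).Nonsingular x y) (hPn : n • (Affine.Point.some x y h : Pt A B) = 0) :
    padicNorm p x ≤ 1 := by
  by_contra hx
  push Not at hx
  have hE := eqn h
  obtain ⟨hy, hz2, hw, hz0, hz1⟩ := z_size hA hB hE hx
  obtain ⟨-, h1⟩ := zmul hA hB (Affine.Point.some x y h) hx hz0 hz1 le_rfl n
  rw [hPn] at h1
  change padicNorm p (0 - (n : ℚ) * (x / y)) ≤ padicNorm p (x / y) ^ 3 at h1
  rw [zero_sub, padicNorm.neg, padicNorm.mul] at h1
  have h2 : padicNorm p n ≤ padicNorm p (x / y) ^ 2 := by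
    have : padicNorm p n * padicNorm p (x / y) ≤ padicNorm p (x / y) ^ 2 * padicNorm p (x / y) := by
      calc _ ≤ padicNorm p (x / y) ^ 3 := h1
        _ = _ := by ring
    exact le_of_mul_le_mul_right this hz0
  have h3 := norm_le_inv hz1
  have hp0 : (0 : ℚ) < p := by exact_mod_cast hp.out.pos
  have hp1 : (1 : ℚ) < p := by exact_mod_cast hp.out.one_lt
  have h4 : padicNorm p n ≤ 1 / (p : ℚ) ^ 2 := by
    refine h2.trans ?_
    calc padicNorm p (x / y) ^ 2 ≤ (1 / p) ^ 2 := pow_le_pow_left₀ (nonneg' _) h3 2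
      _ = 1 / (p : ℚ) ^ 2 := by rw [div_pow, one_pow]
  -- so `p ^ 2 ∣ n`
  have h5 : ((p ^ 2 : ℕ) : ℤ) ∣ (n : ℤ) := by
    rw [padicNorm.dvd_iff_norm_le]
    have e : (p : ℚ) ^ (-((2 : ℕ) : ℤ)) = 1 / (p : ℚ) ^ 2 := by
      rw [zpow_neg, zpow_natCast, one_div]
    rw [e]
    exact_mod_cast h4
  have h6 : p ^ 2 ∣ n := by exact_mod_cast h5
  rw [pow_two] at h6
  exact hp.out.one_lt.ne' (Nat.isUnit_iff.1 (hn p h6))

omit hp in
theorem int_of_norm {x : ℚ} (h : ∀ p : ℕ, [Fact p.Prime] → padicNorm p x ≤ 1) :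
    ∃ n : ℤ, x = n := by
  refine ⟨x.num, ?_⟩
  have : x.den = 1 := by
    by_contra hd
    obtain ⟨q, hq, hqd⟩ := Nat.exists_prime_and_dvd hd
    have : Fact q.Prime := ⟨hq⟩
    have h1 := h q
    have hx0 : x ≠ 0 := by
      rintro rfl
      exact hd rfl
    have hnum : ¬ (q : ℤ) ∣ x.num := by
      intro hn
      have h2 : q ∣ x.num.natAbs := Int.natCast_dvd.1 hn
      have h3 := Nat.dvd_gcd h2 hqd
      rw [x.reduced] at h3
      exact hq.one_lt.ne' (Nat.dvd_one.1 h3)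
    have hx : x = x.num / x.den := (Rat.num_div_den x).symm
    have hnn : padicNorm q (x.num : ℚ) = 1 := (padicNorm.int_eq_one_iff _).2 hnum
    have hdn : padicNorm q (x.den : ℚ) < 1 := (padicNorm.nat_lt_one_iff _).2 hqd
    rw [hx, padicNorm.div, hnn] at h1
    have hdp : 0 < padicNorm q (x.den : ℚ) := lt_of_le_of_ne (nonneg' _)
      (Ne.symm (padicNorm.nonzero (by exact_mod_cast x.den_ne_zero)))
    rw [div_le_iff₀ hdp] at h1
    linarith
  conv_lhs => rw [← Rat.num_div_den x, this]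
  simp

/-- **Integrality.** On `y² = x³ + A x² + B x` with integers `A`, `B`, every rational point killed
by a squarefree integer has an integral `x`-coordinate. -/
theorem integral {A B : ℤ} {n : ℕ} (hn : Squarefree n) {x y : ℚ}
    (h : (E A B).Nonsingular x y) (hPn : n • (Affine.Point.some x y h : Pt A B) = 0) :
    ∃ k : ℤ, x = k :=
  int_of_norm fun _ _ => not_ker (padicNorm.of_int A) (padicNorm.of_int B) hn h hPn

end pts

end Pool.Agent.V11266.LN
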