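import Mathlib

set_option autoImplicit false

namespace Pool.Agent.V11266.PF

/-- A (nonempty) face of a convex set: a nonempty convex extreme subset. -/
def IsFace {V : Type*} [AddCommGroup V] [Module ℝ V] (K F : Set V) : Prop :=
  F.Nonempty ∧ Convex ℝ F ∧ IsExtreme ℝ K F

/-- The face lattice: all faces, ordered by inclusion. -/
def FaceLattice {V : Type*} [AddCommGroup V] [Module ℝ V] (K : Set V) : Type _ :=
  {F : Set V // IsFace K F}

instance {V : Type*} [AddCommGroup V] [Module ℝ V] (K : Set V) : PartialOrder (FaceLattice K) :=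
  inferInstanceAs (PartialOrder {F : Set V // IsFace K F})

section
variable {V : Type*} [AddCommGroup V] [Module ℝ V]

/-- presentation of a cone by finitely many inequalities on a subspace -/
structure Pres (K : Set V) (M : Submodule ℝ V) {ι : Type} (ρ : ι → V →ₗ[ℝ] ℝ) (v0 : V) : Prop where
  mem : ∀ v, v ∈ K ↔ v ∈ M ∧ ∀ i, 0 ≤ ρ i v
  v0M : v0 ∈ M
  v0pos : ∀ i, 0 < ρ i v0

variable {K : Set V} {M : Submodule ℝ V} {ι : Type} {ρ : ι → V →ₗ[ℝ] ℝ} {v0 : V}

def facet (K : Set V) (r : V →ₗ[ℝ] ℝ) : Set V := {v | v ∈ K ∧ r v = 0}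

theorem convex_of_pres (h : Pres K M ρ v0) : Convex ℝ K := by
  intro x hx y hy a b ha hb hab
  rw [h.mem] at hx hy ⊢
  refine ⟨M.add_mem (M.smul_mem _ hx.1) (M.smul_mem _ hy.1), fun i => ?_⟩
  simp only [map_add, map_smul, smul_eq_mul]
  have := mul_nonneg ha (hx.2 i)
  have := mul_nonneg hb (hy.2 i)
  linarith

theorem v0_mem (h : Pres K M ρ v0) : v0 ∈ K := (h.mem v0).2 ⟨h.v0M, fun i => (h.v0pos i).le⟩

theorem isFace_top (h : Pres K M ρ v0) : IsFace K K :=
  ⟨⟨v0, v0_mem h⟩, convex_of_pres h, IsExtreme.refl ℝ K⟩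

theorem isFace_facet (h : Pres K M ρ v0) (i : ι) : IsFace K (facet K (ρ i)) := by
  refine ⟨⟨0, ?_, by simp⟩, ?_, ?_⟩
  · rw [h.mem]; exact ⟨M.zero_mem, fun i => by simp⟩
  · intro x hx y hy a b ha hb hab
    refine ⟨convex_of_pres h hx.1 hy.1 ha hb hab, ?_⟩
    simp [hx.2, hy.2]
  · refine ⟨fun x hx => hx.1, ?_⟩
    rintro x hx y hy z hz ⟨a, b, ha, hb, hab, rfl⟩
    refine ⟨hx, ?_⟩
    have hz2 := hz.2
    simp only [map_add, map_smul, smul_eq_mul] at hz2
    have h1 := ((h.mem x).1 hx).2 i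
    have h2 := ((h.mem y).1 hy).2 i
    have h3 := mul_nonneg ha.le h1
    have h4 := mul_nonneg hb.le h2
    have h5 : a * ρ i x = 0 := by linarith
    rcases mul_eq_zero.1 h5 with h6 | h6
    · exact absurd h6 ha.ne'
    · exact h6

theorem subset_facet [Fintype ι] (h : Pres K M ρ v0) {F : Set V} (hF : IsFace K F) (hne : F ≠ K) :
    ∃ i, F ⊆ facet K (ρ i) := by
  classical
  by_contra hcon
  push Not at hcon
  have hFK : F ⊆ K := hF.2.2.subset
  -- for each i a vector of F with positive value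
  have hex : ∀ i, ∃ v ∈ F, 0 < ρ i v := by
    intro i
    obtain ⟨v, hv, hv2⟩ := Set.not_subset.1 (hcon i)
    have hvK := hFK hv
    have h1 := ((h.mem v).1 hvK).2 i
    refine ⟨v, hv, lt_of_le_of_ne h1 ?_⟩
    intro h2
    exact hv2 ⟨hvK, h2.symm⟩
  -- a vector of F with all values positive
  have hall : ∀ s : Finset ι, ∃ w ∈ F, ∀ i ∈ s, 0 < ρ i w := by
    intro s
    induction s using Finset.induction_on with
    | empty => obtain ⟨w, hw⟩ := hF.1; exact ⟨w, hw, by simp⟩
    | insert j s hj ih =>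
      obtain ⟨w, hw, hw2⟩ := ih
      obtain ⟨v, hv, hv2⟩ := hex j
      refine ⟨(1/2 : ℝ) • w + (1/2 : ℝ) • v, hF.2.1 hw hv (by norm_num) (by norm_num) (by norm_num), ?_⟩
      intro i hi
      simp only [map_add, map_smul, smul_eq_mul]
      have h1 := ((h.mem w).1 (hFK hw)).2 i
      have h2 := ((h.mem v).1 (hFK hv)).2 i
      rcases Finset.mem_insert.1 hi with rfl | hi
      · linarith
      · have := hw2 i hi; linarith
  obtain ⟨w, hw, hw2⟩ := hall Finset.univ
  apply hne
  refine Set.Subset.antisymm hFK ?_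
  intro u hu
  -- choose δ
  obtain ⟨δ, hδ, hδ2⟩ : ∃ δ : ℝ, 0 < δ ∧ ∀ i, δ * ρ i u ≤ ρ i w := by
    have : ∀ s : Finset ι, ∃ δ : ℝ, 0 < δ ∧ ∀ i ∈ s, δ * ρ i u ≤ ρ i w := by
      intro s
      induction s using Finset.induction_on with
      | empty => exact ⟨1, one_pos, by simp⟩
      | insert j s hj ih =>
        obtain ⟨δ, hδ, hδ2⟩ := ih
        have h1 := hw2 j (Finset.mem_univ j)
        have h2 := ((h.mem u).1 hu).2 j
        refine ⟨min δ (ρ j w / (1 + ρ j u)), lt_min hδ (div_pos h1 (by linarith)), ?_⟩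
        intro i hi
        have h3 := ((h.mem u).1 hu).2 i
        rcases Finset.mem_insert.1 hi with rfl | hi
        · calc min δ (ρ i w / (1 + ρ i u)) * ρ i u ≤ (ρ i w / (1 + ρ i u)) * ρ i u :=
                mul_le_mul_of_nonneg_right (min_le_right _ _) h3
            _ ≤ ρ i w := by
                rw [div_mul_eq_mul_div, div_le_iff₀ (by linarith)]
                nlinarith
        · exact le_trans (mul_le_mul_of_nonneg_right (min_le_left _ _) h3) (hδ2 i hi)
    obtain ⟨δ, h1, h2⟩ := this Finset.univ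
    exact ⟨δ, h1, fun i => h2 i (Finset.mem_univ i)⟩
  have hu' : w + δ • (w - u) ∈ K := by
    rw [h.mem]
    have hwM := ((h.mem w).1 (hFK hw)).1
    have huM := ((h.mem u).1 hu).1
    refine ⟨M.add_mem hwM (M.smul_mem _ (M.sub_mem hwM huM)), fun i => ?_⟩
    simp only [map_add, map_smul, map_sub, smul_eq_mul]
    have h1 := hw2 i (Finset.mem_univ i)
    have h2 := hδ2 i
    nlinarith [mul_pos hδ h1]
  refine hF.2.2.left_mem_of_mem_openSegment hu hu' hw ?_
  refine ⟨δ / (1 + δ), 1 / (1 + δ), div_pos hδ (by linarith), by positivity, ?_, ?_⟩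
  · field_simp; ring
  · rw [smul_add, smul_smul, smul_sub, ← add_assoc]
    have hne : (1 + δ) ≠ 0 := by linarith
    have e1 : (1 / (1 + δ)) * δ = δ / (1 + δ) := by ring
    rw [e1]
    have e2 : (δ / (1 + δ)) • u + (1 / (1 + δ)) • w + ((δ / (1 + δ)) • w - (δ / (1 + δ)) • u)
        = (1 / (1 + δ) + δ / (1 + δ)) • w := by
      rw [add_smul]; abel
    rw [e2]
    have e3 : (1 / (1 + δ) + δ / (1 + δ)) = 1 := by field_simp
    rw [e3, one_smul]

/-- the greatest face -/
def topFace (h : Pres K M ρ v0) : FaceLattice K := ⟨K, isFace_top h⟩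

def facetFace (h : Pres K M ρ v0) (i : ι) : FaceLattice K := ⟨facet K (ρ i), isFace_facet h i⟩

theorem le_topFace (h : Pres K M ρ v0) (F : FaceLattice K) : F ≤ topFace h :=
  F.2.2.2.subset

theorem facet_lt_top (h : Pres K M ρ v0) (i : ι) : facetFace h i < topFace h := by
  refine lt_of_le_of_ne (le_topFace h _) ?_
  intro heq
  have h1 : facet K (ρ i) = K := congrArg Subtype.val heq
  have h2 : v0 ∈ facet K (ρ i) := by rw [h1]; exact v0_mem h
  exact (h.v0pos i).ne' h2.2

theorem covBy_top [Fintype ι] (h : Pres K M ρ v0) {C : FaceLattice K} (hC : C ⋖ topFace h) :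
    ∃ i, C = facetFace h i := by
  have hne : C.1 ≠ K := by
    intro h1
    exact hC.1.ne (Subtype.ext h1)
  obtain ⟨i, hi⟩ := subset_facet h C.2 hne
  refine ⟨i, ?_⟩
  have hle : C ≤ facetFace h i := hi
  rcases hle.eq_or_lt with h1 | h1
  · exact h1
  · exact absurd (facet_lt_top h i) (hC.2 h1)

theorem facet_covBy [Fintype ι] (h : Pres K M ρ v0)
    (hw : ∀ i, ∃ w ∈ K, ρ i w = 0 ∧ ∀ j, j ≠ i → 0 < ρ j w) (i : ι) :
    facetFace h i ⋖ topFace h := by
  refine ⟨facet_lt_top h i, ?_⟩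
  intro C h1 h2
  have hne : C.1 ≠ K := by
    intro h3
    exact h2.ne (Subtype.ext h3)
  obtain ⟨j, hj⟩ := subset_facet h C.2 hne
  obtain ⟨w, hwK, hw0, hw1⟩ := hw i
  have h3 : w ∈ facet K (ρ i) := ⟨hwK, hw0⟩
  have h4 : w ∈ facet K (ρ j) := hj (h1.le h3)
  have h5 : j = i := by
    by_contra h6
    exact (hw1 j h6).ne' h4.2
  subst h5
  exact absurd (show C ≤ facetFace h j from hj) (not_le_of_gt h1)

theorem facet_injective (h : Pres K M ρ v0)
    (hw : ∀ i, ∃ w ∈ K, ρ i w = 0 ∧ ∀ j, j ≠ i → 0 < ρ j w) :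
    Function.Injective (facetFace h) := by
  intro i j hij
  obtain ⟨w, hwK, hw0, hw1⟩ := hw i
  have h3 : w ∈ facet K (ρ i) := ⟨hwK, hw0⟩
  have h4 : facet K (ρ i) = facet K (ρ j) := congrArg Subtype.val hij
  rw [h4] at h3
  by_contra h6
  exact (hw1 j (Ne.symm h6)).ne' h3.2

end

/-- two cones with presentations by a different number of inequalities, the larger being irredundant,
have non-isomorphic face lattices -/
theorem not_iso {V V' : Type*} [AddCommGroup V] [Module ℝ V] [AddCommGroup V'] [Module ℝ V']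
    {K : Set V} {M : Submodule ℝ V} {ι : Type} {ρ : ι → V →ₗ[ℝ] ℝ} {v0 : V}
    {K' : Set V'} {M' : Submodule ℝ V'} {ι' : Type} {ρ' : ι' → V' →ₗ[ℝ] ℝ} {v0' : V'}
    [Fintype ι] [Fintype ι'] (h : Pres K M ρ v0) (h' : Pres K' M' ρ' v0')
    (hw : ∀ i, ∃ w ∈ K', ρ' i w = 0 ∧ ∀ j, j ≠ i → 0 < ρ' j w)
    (hcard : Fintype.card ι < Fintype.card ι') :
    ¬ Nonempty (FaceLattice K ≃o FaceLattice K') := by
  rintro ⟨e⟩
  have htop : e.symm (topFace h') = topFace h := by
    apply le_antisymm (le_topFace h _)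
    rw [OrderIso.le_symm_apply]
    exact le_topFace h' _
  have hex : ∀ i' : ι', ∃ i : ι, e.symm (facetFace h' i') = facetFace h i := by
    intro i'
    apply covBy_top h
    rw [← htop, apply_covBy_apply_iff e.symm]
    exact facet_covBy h' hw i'
  choose f hf using hex
  have hinj : Function.Injective f := by
    intro i j hij
    apply facet_injective h' hw
    apply e.symm.injective
    rw [hf, hf, hij]
  exact absurd (Fintype.card_le_of_injective f hinj) (not_le_of_gt hcard)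

end Pool.Agent.V11266.PF
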