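import Pool.Agent.V11266.PF1

set_option autoImplicit false

namespace Pool.Agent.V11266.PF

open MeasureTheory

noncomputable section

/-- the chirotope: orientation of a triple of points of the plane -/
def chi (z w v : ℂ) : SignType :=
  SignType.sign (Matrix.det !![1, 1, 1; z.re, w.re, v.re; z.im, w.im, v.im])

theorem chi_eq (z w v : ℂ) : chi z w v =
    SignType.sign ((w.re - z.re) * (v.im - z.im) - (w.im - z.im) * (v.re - z.re)) := by
  unfold chi
  rw [Matrix.det_fin_three]
  congr 1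
  simp
  ring

/-- `S` spans the plane affinely: three of its points are not collinear. -/
def Spanning (S : Set ℂ) : Prop := ∃ a ∈ S, ∃ b ∈ S, ∃ c ∈ S, chi a b c ≠ 0

instance triFinite (a b c : ℂ) :
    IsFiniteMeasure ((volume : Measure ℂ).restrict (convexHull ℝ {a, b, c})) := by
  refine ⟨?_⟩
  rw [Measure.restrict_apply_univ]
  exact ((Set.toFinite ({a, b, c} : Set ℂ)).isCompact_convexHull ℝ).measure_lt_top

/-- the standard measure of the closed triangle with vertices `a, b, c` -/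
def triMeasure (a b c : ℂ) : SignedMeasure ℂ :=
  ((volume : Measure ℂ).restrict (convexHull ℝ {a, b, c})).toSignedMeasure

/-- the real span of the standard measures of the triangles with vertices in `S` -/
def polyMeasures (S : Set ℂ) : Submodule ℝ (SignedMeasure ℂ) :=
  Submodule.span ℝ {μ | ∃ a ∈ S, ∃ b ∈ S, ∃ c ∈ S, chi a b c ≠ 0 ∧ μ = triMeasure a b c}

/-- the cone of non-negative measures in `polyMeasures S` -/
def Kpos (S : Set ℂ) : Set (SignedMeasure ℂ) := {μ | μ ∈ polyMeasures S ∧ 0 ≤ μ}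

theorem triMeasure_apply (a b c : ℂ) {E : Set ℂ} (hE : MeasurableSet E) :
    triMeasure a b c E = volume.real (E ∩ convexHull ℝ {a, b, c}) := by
  rw [triMeasure, Measure.toSignedMeasure_apply_measurable hE]
  rw [measureReal_def, measureReal_def, Measure.restrict_apply hE]

theorem triMeasure_congr {a b c a' b' c' : ℂ} (h : ({a, b, c} : Set ℂ) = {a', b', c'}) :
    triMeasure a b c = triMeasure a' b' c' := by
  ext E hE
  rw [triMeasure_apply _ _ _ hE, triMeasure_apply _ _ _ hE, h]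

abbrev Cell := Fin 3 × Fin 3

def aN : Fin 3 → ℕ := ![0, 1, 2]
def bN (T : ℕ) : Fin 3 → ℕ := ![0, 1, T]

/-- the six points -/
def pt (T : ℕ) : Fin 3 ⊕ Fin 3 → ℂ := Sum.elim (fun i => ⟨aN i, 0⟩) (fun j => ⟨bN T j, 1⟩)

def xx (T : ℕ) (p : Cell) (y : ℝ) : ℝ := (1 - y) * (aN p.1 : ℝ) + y * (bN T p.2 : ℝ)

theorem aN_mono {i k : Fin 3} (h : i < k) : aN i < aN k := by
  revert i k; decide

theorem bN_mono {T : ℕ} (hT : 1 < T) {i k : Fin 3} (h : i < k) : bN T i < bN T k := by
  fin_cases i <;> fin_cases k <;> simp_all [bN] <;> omega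

theorem aN_le (i : Fin 3) : aN i ≤ 2 := by revert i; decide

theorem bN_le {T : ℕ} (hT : 1 < T) (i : Fin 3) : bN T i ≤ T := by
  fin_cases i <;> simp [bN] <;> omega

theorem xx_continuous (T : ℕ) (p : Cell) : Continuous (xx T p) := by
  unfold xx; fun_prop

def HH (T : ℕ) (p : Cell) : Set ℂ := {z | 0 < z.im ∧ z.im < 1 ∧ xx T p z.im < z.re ∧ z.re < 10}

theorem HH_open (T : ℕ) (p : Cell) : IsOpen (HH T p) := by
  unfold HH
  have h1 := xx_continuous T p
  refine IsOpen.inter (isOpen_lt continuous_const Complex.continuous_im) (IsOpen.inter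
    (isOpen_lt Complex.continuous_im continuous_const) (IsOpen.inter
    (isOpen_lt (h1.comp Complex.continuous_im) Complex.continuous_re)
    (isOpen_lt Complex.continuous_re continuous_const)))

theorem xx_nonneg (T : ℕ) (p : Cell) {y : ℝ} (h0 : 0 < y) (h1 : y < 1) : 0 ≤ xx T p y := by
  unfold xx
  have : (0:ℝ) ≤ aN p.1 := Nat.cast_nonneg _
  have : (0:ℝ) ≤ bN T p.2 := Nat.cast_nonneg _
  have : 0 ≤ 1 - y := by linarith
  positivity

theorem HH_finite (T : ℕ) (p : Cell) : (volume : Measure ℂ) (HH T p) < ⊤ := by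
  have hsub : HH T p ⊆ Metric.closedBall 0 11 := by
    intro z hz
    obtain ⟨h1, h2, h3, h4⟩ := hz
    rw [mem_closedBall_zero_iff]
    have h5 := xx_nonneg T p h1 h2
    have h6 : ‖z‖ ≤ |z.re| + |z.im| := Complex.norm_le_abs_re_add_abs_im z
    have h7 : |z.re| < 10 := by rw [abs_lt]; constructor <;> linarith
    have h8 : |z.im| < 1 := by rw [abs_lt]; constructor <;> linarith
    linarith
  exact lt_of_le_of_lt (measure_mono hsub) measure_closedBall_lt_top

instance HHFinite (T : ℕ) (p : Cell) : IsFiniteMeasure ((volume : Measure ℂ).restrict (HH T p)) :=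
  ⟨by rw [Measure.restrict_apply_univ]; exact HH_finite T p⟩

def nu (T : ℕ) (p : Cell) : SignedMeasure ℂ := ((volume : Measure ℂ).restrict (HH T p)).toSignedMeasure

theorem nu_apply (T : ℕ) (p : Cell) {E : Set ℂ} (hE : MeasurableSet E) :
    nu T p E = volume.real (E ∩ HH T p) := by
  rw [nu, Measure.toSignedMeasure_apply_measurable hE]
  rw [measureReal_def, measureReal_def, Measure.restrict_apply hE]

/-- lines are null -/
theorem line_null (α β : ℝ) (z0 : ℂ) (h : α ≠ 0 ∨ β ≠ 0) :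
    (volume : Measure ℂ) {z | α * (z.re - z0.re) + β * (z.im - z0.im) = 0} = 0 := by
  set ℓ : ℂ →ₗ[ℝ] ℝ := α • Complex.reLm + β • Complex.imLm with hℓ
  have hset : {z : ℂ | α * (z.re - z0.re) + β * (z.im - z0.im) = 0} =
      (AffineSubspace.mk' z0 (LinearMap.ker ℓ) : Set ℂ) := by
    ext z
    simp [AffineSubspace.mem_mk', hℓ]
  rw [hset]
  apply Measure.addHaar_affineSubspace
  intro htop
  have hall : ∀ z : ℂ, z ∈ AffineSubspace.mk' z0 (LinearMap.ker ℓ) := by
    intro z; rw [htop]; exact AffineSubspace.mem_top _ _ _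
  have h1 := hall (z0 + 1)
  have h2 := hall (z0 + Complex.I)
  rw [AffineSubspace.mem_mk'] at h1 h2
  simp [hℓ] at h1 h2
  rcases h with h | h
  · exact h h1
  · exact h h2

/-- triangle with base on the real axis -/
theorem hullA {u v w : ℂ} (hu : u.im = 0) (hv : v.im = 0) (hw : w.im = 1) (huv : u.re < v.re) :
    convexHull ℝ {u, v, w} = {z : ℂ | 0 ≤ z.im ∧ z.im ≤ 1 ∧
      (1 - z.im) * u.re + z.im * w.re ≤ z.re ∧ z.re ≤ (1 - z.im) * v.re + z.im * w.re} := by
  apply Set.Subset.antisymm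
  · apply convexHull_min
    · intro z hz
      simp only [Set.mem_insert_iff, Set.mem_singleton_iff] at hz
      rcases hz with rfl | rfl | rfl <;> simp [*] <;> linarith
    · intro x hx y hy a b ha hb hab
      obtain ⟨h1, h2, h3, h4⟩ := hx
      obtain ⟨k1, k2, k3, k4⟩ := hy
      obtain rfl : b = 1 - a := by linarith
      simp only [Set.mem_ofPred_eq, Complex.add_re, Complex.add_im, Complex.real_smul,
        Complex.re_ofReal_mul, Complex.im_ofReal_mul]
      refine ⟨by positivity, ?_, ?_, ?_⟩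
      · nlinarith
      · nlinarith [mul_le_mul_of_nonneg_left h3 ha, mul_le_mul_of_nonneg_left k3 hb]
      · nlinarith [mul_le_mul_of_nonneg_left h4 ha, mul_le_mul_of_nonneg_left k4 hb]
  · rintro z ⟨h1, h2, h3, h4⟩
    have hd : 0 < v.re - u.re := by linarith
    set β : ℝ := (z.re - ((1 - z.im) * u.re + z.im * w.re)) / (v.re - u.re) with hβ
    have hβ0 : 0 ≤ β := div_nonneg (by linarith) hd.le
    have hβ1 : β ≤ 1 - z.im := by
      rw [hβ, div_le_iff₀ hd]; nlinarith
    have hβe : β * (v.re - u.re) = z.re - ((1 - z.im) * u.re + z.im * w.re) := by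
      rw [hβ]; field_simp
    have hmem := (convex_convexHull ℝ ({u, v, w} : Set ℂ)).sum_mem (t := Finset.univ)
      (w := ![1 - z.im - β, β, z.im]) (z := ![u, v, w])
      (by intro i _; fin_cases i <;> simp <;> linarith)
      (by simp [Fin.sum_univ_three])
      (by intro i _; fin_cases i <;> simp <;> apply subset_convexHull <;> simp)
    convert hmem using 1
    apply Complex.ext
    · simp [Fin.sum_univ_three]; linarith
    · simp [Fin.sum_univ_three, hu, hv, hw]

/-- triangle with base on the line `im = 1` -/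
theorem hullB {u v w : ℂ} (hu : u.im = 0) (hv : v.im = 1) (hw : w.im = 1) (hvw : v.re < w.re) :
    convexHull ℝ {u, v, w} = {z : ℂ | 0 ≤ z.im ∧ z.im ≤ 1 ∧
      (1 - z.im) * u.re + z.im * v.re ≤ z.re ∧ z.re ≤ (1 - z.im) * u.re + z.im * w.re} := by
  apply Set.Subset.antisymm
  · apply convexHull_min
    · intro z hz
      simp only [Set.mem_insert_iff, Set.mem_singleton_iff] at hz
      rcases hz with rfl | rfl | rfl <;> simp [*] <;> linarith
    · intro x hx y hy a b ha hb hab
      obtain ⟨h1, h2, h3, h4⟩ := hx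
      obtain ⟨k1, k2, k3, k4⟩ := hy
      obtain rfl : b = 1 - a := by linarith
      simp only [Set.mem_ofPred_eq, Complex.add_re, Complex.add_im, Complex.real_smul,
        Complex.re_ofReal_mul, Complex.im_ofReal_mul]
      refine ⟨by positivity, ?_, ?_, ?_⟩
      · nlinarith
      · nlinarith [mul_le_mul_of_nonneg_left h3 ha, mul_le_mul_of_nonneg_left k3 hb]
      · nlinarith [mul_le_mul_of_nonneg_left h4 ha, mul_le_mul_of_nonneg_left k4 hb]
  · rintro z ⟨h1, h2, h3, h4⟩
    have hd : 0 < w.re - v.re := by linarith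
    set β : ℝ := (z.re - ((1 - z.im) * u.re + z.im * v.re)) / (w.re - v.re) with hβ
    have hβ0 : 0 ≤ β := div_nonneg (by linarith) hd.le
    have hβ1 : β ≤ z.im := by
      rw [hβ, div_le_iff₀ hd]; nlinarith
    have hβe : β * (w.re - v.re) = z.re - ((1 - z.im) * u.re + z.im * v.re) := by
      rw [hβ]; field_simp
    have hmem := (convex_convexHull ℝ ({u, v, w} : Set ℂ)).sum_mem (t := Finset.univ)
      (w := ![1 - z.im, z.im - β, β]) (z := ![u, v, w])
      (by intro i _; fin_cases i <;> simp <;> linarith)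
      (by simp [Fin.sum_univ_three])
      (by intro i _; fin_cases i <;> simp <;> apply subset_convexHull <;> simp)
    convert hmem using 1
    apply Complex.ext
    · simp [Fin.sum_univ_three]; linarith
    · simp [Fin.sum_univ_three, hu, hv, hw]

/-- difference of two of the basic regions is a triangle, up to a null set -/
theorem diff_core (T : ℕ) (hT : 1 < T) (hT3 : T ≤ 3) (p q : Cell)
    (hpq : ∀ y : ℝ, 0 < y → y < 1 → xx T p y ≤ xx T q y) {E : Set ℂ} (hE : MeasurableSet E) :
    volume.real (E ∩ {z : ℂ | 0 ≤ z.im ∧ z.im ≤ 1 ∧ xx T p z.im ≤ z.re ∧ z.re ≤ xx T q z.im})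
      = volume.real (E ∩ HH T p) - volume.real (E ∩ HH T q) := by
  have hqle : ∀ y : ℝ, 0 < y → y < 1 → xx T q y < 10 := by
    intro y h0 h1
    unfold xx
    have e1 : (aN q.1 : ℝ) ≤ 2 := by exact_mod_cast aN_le q.1
    have e2 : (bN T q.2 : ℝ) ≤ 3 := by exact_mod_cast (bN_le hT q.2).trans hT3
    nlinarith
  have hsub : HH T q ⊆ HH T p := by
    rintro z ⟨h1, h2, h3, h4⟩
    exact ⟨h1, h2, lt_of_le_of_lt (hpq _ h1 h2) h3, h4⟩
  have hdiff : volume.real (E ∩ HH T p) - volume.real (E ∩ HH T q)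
      = volume.real (E ∩ (HH T p \ HH T q)) := by
    have hdis : E ∩ HH T p = (E ∩ HH T q) ∪ (E ∩ (HH T p \ HH T q)) := by
      rw [← Set.inter_union_distrib_left, Set.union_sdiff_cancel hsub]
    have : volume.real (E ∩ HH T p) = volume.real (E ∩ HH T q) + volume.real (E ∩ (HH T p \ HH T q)) := by
      conv_lhs => rw [hdis]
      apply measureReal_union
      · rw [Set.disjoint_left]
        rintro z ⟨_, hz⟩ ⟨_, _, hz'⟩
        exact hz' hz
      · exact hE.inter ((HH_open T p).measurableSet.diff (HH_open T q).measurableSet)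
      · exact ((measure_mono Set.inter_subset_right).trans_lt (HH_finite T q)).ne
      · exact ((measure_mono (Set.inter_subset_right.trans Set.sdiff_subset)).trans_lt
          (HH_finite T p)).ne
    rw [this]; ring
  rw [hdiff]
  apply measureReal_congr
  -- the symmetric difference lies in three lines
  have hl1 := line_null 0 1 0 (Or.inr one_ne_zero)
  have hl2 := line_null 0 1 Complex.I (Or.inr one_ne_zero)
  have hl3 : (volume : Measure ℂ) {z : ℂ | z.re = xx T p z.im} = 0 := by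
    have h := line_null 1 ((aN p.1 : ℝ) - bN T p.2) ⟨aN p.1, 0⟩ (Or.inl one_ne_zero)
    have hs : {z : ℂ | z.re = xx T p z.im} = {z : ℂ | 1 * (z.re - (⟨(aN p.1 : ℝ), 0⟩ : ℂ).re)
        + ((aN p.1 : ℝ) - bN T p.2) * (z.im - (⟨(aN p.1 : ℝ), 0⟩ : ℂ).im) = 0} := by
      ext z
      simp only [Set.mem_ofPred_eq, xx]
      constructor <;> intro h <;> linarith
    rw [hs]; exact h
  have hl1' : (volume : Measure ℂ) {z : ℂ | z.im = 0} = 0 := by simpa using hl1
  have hl2' : (volume : Measure ℂ) {z : ℂ | z.im = 1} = 0 := by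
    have : {z : ℂ | z.im = 1} = {z : ℂ | 0 * (z.re - Complex.I.re) + 1 * (z.im - Complex.I.im) = 0} := by
      ext z; simp [sub_eq_zero]
    rw [this]; exact hl2
  have hae : ∀ᵐ z ∂(volume : Measure ℂ), z.im ≠ 0 ∧ z.im ≠ 1 ∧ z.re ≠ xx T p z.im := by
    have a1 : ∀ᵐ z ∂(volume : Measure ℂ), z.im ≠ 0 := by
      rw [ae_iff]; simpa using hl1'
    have a2 : ∀ᵐ z ∂(volume : Measure ℂ), z.im ≠ 1 := by
      rw [ae_iff]; simpa using hl2'
    have a3 : ∀ᵐ z ∂(volume : Measure ℂ), z.re ≠ xx T p z.im := by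
      rw [ae_iff]; simpa using hl3
    filter_upwards [a1, a2, a3] with z h1 h2 h3 using ⟨h1, h2, h3⟩
  filter_upwards [hae] with z hz
  obtain ⟨n1, n2, n3⟩ := hz
  apply propext
  constructor
  · rintro ⟨hzE, h1, h2, h3, h4⟩
    have h1' : 0 < z.im := lt_of_le_of_ne h1 (Ne.symm n1)
    have h2' : z.im < 1 := lt_of_le_of_ne h2 n2
    refine ⟨hzE, ⟨h1', h2', lt_of_le_of_ne h3 (Ne.symm n3), lt_of_le_of_lt h4 (hqle _ h1' h2')⟩, ?_⟩
    rintro ⟨_, _, h5, _⟩
    exact absurd h4 (not_le_of_gt h5)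
  · rintro ⟨hzE, ⟨h1, h2, h3, h4⟩, h5⟩
    refine ⟨hzE, h1.le, h2.le, h3.le, ?_⟩
    by_contra h6
    exact h5 ⟨h1, h2, lt_of_not_ge h6, h4⟩

theorem triA (T : ℕ) (hT : 1 < T) (hT3 : T ≤ 3) {i k : Fin 3} (hik : i < k) (j : Fin 3) :
    triMeasure (pt T (Sum.inl i)) (pt T (Sum.inl k)) (pt T (Sum.inr j)) = nu T (i, j) - nu T (k, j) := by
  have hlt : (aN i : ℝ) < aN k := by exact_mod_cast aN_mono hik
  ext E hE
  rw [triMeasure_apply _ _ _ hE, hullA rfl rfl rfl (by simpa [pt] using hlt)]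
  rw [FunLike.coe_sub, Pi.sub_apply, nu_apply _ _ hE, nu_apply _ _ hE]
  rw [← diff_core T hT hT3 (i, j) (k, j) ?_ hE]
  · rfl
  · intro y h0 h1
    unfold xx
    have : (1 - y) * (aN i : ℝ) ≤ (1 - y) * aN k := mul_le_mul_of_nonneg_left hlt.le (by linarith)
    simpa using this

theorem triB (T : ℕ) (hT : 1 < T) (hT3 : T ≤ 3) (i : Fin 3) {j l : Fin 3} (hjl : j < l) :
    triMeasure (pt T (Sum.inl i)) (pt T (Sum.inr j)) (pt T (Sum.inr l)) = nu T (i, j) - nu T (i, l) := by
  have hlt : (bN T j : ℝ) < bN T l := by exact_mod_cast bN_mono hT hjl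
  ext E hE
  rw [triMeasure_apply _ _ _ hE, hullB rfl rfl rfl (by simpa [pt] using hlt)]
  rw [FunLike.coe_sub, Pi.sub_apply, nu_apply _ _ hE, nu_apply _ _ hE]
  rw [← diff_core T hT hT3 (i, j) (i, l) ?_ hE]
  · rfl
  · intro y h0 h1
    unfold xx
    have : y * (bN T j : ℝ) ≤ y * bN T l := mul_le_mul_of_nonneg_left hlt.le h0.le
    simpa using this

end

end Pool.Agent.V11266.PF
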