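import Pool.Agent.V11266.PF2

set_option autoImplicit false

namespace Pool.Agent.V11266.PF

open MeasureTheory

noncomputable section

/-- the six points on two parallel lines -/
def SS (T : ℕ) : Set ℂ := Set.range (pt T)

def evalL (E : Set ℂ) : SignedMeasure ℂ →ₗ[ℝ] ℝ where
  toFun μ := μ E
  map_add' _ _ := rfl
  map_smul' _ _ := rfl

def sumFun : (Cell → ℝ) →ₗ[ℝ] ℝ := ∑ p, LinearMap.proj p

theorem sumFun_apply (c : Cell → ℝ) : sumFun c = ∑ p, c p := by simp [sumFun]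

def LL (T : ℕ) : (Cell → ℝ) →ₗ[ℝ] SignedMeasure ℂ :=
  ∑ p, (LinearMap.proj p : (Cell → ℝ) →ₗ[ℝ] ℝ).smulRight (nu T p)

theorem LL_apply (T : ℕ) (c : Cell → ℝ) : LL T c = ∑ p, c p • nu T p := by simp [LL]

theorem LL_eval (T : ℕ) (c : Cell → ℝ) {E : Set ℂ} (hE : MeasurableSet E) :
    LL T c E = ∑ p, c p * volume.real (E ∩ HH T p) := by
  have h : LL T c E = evalL E (LL T c) := rfl
  rw [h, LL_apply, map_sum]
  refine Finset.sum_congr rfl fun p _ => ?_
  rw [map_smul, smul_eq_mul]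
  congr 1
  exact nu_apply T p hE

theorem LL_single_sub (T : ℕ) (p q : Cell) :
    LL T (Pi.single p 1 - Pi.single q 1) = nu T p - nu T q := by
  rw [map_sub, LL_apply, LL_apply]
  simp [Pi.single_apply]

theorem chi_AAA (T : ℕ) (i j k : Fin 3) :
    chi (pt T (Sum.inl i)) (pt T (Sum.inl j)) (pt T (Sum.inl k)) = 0 := by
  rw [chi_eq]; simp [pt]

theorem chi_BBB (T : ℕ) (i j k : Fin 3) :
    chi (pt T (Sum.inr i)) (pt T (Sum.inr j)) (pt T (Sum.inr k)) = 0 := by
  rw [chi_eq]; simp [pt]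

theorem chi_AAB (T : ℕ) (i j k : Fin 3) :
    chi (pt T (Sum.inl i)) (pt T (Sum.inl j)) (pt T (Sum.inr k)) = SignType.sign ((aN j : ℝ) - aN i) := by
  rw [chi_eq]; simp [pt]

theorem chi_ABA (T : ℕ) (i j k : Fin 3) :
    chi (pt T (Sum.inl i)) (pt T (Sum.inr j)) (pt T (Sum.inl k)) = SignType.sign ((aN i : ℝ) - aN k) := by
  rw [chi_eq]; simp [pt]

theorem chi_BAA (T : ℕ) (i j k : Fin 3) :
    chi (pt T (Sum.inr i)) (pt T (Sum.inl j)) (pt T (Sum.inl k)) = SignType.sign ((aN k : ℝ) - aN j) := by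
  rw [chi_eq]; simp [pt]

theorem chi_ABB (T : ℕ) (i j k : Fin 3) :
    chi (pt T (Sum.inl i)) (pt T (Sum.inr j)) (pt T (Sum.inr k)) = SignType.sign ((bN T j : ℝ) - bN T k) := by
  rw [chi_eq]; simp [pt]

theorem chi_BAB (T : ℕ) (i j k : Fin 3) :
    chi (pt T (Sum.inr i)) (pt T (Sum.inl j)) (pt T (Sum.inr k)) = SignType.sign ((bN T k : ℝ) - bN T i) := by
  rw [chi_eq]; simp [pt]

theorem chi_BBA (T : ℕ) (i j k : Fin 3) :
    chi (pt T (Sum.inr i)) (pt T (Sum.inr j)) (pt T (Sum.inl k)) = SignType.sign ((bN T i : ℝ) - bN T j) := by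
  rw [chi_eq]; simp [pt]

section
variable (T : ℕ) (hT : 1 < T) (hT3 : T ≤ 3)
include hT hT3

theorem nuA_mem (i k j : Fin 3) : nu T (i, j) - nu T (k, j) ∈ polyMeasures (SS T) := by
  rcases lt_trichotomy i k with h | h | h
  · apply Submodule.subset_span
    refine ⟨_, ⟨Sum.inl i, rfl⟩, _, ⟨Sum.inl k, rfl⟩, _, ⟨Sum.inr j, rfl⟩, ?_, (triA T hT hT3 h j).symm⟩
    rw [chi_AAB]
    have : (aN i : ℝ) < aN k := by exact_mod_cast aN_mono h
    rw [sign_pos (by linarith)]; decide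
  · subst h; simp
  · rw [← neg_sub]
    apply Submodule.neg_mem
    apply Submodule.subset_span
    refine ⟨_, ⟨Sum.inl k, rfl⟩, _, ⟨Sum.inl i, rfl⟩, _, ⟨Sum.inr j, rfl⟩, ?_, (triA T hT hT3 h j).symm⟩
    rw [chi_AAB]
    have : (aN k : ℝ) < aN i := by exact_mod_cast aN_mono h
    rw [sign_pos (by linarith)]; decide

theorem nuB_mem (i j l : Fin 3) : nu T (i, j) - nu T (i, l) ∈ polyMeasures (SS T) := by
  rcases lt_trichotomy j l with h | h | h
  · apply Submodule.subset_span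
    refine ⟨_, ⟨Sum.inl i, rfl⟩, _, ⟨Sum.inr j, rfl⟩, _, ⟨Sum.inr l, rfl⟩, ?_, (triB T hT hT3 i h).symm⟩
    rw [chi_ABB]
    have : (bN T j : ℝ) < bN T l := by exact_mod_cast bN_mono hT h
    rw [sign_neg (by linarith)]; decide
  · subst h; simp
  · rw [← neg_sub]
    apply Submodule.neg_mem
    apply Submodule.subset_span
    refine ⟨_, ⟨Sum.inl i, rfl⟩, _, ⟨Sum.inr l, rfl⟩, _, ⟨Sum.inr j, rfl⟩, ?_, (triB T hT hT3 i h).symm⟩
    rw [chi_ABB]
    have : (bN T l : ℝ) < bN T j := by exact_mod_cast bN_mono hT h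
    rw [sign_neg (by linarith)]; decide

theorem LL_mem {c : Cell → ℝ} (hc : ∑ p, c p = 0) : LL T c ∈ polyMeasures (SS T) := by
  have h : LL T c = ∑ p, c p • (nu T p - nu T (0, 0)) := by
    rw [LL_apply]
    simp only [smul_sub, Finset.sum_sub_distrib, ← Finset.sum_smul, hc, zero_smul, sub_zero]
  rw [h]
  apply Submodule.sum_mem
  rintro ⟨i, j⟩ _
  apply Submodule.smul_mem
  have h1 := nuA_mem T hT hT3 i 0 j
  have h2 := nuB_mem T hT hT3 0 j 0
  have h3 := Submodule.add_mem _ h1 h2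
  simpa using h3

omit hT hT3 in
theorem diff_in_map (p q : Cell) :
    nu T p - nu T q ∈ Submodule.map (LL T) (LinearMap.ker sumFun) := by
  refine ⟨Pi.single p 1 - Pi.single q 1, ?_, LL_single_sub T p q⟩
  simp [sumFun_apply, Pi.single_apply]

theorem gen_in_map (x y z : Fin 3 ⊕ Fin 3) (h : chi (pt T x) (pt T y) (pt T z) ≠ 0) :
    triMeasure (pt T x) (pt T y) (pt T z) ∈ Submodule.map (LL T) (LinearMap.ker sumFun) := by
  have keyA : ∀ i k j : Fin 3, i ≠ k →
      triMeasure (pt T (Sum.inl i)) (pt T (Sum.inl k)) (pt T (Sum.inr j)) ∈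
        Submodule.map (LL T) (LinearMap.ker sumFun) := by
    intro i k j hik
    rcases lt_or_gt_of_ne hik with h | h
    · rw [triA T hT hT3 h j]; exact diff_in_map T _ _
    · rw [triMeasure_congr (a' := pt T (Sum.inl k)) (b' := pt T (Sum.inl i)) (c' := pt T (Sum.inr j))
        (by rw [Set.insert_comm]), triA T hT hT3 h j]; exact diff_in_map T _ _
  have keyB : ∀ i j l : Fin 3, j ≠ l →
      triMeasure (pt T (Sum.inl i)) (pt T (Sum.inr j)) (pt T (Sum.inr l)) ∈
        Submodule.map (LL T) (LinearMap.ker sumFun) := by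
    intro i j l hik
    rcases lt_or_gt_of_ne hik with h | h
    · rw [triB T hT hT3 i h]; exact diff_in_map T _ _
    · rw [triMeasure_congr (a' := pt T (Sum.inl i)) (b' := pt T (Sum.inr l)) (c' := pt T (Sum.inr j))
        (by rw [Set.pair_comm]), triB T hT hT3 i h]; exact diff_in_map T _ _
  rcases x with i | i <;> rcases y with j | j <;> rcases z with k | k
  · exact absurd (chi_AAA T i j k) h
  · apply keyA
    rintro rfl
    rw [chi_AAB] at h; simp at h
  · rw [triMeasure_congr (a' := pt T (Sum.inl i)) (b' := pt T (Sum.inl k)) (c' := pt T (Sum.inr j))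
        (by rw [Set.pair_comm])]
    apply keyA
    rintro rfl
    rw [chi_ABA] at h; simp at h
  · apply keyB
    rintro rfl
    rw [chi_ABB] at h; simp at h
  · rw [triMeasure_congr (a' := pt T (Sum.inl j)) (b' := pt T (Sum.inl k)) (c' := pt T (Sum.inr i))
        (by rw [Set.insert_comm, Set.pair_comm (pt T (Sum.inr i))])]
    apply keyA
    rintro rfl
    rw [chi_BAA] at h; simp at h
  · rw [triMeasure_congr (a' := pt T (Sum.inl j)) (b' := pt T (Sum.inr i)) (c' := pt T (Sum.inr k))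
        (by rw [Set.insert_comm])]
    apply keyB
    rintro rfl
    rw [chi_BAB] at h; simp at h
  · rw [triMeasure_congr (a' := pt T (Sum.inl k)) (b' := pt T (Sum.inr i)) (c' := pt T (Sum.inr j))
        (by rw [Set.pair_comm (pt T (Sum.inr j)), Set.insert_comm])]
    apply keyB
    rintro rfl
    rw [chi_BBA] at h; simp at h
  · exact absurd (chi_BBB T i j k) h

theorem poly_iff (μ : SignedMeasure ℂ) :
    μ ∈ polyMeasures (SS T) ↔ ∃ c : Cell → ℝ, ∑ p, c p = 0 ∧ μ = LL T c := by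
  constructor
  · intro h
    have hle : polyMeasures (SS T) ≤ Submodule.map (LL T) (LinearMap.ker sumFun) := by
      unfold polyMeasures
      rw [Submodule.span_le]
      rintro μ ⟨_, ⟨x, rfl⟩, _, ⟨y, rfl⟩, _, ⟨z, rfl⟩, hchi, rfl⟩
      exact gen_in_map T hT hT3 x y z hchi
    obtain ⟨c, hc, hc2⟩ := hle h
    refine ⟨c, ?_, hc2.symm⟩
    simpa [sumFun_apply] using hc
  · rintro ⟨c, hc, rfl⟩
    exact LL_mem T hT hT3 hc

end

/-- chamber with the set `P` of segments to its left -/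
def BB (T : ℕ) (P : Finset Cell) : Set ℂ :=
  {z | 0 < z.im ∧ z.im < 1 ∧ ∀ p, (p ∈ P → xx T p z.im < z.re) ∧ (p ∉ P → z.re < xx T p z.im)}

theorem BB_open (T : ℕ) (P : Finset Cell) : IsOpen (BB T P) := by
  have h : BB T P = {z : ℂ | 0 < z.im} ∩ ({z : ℂ | z.im < 1} ∩
      ⋂ p : Cell, {z : ℂ | (p ∈ P → xx T p z.im < z.re) ∧ (p ∉ P → z.re < xx T p z.im)}) := by
    ext z
    simp [BB]
  rw [h]
  refine IsOpen.inter (isOpen_lt continuous_const Complex.continuous_im) (IsOpen.inter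
    (isOpen_lt Complex.continuous_im continuous_const) (isOpen_iInter_of_finite fun p => ?_))
  have h1 := (xx_continuous T p).comp Complex.continuous_im
  by_cases hp : p ∈ P
  · simp only [hp, true_implies, not_true_eq_false, false_implies, and_true]
    exact isOpen_lt h1 Complex.continuous_re
  · simp only [hp, false_implies, not_false_eq_true, true_implies, true_and]
    exact isOpen_lt Complex.continuous_re h1

theorem xx_lt_ten (T : ℕ) (hT : 1 < T) (hT3 : T ≤ 3) (q : Cell) {y : ℝ} (h0 : 0 < y) (h1 : y < 1) :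
    xx T q y < 10 := by
  unfold xx
  have e1 : (aN q.1 : ℝ) ≤ 2 := by exact_mod_cast aN_le q.1
  have e2 : (bN T q.2 : ℝ) ≤ 3 := by exact_mod_cast (bN_le hT q.2).trans hT3
  nlinarith

theorem BB_inter_pos (T : ℕ) (hT : 1 < T) (hT3 : T ≤ 3) {P : Finset Cell} (hP : P ≠ Finset.univ)
    {p : Cell} (hp : p ∈ P) : BB T P ∩ HH T p = BB T P := by
  apply Set.inter_eq_left.2
  rintro z ⟨h1, h2, h3⟩
  obtain ⟨q, hq⟩ : ∃ q, q ∉ P := by
    by_contra h; push Not at h; exact hP (Finset.eq_univ_iff_forall.2 h)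
  refine ⟨h1, h2, (h3 p).1 hp, ?_⟩
  exact lt_trans ((h3 q).2 hq) (xx_lt_ten T hT hT3 q h1 h2)

theorem BB_inter_neg (T : ℕ) {P : Finset Cell} {p : Cell} (hp : p ∉ P) : BB T P ∩ HH T p = ∅ := by
  rw [Set.eq_empty_iff_forall_notMem]
  rintro z ⟨⟨h1, h2, h3⟩, ⟨_, _, h4, _⟩⟩
  exact absurd h4 (not_lt_of_gt ((h3 p).2 hp))

theorem LL_BB (T : ℕ) (hT : 1 < T) (hT3 : T ≤ 3) {P : Finset Cell} (hP : P ≠ Finset.univ)
    (c : Cell → ℝ) : LL T c (BB T P) = (∑ p ∈ P, c p) * volume.real (BB T P) := by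
  rw [LL_eval T c (BB_open T P).measurableSet, Finset.sum_mul]
  rw [← Finset.sum_subset (Finset.subset_univ P)]
  · refine Finset.sum_congr rfl fun p hp => ?_
    rw [BB_inter_pos T hT hT3 hP hp]
  · intro p _ hp
    rw [BB_inter_neg T hp]; simp

/-- the set of segments to the left of the sample point `(X + iY)/20` -/
def PP (T Y X : ℕ) : Finset Cell :=
  Finset.univ.filter fun p => (20 - Y) * aN p.1 + Y * bN T p.2 < X

theorem BB_pos (T : ℕ) (hT : 1 < T) (hT3 : T ≤ 3) (Y X : ℕ) (hY0 : 0 < Y) (hY : Y < 20)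
    (htie : ∀ p : Cell, (20 - Y) * aN p.1 + Y * bN T p.2 ≠ X)
    (hne : (PP T Y X).Nonempty) (hun : PP T Y X ≠ Finset.univ) :
    0 < volume.real (BB T (PP T Y X)) := by
  have hxx : ∀ p : Cell, xx T p ((Y : ℝ) / 20) = (((20 - Y) * aN p.1 + Y * bN T p.2 : ℕ) : ℝ) / 20 := by
    intro p
    unfold xx
    push_cast [Nat.cast_sub hY.le]
    ring
  have hmem : (⟨(X : ℝ) / 20, (Y : ℝ) / 20⟩ : ℂ) ∈ BB T (PP T Y X) := by
    refine ⟨by show (0:ℝ) < (Y:ℝ)/20; positivity, ?_, fun p => ⟨fun hp => ?_, fun hp => ?_⟩⟩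
    · show (Y:ℝ)/20 < 1
      rw [div_lt_one (by norm_num)]
      exact_mod_cast hY
    · show xx T p ((Y : ℝ) / 20) < (X : ℝ) / 20
      rw [hxx]
      have : (20 - Y) * aN p.1 + Y * bN T p.2 < X := (Finset.mem_filter.1 hp).2
      have h2 : (((20 - Y) * aN p.1 + Y * bN T p.2 : ℕ) : ℝ) < X := by exact_mod_cast this
      linarith
    · show (X : ℝ) / 20 < xx T p ((Y : ℝ) / 20)
      rw [hxx]
      have : ¬ ((20 - Y) * aN p.1 + Y * bN T p.2 < X) := by
        intro h; exact hp (Finset.mem_filter.2 ⟨Finset.mem_univ _, h⟩)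
      have h3 : X < (20 - Y) * aN p.1 + Y * bN T p.2 :=
        lt_of_le_of_ne (not_lt.1 this) (htie p).symm
      have h2 : (X : ℝ) < (((20 - Y) * aN p.1 + Y * bN T p.2 : ℕ) : ℝ) := by exact_mod_cast h3
      linarith
  have hpos : 0 < (volume : Measure ℂ) (BB T (PP T Y X)) :=
    (BB_open T _).measure_pos _ ⟨_, hmem⟩
  rw [measureReal_def]
  refine ENNReal.toReal_pos hpos.ne' ?_
  obtain ⟨p, hp⟩ := hne
  rw [← BB_inter_pos T hT hT3 hun hp]
  exact ((measure_mono Set.inter_subset_right).trans_lt (HH_finite T p)).ne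

/-- the segments to the left of `z` -/
def PZ (T : ℕ) (z : ℂ) : Finset Cell := Finset.univ.filter fun p => xx T p z.im < z.re

theorem LL_nonneg (T : ℕ) {c : Cell → ℝ} (hc : ∑ p, c p = 0)
    (h : ∀ z : ℂ, 0 < z.im → z.im < 1 → 0 ≤ ∑ p ∈ PZ T z, c p) : 0 ≤ LL T c := by
  rw [VectorMeasure.le_iff]
  intro E hE
  show (0:ℝ) ≤ LL T c E
  rw [LL_eval T c hE]
  have hint : ∀ p : Cell, Integrable ((E ∩ HH T p).indicator (1 : ℂ → ℝ)) volume := by
    intro p
    apply IntegrableOn.integrable_indicator _ (hE.inter (HH_open T p).measurableSet)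
    have : volume (E ∩ HH T p) < ⊤ := (measure_mono Set.inter_subset_right).trans_lt (HH_finite T p)
    exact integrableOn_const this.ne
  have h1 : ∑ p, c p * volume.real (E ∩ HH T p)
      = ∫ z, ∑ p, c p * (E ∩ HH T p).indicator (1 : ℂ → ℝ) z := by
    rw [integral_finset_sum]
    · refine Finset.sum_congr rfl fun p _ => ?_
      rw [integral_const_mul, integral_indicator_one (hE.inter (HH_open T p).measurableSet)]
    · intro p _
      exact (hint p).const_mul _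
  rw [h1]
  apply integral_nonneg
  intro z
  show (0:ℝ) ≤ ∑ p, c p * (E ∩ HH T p).indicator (1 : ℂ → ℝ) z
  by_cases hz : z ∈ E ∧ 0 < z.im ∧ z.im < 1 ∧ z.re < 10
  · obtain ⟨hz1, hz2, hz3, hz4⟩ := hz
    have h2 : ∑ p, c p * (E ∩ HH T p).indicator (1 : ℂ → ℝ) z = ∑ p ∈ PZ T z, c p := by
      rw [PZ, Finset.sum_filter]
      refine Finset.sum_congr rfl fun p _ => ?_
      by_cases hp : xx T p z.im < z.re
      · rw [if_pos hp, Set.indicator_of_mem (show z ∈ E ∩ HH T p from ⟨hz1, hz2, hz3, hp, hz4⟩)]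
        simp
      · rw [if_neg hp, Set.indicator_of_notMem (fun h => hp h.2.2.2.1)]
        simp
    rw [h2]
    exact h z hz2 hz3
  · have h2 : ∑ p, c p * (E ∩ HH T p).indicator (1 : ℂ → ℝ) z = 0 := by
      refine Finset.sum_eq_zero fun p _ => ?_
      rw [Set.indicator_of_notMem (fun h => hz ⟨h.1, h.2.1, h.2.2.1, h.2.2.2.2⟩)]
      simp
    rw [h2]

/-- the presentation of the cone by the chambers -/
theorem pres (T : ℕ) (hT : 1 < T) (hT3 : T ≤ 3) {n : ℕ} (Y X : Fin n → ℕ)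
    (hY : ∀ i, 0 < Y i ∧ Y i < 20) (htie : ∀ i (p : Cell), (20 - Y i) * aN p.1 + Y i * bN T p.2 ≠ X i)
    (h00 : ∀ i, (0, 0) ∈ PP T (Y i) (X i)) (h22 : ∀ i, (2, 2) ∉ PP T (Y i) (X i))
    (hcomp : ∀ z : ℂ, 0 < z.im → z.im < 1 →
      PZ T z = ∅ ∨ PZ T z = Finset.univ ∨ ∃ i, PZ T z = PP T (Y i) (X i)) :
    Pres (Kpos (SS T)) (polyMeasures (SS T)) (fun i => evalL (BB T (PP T (Y i) (X i))))
      (LL T (Pi.single (0, 0) 1 - Pi.single (2, 2) 1)) := by
  have hun : ∀ i, PP T (Y i) (X i) ≠ Finset.univ := by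
    intro i h; exact h22 i (h ▸ Finset.mem_univ _)
  have hpos : ∀ i, 0 < volume.real (BB T (PP T (Y i) (X i))) := fun i =>
    BB_pos T hT hT3 _ _ (hY i).1 (hY i).2 (htie i) ⟨_, h00 i⟩ (hun i)
  refine ⟨?_, ?_, ?_⟩
  · intro μ
    constructor
    · rintro ⟨h1, h2⟩
      refine ⟨h1, fun i => ?_⟩
      exact (VectorMeasure.le_iff.1 h2) _ (BB_open T _).measurableSet
    · rintro ⟨h1, h2⟩
      refine ⟨h1, ?_⟩
      obtain ⟨c, hc, rfl⟩ := (poly_iff T hT hT3 μ).1 h1
      apply LL_nonneg T hc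
      intro z hz0 hz1
      rcases hcomp z hz0 hz1 with h | h | ⟨i, h⟩
      · rw [h]; simp
      · rw [h, hc]
      · rw [h]
        have h3 := h2 i
        have h4 : LL T c (BB T (PP T (Y i) (X i))) = _ := LL_BB T hT hT3 (hun i) c
        have h5 : 0 ≤ (∑ p ∈ PP T (Y i) (X i), c p) * volume.real (BB T (PP T (Y i) (X i))) := by
          rw [← h4]; exact h3
        exact nonneg_of_mul_nonneg_left h5 (hpos i)
  · apply LL_mem T hT hT3
    simp [Pi.single_apply]
  · intro i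
    show 0 < LL T _ (BB T (PP T (Y i) (X i)))
    rw [LL_BB T hT hT3 (hun i)]
    have : ∑ p ∈ PP T (Y i) (X i), (Pi.single (0, 0) 1 - Pi.single (2, 2) 1 : Cell → ℝ) p = 1 := by
      simp only [Pi.sub_apply, Pi.single_apply, Finset.sum_sub_distrib, Finset.sum_ite_eq', h00 i, h22 i,
        if_true, if_false]
      norm_num
    rw [this, one_mul]
    exact hpos i

end

end Pool.Agent.V11266.PF
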