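import Pool.Agent.V11266.LN

/-!
# The torsion of `y² = x³ + (n² + 2 m²) x² + m⁴ x` for `n = 1` or `m = 1`
-/

set_option autoImplicit false

namespace Pool.Agent.V11266.Tor

open WeierstrassCurve Pool.Agent.V11266.LN

/-- the coefficient `A` -/
def cA (n m : ℕ) : ℤ := (n : ℤ) ^ 2 + 2 * (m : ℤ) ^ 2

/-- the coefficient `B` -/
def cB (m : ℕ) : ℤ := (m : ℤ) ^ 4

/-- the group of the rational points -/
abbrev PP (n m : ℕ) : Type := Pt ((cA n m : ℤ) : ℚ) ((cB m : ℤ) : ℚ)

theorem nonsing {A B x y : ℚ} (h : y ^ 2 = x ^ 3 + A * x ^ 2 + B * x) (hy : y ≠ 0) :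
    (E A B).Nonsingular x y := by
  rw [Affine.nonsingular_iff]
  constructor
  · rw [Affine.equation_iff]
    simp only [E]
    linear_combination h
  · right
    simp only [E]
    intro h1
    apply hy
    linarith

theorem nonsing0 {A B : ℚ} (hB : B ≠ 0) : (E A B).Nonsingular 0 0 := by
  rw [Affine.nonsingular_iff]
  constructor
  · rw [Affine.equation_iff]
    simp [E]
  · left
    simp only [E]
    intro h1
    apply hB
    linarith

theorem double {A B x y : ℚ} (h : (E A B).Nonsingular x y) (hy : y ≠ 0) :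
    ∃ (y' : ℚ) (h' : (E A B).Nonsingular (((x ^ 2 - B) / (2 * y)) ^ 2) y'),
      2 • (Affine.Point.some x y h : Pt A B) = Affine.Point.some _ y' h' := by
  have hne : ¬ (x = x ∧ y = (E A B).negY x y) := by
    rw [negY_eq]
    rintro ⟨-, h1⟩
    apply hy
    linarith
  have hE := eqn h
  have hsl : (E A B).slope x x y y = (3 * x ^ 2 + 2 * A * x + B) / (2 * y) := by
    rw [Affine.slope_of_Y_ne rfl (fun h1 => hne ⟨rfl, h1⟩), negY_eq]
    simp only [E]
    congr 1 <;> ring
  have hX : (E A B).addX x x ((E A B).slope x x y y) = ((x ^ 2 - B) / (2 * y)) ^ 2 := by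
    rw [hsl]
    simp only [Affine.addX, E]
    field_simp
    linear_combination (-4 * (A + 2 * x)) * hE
  have hns := Affine.nonsingular_add h h hne
  rw [hX] at hns
  refine ⟨_, hns, ?_⟩
  rw [two_nsmul, Affine.Point.add_some hne]
  congr 1

theorem double_zero {A B x : ℚ} (h : (E A B).Nonsingular x 0) :
    2 • (Affine.Point.some x 0 h : Pt A B) = 0 := by
  rw [two_nsmul]
  exact Affine.Point.add_self_of_Y_eq (by rw [negY_eq, neg_zero])

theorem add_T {A B x y : ℚ} (hB : B ≠ 0) (h : (E A B).Nonsingular x y) (hx : x ≠ 0) :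
    ∃ (y' : ℚ) (h' : (E A B).Nonsingular (B / x) y'),
      (Affine.Point.some x y h : Pt A B) + Affine.Point.some 0 0 (nonsing0 hB) =
        Affine.Point.some _ y' h' := by
  have hne : ¬ (x = 0 ∧ y = (E A B).negY 0 0) := fun h1 => hx h1.1
  have hE := eqn h
  have hsl : (E A B).slope x 0 y 0 = y / x := by
    rw [Affine.slope_of_X_ne hx, sub_zero, sub_zero]
  have hX : (E A B).addX x 0 ((E A B).slope x 0 y 0) = B / x := by
    rw [hsl]
    simp only [Affine.addX, E]
    field_simp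
    linear_combination hE
  have hns := Affine.nonsingular_add h (nonsing0 hB) hne
  rw [hX] at hns
  refine ⟨_, hns, ?_⟩
  rw [Affine.Point.add_some hne]
  congr 1

/-- `n² + 4 m²` is not a square -/
theorem nosq {n m : ℕ} (hn : 1 ≤ n) (hm : 1 ≤ m) (h1 : n = 1 ∨ m = 1) (r : ℤ) :
    r ^ 2 ≠ (n : ℤ) ^ 2 + 4 * (m : ℤ) ^ 2 := by
  intro h
  have h2 : |r| ^ 2 = (n : ℤ) ^ 2 + 4 * (m : ℤ) ^ 2 := by rw [sq_abs]; exact h
  have hr0 : 0 ≤ |r| := abs_nonneg r
  generalize |r| = s at h2 hr0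
  have hnZ : (1 : ℤ) ≤ n := by exact_mod_cast hn
  have hmZ : (1 : ℤ) ≤ m := by exact_mod_cast hm
  rcases h1 with rfl | rfl
  · -- `s² = 1 + 4 m²`
    have h3 : 2 * (m : ℤ) < s := by
      by_contra hc
      push Not at hc
      nlinarith
    push_cast at h2
    nlinarith
  · push_cast at h2
    have h3 : (n : ℤ) < s := by
      by_contra hc
      push Not at hc
      nlinarith
    have h4 : s < n + 2 := by
      by_contra hc
      push Not at hc
      nlinarith
    have h5 : s = n + 1 := by omega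
    rw [h5] at h2
    have : 2 * (n : ℤ) + 1 = 4 := by nlinarith
    omega

theorem nosqQ {n m : ℕ} (hn : 1 ≤ n) (hm : 1 ≤ m) (h1 : n = 1 ∨ m = 1) (r : ℚ) :
    r ^ 2 ≠ (n : ℚ) ^ 2 + 4 * (m : ℚ) ^ 2 := by
  intro h
  have : IsSquare ((((n : ℤ) ^ 2 + 4 * (m : ℤ) ^ 2 : ℤ)) : ℚ) := ⟨r, by
    push_cast; rw [← h]; ring⟩
  obtain ⟨s, hs⟩ := Rat.isSquare_intCast_iff.1 this
  exact nosq hn hm h1 s (by rw [hs]; ring)

section
variable {n m : ℕ} (hn : 1 ≤ n) (hm : 1 ≤ m) (h1 : n = 1 ∨ m = 1)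
include hn hm h1

theorem y_zero {x : ℚ} (h : (E (cA n m : ℤ) (cB m : ℤ)).Nonsingular x 0) : x = 0 := by
  have hE := eqn h
  by_contra hx
  have h2 : x ^ 2 + (cA n m : ℚ) * x + (cB m : ℚ) = 0 := by
    apply mul_left_cancel₀ hx
    linear_combination -hE
  have hn0 : (n : ℚ) ≠ 0 := by exact_mod_cast (by omega : n ≠ 0)
  apply nosqQ hn hm h1 ((2 * x + cA n m) / n)
  unfold cA cB at *
  push_cast at *
  field_simp
  linear_combination 4 * h2

theorem x_sq {x y : ℚ} (h : (E (cA n m : ℤ) (cB m : ℤ)).Nonsingular x y)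
    (hx : x ^ 2 = (cB m : ℤ)) : x = -(m : ℚ) ^ 2 := by
  have hE := eqn h
  have h2 : (x - (m : ℚ) ^ 2) * (x + (m : ℚ) ^ 2) = 0 := by
    unfold cB at hx
    push_cast at hx
    linear_combination hx
  rcases mul_eq_zero.1 h2 with h3 | h3
  · exfalso
    have hx2 : x = (m : ℚ) ^ 2 := by linarith
    have hm0 : (m : ℚ) ≠ 0 := by exact_mod_cast (by omega : m ≠ 0)
    apply nosqQ hn hm h1 (y / (m : ℚ) ^ 2)
    rw [hx2] at hE
    unfold cA cB at hE
    push_cast at hE
    field_simp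
    linear_combination hE
  · linarith

/-- if `4 P = 0` then `P` is one of the four known points -/
theorem four {x y : ℚ} (h : (E (cA n m : ℤ) (cB m : ℤ)).Nonsingular x y)
    (h4 : 4 • (Affine.Point.some x y h : PP n m) = 0) : x = 0 ∨ x = -(m : ℚ) ^ 2 := by
  by_cases hy : y = 0
  · subst hy
    exact Or.inl (y_zero hn hm h1 h)
  · right
    obtain ⟨y', h', e⟩ := double h hy
    have h5 : 2 • (2 • (Affine.Point.some x y h : PP n m)) = 0 := by
      rw [← mul_nsmul]; exact h4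
    rw [e] at h5
    have hy' : y' = 0 := by
      by_contra hc
      obtain ⟨y'', h'', e'⟩ := double h' hc
      rw [e'] at h5
      exact Affine.Point.some_ne_zero _ h5
    subst hy'
    have h6 := y_zero hn hm h1 h'
    have h7 : (x ^ 2 - (cB m : ℤ)) / (2 * y) = 0 := by
      exact pow_eq_zero_iff (by norm_num) |>.1 h6
    rcases div_eq_zero_iff.1 h7 with h8 | h8
    · exact x_sq hn hm h1 h (by linarith)
    · exact absurd (by linarith : y = 0) hy

theorem no_eight {R : PP n m} (h8 : 8 • R = 0) : 4 • R = 0 := by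
  by_contra h4
  rcases R with _ | ⟨x, y, h⟩
  · apply h4
    change 4 • (0 : PP n m) = 0
    exact nsmul_zero 4
  have hy : y ≠ 0 := by
    rintro rfl
    apply h4
    have h2 := double_zero h
    rw [show 4 = 2 * 2 by norm_num, mul_nsmul, h2, nsmul_zero]
  obtain ⟨y', h', e⟩ := double h hy
  have h5 : 4 • (2 • (Affine.Point.some x y h : PP n m)) = 0 := by
    rw [← mul_nsmul]; exact h8
  rw [e] at h5
  rcases four hn hm h1 h' h5 with h6 | h6
  · -- then `2 S = 0`
    have hy' : y' = 0 := by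
      have hE := eqn h'
      rw [h6] at hE
      have : y' ^ 2 = 0 := by rw [hE]; ring
      exact pow_eq_zero_iff (by norm_num) |>.1 this
    subst hy'
    apply h4
    have h2 := double_zero h'
    rw [← e, ← mul_nsmul] at h2
    exact h2
  · have hm0 : (0 : ℚ) < m := by exact_mod_cast (by omega : 0 < m)
    have : 0 ≤ ((x ^ 2 - (cB m : ℤ)) / (2 * y)) ^ 2 := sq_nonneg _
    rw [h6] at this
    nlinarith [pow_pos hm0 2]

theorem no_odd {ℓ : ℕ} (hℓ : ℓ.Prime) (hodd : Odd ℓ) {P : PP n m} (hP : ℓ • P = 0) : P = 0 := by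
  by_contra hP0
  obtain ⟨k, hk⟩ := hodd
  set R : PP n m := (k + 1) • P with hR
  have h2R : 2 • R = P := by
    rw [hR, ← mul_nsmul, show (k + 1) * 2 = ℓ + 1 by omega, succ_nsmul, hP, zero_add]
  have hBpos : 0 < cB m := by unfold cB; positivity
  have hBQ : ((cB m : ℤ) : ℚ) ≠ 0 := by exact_mod_cast hBpos.ne'
  rcases hRR : R with _ | ⟨xr, yr, hr⟩
  · apply hP0
    rw [← h2R, hRR]
    change 2 • (0 : PP n m) = 0
    exact nsmul_zero 2
  have hyr : yr ≠ 0 := by
    rintro rfl
    apply hP0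
    rw [← h2R, hRR]
    exact double_zero hr
  obtain ⟨y', h', e⟩ := double hr hyr
  rw [← hRR, h2R] at e
  set s := (xr ^ 2 - (cB m : ℤ)) / (2 * yr) with hs
  have hPe : ℓ • (Affine.Point.some (s ^ 2) y' h' : PP n m) = 0 := by rw [← e]; exact hP
  obtain ⟨q, hq⟩ := integral (A := cA n m) (B := cB m) hℓ.squarefree h' hPe
  -- `s` is an integer
  obtain ⟨t, ht⟩ : IsSquare q := Rat.isSquare_intCast_iff.1 ⟨s, by rw [← hq]; ring⟩
  have hst : s ^ 2 = (t : ℚ) ^ 2 := by rw [hq, ht]; push_cast; ring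
  have hE := eqn h'
  have ht0 : t ≠ 0 := by
    rintro rfl
    have hs0 : s ^ 2 = 0 := by rw [hst]; norm_num
    rw [hs0] at hE
    have hy' : y' = 0 := by
      have : y' ^ 2 = 0 := by rw [hE]; ring
      exact pow_eq_zero_iff (by norm_num) |>.1 this
    subst hy'
    have h2 := double_zero h'
    rw [← e] at h2
    apply hP0
    have h3 : ℓ • P = P := by
      rw [hk, succ_nsmul, mul_nsmul, h2, nsmul_zero, zero_add]
    rw [← h3, hP]
  have htQ : (t : ℚ) ≠ 0 := by exact_mod_cast ht0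
  -- `(s² + m²)² + n² s²` is a square
  have hsq : IsSquare ((((t ^ 2 + (m : ℤ) ^ 2) ^ 2 + (n : ℤ) ^ 2 * t ^ 2 : ℤ)) : ℚ) := by
    refine ⟨y' / t, ?_⟩
    rw [hst] at hE
    unfold cA cB at hE
    push_cast at hE ⊢
    field_simp
    linear_combination -hE
  obtain ⟨r, hr2⟩ := Rat.isSquare_intCast_iff.1 hsq
  have ht2 : 1 ≤ t ^ 2 := by
    have : 0 < t ^ 2 := by positivity
    omega
  rcases h1 with rfl | rfl
  · -- `n = 1`
    have h3 : |r| ^ 2 = (t ^ 2 + (m : ℤ) ^ 2) ^ 2 + t ^ 2 := by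
      rw [sq_abs]; rw [pow_two, ← hr2]; push_cast; ring
    have hr0 := abs_nonneg r
    generalize |r| = u at h3 hr0
    have hmm : 0 ≤ (m : ℤ) ^ 2 := by positivity
    generalize (m : ℤ) ^ 2 = M at h3 hmm
    generalize t ^ 2 = T at h3 ht2
    have h4 : T + M < u := by
      by_contra hc
      push Not at hc
      nlinarith
    nlinarith
  · -- `m = 1`
    have hPP : (2 * ℓ) • ((Affine.Point.some (s ^ 2) y' h' : PP n 1) +
        Affine.Point.some 0 0 (nonsing0 hBQ)) = 0 := by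
      rw [nsmul_add, mul_comm 2 ℓ, mul_nsmul, hPe, nsmul_zero, zero_add, mul_comm ℓ 2, mul_nsmul,
        double_zero, nsmul_zero]
    have hs20 : s ^ 2 ≠ 0 := by rw [hst]; positivity
    obtain ⟨y3, h3, e3⟩ := add_T hBQ h' hs20
    rw [e3] at hPP
    have hsf : Squarefree (2 * ℓ) := by
      rw [Nat.squarefree_mul]
      · exact ⟨Nat.prime_two.squarefree, hℓ.squarefree⟩
      · rw [Nat.coprime_two_left]; exact ⟨k, hk⟩
    obtain ⟨z, hz⟩ := integral (A := cA n 1) (B := cB 1) hsf h3 hPP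
    have hz2 : (z : ℚ) * (t : ℚ) ^ 2 = 1 := by
      rw [← hz, ← hst]
      have : ((cB 1 : ℤ) : ℚ) = 1 := by unfold cB; norm_num
      rw [this]
      exact one_div_mul_cancel hs20
    have hz3 : z * t ^ 2 = 1 := by exact_mod_cast hz2
    have ht1 : t ^ 2 = 1 := by
      have := Int.eq_one_or_neg_one_of_mul_eq_one' hz3
      omega
    rw [ht1] at hr2
    exact nosq hn hm (Or.inr rfl) r (by rw [pow_two, ← hr2]; push_cast; ring)

/-- The points other than the four known ones have infinite order. -/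
theorem infinite_order {x y : ℚ} (h : (E (cA n m : ℤ) (cB m : ℤ)).Nonsingular x y)
    (hx0 : x ≠ 0) (hxm : x ≠ -(m : ℚ) ^ 2) :
    ¬ IsOfFinAddOrder (Affine.Point.some x y h : PP n m) := by
  intro hfin
  set P : PP n m := Affine.Point.some x y h with hP
  have hN := addOrderOf_pos_iff.2 hfin
  rcases Nat.eq_two_pow_or_exists_odd_prime_and_dvd (addOrderOf P) with ⟨k, hk⟩ | ⟨ℓ, hℓ, hd, ho⟩
  · have key : ∀ j : ℕ, ∀ Q : PP n m, (2 ^ j * 4) • Q = 0 → 4 • Q = 0 := by
      intro j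
      induction j with
      | zero => intro Q hQ; simpa using hQ
      | succ j ih =>
        intro Q hQ
        apply ih
        have : 8 • ((2 ^ j) • Q) = 0 := by
          rw [← mul_nsmul]
          rw [show 2 ^ j * 8 = 2 ^ (j + 1) * 4 by rw [pow_succ]; ring]
          exact hQ
        have h3 := no_eight hn hm h1 this
        rw [← mul_nsmul] at h3
        exact h3
    have h4 : 4 • P = 0 := by
      apply key k
      rw [← hk, mul_nsmul, addOrderOf_nsmul_eq_zero, nsmul_zero]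
    rcases four hn hm h1 h h4 with h5 | h5
    · exact hx0 h5
    · exact hxm h5
  · obtain ⟨c, hc⟩ := hd
    have h2 : ℓ • (c • P) = 0 := by
      rw [← mul_nsmul, mul_comm, ← hc, addOrderOf_nsmul_eq_zero]
    have h3 := no_odd hn hm h1 hℓ ho h2
    have h4 := addOrderOf_dvd_of_nsmul_eq_zero h3
    have hc0 : 0 < c := by
      rcases Nat.eq_zero_or_pos c with rfl | h
      · rw [hc, mul_zero] at hN; exact absurd hN (lt_irrefl 0)
      · exact h
    have h5 := Nat.le_of_dvd hc0 h4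
    rw [hc] at h5
    have := hℓ.two_le
    nlinarith

end

end Pool.Agent.V11266.Tor
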