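import Pool.Agent.V11266.Tor

/-!
# Infinitely many points, and rational parameters of triangles
-/

set_option autoImplicit false

namespace Pool.Agent.V11266.Tri

open WeierstrassCurve Pool.Agent.V11266.LN Pool.Agent.V11266.Tor

/-- the coordinates of a point -/
def coords {A B : ℚ} : Pt A B → ℚ × ℚ
  | .zero => (0, 0)
  | .some x y _ => (x, y)

/-- the equation of the curve -/
def OnC (n m : ℕ) (X Y : ℚ) : Prop :=
  Y ^ 2 = X ^ 3 + ((n : ℚ) ^ 2 + 2 * (m : ℚ) ^ 2) * X ^ 2 + (m : ℚ) ^ 4 * X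

/-- the points other than the four known ones -/
def Good (n m : ℕ) : Set (ℚ × ℚ) := {P | OnC n m P.1 P.2 ∧ P.1 ≠ 0 ∧ P.1 ≠ -(m : ℚ) ^ 2}

theorem good_infinite {n m : ℕ} (hn : 1 ≤ n) (hm : 1 ≤ m) (h1 : n = 1 ∨ m = 1)
    (hne : (Good n m).Nonempty) : (Good n m).Infinite := by
  obtain ⟨⟨X, Y⟩, hE, hX0, hXm⟩ := hne
  have hE' : Y ^ 2 = X ^ 3 + ((cA n m : ℤ) : ℚ) * X ^ 2 + ((cB m : ℤ) : ℚ) * X := by
    unfold cA cB; push_cast; exact hE
  have hY : Y ≠ 0 := by
    rintro rfl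
    have h2 : X ^ 2 + ((n : ℚ) ^ 2 + 2 * (m : ℚ) ^ 2) * X + (m : ℚ) ^ 4 = 0 := by
      apply mul_left_cancel₀ hX0
      unfold OnC at hE
      simp only at hE
      linear_combination -hE
    have hn0 : (n : ℚ) ≠ 0 := by exact_mod_cast (by omega : n ≠ 0)
    apply nosqQ hn hm h1 ((2 * X + ((n : ℚ) ^ 2 + 2 * (m : ℚ) ^ 2)) / n)
    field_simp
    linear_combination 4 * h2
  have hns := nonsing hE' hY
  have hinf := infinite_order hn hm h1 hns hX0 hXm
  set P : PP n m := Affine.Point.some X Y hns with hP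
  have hinj := injective_nsmul_iff_not_isOfFinAddOrder.2 hinf
  have hBQ : ((cB m : ℤ) : ℚ) = (m : ℚ) ^ 4 := by unfold cB; push_cast; ring
  have hm0 : (m : ℚ) ≠ 0 := by exact_mod_cast (by omega : m ≠ 0)
  have hn0 : (n : ℚ) ≠ 0 := by exact_mod_cast (by omega : n ≠ 0)
  -- a point with `4 Q ≠ 0` is good
  have key : ∀ Q : PP n m, 4 • Q ≠ 0 → coords Q ∈ Good n m ∧ Q ≠ 0 := by
    intro Q hQ
    rcases Q with _ | ⟨x, y, h⟩
    · exact absurd (nsmul_zero (M := PP n m) 4) hQ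
    have hE2 := eqn h
    have hy : y ≠ 0 := by
      rintro rfl
      apply hQ
      rw [show 4 = 2 * 2 by norm_num, mul_nsmul, double_zero h, nsmul_zero]
    refine ⟨⟨?_, ?_, ?_⟩, Affine.Point.some_ne_zero h⟩
    · unfold OnC
      change y ^ 2 = x ^ 3 + _ * x ^ 2 + _ * x
      rw [hE2]; unfold cA cB; push_cast; ring
    · change x ≠ 0
      rintro rfl
      apply hy
      have : y ^ 2 = 0 := by rw [hE2]; ring
      exact pow_eq_zero_iff (by norm_num) |>.1 this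
    · change x ≠ -(m : ℚ) ^ 2
      rintro hx
      apply hQ
      obtain ⟨y', h', e⟩ := double h hy
      have hx' : ((x ^ 2 - ((cB m : ℤ) : ℚ)) / (2 * y)) ^ 2 = 0 := by
        rw [hBQ, hx]
        have : (-(m : ℚ) ^ 2) ^ 2 - (m : ℚ) ^ 4 = 0 := by ring
        rw [this, zero_div]; norm_num
      have hy' : y' = 0 := by
        have hE3 := eqn h'
        rw [hx'] at hE3
        have : y' ^ 2 = 0 := by rw [hE3]; ring
        exact pow_eq_zero_iff (by norm_num) |>.1 this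
      subst hy'
      rw [show 4 = 2 * 2 by norm_num, mul_nsmul, e]
      exact double_zero h'
  have h4 : ∀ k : ℕ, 4 • ((k + 1) • P) ≠ 0 := by
    intro k h
    rw [← mul_nsmul] at h
    have := @hinj ((k + 1) * 4) 0 (by simpa using h)
    omega
  refine Set.infinite_of_injective_forall_mem (f := fun k : ℕ => coords ((k + 1) • P)) ?_
    (fun k => (key _ (h4 k)).1)
  intro j k hjk
  have hj := (key _ (h4 j)).2
  have hk := (key _ (h4 k)).2
  change coords ((j + 1) • P) = coords ((k + 1) • P) at hjk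
  have : (j + 1) • P = (k + 1) • P := by
    revert hjk
    revert hj
    revert hk
    generalize (j + 1) • P = Q
    generalize (k + 1) • P = R
    intro hR hQ h
    rcases Q with _ | ⟨x, y, hq⟩
    · exact absurd rfl hQ
    rcases R with _ | ⟨x', y', hr⟩
    · exact absurd rfl hR
    have h2 : (x, y) = (x', y') := h
    rw [Prod.mk.injEq] at h2
    obtain ⟨rfl, rfl⟩ := h2
    rfl
  have := hinj this
  omega

/-- from a rational triangle of altitude one to a point -/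
theorem to_point {n m : ℕ} (hn : 1 ≤ n) (hm : 1 ≤ m) {x₁ x₂ α β : ℚ} (hα : α ^ 2 = x₁ ^ 2 + 1)
    (hβ : β ^ 2 = x₂ ^ 2 + 1) (hα0 : 0 < α) (hβ0 : 0 < β) (hs : x₁ + x₂ = n / m) :
    (Good n m).Nonempty := by
  have hm0 : (0 : ℚ) < m := by exact_mod_cast (by omega : 0 < m)
  have hn0 : (0 : ℚ) < n := by exact_mod_cast (by omega : 0 < n)
  set p := x₁ + α with hp
  set q := x₂ + β with hq
  have hp0 : 0 < p := by
    by_contra hc
    push Not at hc
    nlinarith
  have hq0 : 0 < q := by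
    by_contra hc
    push Not at hc
    nlinarith
  have hp1 : p * (α - x₁) = 1 := by rw [hp]; linear_combination hα
  have hq1 : q * (β - x₂) = 1 := by rw [hq]; linear_combination hβ
  have hrel : (m : ℚ) * (p + q) * (p * q - 1) = 2 * n * (p * q) := by
    have e1 : 2 * x₁ = p - (α - x₁) := by rw [hp]; ring
    have e2 : 2 * x₂ = q - (β - x₂) := by rw [hq]; ring
    have e3 : (m : ℚ) * (x₁ + x₂) = n := by rw [hs]; field_simp
    have e4 : (m : ℚ) * ((p - (α - x₁)) + (q - (β - x₂))) = 2 * n := by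
      rw [← e1, ← e2]; linear_combination 2 * e3
    linear_combination (p * q) * e4 + (m * q) * hp1 + (m * p) * hq1
  refine ⟨(-(m : ℚ) ^ 2 * (p * q), n * (-(m : ℚ) ^ 2 * (p * q)) -
    m * p * (-(m : ℚ) ^ 2 * (p * q) + (m : ℚ) ^ 2)), ?_, ?_, ?_⟩
  · unfold OnC
    simp only
    linear_combination (-(m : ℚ) ^ 4 * p * (1 - p * q) * n * (p * q) * 0 +
      (m : ℚ) ^ 5 * (p * q - 1) * p * (p * q - 1) * 0 + (m : ℚ) ^ 5 * p * (p * q - 1) * 1) * hrel
  · simp only
    have : 0 < (m : ℚ) ^ 2 * (p * q) := by positivity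
    intro h
    linarith
  · simp only
    intro h
    have h2 : p * q = 1 := by
      have hm2 : (m : ℚ) ^ 2 ≠ 0 := by positivity
      apply mul_left_cancel₀ hm2
      linear_combination -h
    rw [h2] at hrel
    norm_num at hrel
    omega

/-- from a point to a rational triangle of altitude one -/
theorem of_point {n m : ℕ} (hn : 1 ≤ n) (hm : 1 ≤ m) {X Y : ℚ} (h : (X, Y) ∈ Good n m) :
    ∃ x₁ x₂ α β : ℚ, α ^ 2 = x₁ ^ 2 + 1 ∧ β ^ 2 = x₂ ^ 2 + 1 ∧ 0 < α ∧ 0 < β ∧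
      x₁ + x₂ = n / m ∧ ∃ ε₁ ε₂ : ℚ, (ε₁ = 1 ∨ ε₁ = -1) ∧ (ε₂ = 1 ∨ ε₂ = -1) ∧
        X = -(m : ℚ) ^ 2 * ((x₁ + ε₁ * α) * (x₂ + ε₂ * β)) ∧
        Y = n * X - m * (x₁ + ε₁ * α) * (X + (m : ℚ) ^ 2) := by
  obtain ⟨hE, hX0, hXm⟩ := h
  unfold OnC at hE
  simp only at hE hX0 hXm
  have hm0 : (m : ℚ) ≠ 0 := by exact_mod_cast (by omega : m ≠ 0)
  have hn0 : (n : ℚ) ≠ 0 := by exact_mod_cast (by omega : n ≠ 0)
  have hD : X + (m : ℚ) ^ 2 ≠ 0 := fun h => hXm (by linarith)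
  set p := (n * X - Y) / (m * (X + (m : ℚ) ^ 2)) with hp
  set q := (n * X + Y) / (m * (X + (m : ℚ) ^ 2)) with hq
  have hpq : (m : ℚ) ^ 2 * (p * q) = -X := by
    rw [hp, hq]; field_simp; linear_combination -hE
  have hpq0 : p * q ≠ 0 := by
    intro h
    rw [h, mul_zero] at hpq
    exact hX0 (by linarith)
  have hp0 : p ≠ 0 := left_ne_zero_of_mul hpq0
  have hq0 : q ≠ 0 := right_ne_zero_of_mul hpq0
  have hsum : (m : ℚ) * (p + q) * (X + (m : ℚ) ^ 2) = 2 * n * X := by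
    rw [hp, hq]; field_simp; ring
  have hY : Y = n * X - m * p * (X + (m : ℚ) ^ 2) := by
    rw [hp]; field_simp; ring
  -- the general lemma for one parameter
  have half : ∀ r : ℚ, r ≠ 0 → ∃ x α ε : ℚ, α ^ 2 = x ^ 2 + 1 ∧ 0 < α ∧ (ε = 1 ∨ ε = -1) ∧
      r = x + ε * α ∧ x = (r - 1 / r) / 2 := by
    intro r hr
    rcases lt_or_gt_of_ne hr with h | h
    · refine ⟨(r - 1 / r) / 2, -(r + 1 / r) / 2, -1, ?_, ?_, Or.inr rfl, by ring, rfl⟩
      · field_simp; ring
      · have : 1 / r < 0 := one_div_neg.2 h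
        linarith
    · refine ⟨(r - 1 / r) / 2, (r + 1 / r) / 2, 1, ?_, ?_, Or.inl rfl, by ring, rfl⟩
      · field_simp; ring
      · have : 0 < 1 / r := one_div_pos.2 h
        linarith
  obtain ⟨x₁, α, ε₁, a1, a2, a3, a4, a5⟩ := half p hp0
  obtain ⟨x₂, β, ε₂, b1, b2, b3, b4, b5⟩ := half q hq0
  refine ⟨x₁, x₂, α, β, a1, b1, a2, b2, ?_, ε₁, ε₂, a3, b3, ?_, ?_⟩
  · rw [a5, b5]
    have h2 : (p + q) * (p * q - 1) * m = 2 * n * (p * q) := by
      have hX : X = -(m : ℚ) ^ 2 * (p * q) := by linarith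
      rw [hX] at hsum
      have hm3 : (m : ℚ) ^ 2 ≠ 0 := pow_ne_zero 2 hm0
      apply mul_left_cancel₀ hm3
      linear_combination -hsum
    have e : (p - 1 / p) / 2 + (q - 1 / q) / 2 = ((p + q) * (p * q - 1)) / (2 * (p * q)) := by
      field_simp; ring
    rw [e, div_eq_div_iff (by positivity) hm0]
    linear_combination h2
  · rw [← a4, ← b4]; linarith
  · rw [← a4]; exact hY

/-- a common multiple of three positive rationals -/
theorem clear {α β c : ℚ} (hα : 0 < α) (hβ : 0 < β) (hc : 0 < c) :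
    ∃ (a b s : ℕ) (l : ℚ), 0 < l ∧ Nat.gcd a (Nat.gcd b s) = 1 ∧ (a : ℚ) = l * α ∧
      (b : ℚ) = l * β ∧ (s : ℚ) = l * c := by
  -- natural numbers proportional to the given numbers
  have step : ∃ (a b s : ℕ) (l : ℚ), 0 < l ∧ 0 < a ∧ (a : ℚ) = l * α ∧
      (b : ℚ) = l * β ∧ (s : ℚ) = l * c := by
    have h : ∀ x : ℚ, 0 < x → ∃ k : ℕ, (k : ℚ) = x * x.den := by
      intro x hx
      refine ⟨x.num.toNat, ?_⟩
      have h1 : 0 ≤ x.num := (Rat.num_pos.2 hx).le
      have h2 : ((x.num.toNat : ℤ) : ℚ) = x.num := by rw [Int.toNat_of_nonneg h1]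
      have h3 : ((x.num.toNat : ℕ) : ℚ) = x.num := by exact_mod_cast h2
      rw [h3, Rat.mul_den_eq_num]
    obtain ⟨a, ha⟩ := h α hα
    obtain ⟨b, hb⟩ := h β hβ
    obtain ⟨s, hs⟩ := h c hc
    have da : (0 : ℚ) < α.den := by exact_mod_cast α.den_pos
    have db : (0 : ℚ) < β.den := by exact_mod_cast β.den_pos
    have dc : (0 : ℚ) < c.den := by exact_mod_cast c.den_pos
    refine ⟨a * β.den * c.den, b * α.den * c.den, s * α.den * β.den, α.den * β.den * c.den,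
      by positivity, ?_, ?_, ?_, ?_⟩
    · have ha0 : (0 : ℚ) < a := by rw [ha]; positivity
      have : 0 < a := by exact_mod_cast ha0
      exact Nat.mul_pos (Nat.mul_pos this β.den_pos) c.den_pos
    · push_cast; rw [ha]; ring
    · push_cast; rw [hb]; ring
    · push_cast; rw [hs]; ring
  obtain ⟨a, b, s, l, hl, ha0, ha, hb, hs⟩ := step
  set g := Nat.gcd a (Nat.gcd b s) with hg
  have hg0 : 0 < g := Nat.gcd_pos_of_pos_left _ ha0
  obtain ⟨a', ha'⟩ : g ∣ a := Nat.gcd_dvd_left _ _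
  obtain ⟨b', hb'⟩ : g ∣ b := (Nat.gcd_dvd_right a _).trans (Nat.gcd_dvd_left _ _)
  obtain ⟨s', hs'⟩ : g ∣ s := (Nat.gcd_dvd_right a _).trans (Nat.gcd_dvd_right _ _)
  have hgQ : (g : ℚ) ≠ 0 := by exact_mod_cast hg0.ne'
  refine ⟨a', b', s', l / g, ?_, ?_, ?_, ?_, ?_⟩
  · have : (0 : ℚ) < g := by exact_mod_cast hg0
    positivity
  · have h1 : g = g * Nat.gcd a' (Nat.gcd b' s') := by
      conv_lhs => rw [hg, ha', hb', hs', Nat.gcd_mul_left, Nat.gcd_mul_left]
    have h2 : g * 1 = g * Nat.gcd a' (Nat.gcd b' s') := by rw [mul_one]; exact h1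
    exact (Nat.eq_of_mul_eq_mul_left hg0 h2).symm
  · have : (a : ℚ) = g * a' := by exact_mod_cast ha'
    rw [this] at ha
    field_simp; linear_combination ha
  · have : (b : ℚ) = g * b' := by exact_mod_cast hb'
    rw [this] at hb
    field_simp; linear_combination hb
  · have : (s : ℚ) = g * s' := by exact_mod_cast hs'
    rw [this] at hs
    field_simp; linear_combination hs

end Pool.Agent.V11266.Tri
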